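import Pool.Agent.H268R3.LRS.Fun

set_option autoImplicit false

open Finset

namespace Pool.Agent.H268R3.LRS

section fr
variable (F : Type) [Field F] [Fintype F] {B : Type} [CommRing B] [Algebra F B]

/-- iterated Frobenius -/
noncomputable def frp (i : ℕ) : B →ₐ[F] B := (FiniteField.frobeniusAlgHom F B) ^ i

lemma frp_apply (i : ℕ) (x : B) : frp F i x = x ^ (Fintype.card F ^ i) := by
  unfold frp
  rw [AlgHom.coe_pow, FiniteField.coe_frobeniusAlgHom, pow_iterate]

/-- additive polynomial evaluated at `x` -/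
def av (α : ℕ → B) (m : ℕ) (x : B) : B := ∑ i ∈ range (m + 1), α i * x ^ (Fintype.card F ^ i)

lemma av_add (α : ℕ → B) (m : ℕ) (x y : B) : av F α m (x + y) = av F α m x + av F α m y := by
  unfold av
  rw [← sum_add_distrib]
  apply sum_congr rfl
  intro i _
  rw [← frp_apply F i, ← frp_apply F i, ← frp_apply F i, map_add, mul_add]

lemma av_smul (α : ℕ → B) (m : ℕ) (c : F) (x : B) : av F α m (c • x) = c • av F α m x := by
  unfold av
  rw [smul_sum]
  apply sum_congr rfl
  intro i _
  rw [← frp_apply F i, ← frp_apply F i, map_smul, mul_smul_comm]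

lemma av_zero (α : ℕ → B) (m : ℕ) : av F α m 0 = 0 := by
  have := av_smul F α m 0 0
  rwa [zero_smul, zero_smul] at this

lemma av_sum {ι : Type} (s : Finset ι) (α : ℕ → B) (m : ℕ) (x : ι → B) :
    av F α m (∑ i ∈ s, x i) = ∑ i ∈ s, av F α m (x i) := by
  classical
  induction s using Finset.induction_on with
  | empty => simp [av_zero]
  | insert a s ha ih => rw [sum_insert ha, sum_insert ha, av_add, ih]

lemma av_map {B' : Type} [CommRing B'] [Algebra F B'] (f : B →+* B') (α : ℕ → B) (m : ℕ) (x : B) :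
    f (av F α m x) = av F (fun i => f (α i)) m (f x) := by
  unfold av
  rw [map_sum]
  apply sum_congr rfl
  intro i _
  rw [map_mul, map_pow]

/-- the additive expression `x^q - u x` -/
def xe (u x : B) : B := x ^ Fintype.card F - u * x

lemma xe_map {B' : Type} [CommRing B'] [Algebra F B'] (f : B →+* B') (u x : B) :
    f (xe F u x) = xe F (f u) (f x) := by
  unfold xe
  rw [map_sub, map_mul, map_pow]

lemma xe_add (u x y : B) : xe F u (x + y) = xe F u x + xe F u y := by
  unfold xe
  have h := frp_apply F (B := B) 1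
  rw [pow_one] at h
  rw [← h, ← h, ← h, map_add]
  ring

lemma xe_smul (u : B) (c : F) (x : B) : xe F u (c • x) = c • xe F u x := by
  unfold xe
  have h := frp_apply F (B := B) 1
  rw [pow_one] at h
  rw [← h, ← h, map_smul, smul_sub, mul_smul_comm]

lemma xe_sum {ι : Type} (s : Finset ι) (u : B) (x : ι → B) :
    xe F u (∑ i ∈ s, x i) = ∑ i ∈ s, xe F u (x i) := by
  classical
  induction s using Finset.induction_on with
  | empty =>
    have := xe_smul F u 0 0
    rw [zero_smul, zero_smul] at this
    simpa using this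
  | insert a s ha ih => rw [sum_insert ha, sum_insert ha, xe_add, ih]

lemma pow_expand (z x : B) (j : ℕ) : x ^ (Fintype.card F ^ j)
    = ∑ i ∈ range j, z ^ (Fintype.card F ^ j - Fintype.card F ^ (i + 1))
        * (xe F (z ^ (Fintype.card F - 1)) x) ^ (Fintype.card F ^ i)
      + z ^ (Fintype.card F ^ j - 1) * x := by
  have hq : 1 < Fintype.card F := Fintype.one_lt_card
  induction j with
  | zero => simp
  | succ j ih =>
    have h := frp_apply F (B := B) 1
    rw [pow_one] at h
    rw [pow_succ (Fintype.card F) j, pow_mul, ih, ← h, map_add, map_sum, sum_range_succ']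
    have e1 : ∀ i ∈ range j, frp F 1 (z ^ (Fintype.card F ^ j - Fintype.card F ^ (i + 1))
        * (xe F (z ^ (Fintype.card F - 1)) x) ^ (Fintype.card F ^ i))
        = z ^ (Fintype.card F ^ (j + 1) - Fintype.card F ^ (i + 1 + 1))
        * (xe F (z ^ (Fintype.card F - 1)) x) ^ (Fintype.card F ^ (i + 1)) := by
      intro i _
      rw [h, mul_pow, ← pow_mul, ← pow_mul, Nat.sub_mul, ← pow_succ, ← pow_succ, ← pow_succ]
    rw [sum_congr rfl e1, add_assoc]
    congr 1
    rw [h, mul_pow, ← pow_mul]
    have e2 : x ^ Fintype.card F = xe F (z ^ (Fintype.card F - 1)) x + z ^ (Fintype.card F - 1) * x := by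
      unfold xe; ring
    rw [e2, mul_add, ← mul_assoc, ← pow_add, zero_add, pow_one, pow_zero, pow_one, Nat.sub_mul, one_mul]
    congr 3
    have h3 : 0 < Fintype.card F ^ j := pow_pos (by omega) _
    have : Fintype.card F ≤ Fintype.card F ^ j * Fintype.card F := Nat.le_mul_of_pos_left _ h3
    omega

/-- new coefficients -/
def nx (z : B) (α : ℕ → B) (m i : ℕ) : B :=
  ∑ j ∈ Ioc i (m + 1), α j * z ^ (Fintype.card F ^ j - Fintype.card F ^ (i + 1))

/-- the quotient `A(z)/z` -/
def qa (z : B) (α : ℕ → B) (m : ℕ) : B := ∑ i ∈ range (m + 1), α i * z ^ (Fintype.card F ^ i - 1)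

lemma qa_mul (z : B) (α : ℕ → B) (m : ℕ) : qa F z α m * z = av F α m z := by
  have hq : 1 < Fintype.card F := Fintype.one_lt_card
  unfold qa av
  rw [sum_mul]
  apply sum_congr rfl
  intro i _
  have h3 : 0 < Fintype.card F ^ i := pow_pos (by omega) _
  rw [mul_assoc, ← pow_succ, Nat.sub_add_cancel h3]

lemma nx_top (z : B) (α : ℕ → B) (m : ℕ) : nx F z α m m = α (m + 1) := by
  unfold nx
  have : Ioc m (m + 1) = {m + 1} := by
    ext x; rw [mem_Ioc, mem_singleton]; omega
  rw [this, sum_singleton, Nat.sub_self, pow_zero, mul_one]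

lemma av_eq (z x : B) (α : ℕ → B) (m : ℕ) : av F α (m + 1) x
    = av F (nx F z α m) m (xe F (z ^ (Fintype.card F - 1)) x) + qa F z α (m + 1) * x := by
  unfold av qa nx
  have e1 : ∀ j ∈ range (m + 1 + 1), α j * x ^ (Fintype.card F ^ j)
      = ∑ i ∈ range j, α j * (z ^ (Fintype.card F ^ j - Fintype.card F ^ (i + 1))
        * (xe F (z ^ (Fintype.card F - 1)) x) ^ (Fintype.card F ^ i))
      + α j * z ^ (Fintype.card F ^ j - 1) * x := by
    intro j _
    conv_lhs => rw [pow_expand F z x j, mul_add, mul_sum]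
    rw [mul_assoc]
  rw [sum_congr rfl e1, sum_add_distrib, ← sum_mul]
  congr 1
  have e2 : ∀ i ∈ range (m + 1), (∑ j ∈ Ioc i (m + 1), α j * z ^ (Fintype.card F ^ j - Fintype.card F ^ (i + 1)))
      * (xe F (z ^ (Fintype.card F - 1)) x) ^ (Fintype.card F ^ i)
      = ∑ j ∈ Ioc i (m + 1), α j * (z ^ (Fintype.card F ^ j - Fintype.card F ^ (i + 1))
        * (xe F (z ^ (Fintype.card F - 1)) x) ^ (Fintype.card F ^ i)) := by
    intro i _
    rw [sum_mul]
    apply sum_congr rfl
    intro j _
    rw [mul_assoc]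
  rw [sum_congr rfl e2]
  apply sum_comm'
  intro j i
  simp only [mem_range, mem_Ioc]
  omega

end fr

section T
open Polynomial
variable {F : Type} [Field F] [Fintype F] {B : Type} [CommRing B] [Algebra F B]

variable (F) in
/-- the additive polynomial -/
noncomputable def AP (α : ℕ → B) (m : ℕ) : Polynomial B := av F (fun i => C (α i)) m X

variable (F) in
lemma AP_UT (α : ℕ → B) (m : ℕ) (h : α m = 1) : UT (AP F α m) (Fintype.card F ^ m) := by
  have hq : 1 < Fintype.card F := Fintype.one_lt_card
  unfold AP av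
  constructor
  · rw [finsetSum_coeff, Finset.sum_eq_single_of_mem m (mem_range.2 (Nat.lt_succ_self _))]
    · rw [coeff_C_mul_X_pow, if_pos rfl, h]
    · intro i _ hi
      rw [coeff_C_mul_X_pow, if_neg]
      intro h'
      exact hi (Nat.pow_right_injective hq h').symm
  · apply natDegree_sum_le_of_forall_le
    intro i hi
    rw [mem_range] at hi
    refine le_trans (natDegree_C_mul_X_pow_le _ _) ?_
    exact Nat.pow_le_pow_right (by omega) (by omega)

/-- standard system -/
noncomputable def stdSys {N : ℕ} (A : Polynomial B) (hA : UT A N) : Sys B N where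
  A := A
  η := fun l => X ^ l
  hA := hA
  hη := fun l _ => UT_X_pow l

lemma lam_unique {N : ℕ} (s : Sys B N) (p : Polynomial B) (r : ℕ → B)
    (h : p - ∑ l ∈ range N, r l • s.η l ∈ Ideal.span {s.A}) (l : ℕ) (hl : l < N) :
    s.lam l p = r l := by
  obtain ⟨z, hz⟩ := Ideal.mem_span_singleton'.1 h
  have h1 : p = s.A * z + ∑ l ∈ range N, r l • s.η l := by rw [mul_comm, hz]; ring
  rw [h1, map_add, s.lam_A l hl, zero_add, map_sum, Finset.sum_eq_single_of_mem l (mem_range.2 hl)]
  · rw [map_smul, s.lam_η _ _ hl, if_pos rfl, smul_eq_mul, mul_one]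
  · intro b hb hbl
    rw [map_smul, s.lam_η _ _ (mem_range.1 hb), if_neg hbl, smul_zero]

variable (F) in
lemma AP_comp (α : ℕ → B) (m : ℕ) (c : F) :
    (Polynomial.aeval (c • X : Polynomial B)) (AP F α m) = c • AP F α m := by
  unfold AP
  have h := av_map F (Polynomial.aeval (c • X : Polynomial B)).toRingHom (fun i => C (α i)) m X
  have h2 : ∀ i, (Polynomial.aeval (c • X : Polynomial B)) (C (α i)) = C (α i) := by
    intro i; rw [Polynomial.aeval_C]; rfl
  simp only [AlgHom.toRingHom_eq_coe, RingHom.coe_coe, h2, Polynomial.aeval_X] at h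
  rw [h, av_smul]

variable (F) in
lemma exists_gen (l : ℕ) (hl : ¬ (Fintype.card F - 1) ∣ l) : ∃ c : F, c ≠ 0 ∧ c ^ l - 1 ≠ 0 := by
  classical
  obtain ⟨u, hu⟩ := IsCyclic.exists_generator (α := Fˣ)
  refine ⟨u, u.ne_zero, ?_⟩
  intro h
  apply hl
  have h4 : u ^ l = 1 := by
    apply Units.ext
    rw [Units.val_pow_eq_pow_val, sub_eq_zero.1 h, Units.val_one]
  rw [← orderOf_dvd_iff_pow_eq_one, orderOf_eq_card_of_forall_mem_zpowers hu,
    Nat.card_eq_fintype_card, Fintype.card_units] at h4
  exact h4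

theorem lemT (α : ℕ → B) (m : ℕ) (hα : α (m + 1) = 1) (p : ℕ → Polynomial B)
    (h1 : ∀ s, s < Fintype.card F → ∀ c : F, c ≠ 0 →
      AP F α (m + 1) ∣ (Polynomial.aeval (c • X : Polynomial B)) (p s) - p s)
    (h2 : AP F α (m + 1) ∣ ∑ s ∈ Ico 1 (Fintype.card F), p s * X ^ s) (s : ℕ) (hs1 : 1 ≤ s)
    (hs2 : s < Fintype.card F) : qa F (X : Polynomial B) (fun i => C (α i)) (m + 1) ∣ p s := by
  have hq : 1 < Fintype.card F := Fintype.one_lt_card
  set N := Fintype.card F ^ (m + 1) with hN
  have hN1 : Fintype.card F ≤ N := by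
    rw [hN, pow_succ]
    exact Nat.le_mul_of_pos_left _ (pow_pos (by omega) _)
  have hqN : (Fintype.card F - 1) ∣ N - 1 := by
    have := Nat.sub_dvd_pow_sub_pow (Fintype.card F) 1 (m + 1)
    rwa [one_pow] at this
  set S : Sys B N := stdSys (AP F α (m + 1)) (AP_UT F α (m + 1) hα) with hS
  set a := qa F (X : Polynomial B) (fun i => C (α i)) (m + 1) with ha
  have haA : a * X = AP F α (m + 1) := qa_mul F _ _ _
  have hlX : ∀ l j, j < N → S.lam l (X ^ j) = if j = l then 1 else 0 := fun l j hj => S.lam_η l j hj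
  -- lam vanishes off multiples of q-1
  have hvan : ∀ s, s < Fintype.card F → ∀ l, l < N → ¬ (Fintype.card F - 1) ∣ l → S.lam l (p s) = 0 := by
    intro s hs l hl hd
    obtain ⟨c, hc0, hc1⟩ := exists_gen F l hd
    have e1 : S.lam l ((Polynomial.aeval (c • X : Polynomial B)) (p s)) = c ^ l • S.lam l (p s) := by
      apply lam_unique S _ (fun l => c ^ l • S.lam l (p s)) _ l hl
      have h3 := S.sub_mem (p s)
      obtain ⟨z, hz⟩ := Ideal.mem_span_singleton'.1 h3
      have h4 := congrArg (Polynomial.aeval (c • X : Polynomial B)) hz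
      rw [map_sub, map_sum, map_mul] at h4
      have h5 : (Polynomial.aeval (c • X : Polynomial B)) S.A = c • S.A := AP_comp F α (m + 1) c
      have h6 : ∀ l ∈ range N, (Polynomial.aeval (c • X : Polynomial B)) (S.lam l (p s) • S.η l)
          = (c ^ l • S.lam l (p s)) • S.η l := by
        intro l _
        show (Polynomial.aeval (c • X : Polynomial B)) (S.lam l (p s) • X ^ l) = _ • X ^ l
        rw [map_smul, map_pow, aeval_X, _root_.smul_pow, smul_comm, smul_assoc]
      rw [h5, sum_congr rfl h6] at h4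
      rw [← h4, mul_smul_comm, ← smul_mul_assoc]
      exact Ideal.mul_mem_left _ _ (Ideal.mem_span_singleton_self _)
    obtain ⟨z, hz⟩ := h1 s hs c hc0
    have e2 := congrArg (S.lam l) hz
    rw [map_sub, e1] at e2
    have e3 : S.lam l (AP F α (m + 1) * z) = 0 := S.lam_A l hl z
    rw [e3] at e2
    have e4 : (c ^ l - 1) • S.lam l (p s) = 0 := by rw [sub_smul, one_smul]; exact e2
    have e5 := congrArg (fun x => (c ^ l - 1)⁻¹ • x) e4
    simpa [smul_smul, inv_mul_cancel₀ hc1] using e5
  have hlama : ∀ l, S.lam l a = ∑ i ∈ range (m + 1 + 1), α i * if Fintype.card F ^ i - 1 = l then 1 else 0 := by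
    intro l
    rw [ha, qa, map_sum]
    apply sum_congr rfl
    intro i hi
    rw [mem_range] at hi
    rw [← smul_eq_C_mul, map_smul, smul_eq_mul, hlX]
    have : Fintype.card F ^ i ≤ N := Nat.pow_le_pow_right (by omega) (by omega)
    have h0 : 0 < Fintype.card F ^ i := pow_pos (by omega) _
    omega
  have hlama1 : S.lam (N - 1) a = 1 := by
    rw [hlama, Finset.sum_eq_single_of_mem (m + 1) (mem_range.2 (Nat.lt_succ_self _)), if_pos rfl, hα, mul_one]
    intro i _ hi
    rw [if_neg, mul_zero]
    intro h'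
    have h0 : 0 < Fintype.card F ^ i := pow_pos (by omega) _
    have h00 : 0 < N := by omega
    have : Fintype.card F ^ i = Fintype.card F ^ (m + 1) := by omega
    exact hi (Nat.pow_right_injective hq this)
  have hlama2 : ∀ l, ¬ (Fintype.card F - 1) ∣ l → S.lam l a = 0 := by
    intro l hl
    rw [hlama]
    apply sum_eq_zero
    intro i _
    rw [if_neg, mul_zero]
    rintro rfl
    apply hl
    have := Nat.sub_dvd_pow_sub_pow (Fintype.card F) 1 i
    rwa [one_pow] at this
  -- corrected family
  set p' : ℕ → Polynomial B := fun s => p s - S.lam (N - 1) (p s) • a with hp'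
  have hp'1 : ∀ s, s < Fintype.card F → ∀ l, l < N → (l = N - 1 ∨ ¬ (Fintype.card F - 1) ∣ l) →
      S.lam l (p' s) = 0 := by
    intro s hs l hl h
    rw [hp']
    show S.lam l (p s - S.lam (N - 1) (p s) • a) = 0
    rw [map_sub, map_smul]
    rcases h with h | h
    · rw [h, hlama1, smul_eq_mul, mul_one, sub_self]
    · rw [hvan s hs l hl h, hlama2 l h, smul_zero, sub_zero]
  have hp'2 : ∀ s, 1 ≤ s → s < Fintype.card F → ∀ j, j < N →
      S.lam j (p' s * X ^ s) = if s ≤ j then S.lam (j - s) (p' s) else 0 := by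
    intro s hs1 hs j hj
    apply lam_unique S _ (fun j => if s ≤ j then S.lam (j - s) (p' s) else 0) _ j hj
    have h3 := S.sub_mem (p' s)
    have h4 := Ideal.mul_mem_right (X ^ s) _ h3
    have h4' : (p' s - ∑ l ∈ range N, S.lam l (p' s) • S.η l) * X ^ s
        = p' s * X ^ s - (∑ l ∈ range N, S.lam l (p' s) • S.η l) * X ^ s := sub_mul _ _ _
    rw [h4'] at h4
    convert h4 using 2
    rw [sum_mul]
    show ∑ l ∈ range N, (if s ≤ l then S.lam (l - s) (p' s) else 0) • (X ^ l : Polynomial B)
      = ∑ l ∈ range N, (S.lam l (p' s) • (X ^ l : Polynomial B)) * X ^ s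
    symm
    have h5 : ∀ l ∈ range N, N - s ≤ l → (S.lam l (p' s) • (X ^ l : Polynomial B)) * X ^ s = 0 := by
      intro l hl h
      rw [mem_range] at hl
      rw [hp'1 s hs l hl, zero_smul, zero_mul]
      by_cases hl1 : l = N - 1
      · exact Or.inl hl1
      · right
        intro hd
        obtain ⟨u, hu⟩ := (Nat.dvd_sub hqN hd)
        have : N - 1 - l < Fintype.card F - 1 := by omega
        have hu0 : u ≠ 0 := by rintro rfl; omega
        have : Fintype.card F - 1 ≤ (Fintype.card F - 1) * u := Nat.le_mul_of_pos_right _ (by omega)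
        omega
    rw [← sum_subset (range_subset_range.2 (Nat.sub_le N s))
      (fun l hl hl' => h5 l hl (by simpa using hl'))]
    rw [← sum_subset (s₁ := Ico s N) (s₂ := range N)]
    · rw [sum_Ico_eq_sum_range]
      apply sum_congr rfl
      intro l _
      rw [if_pos (by omega), Nat.add_sub_cancel_left, smul_mul_assoc, ← pow_add, add_comm l s]
    · intro x hx
      rw [mem_Ico] at hx
      exact mem_range.2 hx.2
    · intro x hx hx'
      rw [if_neg, zero_smul]
      intro h
      apply hx'
      rw [mem_Ico]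
      exact ⟨h, mem_range.1 hx⟩
  have hsum : ∀ j, j < N → ∑ s ∈ Ico 1 (Fintype.card F), S.lam j (p' s * X ^ s) = 0 := by
    intro j hj
    rw [← map_sum]
    obtain ⟨z, hz⟩ := h2
    have : ∑ s ∈ Ico 1 (Fintype.card F), p' s * X ^ s
        = AP F α (m + 1) * (z - ∑ s ∈ Ico 1 (Fintype.card F), S.lam (N - 1) (p s) • X ^ (s - 1)) := by
      rw [mul_sub, ← hz, mul_sum, ← sum_sub_distrib]
      apply sum_congr rfl
      intro s hs
      rw [mem_Ico] at hs
      show (p s - S.lam (N - 1) (p s) • a) * X ^ s = _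
      rw [sub_mul, smul_mul_assoc, mul_smul_comm, ← haA]
      congr 2
      rw [mul_assoc, ← pow_succ', Nat.sub_add_cancel hs.1]
    rw [this]
    exact S.lam_A j hj _
  have hzero : ∀ l, l < N → S.lam l (p' s) = 0 := by
    intro l hl
    by_cases hl1 : l = N - 1 ∨ ¬ (Fintype.card F - 1) ∣ l
    · exact hp'1 s hs2 l hl hl1
    · rw [not_or, not_not] at hl1
      obtain ⟨hl1, hl2⟩ := hl1
      have hls : l + s < N := by
        obtain ⟨u, hu⟩ := (Nat.dvd_sub hqN hl2)
        have hu0 : u ≠ 0 := by rintro rfl; omega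
        have : Fintype.card F - 1 ≤ (Fintype.card F - 1) * u := Nat.le_mul_of_pos_right _ (by omega)
        omega
      have h3 := hsum (l + s) hls
      rw [Finset.sum_eq_single_of_mem s (mem_Ico.2 ⟨hs1, hs2⟩)] at h3
      · rwa [hp'2 s hs1 hs2 _ hls, if_pos (by omega), Nat.add_sub_cancel] at h3
      · intro t ht hts
        rw [mem_Ico] at ht
        rw [hp'2 t ht.1 ht.2 _ hls]
        split_ifs with h4
        · apply hp'1 t ht.2 _ (by omega)
          right
          intro hd
          obtain ⟨u, hu⟩ := hl2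
          obtain ⟨v, hv⟩ := hd
          -- l + s - t = (q-1) v, l = (q-1) u
          rcases Nat.lt_trichotomy u v with h5 | h5 | h5
          · have : (Fintype.card F - 1) * (u + 1) ≤ (Fintype.card F - 1) * v := Nat.mul_le_mul_left _ h5
            rw [mul_add, mul_one] at this
            omega
          · subst h5; omega
          · have : (Fintype.card F - 1) * (v + 1) ≤ (Fintype.card F - 1) * u := Nat.mul_le_mul_left _ h5
            rw [mul_add, mul_one] at this
            omega
        · rfl
  have h7 : p' s ∈ Ideal.span {AP F α (m + 1)} := by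
    have h8 := S.sub_mem (p' s)
    rw [sum_eq_zero (fun l hl => by rw [hzero l (mem_range.1 hl), zero_smul]), sub_zero] at h8
    exact h8
  have h9 : a ∣ p' s := dvd_trans ⟨X, haA.symm⟩ (Ideal.mem_span_singleton.1 h7)
  have h10 : p s = p' s + S.lam (N - 1) (p s) • a := by
    show p s = p s - S.lam (N - 1) (p s) • a + S.lam (N - 1) (p s) • a
    ring
  rw [h10]
  apply dvd_add h9
  rw [smul_eq_C_mul]
  exact dvd_mul_left _ _

end T

end Pool.Agent.H268R3.LRS
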