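import Pool.Agent.H268R3.LRS.Claim

set_option autoImplicit false

open Finset MvPolynomial Pool.Agent.H268R3.Soc

namespace Pool.Agent.H268R3.LRS

section JJ
variable (F : Type) [Field F] (K : Type) [CommRing K]

/-- the ideal of the truncated polynomial ring (exponent `N`) -/
noncomputable def JN (N : ℕ) (k : ℕ) : Ideal (MvPolynomial (Fin k) K) :=
  Ideal.span (Set.range fun i : Fin k => (X i : MvPolynomial (Fin k) K) ^ N)

variable {K} {N k : ℕ}

lemma mem_JN (p : MvPolynomial (Fin k) K) :
    p ∈ JN K N k ↔ ∀ e, coeff e p ≠ 0 → ∃ i, N ≤ e i := by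
  have h1 : (Set.range fun i : Fin k => (X i : MvPolynomial (Fin k) K) ^ N)
      = (fun s => monomial s (1 : K)) '' (Set.range fun i : Fin k => Finsupp.single i N) := by
    rw [← Set.range_comp]
    congr 1
    ext1 i
    simp only [Function.comp_apply]
    rw [X_pow_eq_monomial]
  unfold JN
  rw [h1, mem_ideal_span_monomial_image]
  constructor
  · intro h e he
    obtain ⟨s, ⟨i, rfl⟩, hs⟩ := h e (mem_support_iff.2 he)
    refine ⟨i, ?_⟩
    have := hs i
    rwa [Finsupp.single_eq_same] at this
  · intro h e he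
    obtain ⟨i, hi⟩ := h e (mem_support_iff.1 he)
    exact ⟨_, ⟨i, rfl⟩, Finsupp.single_le_iff.2 hi⟩

lemma coeff_JN (p : MvPolynomial (Fin k) K) (hp : p ∈ JN K N k) (e : Fin k →₀ ℕ) (he : ∀ i, e i < N) :
    coeff e p = 0 := by
  by_contra h
  obtain ⟨i, hi⟩ := (mem_JN p).1 hp e h
  exact absurd (he i) (not_lt.2 hi)

lemma X_JN (i : Fin k) : (X i : MvPolynomial (Fin k) K) ^ N ∈ JN K N k :=
  Ideal.subset_span ⟨i, rfl⟩

lemma hc_JN (p : MvPolynomial (Fin k) K) (hp : p ∈ JN K N k) (d : ℕ) :
    homogeneousComponent d p ∈ JN K N k := by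
  rw [mem_JN]
  intro e he
  rw [coeff_homogeneousComponent] at he
  split_ifs at he with h
  · exact (mem_JN p).1 hp e he
  · exact absurd rfl he

end JJ

section inv
variable {F : Type} [Field F] {k : ℕ}

variable (F) in
/-- the submodule of invariants -/
def IV (k : ℕ) : Submodule F (MvPolynomial (Fin k) F) where
  carrier := {f | IsInv f}
  add_mem' := by
    rintro f g h1 h2 x hx
    rw [map_add, h1 x hx, h2 x hx]
  zero_mem' := fun x _ => map_zero _
  smul_mem' := by
    rintro c f h x hx
    rw [map_smul, h x hx]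

lemma mem_IV (f : MvPolynomial (Fin k) F) : f ∈ IV F k ↔ IsInv f := Iff.rfl

lemma SI_le (g : MvPolynomial (Fin k) F) (hg : g ∈ SI F F k) : IsInv g := by
  have h : SI F F k ≤ IV F k := by
    unfold SI
    rw [Submodule.span_le]
    rintro _ ⟨d, hd, rfl⟩
    have : algebraMap F F = RingHom.id F := rfl
    rw [this, MvPolynomial.map_id]
    exact hd
  exact h hg

variable [Fintype F]

/-- coefficients of the monomial additive polynomial -/
def am (m : ℕ) (i : ℕ) : F := if i = m then 1 else 0

lemma II_am (m : ℕ) : II (k := k) (AP F (am (F := F) m) m) 0 = JN F (Fintype.card F ^ m) k := by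
  unfold II JN
  rw [C_0, Ideal.span_singleton_zero, bot_sup_eq]
  congr 1
  congr 1
  ext1 i
  rw [pl_AP]
  unfold av am
  rw [Finset.sum_eq_single_of_mem m (mem_range.2 (Nat.lt_succ_self _))]
  · show C (if m = m then 1 else 0) * _ = _
    rw [if_pos rfl, C_1, one_mul]
  · intro j _ hj
    show C (if j = m then 1 else 0) * _ = _
    rw [if_neg hj, C_0, zero_mul]

lemma act_JN (m : ℕ) (g : Matrix (Fin k) (Fin k) F) (w : MvPolynomial (Fin k) F)
    (hw : w ∈ JN F (Fintype.card F ^ m) k) : act g w ∈ JN F (Fintype.card F ^ m) k := by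
  rw [← II_am] at hw ⊢
  rw [← actC_self]
  exact actC_mem g _ m 0 w hw

theorem claimF (m : ℕ) (p : MvPolynomial (Fin k) F)
    (hp : ∀ g : Matrix (Fin k) (Fin k) F, IsUnit g.det → act g p - p ∈ JN F (Fintype.card F ^ m) k) :
    ∃ g, IsInv g ∧ LL F k * (p - g) ∈ JN F (Fintype.card F ^ m) k := by
  obtain ⟨g, hg, hg'⟩ := claim k F (am m) m (if_pos rfl) p (by
    intro g hg
    rw [II_am, actC_self]
    exact hp g hg)
  refine ⟨g, SI_le g hg, ?_⟩
  have : algebraMap F F = RingHom.id F := rfl
  rw [this, MvPolynomial.map_id, II_am] at hg'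
  exact hg'

theorem claimH (m d : ℕ) (p : MvPolynomial (Fin k) F) (hd : p.IsHomogeneous d)
    (hp : ∀ g : Matrix (Fin k) (Fin k) F, IsUnit g.det → act g p - p ∈ JN F (Fintype.card F ^ m) k) :
    ∃ g, IsInv g ∧ g.IsHomogeneous d ∧ LL F k * (p - g) ∈ JN F (Fintype.card F ^ m) k := by
  obtain ⟨g, hg, hg'⟩ := claimF m p hp
  refine ⟨homogeneousComponent d g, fun x hx => by rw [act_hc, hg x hx],
    homogeneousComponent_isHomogeneous _ _, ?_⟩
  have h1 := hc_JN _ hg' (d + delta F k)
  rw [mul_comm, hc_mul _ _ _ _ (LL_homog (F := F) (n := k)), if_pos (Nat.le_add_left _ _),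
    Nat.add_sub_cancel, map_sub, homogeneousComponent_eq_self hd] at h1
  rwa [mul_comm]

end inv

section cc
variable (F : Type) [Field F] [Fintype F]

/-- Dickson coefficients -/
noncomputable def cc : (k : ℕ) → ℕ → MvPolynomial (Fin k) F
  | 0, i => if i = 0 then 1 else 0
  | (k + 1), i => (if i = 0 then 0 else Yh (cc k (i - 1)))
      - X 0 ^ ((Fintype.card F - 1) * Fintype.card F ^ i) * Yh (cc k i)

lemma cc_zero (i : ℕ) : cc F 0 i = if i = 0 then 1 else 0 := rfl

lemma cc_succ (k i : ℕ) : cc F (k + 1) i = (if i = 0 then 0 else Yh (cc F k (i - 1)))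
      - X 0 ^ ((Fintype.card F - 1) * Fintype.card F ^ i) * Yh (cc F k i) := rfl

lemma cc_gt (k : ℕ) : ∀ i, k < i → cc F k i = 0 := by
  induction k with
  | zero => intro i hi; rw [cc_zero, if_neg (by omega)]
  | succ k ih =>
    intro i hi
    rw [cc_succ, if_neg (by omega), ih i (by omega), ih (i - 1) (by omega), map_zero, mul_zero, sub_zero]

lemma cc_top (k : ℕ) : cc F k k = 1 := by
  induction k with
  | zero => rw [cc_zero, if_pos rfl]
  | succ k ih =>
    rw [cc_succ, if_neg (Nat.succ_ne_zero k), Nat.add_sub_cancel, ih, cc_gt F k (k + 1) (by omega),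
      map_one, map_zero, mul_zero, sub_zero]

lemma Yh_homog {k d : ℕ} (f : MvPolynomial (Fin k) F) (hf : f.IsHomogeneous d) :
    (Yh f).IsHomogeneous (Fintype.card F * d) :=
  IsHomogeneous.aeval hf _ (fun j => DD_homog _)

lemma cc_homog (k : ℕ) : ∀ i, i ≤ k → (cc F k i).IsHomogeneous (Fintype.card F ^ k - Fintype.card F ^ i) := by
  have hq : 1 < Fintype.card F := Fintype.one_lt_card
  induction k with
  | zero =>
    intro i hi
    have : i = 0 := by omega
    subst this
    rw [cc_zero, if_pos rfl, Nat.sub_self]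
    exact isHomogeneous_one _ _
  | succ k ih =>
    intro i hi
    rw [cc_succ]
    apply IsHomogeneous.sub
    · split_ifs with h
      · exact isHomogeneous_zero _ _ _
      · have h1 := Yh_homog F _ (ih (i - 1) (by omega))
        rw [Nat.mul_sub, ← pow_succ', ← pow_succ', Nat.sub_add_cancel (by omega)] at h1
        exact h1
    · by_cases h : i = k + 1
      · rw [h, cc_gt F k (k + 1) (by omega), map_zero, mul_zero]
        exact isHomogeneous_zero _ _ _
      · have h1 := Yh_homog F _ (ih i (by omega))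
        have h2 := (isHomogeneous_X_pow (R := F) (0 : Fin (k + 1))
          ((Fintype.card F - 1) * Fintype.card F ^ i)).mul h1
        have h6 : (Fintype.card F - 1) * Fintype.card F ^ i
            + Fintype.card F * (Fintype.card F ^ k - Fintype.card F ^ i)
            = Fintype.card F ^ (k + 1) - Fintype.card F ^ i := ?_
        · rwa [h6] at h2
        have h3 : Fintype.card F ^ i ≤ Fintype.card F ^ k := Nat.pow_le_pow_right (by omega) (by omega)
        have h4 : Fintype.card F * Fintype.card F ^ i ≤ Fintype.card F * Fintype.card F ^ k :=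
          Nat.mul_le_mul_left _ h3
        have h5 : Fintype.card F ^ i ≤ Fintype.card F * Fintype.card F ^ i :=
          Nat.le_mul_of_pos_left _ (by omega)
        rw [Nat.mul_sub, Nat.sub_mul, one_mul, pow_succ']
        omega

lemma av_cc (k : ℕ) (x : MvPolynomial (Fin (k + 1)) F) : av F (cc F (k + 1)) (k + 1) x
    = av F (fun i => Yh (cc F k i)) k (xe F (X 0 ^ (Fintype.card F - 1)) x) := by
  unfold av xe
  have e1 : ∀ i ∈ range (k + 1), Yh (cc F k i) * (x ^ Fintype.card F
      - X 0 ^ (Fintype.card F - 1) * x) ^ (Fintype.card F ^ i)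
      = Yh (cc F k i) * x ^ (Fintype.card F ^ (i + 1))
        - X 0 ^ ((Fintype.card F - 1) * Fintype.card F ^ i) * Yh (cc F k i) * x ^ (Fintype.card F ^ i) := by
    intro i _
    rw [← frp_apply F i (_ - _), map_sub, frp_apply, frp_apply, mul_pow, ← pow_mul, ← pow_mul,
      ← pow_succ']
    ring
  rw [sum_congr rfl e1, sum_sub_distrib]
  simp only [cc_succ, sub_mul]
  rw [sum_sub_distrib, sum_range_succ' _ (k + 1)]
  congr 1
  · simp
  · rw [sum_range_succ _ (k + 1), cc_gt F k (k + 1) (by omega), map_zero, mul_zero, zero_mul, add_zero]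

lemma cc_kill (k : ℕ) : ∀ j : Fin k, av F (cc F k) k (X j) = 0 := by
  induction k with
  | zero => intro j; exact j.elim0
  | succ k ih =>
    intro j
    have hq : 1 < Fintype.card F := Fintype.one_lt_card
    rw [av_cc]
    refine Fin.cases ?_ (fun j => ?_) j
    · have : xe F (X 0 ^ (Fintype.card F - 1)) (X 0 : MvPolynomial (Fin (k + 1)) F) = 0 := by
        unfold xe
        rw [← pow_succ, Nat.sub_add_cancel (by omega), sub_self]
      rw [this, av_zero]
    · have h1 : xe F (X 0 ^ (Fintype.card F - 1)) (X j.succ : MvPolynomial (Fin (k + 1)) F) = Yh (X j) := by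
        rw [Yh_X]
        unfold DD xe
        rw [lf_single]
      have h2 := av_map F (Yh (F := F) (n := k)).toRingHom (cc F k) k (X j)
      simp only [AlgHom.toRingHom_eq_coe, RingHom.coe_coe] at h2
      rw [h1, ← h2, ih j, map_zero]

lemma cc_inv (k : ℕ) (i : ℕ) (hi : i ≤ k) : IsInv (cc F k i) := by
  intro g hg
  rcases Nat.eq_or_lt_of_le hi with h | h
  · rw [h, cc_top, map_one]
  · set y : Fin k → MvPolynomial (Fin k) F := fun j => av F (fun i => act g (cc F k i)) k (X j) with hy
    have h1 : Matrix.vecMul y (g.map C) = 0 := by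
      ext1 l
      have h2 := av_map F (act g).toRingHom (cc F k) k (X l)
      simp only [AlgHom.toRingHom_eq_coe, RingHom.coe_coe] at h2
      rw [cc_kill, map_zero, act_X, lf] at h2
      rw [Pi.zero_apply, h2]
      have h3 : ∀ i, C (g i l) * X i = g i l • (X i : MvPolynomial (Fin k) F) := by
        intro i; rw [smul_eq_C_mul]
      simp only [h3]
      rw [av_sum]
      unfold Matrix.vecMul dotProduct
      apply sum_congr rfl
      intro j _
      rw [av_smul, smul_eq_C_mul, mul_comm]
      rfl
    have h2 : y = 0 := by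
      have h3 : IsUnit (g.map (C : F → MvPolynomial (Fin k) F)).det := by
        have : (g.map (C : F → MvPolynomial (Fin k) F)).det = C g.det := (RingHom.map_det C g).symm
        rw [this]
        exact hg.map C
      exact Matrix.eq_zero_of_vecMul_eq_zero h3.ne_zero h1
    have h3 : Matrix.vecMul (fun i : Fin k => act g (cc F k i) - cc F k i) (moore F k) = 0 := by
      ext1 j
      have h4 := congrFun h2 j
      have h5 := cc_kill F k j
      rw [hy, Pi.zero_apply] at h4
      unfold av at h4 h5
      beta_reduce at h4 h5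
      rw [sum_range_succ] at h4 h5
      rw [cc_top, map_one] at h4
      rw [cc_top] at h5
      unfold Matrix.vecMul dotProduct
      rw [Pi.zero_apply]
      have e0 : ∀ x : Fin k, (act g (cc F k x) - cc F k x) * moore F k x j
          = act g (cc F k x) * X j ^ (Fintype.card F ^ x.val) - cc F k x * X j ^ (Fintype.card F ^ x.val) := by
        intro x
        rw [sub_mul]
        rfl
      rw [sum_congr rfl (fun x _ => e0 x), sum_sub_distrib]
      rw [Fin.sum_univ_eq_sum_range (fun i => act g (cc F k i) * X j ^ (Fintype.card F ^ i)),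
        Fin.sum_univ_eq_sum_range (fun i => cc F k i * X j ^ (Fintype.card F ^ i)),
        eq_neg_of_add_eq_zero_left h4, eq_neg_of_add_eq_zero_left h5, sub_self]
    have h4 := congrFun (Matrix.eq_zero_of_vecMul_eq_zero LL_ne_zero h3) ⟨i, h⟩
    rw [Pi.zero_apply] at h4
    exact sub_eq_zero.1 h4

lemma cc_bot (k : ℕ) : cc F k 0 = (-1) ^ k * (LL F k) ^ (Fintype.card F - 1) := by
  induction k with
  | zero =>
    rw [cc_zero, if_pos rfl]
    unfold LL
    rw [Matrix.det_fin_zero]
    simp
  | succ k ih =>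
    rw [cc_succ, if_pos rfl, ih, LL_succ, map_mul, map_pow, map_pow, map_neg, map_one, mul_pow, pow_zero,
      mul_one]
    ring

lemma rho_cc (k i : ℕ) : rho (cc F (k + 1) (i + 1)) = expand (Fintype.card F) (cc F k i) := by
  have hq : 1 < Fintype.card F := Fintype.one_lt_card
  have h0 : 0 < Fintype.card F ^ (i + 1) := pow_pos (by omega) _
  rw [cc_succ, if_neg (Nat.succ_ne_zero i), map_sub, map_mul, map_pow, rho_X0,
    zero_pow (Nat.mul_pos (by omega) h0).ne', zero_mul, sub_zero, Nat.add_sub_cancel, rho_Yh]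

end cc

end Pool.Agent.H268R3.LRS
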