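import Pool.Agent.H268R3.LRS.Nat

set_option autoImplicit false

open Finset MvPolynomial Pool.Agent.H268R3.Soc

namespace Pool.Agent.H268R3.LRS

variable (F : Type) [Field F] [Fintype F]

/-- span of the invariants over a base -/
noncomputable def SI (B : Type) [CommRing B] [Algebra F B] (k : ℕ) : Submodule B (MvPolynomial (Fin k) B) :=
  Submodule.span B (MvPolynomial.map (algebraMap F B) '' {d | IsInv d})

/-- span of the stabiliser invariants over a base -/
noncomputable def SS (B : Type) [CommRing B] [Algebra F B] (k : ℕ) :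
    Submodule B (MvPolynomial (Fin (k + 1)) B) :=
  Submodule.span B (MvPolynomial.map (algebraMap F B) '' {d | StabInv d})

variable {F} {B : Type} [CommRing B] [Algebra F B] {k : ℕ}

lemma card_smul (w : MvPolynomial (Fin k) B) (j : ℕ) (hj : j ≠ 0) : (Fintype.card F ^ j : ℕ) • w = 0 := by
  rw [← Nat.cast_smul_eq_nsmul F, Nat.cast_pow, FiniteField.cast_card_eq_zero F, zero_pow hj, zero_smul]

theorem transfer_step (I : Ideal (MvPolynomial (Fin (k + 1)) B))
    (hI : ∀ (g : Matrix (Fin (k + 1)) (Fin (k + 1)) F) (w : MvPolynomial (Fin (k + 1)) B), w ∈ I → actC g w ∈ I)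
    (p P0 : MvPolynomial (Fin (k + 1)) B) (hp : ∀ g : Matrix (Fin (k + 1)) (Fin (k + 1)) F,
      IsUnit g.det → actC g p - p ∈ I) (hP0 : P0 ∈ SS F B k)
    (h : MvPolynomial.map (algebraMap F B) (LL F (k + 1)) * (p - P0) ∈ I) :
    ∃ g ∈ SI F B (k + 1), MvPolynomial.map (algebraMap F B) (LL F (k + 1)) * (p - g) ∈ I := by
  classical
  set L := MvPolynomial.map (algebraMap F B) (LL F (k + 1)) with hL
  set T : MvPolynomial (Fin (k + 1)) B →ₗ[B] MvPolynomial (Fin (k + 1)) B :=
    - ∑ v : Fin (k + 1) → F, if v = 0 then 0 else (actC (B := B) (gv F k v)).toLinearMap with hT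
  have hTa : ∀ w, T w = - ∑ v : Fin (k + 1) → F, if v = 0 then 0 else actC (B := B) (gv F k v) w := by
    intro w
    rw [hT, LinearMap.neg_apply, LinearMap.sum_apply]
    congr 1
    apply sum_congr rfl
    intro v _
    split_ifs <;> rfl
  refine ⟨T P0, ?_, ?_⟩
  · have h1 : SS F B k ≤ (SI F B (k + 1)).comap T := by
      unfold SS
      rw [Submodule.span_le]
      rintro _ ⟨f, hf, rfl⟩
      show T _ ∈ SI F B (k + 1)
      have h2 : T (MvPolynomial.map (algebraMap F B) f) = MvPolynomial.map (algebraMap F B) (Tr f) := by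
        rw [hTa]
        unfold Tr
        rw [map_neg, map_sum]
        congr 1
        apply sum_congr rfl
        intro v _
        split_ifs with hv
        · rw [map_zero]
        · rw [actC_base]
      rw [h2]
      exact Submodule.subset_span ⟨_, Tr_inv f hf, rfl⟩
    exact h1 hP0
  · have h1 : ∀ v : Fin (k + 1) → F, v ≠ 0 → L * (p - actC (B := B) (gv F k v) P0) ∈ I := by
      intro v hv
      have hdet := gv_det v hv
      have h2 := hI (gv F k v) _ h
      rw [map_mul, hL, actC_base, act_LL, map_mul, MvPolynomial.map_C, mul_assoc, ← hL] at h2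
      have h3 := Ideal.mul_mem_left I (C (algebraMap F B (gv F k v).det⁻¹)) h2
      rw [← mul_assoc, ← C_mul, ← map_mul, inv_mul_cancel₀ hdet.ne_zero, map_one, C_1, one_mul] at h3
      have h4 := Ideal.mul_mem_left I L (hp (gv F k v) hdet)
      have := Ideal.sub_mem _ h3 h4
      convert this using 1
      rw [map_sub]
      ring
    have h2 : ∑ v : Fin (k + 1) → F, (if v = 0 then 0 else L * (p - actC (B := B) (gv F k v) P0)) ∈ I := by
      apply Ideal.sum_mem
      intro v _
      split_ifs with hv
      · exact Ideal.zero_mem _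
      · exact h1 v hv
    have h3 : ∑ v : Fin (k + 1) → F, (if v = 0 then 0 else L * (p - actC (B := B) (gv F k v) P0))
        = -(L * (p - T P0)) := by
      rw [hTa]
      have e1 : ∀ v : Fin (k + 1) → F, (if v = 0 then 0 else L * (p - actC (B := B) (gv F k v) P0))
          = L * p - (if v = 0 then L * p else 0) - L * (if v = 0 then 0 else actC (B := B) (gv F k v) P0) := by
        intro v
        split_ifs
        · rw [mul_zero, sub_self, sub_zero]
        · rw [sub_zero, mul_sub]
      rw [sum_congr rfl (fun v _ => e1 v), sum_sub_distrib, sum_sub_distrib, sum_const, card_univ,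
        Fintype.card_fun, Fintype.card_fin, card_smul _ _ (Nat.succ_ne_zero k), sum_ite_eq',
        if_pos (mem_univ _), ← mul_sum]
      ring
    rw [h3] at h2
    exact (Ideal.neg_mem_iff _).1 h2

lemma X0_mul_SS (w : MvPolynomial (Fin (k + 1)) B) (hw : w ∈ SS F B k) : X 0 * w ∈ SS F B k := by
  unfold SS at hw ⊢
  induction hw using Submodule.span_induction with
  | mem x hx =>
    obtain ⟨f, hf, rfl⟩ := hx
    apply Submodule.subset_span
    refine ⟨X 0 * f, ?_, ?_⟩
    · intro g hg hg0
      rw [map_mul, hf g hg hg0]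
      congr 1
      rw [← lf_single, act_lf, hg0]
    · rw [map_mul, MvPolynomial.map_X]
  | zero => rw [mul_zero]; exact Submodule.zero_mem _
  | add x y _ _ hx hy => rw [mul_add]; exact Submodule.add_mem _ hx hy
  | smul a x _ hx => rw [mul_smul_comm]; exact Submodule.smul_mem _ _ hx

lemma aeval_mul_SS (r : Polynomial B) (w : MvPolynomial (Fin (k + 1)) B) (hw : w ∈ SS F B k) :
    Polynomial.aeval (X 0 : MvPolynomial (Fin (k + 1)) B) r * w ∈ SS F B k := by
  induction r using Polynomial.induction_on' with
  | add p q hp hq => rw [map_add, add_mul]; exact Submodule.add_mem _ hp hq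
  | monomial n a =>
    rw [Polynomial.aeval_monomial, mul_assoc, algebraMap_eq, ← smul_eq_C_mul]
    apply Submodule.smul_mem
    induction n with
    | zero => rwa [pow_zero, one_mul]
    | succ n ih => rw [pow_succ', mul_assoc]; exact X0_mul_SS _ ih

variable [Fintype F]

lemma psi_Xi_mem (g : MvPolynomial (Fin k) (Polynomial B)) (hg : g ∈ SI F (Polynomial B) k) :
    psi (Xi F (Polynomial.X : Polynomial B) g) ∈ SS F B k := by
  unfold SI at hg
  induction hg using Submodule.span_induction with
  | mem x hx =>
    obtain ⟨f, hf, rfl⟩ := hx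
    rw [psi_Xi]
    apply Submodule.subset_span
    refine ⟨_, ?_, rfl⟩
    intro g hg hg0
    exact act_Yh_inv g hg 1 one_ne_zero (by rw [one_smul]; exact hg0) f hf
  | zero => rw [map_zero, map_zero]; exact Submodule.zero_mem _
  | add x y _ _ hx hy => rw [map_add, map_add]; exact Submodule.add_mem _ hx hy
  | smul a x _ hx =>
    rw [map_smul, smul_eq_C_mul, map_mul, psi_C]
    exact aeval_mul_SS a _ hx

omit [Fintype F] in
lemma lift_SI {R R' : Type} [CommRing R] [Algebra F R] [CommRing R'] [Algebra F R'] (f : R →ₐ[F] R')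
    (hf : Function.Surjective f) (g : MvPolynomial (Fin k) R') (hg : g ∈ SI F R' k) :
    ∃ g' ∈ SI F R k, MvPolynomial.map f.toRingHom g' = g := by
  unfold SI at hg
  induction hg using Submodule.span_induction with
  | mem x hx =>
    obtain ⟨d, hd, rfl⟩ := hx
    refine ⟨MvPolynomial.map (algebraMap F R) d, Submodule.subset_span ⟨d, hd, rfl⟩, ?_⟩
    have h : f.toRingHom.comp (algebraMap F R) = algebraMap F R' := RingHom.ext (fun c => f.commutes c)
    rw [MvPolynomial.map_map, h]
  | zero => exact ⟨0, Submodule.zero_mem _, map_zero _⟩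
  | add x y _ _ hx hy =>
    obtain ⟨x', hx', rfl⟩ := hx
    obtain ⟨y', hy', rfl⟩ := hy
    exact ⟨x' + y', Submodule.add_mem _ hx' hy', map_add _ _ _⟩
  | smul a x _ hx =>
    obtain ⟨x', hx', rfl⟩ := hx
    obtain ⟨a', rfl⟩ := hf a
    refine ⟨a' • x', Submodule.smul_mem _ _ hx', ?_⟩
    rw [smul_eq_C_mul, map_mul, MvPolynomial.map_C, smul_eq_C_mul]
    rfl

lemma lift_II {R : Type} [CommRing R] (a : R) (A : Polynomial R) (w : MvPolynomial (Fin k) R)
    (hw : MvPolynomial.map (Ideal.Quotient.mk (Ideal.span {a})) w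
      ∈ II (A.map (Ideal.Quotient.mk (Ideal.span {a}))) 0) : w ∈ II A a := by
  set π := Ideal.Quotient.mk (Ideal.span {a}) with hπ
  have hsurj : Function.Surjective (MvPolynomial.map (σ := Fin k) π) :=
    MvPolynomial.map_surjective π Ideal.Quotient.mk_surjective
  have h1 : II (k := k) (A.map π) 0 ≤ (II A a).map (MvPolynomial.map π) := by
    unfold II
    apply sup_le
    · rw [Ideal.span_singleton_le_iff_mem, C_0]
      exact Ideal.zero_mem _
    · rw [Ideal.span_le]
      rintro _ ⟨i, rfl⟩
      show pl i (A.map π) ∈ _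
      rw [← map_pl]
      exact Ideal.mem_map_of_mem _ (pl_mem _ _ _)
  obtain ⟨w', hw', hww⟩ := (Ideal.mem_map_iff_of_surjective _ hsurj).1 (h1 hw)
  have h2 : w - w' ∈ II A a := by
    have h3 : w - w' ∈ (Ideal.span {a}).map (C : R →+* MvPolynomial (Fin k) R) := by
      rw [MvPolynomial.mem_map_C_iff]
      intro m
      have h4 : MvPolynomial.map π (w - w') = 0 := by rw [map_sub, hww, sub_self]
      have h5 := congrArg (coeff m) h4
      rw [coeff_map, coeff_zero] at h5
      exact Ideal.Quotient.eq_zero_iff_mem.1 h5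
    rw [Ideal.map_span, Set.image_singleton] at h3
    exact Ideal.mem_sup_left h3
  have := Ideal.add_mem _ h2 hw'
  rwa [sub_add_cancel] at this

lemma AP_map {R R' : Type} [CommRing R] [Algebra F R] [CommRing R'] [Algebra F R'] (π : R →+* R')
    (α : ℕ → R) (m : ℕ) : (AP F α m).map π = AP F (fun i => π (α i)) m := by
  unfold AP
  have h := av_map F (Polynomial.mapRingHom π) (fun i => Polynomial.C (α i)) m Polynomial.X
  simp only [Polynomial.coe_mapRingHom, Polynomial.map_C, Polynomial.map_X] at h
  exact h

lemma down {R R' : Type} [CommRing R] [Algebra F R] [CommRing R'] [Algebra F R'] (π : R →+* R')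
    (α : ℕ → R) (m : ℕ) (a : R) (ha : π a = 0) (w : MvPolynomial (Fin k) R) (hw : w ∈ II (AP F α m) a) :
    MvPolynomial.map π w ∈ II (AP F (fun i => π (α i)) m) 0 := by
  apply II_hom (MvPolynomial.map π) _ _ _ _ _ w hw
  · rw [MvPolynomial.map_C, ha, C_0]
    exact Ideal.zero_mem _
  · intro i
    rw [map_pl, AP_map]
    exact pl_mem _ _ _

theorem claim (k : ℕ) : ∀ (B : Type) [CommRing B] [Algebra F B] (α : ℕ → B) (m : ℕ) (_ : α m = 1)
    (p : MvPolynomial (Fin k) B)
    (_ : ∀ g : Matrix (Fin k) (Fin k) F, IsUnit g.det → actC g p - p ∈ II (AP F α m) 0),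
    ∃ g ∈ SI F B k, MvPolynomial.map (algebraMap F B) (LL F k) * (p - g) ∈ II (AP F α m) 0 := by
  induction k with
  | zero =>
    intro B _ _ α m hα p hp
    refine ⟨p, ?_, by rw [sub_self, mul_zero]; exact Ideal.zero_mem _⟩
    have h1 : p = (coeff 0 p) • MvPolynomial.map (algebraMap F B) 1 := by
      rw [map_one, smul_eq_C_mul, mul_one]
      exact eq_C_of_isEmpty p
    rw [h1]
    apply Submodule.smul_mem
    exact Submodule.subset_span ⟨1, fun g _ => map_one _, rfl⟩
  | succ k ih =>
    intro B _ _ α m hα p hp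
    cases m with
    | zero =>
      refine ⟨0, Submodule.zero_mem _, ?_⟩
      rw [LL_succ, map_mul, MvPolynomial.map_X, mul_assoc]
      apply Ideal.mul_mem_right
      have h1 := pl_mem (AP F α 0) 0 (0 : Fin (k + 1))
      rw [pl_AP] at h1
      unfold av at h1
      rw [zero_add, sum_range_one] at h1
      simp only [hα, C_1, one_mul, pow_zero, pow_one] at h1
      exact h1
    | succ m =>
      set αR : ℕ → Polynomial B := fun i => Polynomial.C (α i) with hαR
      have hαR1 : αR (m + 1) = 1 := by rw [hαR]; show Polynomial.C (α (m + 1)) = 1; rw [hα, Polynomial.C_1]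
      set p' := phi p with hp'
      set AX : Polynomial B := AP F α (m + 1) with hAX
      set a : Polynomial B := qa F (Polynomial.X : Polynomial B) αR (m + 1) with ha
      have haA : a * Polynomial.X = AX := qa_mul F _ _ _
      have hmono : II (k := k) (AP F αR (m + 1)) AX ≤ II (AP F αR (m + 1)) a :=
        II_mono _ _ _ ⟨Polynomial.X, haA.symm⟩
      have hsc : ∀ c : F, c ≠ 0 → MvPolynomial.map (sc c) p' - p' ∈ II (AP F αR (m + 1)) AX := by
        intro c hc
        have h1 := phi_mem (F := F) α (m + 1) _ (hp (Matrix.diagonal (Fin.cases c (fun _ => 1))) (by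
          rw [Matrix.det_diagonal, Fin.prod_univ_succ]
          simp [hc]))
        rwa [map_sub, phi_diag] at h1
      have htr : ∀ i : Fin k, TT Polynomial.X i p' - p' ∈ II (AP F αR (m + 1)) AX := by
        intro i
        have h1 := phi_mem (F := F) α (m + 1) _ (hp (Matrix.transvection 0 i.succ (1 : F)) (by
          rw [Matrix.det_transvection_of_ne _ _ (Fin.succ_ne_zero i).symm]
          exact isUnit_one))
        rwa [map_sub, phi_tr] at h1
      have hγ : ∀ g : Matrix (Fin k) (Fin k) F, IsUnit g.det → actC g p' - p' ∈ II (AP F αR (m + 1)) AX := by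
        intro g hg
        have h1 := phi_mem (F := F) α (m + 1) _ (hp (blk g) (by rw [blk_det]; exact hg))
        rwa [map_sub, phi_blk] at h1
      set ph := phat F (Polynomial.X : Polynomial B) αR m hαR1 p' with hph
      have hph1 : p' - Xi F (Polynomial.X : Polynomial B) ph ∈ II (AP F αR (m + 1)) a :=
        phat_spec F _ αR m hαR1 p' a (div_all α m hα hαR1 p' hsc htr)
      have hγ2 : ∀ g : Matrix (Fin k) (Fin k) F, IsUnit g.det →
          actC g ph - ph ∈ II (AP F (nx F Polynomial.X αR m) m) a := by
        intro g hg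
        apply U2 F _ αR m hαR1
        rw [map_sub, Xi_actC]
        have h1 := actC_mem (F := F) g αR (m + 1) a _ hph1
        have h2 := hmono (hγ g hg)
        rw [map_sub] at h1
        have := Ideal.add_mem _ (Ideal.sub_mem _ h2 h1) hph1
        convert this using 1
        ring
      set π := Ideal.Quotient.mk (Ideal.span {a}) with hπ
      have hAmap := AP_map (F := F) (R' := Polynomial B ⧸ Ideal.span {a}) π (nx F Polynomial.X αR m) m
      have hdown := fun w hw => down (F := F) (k := k) (R' := Polynomial B ⧸ Ideal.span {a}) π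
        (nx F Polynomial.X αR m) m a
        (Ideal.Quotient.eq_zero_iff_mem.2 (Ideal.mem_span_singleton_self a)) w hw
      obtain ⟨g1, hg1, hg1'⟩ := ih (Polynomial B ⧸ Ideal.span {a})
        (fun i => π (nx F Polynomial.X αR m i)) m
        (by show π _ = 1; rw [nx_top, hαR1, map_one]) (MvPolynomial.map π ph) (by
          intro g hg
          rw [actC_map π (fun c => rfl), ← map_sub]
          exact hdown _ (hγ2 g hg))
      obtain ⟨g2, hg2, hg2'⟩ := lift_SI (Ideal.Quotient.mkₐ F (Ideal.span {a}))
        Ideal.Quotient.mk_surjective g1 hg1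
      have hz : MvPolynomial.map (algebraMap F (Polynomial B)) (LL F k) * (ph - g2)
          ∈ II (AP F (nx F Polynomial.X αR m) m) a := by
        apply lift_II
        rw [← hπ, map_mul, map_sub, MvPolynomial.map_map, hAmap]
        have e1 : MvPolynomial.map π g2 = g1 := hg2'
        rw [e1]
        exact hg1'
      have hz1 := Xi_mem F _ αR m _ hz
      rw [map_mul, map_sub] at hz1
      have hz2 : Xi F (Polynomial.X : Polynomial B) (MvPolynomial.map (algebraMap F (Polynomial B)) (LL F k))
          * (p' - Xi F (Polynomial.X : Polynomial B) g2) ∈ II (AP F αR (m + 1)) a := by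
        have := Ideal.add_mem _ hz1 (Ideal.mul_mem_left _ (Xi F (Polynomial.X : Polynomial B)
          (MvPolynomial.map (algebraMap F (Polynomial B)) (LL F k))) hph1)
        convert this using 1
        ring
      have hz3 := psi_mem (F := F) α (m + 1) _ hz2
      rw [map_mul, map_sub, hp', psi_phi, psi_Xi] at hz3
      have hz4 : MvPolynomial.map (algebraMap F B) (LL F (k + 1))
          * (p - psi (Xi F (Polynomial.X : Polynomial B) g2)) ∈ II (AP F α (m + 1)) 0 := by
        rw [LL_succ, map_mul, MvPolynomial.map_X, mul_assoc]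
        exact hz3
      exact transfer_step _ (fun g w hw => actC_mem g α (m + 1) 0 w hw) p _ hp (psi_Xi_mem g2 hg2) hz4

end Pool.Agent.H268R3.LRS
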