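import Pool.Agent.H268R3.LRS.Base

set_option autoImplicit false

open Finset MvPolynomial Pool.Agent.H268R3.Soc

namespace Pool.Agent.H268R3.LRS

variable (F : Type) [Field F] [Fintype F]

/-- Dickson generators -/
noncomputable def kap (k : ℕ) (i : Fin k) : MvPolynomial (Fin k) F := - cc F k i

/-- monomial in given elements -/
def mo {A : Type} [CommRing A] {k : ℕ} (g : Fin k → A) (e : Fin k → ℕ) : A := ∏ i, g i ^ e i

/-- weight -/
def wt (k : ℕ) (e : Fin k → ℕ) : ℕ := ∑ i : Fin k, (Fintype.card F ^ k - Fintype.card F ^ i.val) * e i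

lemma mo_homog (k : ℕ) (e : Fin k → ℕ) : (mo (kap F k) e).IsHomogeneous (wt F k e) := by
  unfold mo wt
  apply IsHomogeneous.prod
  intro i _
  exact ((cc_homog F k i i.2.le).neg).pow (e i)

lemma kap_inv (k : ℕ) (i : Fin k) : IsInv (kap F k i) := by
  intro g hg
  unfold kap
  rw [map_neg, cc_inv F k i i.2.le g hg]

lemma aeval_inv (k : ℕ) (h : MvPolynomial (Fin k) F) : IsInv (aeval (kap F k) h) := by
  intro g hg
  have h1 : (act g).comp (aeval (kap F k)) = aeval (kap F k) := by
    apply algHom_ext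
    intro i
    rw [AlgHom.comp_apply, aeval_X, kap_inv F k i g hg]
  exact congrArg (fun f : MvPolynomial (Fin k) F →ₐ[F] MvPolynomial (Fin k) F => f h) h1

omit [Fintype F] in
lemma mo_X (k : ℕ) (e : Fin k →₀ ℕ) : mo (X : Fin k → MvPolynomial (Fin k) F) e = monomial e 1 := by
  rw [MvPolynomial.monomial_eq, C_1, one_mul, Finsupp.prod_fintype]
  · rfl
  · intro i; rw [pow_zero]

lemma aeval_mo (k : ℕ) (e : Fin k → ℕ) :
    aeval (kap F k) (mo (X : Fin k → MvPolynomial (Fin k) F) e) = mo (kap F k) e := by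
  unfold mo
  rw [map_prod]
  apply prod_congr rfl
  intro i _
  rw [map_pow, aeval_X]

lemma hc_mo (k r : ℕ) (e : Fin k → ℕ) : homogeneousComponent r (mo (kap F k) e)
    = if wt F k e = r then mo (kap F k) e else 0 := by
  rw [homogeneousComponent_of_mem (mo_homog F k e)]
  by_cases h : wt F k e = r
  · rw [if_pos h, if_pos h.symm]
  · rw [if_neg h, if_neg (Ne.symm h)]

lemma hc_range (k r : ℕ) (h : MvPolynomial (Fin k) F) :
    ∃ h' : MvPolynomial (Fin k) F, aeval (kap F k) h' = homogeneousComponent r (aeval (kap F k) h) := by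
  induction h using MvPolynomial.induction_on' with
  | add p q hp hq =>
    obtain ⟨p', hp'⟩ := hp
    obtain ⟨q', hq'⟩ := hq
    exact ⟨p' + q', by rw [map_add, map_add, map_add, hp', hq']⟩
  | monomial e c =>
    refine ⟨if wt F k e = r then monomial e c else 0, ?_⟩
    have h1 : (monomial e c : MvPolynomial (Fin k) F) = c • mo X e := by
      rw [mo_X, smul_monomial, smul_eq_mul, mul_one]
    rw [h1, map_smul, aeval_mo, map_smul, hc_mo]
    split_ifs with h
    · rw [map_smul, aeval_mo]
    · rw [map_zero, smul_zero]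

theorem dick_hom (k : ℕ) (ih : ∀ f : MvPolynomial (Fin k) F, IsInv f → ∃ h : MvPolynomial (Fin k) F,
    aeval (kap F k) h = f) (r : ℕ) : ∀ f : MvPolynomial (Fin (k + 1)) F, IsInv f → f.IsHomogeneous r →
    ∃ h : MvPolynomial (Fin (k + 1)) F, aeval (kap F (k + 1)) h = f := by
  have hq : 1 < Fintype.card F := Fintype.one_lt_card
  induction r using Nat.strong_induction_on with
  | _ r ihr =>
  intro f hf hr
  obtain ⟨f', hf', hf'i⟩ := rho_inv f hf
  obtain ⟨h, hh⟩ := ih f' hf'i
  set ft := aeval (kap F (k + 1)) (rename Fin.succ h) with hft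
  have h1 : rho ft = rho f := by
    rw [hft, aeval_rename, hf', ← hh]
    have h2 : (rho (F := F) (n := k)).comp (aeval (kap F (k + 1) ∘ Fin.succ))
        = (expand (Fintype.card F)).comp (aeval (kap F k)) := by
      apply algHom_ext
      intro i
      rw [AlgHom.comp_apply, AlgHom.comp_apply, aeval_X, aeval_X]
      unfold kap
      rw [Function.comp_apply, map_neg, map_neg, Fin.val_succ, rho_cc]
    exact congrArg (fun g : MvPolynomial (Fin k) F →ₐ[F] MvPolynomial (Fin k) F => g h) h2
  have h2 : IsInv (f - ft) := by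
    intro g hg
    rw [map_sub, hf g hg, aeval_inv F (k + 1) _ g hg]
  obtain ⟨c, hc⟩ := ker_LL (f - ft) h2 (by rw [map_sub, h1, sub_self])
  have hLh : ((LL F (k + 1)) ^ (Fintype.card F - 1)).IsHomogeneous (Fintype.card F ^ (k + 1) - 1) := by
    have := (LL_homog (F := F) (n := k + 1)).pow (Fintype.card F - 1)
    rwa [mul_comm, delta_mul] at this
  have hL : ((LL F (k + 1)) ^ (Fintype.card F - 1)) ≠ 0 := pow_ne_zero _ LL_ne_zero
  have hci : IsInv c := IsInv_of_mul _ _ LLq_inv (by rw [mul_comm, ← hc]; exact h2) hL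
  have h3 := congrArg (homogeneousComponent r) hc
  rw [mul_comm, hc_mul _ _ _ _ hLh, map_sub, homogeneousComponent_eq_self hr] at h3
  obtain ⟨t, ht⟩ := hc_range F (k + 1) r (rename Fin.succ h)
  rw [← hft] at ht
  have h4 : ∃ u : MvPolynomial (Fin (k + 1)) F, aeval (kap F (k + 1)) u
      = if Fintype.card F ^ (k + 1) - 1 ≤ r then
        homogeneousComponent (r - (Fintype.card F ^ (k + 1) - 1)) c * LL F (k + 1) ^ (Fintype.card F - 1)
        else 0 := by
    split_ifs with h
    · have hlt : r - (Fintype.card F ^ (k + 1) - 1) < r := by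
        have : 1 < Fintype.card F ^ (k + 1) := Nat.one_lt_pow (Nat.succ_ne_zero k) hq
        omega
      obtain ⟨u, hu⟩ := ihr _ hlt (homogeneousComponent (r - (Fintype.card F ^ (k + 1) - 1)) c)
        (fun x hx => by rw [act_hc, hci x hx]) (homogeneousComponent_isHomogeneous _ _)
      refine ⟨u * ((-1) ^ k * X 0), ?_⟩
      rw [map_mul, hu, map_mul, aeval_X, map_pow, map_neg, map_one]
      congr 1
      unfold kap
      rw [Fin.val_zero, cc_bot]
      rw [pow_succ, mul_neg, ← mul_assoc]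
      rw [show ((-1 : MvPolynomial (Fin (k + 1)) F) ^ k * ((-1) ^ k * -1)) = -1 by
        rw [← mul_assoc, ← pow_add, ← two_mul, pow_mul]; simp]
      ring
    · exact ⟨0, map_zero _⟩
  obtain ⟨u, hu⟩ := h4
  refine ⟨u + t, ?_⟩
  rw [map_add, hu, ht, ← h3]
  ring

theorem dick (k : ℕ) : ∀ f : MvPolynomial (Fin k) F, IsInv f → ∃ h : MvPolynomial (Fin k) F,
    aeval (kap F k) h = f := by
  induction k with
  | zero =>
    intro f _
    refine ⟨C (coeff 0 f), ?_⟩
    rw [aeval_C]
    exact (eq_C_of_isEmpty f).symm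
  | succ k ih =>
    intro f hf
    have h1 : ∀ i, ∃ h : MvPolynomial (Fin (k + 1)) F, aeval (kap F (k + 1)) h = homogeneousComponent i f :=
      fun i => dick_hom F k ih i _ (fun x hx => by rw [act_hc, hf x hx])
        (homogeneousComponent_isHomogeneous _ _)
    choose h hh using h1
    refine ⟨∑ i ∈ range (f.totalDegree + 1), h i, ?_⟩
    rw [map_sum, sum_congr rfl (fun i _ => hh i)]
    exact sum_homogeneousComponent f

/-- generator or zero -/
noncomputable def kx (k i : ℕ) : MvPolynomial (Fin k) F := if h : i < k then X ⟨i, h⟩ else 0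

/-- the abstract relations -/
noncomputable def dd (k : ℕ) : ℕ → ℕ → MvPolynomial (Fin k) F
  | 0, i => if i = 0 then 1 else 0
  | (m + 1), i => (if i = 0 then 0 else (dd k m (i - 1)) ^ Fintype.card F)
      + kx F k i * (dd k m (k - 1)) ^ Fintype.card F

lemma dd_zero (k i : ℕ) : dd F k 0 i = if i = 0 then 1 else 0 := rfl

lemma dd_succ (k m i : ℕ) : dd F k (m + 1) i = (if i = 0 then 0 else (dd F k m (i - 1)) ^ Fintype.card F)
      + kx F k i * (dd F k m (k - 1)) ^ Fintype.card F := rfl

lemma rho_dd0 (k m : ℕ) : rho (dd F (k + 1) (m + 1) 0) = 0 := by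
  rw [dd_succ, if_pos rfl, zero_add, map_mul]
  unfold kx
  rw [dif_pos (Nat.succ_pos k)]
  have : rho (X ⟨0, Nat.succ_pos k⟩ : MvPolynomial (Fin (k + 1)) F) = 0 := rho_X0
  rw [this, zero_mul]

lemma rho_dd (k m : ℕ) : ∀ i, i < k → rho (dd F (k + 1) (m + 1) (i + 1)) = dd F k m i := by
  have hq : 1 < Fintype.card F := Fintype.one_lt_card
  have hk : ∀ i, i < k → rho (kx F (k + 1) (i + 1)) = kx F k i := by
    intro i hi
    unfold kx
    rw [dif_pos hi, dif_pos (by omega)]
    exact rho_Xs (F := F) ⟨i, hi⟩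
  induction m with
  | zero =>
    intro i hi
    rw [dd_succ, if_neg (Nat.succ_ne_zero i), Nat.add_sub_cancel, Nat.add_sub_cancel, dd_zero, dd_zero,
      dd_zero, if_neg (show k ≠ 0 by omega), zero_pow (by omega), mul_zero, add_zero, map_pow]
    split_ifs with h
    · rw [map_one, one_pow]
    · rw [map_zero, zero_pow (by omega)]
  | succ m ih =>
    intro i hi
    obtain ⟨k', rfl⟩ : ∃ k', k = k' + 1 := ⟨k - 1, by omega⟩
    rw [dd_succ, if_neg (Nat.succ_ne_zero i), Nat.add_sub_cancel, Nat.add_sub_cancel, map_add, map_mul,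
      map_pow, map_pow, hk i hi, ih k' (by omega), dd_succ F (k' + 1) m i, Nat.add_sub_cancel]
    congr 1
    cases i with
    | zero => rw [if_pos rfl, rho_dd0, zero_pow (by omega)]
    | succ i => rw [if_neg (Nat.succ_ne_zero i), Nat.add_sub_cancel, ih i (by omega)]

/-- exponent sets -/
def Em : ℕ → (k : ℕ) → Multiset (Fin k → ℕ)
  | _, 0 => {fun i => i.elim0}
  | 0, _ + 1 => 0
  | m + 1, k + 1 => (Em m k).map (fun e => (Fin.cons 0 e : Fin (k + 1) → ℕ))
      + (Fintype.piFinset (fun _ : Fin (k + 1) => range (Fintype.card F))).val.bind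
        (fun a => (Em m (k + 1)).map (fun e i => (if i = 0 then 1 else 0) + a i + Fintype.card F * e i))

/-- span of the monomials -/
noncomputable def Sp (m k : ℕ) : Submodule F (MvPolynomial (Fin k) F) :=
  Submodule.span F {x | ∃ e ∈ Em F m k, x = mo X e}

/-- ideal of the relations -/
noncomputable def Id (m k : ℕ) : Ideal (MvPolynomial (Fin k) F) :=
  Ideal.span (Set.range fun i : Fin k => dd F k m i)

lemma expand_pow (k : ℕ) (f : MvPolynomial (Fin k) F) : expand (Fintype.card F) f = f ^ Fintype.card F := by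
  have h : expand (Fintype.card F) = FiniteField.frobeniusAlgHom F (MvPolynomial (Fin k) F) := by
    apply algHom_ext
    intro i
    rw [expand_X, FiniteField.coe_frobeniusAlgHom]
  rw [h, FiniteField.coe_frobeniusAlgHom]

lemma X0_dd (k m : ℕ) (j : Fin (k + 1)) :
    X 0 * (dd F (k + 1) m j) ^ Fintype.card F ∈ Id F (m + 1) (k + 1) := by
  have h0 : dd F (k + 1) (m + 1) 0 = X 0 * (dd F (k + 1) m k) ^ Fintype.card F := by
    rw [dd_succ, if_pos rfl, zero_add, Nat.add_sub_cancel]
    unfold kx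
    rw [dif_pos (Nat.succ_pos k)]
    rfl
  have hm0 : dd F (k + 1) (m + 1) 0 ∈ Id F (m + 1) (k + 1) :=
    Ideal.subset_span ⟨0, rfl⟩
  by_cases hj : j.val = k
  · rw [hj, ← h0]; exact hm0
  · have hj' : j.val + 1 < k + 1 := by have := j.2; omega
    have h1 : dd F (k + 1) (m + 1) (j.val + 1) = (dd F (k + 1) m j) ^ Fintype.card F
        + kx F (k + 1) (j.val + 1) * (dd F (k + 1) m k) ^ Fintype.card F := by
      rw [dd_succ, if_neg (Nat.succ_ne_zero _), Nat.add_sub_cancel, Nat.add_sub_cancel]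
    have hm1 : dd F (k + 1) (m + 1) (j.val + 1) ∈ Id F (m + 1) (k + 1) :=
      Ideal.subset_span ⟨⟨j.val + 1, hj'⟩, rfl⟩
    have h2 : X 0 * (dd F (k + 1) m j) ^ Fintype.card F
        = X 0 * dd F (k + 1) (m + 1) (j.val + 1) - kx F (k + 1) (j.val + 1) * dd F (k + 1) (m + 1) 0 := by
      rw [h1, h0]; ring
    rw [h2]
    exact Ideal.sub_mem _ (Ideal.mul_mem_left _ _ hm1) (Ideal.mul_mem_left _ _ hm0)

lemma X0_expand (k m : ℕ) (w : MvPolynomial (Fin (k + 1)) F) (hw : w ∈ Id F m (k + 1)) :
    X 0 * expand (Fintype.card F) w ∈ Id F (m + 1) (k + 1) := by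
  unfold Id at hw
  induction hw using Submodule.span_induction with
  | mem x hx =>
    obtain ⟨i, rfl⟩ := hx
    rw [expand_pow]
    exact X0_dd F k m i
  | zero => rw [map_zero, mul_zero]; exact Ideal.zero_mem _
  | add x y _ _ hx hy => rw [map_add, mul_add]; exact Ideal.add_mem _ hx hy
  | smul a x _ hx =>
    rw [smul_eq_mul, map_mul, mul_left_comm]
    exact Ideal.mul_mem_left _ _ hx

omit [Fintype F] in
lemma rho_zero_dvd (k : ℕ) (f : MvPolynomial (Fin (k + 1)) F) (hr : rho f = 0) : ∃ u, f = X 0 * u := by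
  have : (X 0 : MvPolynomial (Fin (k + 1)) F) ^ 1 ∣ f := by
    apply X_pow_dvd
    intro m hm
    by_contra h0
    have h3 := rho_coeff f m.tail
    have h4 : m 0 = 0 := by omega
    rw [hr, coeff_zero, ← h4, Finsupp.cons_tail] at h3
    exact hm h3.symm
  rw [pow_one] at this
  exact this

lemma rs_Id (k m : ℕ) (w : MvPolynomial (Fin k) F) (hw : w ∈ Id F m k) :
    ∃ u, rename Fin.succ w - X 0 * u ∈ Id F (m + 1) (k + 1) := by
  unfold Id at hw
  induction hw using Submodule.span_induction with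
  | mem x hx =>
    obtain ⟨i, rfl⟩ := hx
    have h1 : rho (rename Fin.succ (dd F k m i) - dd F (k + 1) (m + 1) (i.val + 1)) = 0 := by
      rw [map_sub, rho_dd F k m i i.2, sub_eq_zero]
      have : (rho (F := F) (n := k)).comp (rename Fin.succ) = AlgHom.id F _ := by
        apply algHom_ext
        intro i
        rw [AlgHom.comp_apply, rename_X, rho_Xs]; rfl
      exact congrArg (fun g : MvPolynomial (Fin k) F →ₐ[F] MvPolynomial (Fin k) F => g (dd F k m i)) this
    obtain ⟨u, hu⟩ := rho_zero_dvd F k _ h1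
    refine ⟨u, ?_⟩
    have h2 : (rename Fin.succ (dd F k m i) : MvPolynomial (Fin (k + 1)) F) - X 0 * u
        = dd F (k + 1) (m + 1) (i.val + 1) := by rw [← hu]; ring
    show rename Fin.succ (dd F k m i) - X 0 * u ∈ _
    rw [h2]
    exact Ideal.subset_span ⟨i.succ, rfl⟩
  | zero => exact ⟨0, by rw [map_zero, mul_zero, sub_zero]; exact Ideal.zero_mem _⟩
  | add x y _ _ hx hy =>
    obtain ⟨u, hu⟩ := hx
    obtain ⟨v, hv⟩ := hy
    refine ⟨u + v, ?_⟩
    have := Ideal.add_mem _ hu hv
    convert this using 1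
    rw [map_add]; ring
  | smul a x _ hx =>
    obtain ⟨u, hu⟩ := hx
    refine ⟨rename Fin.succ a * u, ?_⟩
    have := Ideal.mul_mem_left _ (rename Fin.succ a) hu
    convert this using 1
    rw [smul_eq_mul, map_mul]; ring

end Pool.Agent.H268R3.LRS
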