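import Pool.Agent.H268R3.LRS.Dick

set_option autoImplicit false

open Finset MvPolynomial Pool.Agent.H268R3.Soc

namespace Pool.Agent.H268R3.LRS

variable (F : Type) [Field F] [Fintype F]

lemma exp_mo (k : ℕ) (e : Fin k → ℕ) : expand (Fintype.card F) (mo (X : Fin k → MvPolynomial (Fin k) F) e)
    = mo X (fun i => Fintype.card F * e i) := by
  unfold mo
  rw [map_prod]
  apply prod_congr rfl
  intro i _
  rw [map_pow, expand_X, ← pow_mul]

omit [Fintype F] in
lemma mo_mul {A : Type} [CommRing A] {k : ℕ} (g : Fin k → A) (e f : Fin k → ℕ) :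
    mo g e * mo g f = mo g (fun i => e i + f i) := by
  unfold mo
  rw [← prod_mul_distrib]
  apply prod_congr rfl
  intro i _
  rw [pow_add]

omit [Fintype F] in
lemma mo_delta (k : ℕ) : mo (X : Fin (k + 1) → MvPolynomial (Fin (k + 1)) F) (fun i => if i = 0 then 1 else 0)
    = X 0 := by
  unfold mo
  rw [prod_eq_single_of_mem 0 (mem_univ _)]
  · beta_reduce
    rw [if_pos rfl, pow_one]
  · intro j _ hj
    beta_reduce
    rw [if_neg hj, pow_zero]

lemma Em_succ (m k : ℕ) : Em F (m + 1) (k + 1) = (Em F m k).map (fun e => (Fin.cons 0 e : Fin (k + 1) → ℕ))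
      + (Fintype.piFinset (fun _ : Fin (k + 1) => range (Fintype.card F))).val.bind
        (fun a => (Em F m (k + 1)).map (fun e i => (if i = 0 then 1 else 0) + a i + Fintype.card F * e i)) := by
  rw [Em]

lemma Em_zero (m : ℕ) : Em F m 0 = {fun i => i.elim0} := by
  cases m <;> rw [Em]

lemma Em_zero_succ (k : ℕ) : Em F 0 (k + 1) = 0 := by
  rw [Em]

theorem W_top (m : ℕ) : ∀ (k : ℕ) (f : MvPolynomial (Fin k) F), ∃ s ∈ Sp F m k, f - s ∈ Id F m k := by
  have hq : 1 < Fintype.card F := Fintype.one_lt_card
  induction m with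
  | zero =>
    intro k f
    cases k with
    | zero =>
      refine ⟨f, ?_, by rw [sub_self]; exact Ideal.zero_mem _⟩
      have h1 : f = (coeff 0 f) • mo X (fun i : Fin 0 => i.elim0) := by
        rw [smul_eq_C_mul]
        unfold mo
        rw [Finset.univ_eq_empty, prod_empty, mul_one]
        exact eq_C_of_isEmpty f
      rw [h1]
      apply Submodule.smul_mem
      exact Submodule.subset_span ⟨_, by rw [Em_zero]; exact Multiset.mem_singleton_self _, rfl⟩
    | succ k =>
      refine ⟨0, Submodule.zero_mem _, ?_⟩
      have h1 : (1 : MvPolynomial (Fin (k + 1)) F) ∈ Id F 0 (k + 1) :=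
        Ideal.subset_span ⟨0, by show dd F (k + 1) 0 0 = 1; rw [dd_zero, if_pos rfl]⟩
      have := Ideal.mul_mem_left _ (f - 0) h1
      rwa [mul_one] at this
  | succ m ih =>
    intro k f
    cases k with
    | zero =>
      refine ⟨f, ?_, by rw [sub_self]; exact Ideal.zero_mem _⟩
      have h1 : f = (coeff 0 f) • mo X (fun i : Fin 0 => i.elim0) := by
        rw [smul_eq_C_mul]
        unfold mo
        rw [Finset.univ_eq_empty, prod_empty, mul_one]
        exact eq_C_of_isEmpty f
      rw [h1]
      apply Submodule.smul_mem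
      exact Submodule.subset_span ⟨_, by rw [Em_zero]; exact Multiset.mem_singleton_self _, rfl⟩
    | succ k =>
      have step1 : ∀ a : Fin (k + 1) → ℕ, (∀ i, a i < Fintype.card F) → ∀ h : MvPolynomial (Fin (k + 1)) F,
          ∃ s ∈ Sp F (m + 1) (k + 1),
            X 0 * mo X a * expand (Fintype.card F) h - s ∈ Id F (m + 1) (k + 1) := by
        intro a ha h
        obtain ⟨s0, hs0, hs0'⟩ := ih (k + 1) h
        refine ⟨X 0 * mo X a * expand (Fintype.card F) s0, ?_, ?_⟩
        · have h1 : Sp F m (k + 1) ≤ (Sp F (m + 1) (k + 1)).comap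
              ((LinearMap.mulLeft F (X 0 * mo X a)) ∘ₗ (expand (Fintype.card F)).toLinearMap) := by
            unfold Sp
            rw [Submodule.span_le]
            rintro _ ⟨e, he, rfl⟩
            show X 0 * mo X a * expand (Fintype.card F) (mo X e) ∈ Submodule.span F _
            apply Submodule.subset_span
            refine ⟨fun i => (if i = 0 then 1 else 0) + a i + Fintype.card F * e i, ?_, ?_⟩
            · rw [Em_succ, Multiset.mem_add]
              right
              rw [Multiset.mem_bind]
              exact ⟨a, Fintype.mem_piFinset.2 (fun i => mem_range.2 (ha i)),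
                Multiset.mem_map.2 ⟨e, he, rfl⟩⟩
            · rw [exp_mo, ← mo_delta, mo_mul, mo_mul]
          exact h1 hs0
        · have := Ideal.mul_mem_left _ (mo X a) (X0_expand F k m _ hs0')
          convert this using 1
          rw [map_sub]; ring
      have step2 : ∀ f : MvPolynomial (Fin (k + 1)) F,
          ∃ s ∈ Sp F (m + 1) (k + 1), X 0 * f - s ∈ Id F (m + 1) (k + 1) := by
        intro f
        induction f using MvPolynomial.induction_on' with
        | add p r hp hr =>
          obtain ⟨s, hs, hs'⟩ := hp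
          obtain ⟨t, ht, ht'⟩ := hr
          refine ⟨s + t, Submodule.add_mem _ hs ht, ?_⟩
          have := Ideal.add_mem _ hs' ht'
          convert this using 1
          ring
        | monomial e c =>
          obtain ⟨s, hs, hs'⟩ := step1 (fun i => e i % Fintype.card F) (fun i => Nat.mod_lt _ (by omega))
            (c • mo X (fun i => e i / Fintype.card F))
          refine ⟨s, hs, ?_⟩
          convert hs' using 2
          rw [map_smul, exp_mo, mul_smul_comm, mul_assoc, mo_mul]
          have : (fun i => e i % Fintype.card F + Fintype.card F * (e i / Fintype.card F)) = (e : Fin (k + 1) → ℕ) := by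
            ext i; exact Nat.mod_add_div _ _
          rw [this, mo_X, ← mul_smul_comm, smul_monomial, smul_eq_mul, mul_one]
      obtain ⟨s0, hs0, hs0'⟩ := ih k (rho f)
      obtain ⟨u, hu⟩ := rs_Id F k m _ hs0'
      have h1 : rho (f - rename Fin.succ (rho f)) = 0 := by
        rw [map_sub, sub_eq_zero]
        have : (rho (F := F) (n := k)).comp (rename Fin.succ) = AlgHom.id F _ := by
          apply algHom_ext
          intro i
          rw [AlgHom.comp_apply, rename_X, rho_Xs]; rfl
        exact (congrArg (fun g : MvPolynomial (Fin k) F →ₐ[F] MvPolynomial (Fin k) F => g (rho f)) this).symm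
      obtain ⟨f2, hf2⟩ := rho_zero_dvd F k _ h1
      obtain ⟨s2, hs2, hs2'⟩ := step2 (u + f2)
      refine ⟨rename Fin.succ s0 + s2, Submodule.add_mem _ ?_ hs2, ?_⟩
      · have h2 : Sp F m k ≤ (Sp F (m + 1) (k + 1)).comap (rename Fin.succ).toLinearMap := by
          unfold Sp
          rw [Submodule.span_le]
          rintro _ ⟨e, he, rfl⟩
          show rename Fin.succ (mo X e) ∈ Submodule.span F _
          apply Submodule.subset_span
          refine ⟨Fin.cons 0 e, ?_, ?_⟩
          · rw [Em_succ, Multiset.mem_add]
            left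
            exact Multiset.mem_map.2 ⟨e, he, rfl⟩
          · unfold mo
            rw [Fin.prod_univ_succ, Fin.cons_zero, pow_zero, one_mul, map_prod]
            apply prod_congr rfl
            intro i _
            rw [map_pow, rename_X, Fin.cons_succ]
        exact h2 hs0
      · have := Ideal.add_mem _ hu hs2'
        convert this using 1
        have h3 : f = rename Fin.succ (rho f) + X 0 * f2 := by rw [← hf2]; ring
        conv_lhs => rw [h3]
        rw [map_sub]
        ring

lemma pow_rel (k : ℕ) (j : Fin k) : (X j : MvPolynomial (Fin k) F) ^ (Fintype.card F ^ k)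
    = ∑ i ∈ range k, (- cc F k i) * X j ^ (Fintype.card F ^ i) := by
  have h1 := cc_kill F k j
  unfold av at h1
  rw [sum_range_succ, cc_top, one_mul] at h1
  rw [eq_neg_of_add_eq_zero_right h1, ← sum_neg_distrib]
  apply sum_congr rfl
  intro i _
  ring

lemma rel (k m : ℕ) (j : Fin (k + 1)) : (X j : MvPolynomial (Fin (k + 1)) F) ^ (Fintype.card F ^ m)
    = ∑ i ∈ range (k + 1), aeval (kap F (k + 1)) (dd F (k + 1) m i) * X j ^ (Fintype.card F ^ i) := by
  have hq : 1 < Fintype.card F := Fintype.one_lt_card
  induction m with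
  | zero =>
    rw [Finset.sum_eq_single_of_mem 0 (mem_range.2 (Nat.succ_pos k))]
    · rw [dd_zero, if_pos rfl, map_one, one_mul]
    · intro i _ hi
      rw [dd_zero, if_neg hi, map_zero, zero_mul]
  | succ m ih =>
    have h := frp_apply F (B := MvPolynomial (Fin (k + 1)) F) 1
    rw [pow_one] at h
    have h1 : (X j : MvPolynomial (Fin (k + 1)) F) ^ (Fintype.card F ^ (m + 1))
        = ∑ i ∈ range (k + 1), (aeval (kap F (k + 1)) (dd F (k + 1) m i)) ^ Fintype.card F
          * X j ^ (Fintype.card F ^ (i + 1)) := by
      rw [pow_succ, pow_mul, ih, ← h, map_sum]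
      apply sum_congr rfl
      intro i _
      rw [h, mul_pow, ← pow_mul, ← pow_succ]
    rw [h1, sum_range_succ, pow_rel, mul_sum]
    have h2 : ∀ i ∈ range (k + 1), aeval (kap F (k + 1)) (dd F (k + 1) (m + 1) i) * X j ^ (Fintype.card F ^ i)
        = (if i = 0 then 0 else (aeval (kap F (k + 1)) (dd F (k + 1) m (i - 1))) ^ Fintype.card F
            * X j ^ (Fintype.card F ^ i))
          + (aeval (kap F (k + 1)) (dd F (k + 1) m k)) ^ Fintype.card F
            * (- cc F (k + 1) i * X j ^ (Fintype.card F ^ i)) := by
      intro i hi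
      rw [mem_range] at hi
      rw [dd_succ, map_add, map_mul, map_pow, Nat.add_sub_cancel]
      have h3 : aeval (kap F (k + 1)) (kx F (k + 1) i) = - cc F (k + 1) i := by
        unfold kx
        rw [dif_pos hi, aeval_X]
        rfl
      rw [h3]
      split_ifs
      · rw [map_zero]; ring
      · rw [map_pow]; ring
    rw [sum_congr rfl h2, sum_add_distrib]
    congr 1
    rw [sum_range_succ', if_pos rfl, add_zero]
    apply sum_congr rfl
    intro i _
    rw [if_neg (Nat.succ_ne_zero i), Nat.add_sub_cancel]

lemma LD (k m : ℕ) (i : Fin k) :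
    LL F k * aeval (kap F k) (dd F k m i) ∈ JN F (Fintype.card F ^ m) k := by
  cases k with
  | zero => exact i.elim0
  | succ k =>
    set D : Fin (k + 1) → MvPolynomial (Fin (k + 1)) F := fun i => aeval (kap F (k + 1)) (dd F (k + 1) m i) with hD
    have h1 : Matrix.vecMul D (moore F (k + 1)) = fun j => X j ^ (Fintype.card F ^ m) := by
      ext1 j
      rw [rel]
      rw [← Fin.sum_univ_eq_sum_range (fun i => aeval (kap F (k + 1)) (dd F (k + 1) m i)
        * (X j : MvPolynomial (Fin (k + 1)) F) ^ (Fintype.card F ^ i))]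
      rfl
    have h2 : Matrix.vecMul (Matrix.vecMul D (moore F (k + 1))) (moore F (k + 1)).adjugate
        = LL F (k + 1) • D := by
      rw [Matrix.vecMul_vecMul, Matrix.mul_adjugate, Matrix.vecMul_smul, Matrix.vecMul_one]
      rfl
    have h3 := congrFun h2 i
    rw [h1] at h3
    rw [Pi.smul_apply, smul_eq_mul] at h3
    rw [← h3]
    unfold Matrix.vecMul dotProduct
    apply Ideal.sum_mem
    intro j _
    exact Ideal.mul_mem_right _ _ (X_JN _)

lemma annih (k m : ℕ) (w : MvPolynomial (Fin k) F) (hw : w ∈ Id F m k) :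
    LL F k * aeval (kap F k) w ∈ JN F (Fintype.card F ^ m) k := by
  unfold Id at hw
  induction hw using Submodule.span_induction with
  | mem x hx =>
    obtain ⟨i, rfl⟩ := hx
    exact LD F k m i
  | zero => rw [map_zero, mul_zero]; exact Ideal.zero_mem _
  | add x y _ _ hx hy => rw [map_add, mul_add]; exact Ideal.add_mem _ hx hy
  | smul a x _ hx =>
    rw [smul_eq_mul, map_mul, mul_left_comm]
    exact Ideal.mul_mem_left _ _ hx

theorem dick_span (k m r : ℕ) (g : MvPolynomial (Fin k) F) (hg : IsInv g) (hr : g.IsHomogeneous r) :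
    ∃ s ∈ Submodule.span F {x : MvPolynomial (Fin k) F | ∃ e ∈ (Em F m k).filter (fun e => wt F k e = r),
      x = LL F k * mo (kap F k) e}, LL F k * g - s ∈ JN F (Fintype.card F ^ m) k := by
  obtain ⟨h, hh⟩ := dick F k g hg
  obtain ⟨s, hs, hs'⟩ := W_top F m k h
  have h1 := annih F k m _ hs'
  rw [map_sub, hh] at h1
  refine ⟨LL F k * homogeneousComponent r (aeval (kap F k) s), ?_, ?_⟩
  · unfold Sp at hs
    clear hs' h1
    induction hs using Submodule.span_induction with
    | mem x hx =>
      obtain ⟨e, he, rfl⟩ := hx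
      rw [aeval_mo, hc_mo]
      split_ifs with hw
      · exact Submodule.subset_span ⟨e, Multiset.mem_filter.2 ⟨he, hw⟩, rfl⟩
      · rw [mul_zero]; exact Submodule.zero_mem _
    | zero => rw [map_zero, map_zero, mul_zero]; exact Submodule.zero_mem _
    | add x y _ _ hx hy => rw [map_add, map_add, mul_add]; exact Submodule.add_mem _ hx hy
    | smul a x _ hx => rw [map_smul, map_smul, mul_smul_comm]; exact Submodule.smul_mem _ _ hx
  · have h2 := hc_JN _ h1 (r + delta F k)
    rw [mul_comm, hc_mul _ _ _ _ (LL_homog (F := F) (n := k)), if_pos (Nat.le_add_left _ _),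
      Nat.add_sub_cancel, map_sub, homogeneousComponent_eq_self hr] at h2
    convert h2 using 1
    ring

/-- weight generating function at `t` -/
def GF {A : Type} [CommRing A] (m k : ℕ) (t : A) : A := ((Em F m k).map (fun e => t ^ wt F k e)).sum

/-- numerator products -/
def NP {A : Type} [CommRing A] (m k : ℕ) (t : A) : A :=
  ∏ i ∈ range k, (1 - t ^ (Fintype.card F ^ m - Fintype.card F ^ i))

lemma NP_succ {A : Type} [CommRing A] (m k : ℕ) (t : A) : NP F (m + 1) (k + 1) t
    = (1 - t ^ (Fintype.card F ^ (m + 1) - 1)) * NP F m k (t ^ Fintype.card F) := by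
  unfold NP
  rw [prod_range_succ', pow_zero, mul_comm]
  congr 1
  apply prod_congr rfl
  intro i _
  rw [← pow_mul, Nat.mul_sub, pow_succ', pow_succ']

lemma NP_top {A : Type} [CommRing A] (m k : ℕ) (t : A) : NP F m (k + 1) t
    = NP F m k t * (1 - t ^ (Fintype.card F ^ m - Fintype.card F ^ k)) := by
  unfold NP
  rw [prod_range_succ]

lemma NP_gt {A : Type} [CommRing A] (m k : ℕ) (t : A) (h : m < k) : NP F m k t = 0 := by
  unfold NP
  apply prod_eq_zero (mem_range.2 h)
  rw [Nat.sub_self, pow_zero, sub_self]

lemma wt_cons (k : ℕ) (e : Fin k → ℕ) : wt F (k + 1) (Fin.cons 0 e) = Fintype.card F * wt F k e := by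
  unfold wt
  rw [Fin.sum_univ_succ, Fin.cons_zero, mul_zero, zero_add, mul_sum]
  apply sum_congr rfl
  intro i _
  rw [Fin.cons_succ, Fin.val_succ, ← mul_assoc, Nat.mul_sub, pow_succ', pow_succ']

lemma wt_add (k : ℕ) (a e : Fin (k + 1) → ℕ) :
    wt F (k + 1) (fun i => (if i = 0 then 1 else 0) + a i + Fintype.card F * e i)
      = (Fintype.card F ^ (k + 1) - 1) + wt F (k + 1) a + Fintype.card F * wt F (k + 1) e := by
  unfold wt
  simp only [mul_add, sum_add_distrib]
  congr 1
  · congr 1
    rw [Finset.sum_eq_single_of_mem 0 (mem_univ _)]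
    · rw [if_pos rfl, mul_one, Fin.val_zero, pow_zero]
    · intro j _ hj
      rw [if_neg hj, mul_zero]
  · rw [mul_sum]
    apply sum_congr rfl
    intro i _
    ring

lemma GF_succ {A : Type} [CommRing A] (m k : ℕ) (t : A) : GF F (m + 1) (k + 1) t
    = GF F m k (t ^ Fintype.card F) + t ^ (Fintype.card F ^ (k + 1) - 1)
      * (∏ i : Fin (k + 1), ∑ a ∈ range (Fintype.card F), (t ^ (Fintype.card F ^ (k + 1) - Fintype.card F ^ i.val)) ^ a)
      * GF F m (k + 1) (t ^ Fintype.card F) := by
  unfold GF
  rw [Em_succ, Multiset.map_add, Multiset.sum_add, Multiset.map_map, Multiset.map_bind, Multiset.sum_bind]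
  congr 1
  · congr 1
    apply Multiset.map_congr rfl
    intro e _
    rw [Function.comp_apply, wt_cons, pow_mul]
  · simp only [Multiset.map_map, Function.comp_def, wt_add]
    rw [prod_univ_sum, mul_sum, sum_mul]
    show Multiset.sum _ = Multiset.sum _
    congr 1
    apply Multiset.map_congr rfl
    intro a _
    have h1 : ∏ i : Fin (k + 1), (t ^ (Fintype.card F ^ (k + 1) - Fintype.card F ^ i.val)) ^ (a i)
        = t ^ wt F (k + 1) a := by
      unfold wt
      rw [← prod_pow_eq_pow_sum]
      apply prod_congr rfl
      intro i _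
      rw [pow_mul]
    rw [h1, ← Multiset.sum_map_mul_left]
    congr 1
    apply Multiset.map_congr rfl
    intro e _
    rw [pow_add, pow_add, pow_mul]

theorem GF_eq {A : Type} [CommRing A] (m : ℕ) : ∀ (k : ℕ) (t : A), GF F m k t * NP F k k t = NP F m k t := by
  have hq : 1 < Fintype.card F := Fintype.one_lt_card
  induction m with
  | zero =>
    intro k t
    cases k with
    | zero =>
      unfold GF NP wt
      rw [Em_zero]
      simp
    | succ k =>
      rw [NP_gt F 0 (k + 1) t (Nat.succ_pos k)]
      unfold GF
      rw [Em_zero_succ]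
      simp
  | succ m ih =>
    intro k t
    cases k with
    | zero =>
      unfold GF NP wt
      rw [Em_zero]
      simp
    | succ k =>
      have h1 : (∏ i : Fin (k + 1), ∑ a ∈ range (Fintype.card F),
          (t ^ (Fintype.card F ^ (k + 1) - Fintype.card F ^ i.val)) ^ a) * NP F (k + 1) (k + 1) t
          = NP F (k + 1) (k + 1) (t ^ Fintype.card F) := by
        unfold NP
        rw [← Fin.prod_univ_eq_prod_range (fun i => 1 - t ^ (Fintype.card F ^ (k + 1) - Fintype.card F ^ i)),
          ← Fin.prod_univ_eq_prod_range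
          (fun i => 1 - (t ^ Fintype.card F) ^ (Fintype.card F ^ (k + 1) - Fintype.card F ^ i)),
          ← prod_mul_distrib]
        apply prod_congr rfl
        intro i _
        rw [geom_sum_mul_neg, ← pow_mul, ← pow_mul, mul_comm]
      rw [GF_succ, add_mul, NP_succ F m k t]
      have h2 : t ^ (Fintype.card F ^ (k + 1) - 1)
          * (∏ i : Fin (k + 1), ∑ a ∈ range (Fintype.card F),
            (t ^ (Fintype.card F ^ (k + 1) - Fintype.card F ^ i.val)) ^ a)
          * GF F m (k + 1) (t ^ Fintype.card F) * NP F (k + 1) (k + 1) t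
          = t ^ (Fintype.card F ^ (k + 1) - 1) * NP F m (k + 1) (t ^ Fintype.card F) := by
        rw [← ih (k + 1), ← h1]; ring
      rw [h2, NP_succ F k k t, mul_left_comm, ih k, NP_top]
      by_cases hk : k ≤ m
      · have h3 : t ^ (Fintype.card F ^ (m + 1) - 1) = t ^ (Fintype.card F ^ (k + 1) - 1)
            * (t ^ Fintype.card F) ^ (Fintype.card F ^ m - Fintype.card F ^ k) := by
          rw [← pow_mul, ← pow_add]
          congr 1
          have h4 : Fintype.card F ^ (k + 1) ≤ Fintype.card F ^ (m + 1) :=
            Nat.pow_le_pow_right (by omega) (by omega)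
          have h5 : 0 < Fintype.card F ^ (k + 1) := pow_pos (by omega) _
          rw [Nat.mul_sub, ← pow_succ', ← pow_succ']
          omega
        rw [h3]; ring
      · rw [NP_gt F m k _ (by omega)]; ring

/-- natural number version -/
def NN (m k : ℕ) : ℕ := ∏ i ∈ range k, (Fintype.card F ^ m - Fintype.card F ^ i)

theorem card_eq (m : ℕ) : ∀ k, (Em F m k).card * NN F k k = NN F m k := by
  have hq : 1 < Fintype.card F := Fintype.one_lt_card
  have hs : ∀ m k, NN F (m + 1) (k + 1) = (Fintype.card F ^ (m + 1) - 1) * (Fintype.card F ^ k * NN F m k) := by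
    intro m k
    unfold NN
    rw [prod_range_succ', pow_zero, mul_comm]
    congr 1
    have : ∀ i ∈ range k, (Fintype.card F ^ (m + 1) - Fintype.card F ^ (i + 1))
        = Fintype.card F * (Fintype.card F ^ m - Fintype.card F ^ i) := by
      intro i _
      rw [Nat.mul_sub, pow_succ', pow_succ']
    rw [prod_congr rfl this, prod_mul_distrib, prod_const, card_range]
  have ht : ∀ m k, NN F m (k + 1) = NN F m k * (Fintype.card F ^ m - Fintype.card F ^ k) := by
    intro m k
    unfold NN
    rw [prod_range_succ]
  have hg : ∀ m k, m < k → NN F m k = 0 := by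
    intro m k h
    unfold NN
    apply prod_eq_zero (mem_range.2 h)
    rw [Nat.sub_self]
  induction m with
  | zero =>
    intro k
    cases k with
    | zero => unfold NN; rw [Em_zero]; simp
    | succ k => rw [hg 0 (k + 1) (Nat.succ_pos k), Em_zero_succ]; simp
  | succ m ih =>
    intro k
    cases k with
    | zero => unfold NN; rw [Em_zero]; simp
    | succ k =>
      have hc : (Em F (m + 1) (k + 1)).card
          = (Em F m k).card + Fintype.card F ^ (k + 1) * (Em F m (k + 1)).card := by
        rw [Em_succ, Multiset.card_add, Multiset.card_map, Multiset.card_bind]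
        congr 1
        simp only [Function.comp_def, Multiset.card_map]
        rw [Multiset.map_const', Multiset.sum_replicate, smul_eq_mul]
        congr 1
        show (Fintype.piFinset (fun _ : Fin (k + 1) => range (Fintype.card F))).card = _
        rw [Fintype.card_piFinset_const, card_range]
      have h1 : (Em F (m + 1) (k + 1)).card * NN F (k + 1) (k + 1)
          = (Fintype.card F ^ (k + 1) - 1) * (Fintype.card F ^ k * NN F m k)
            + Fintype.card F ^ (k + 1) * NN F m (k + 1) := by
        rw [hc, add_mul, mul_assoc, ih (k + 1), ← ih k, hs k k]; ring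
      rw [h1, hs m k, ht m k]
      by_cases hk : k ≤ m
      · have h2 : Fintype.card F ^ (m + 1) - 1 = (Fintype.card F ^ (k + 1) - 1)
            + Fintype.card F * (Fintype.card F ^ m - Fintype.card F ^ k) := by
          have h4 : Fintype.card F ^ (k + 1) ≤ Fintype.card F ^ (m + 1) :=
            Nat.pow_le_pow_right (by omega) (by omega)
          have h5 : 0 < Fintype.card F ^ (k + 1) := pow_pos (by omega) _
          rw [Nat.mul_sub, ← pow_succ', ← pow_succ']
          omega
        rw [h2, pow_succ]; ring
      · rw [hg m k (by omega)]; ring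

end Pool.Agent.H268R3.LRS
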