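import Pool.Agent.H268R3.LRS.Base

set_option autoImplicit false

open Finset MvPolynomial Pool.Agent.H268R3.Soc

namespace Pool.Agent.H268R3.LRS

section memII
variable {R : Type} [CommRing R] {k N : ℕ}

lemma mem_II (b : R) (w : MvPolynomial (Fin k) R) :
    w ∈ II ((Polynomial.X : Polynomial R) ^ N) b ↔ ∀ e : Fin k →₀ ℕ, (∀ i, e i < N) → b ∣ coeff e w := by
  have hpl : ∀ i : Fin k, pl i ((Polynomial.X : Polynomial R) ^ N) = X i ^ N := by
    intro i; unfold pl; rw [map_pow, Polynomial.aeval_X]
  constructor
  · intro hw e he
    unfold II at hw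
    obtain ⟨x, hx, y, hy, rfl⟩ := Submodule.mem_sup.1 hw
    rw [coeff_add]
    apply dvd_add
    · obtain ⟨z, rfl⟩ := Ideal.mem_span_singleton'.1 hx
      rw [mul_comm, coeff_C_mul]
      exact dvd_mul_right _ _
    · have : (Set.range fun i : Fin k => pl i ((Polynomial.X : Polynomial R) ^ N))
          = Set.range fun i : Fin k => (X i : MvPolynomial (Fin k) R) ^ N := by
        congr 1
        ext1 i
        exact hpl i
      rw [this] at hy
      rw [coeff_JN (K := R) (N := N) y hy e he]
      exact dvd_zero _
  · intro h
    rw [w.as_sum]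
    apply Ideal.sum_mem
    intro e _
    by_cases he : ∀ i, e i < N
    · obtain ⟨u, hu⟩ := h e he
      have : (monomial e (coeff e w) : MvPolynomial (Fin k) R) = monomial e u * C b := by
        rw [hu, mul_comm (monomial e u) (C b), C_mul_monomial]
      rw [this]
      exact Ideal.mul_mem_left _ _ (C_mem _ _)
    · push Not at he
      obtain ⟨i, hi⟩ := he
      have : (monomial e (coeff e w) : MvPolynomial (Fin k) R)
          = monomial (e - Finsupp.single i N) (coeff e w) * pl i ((Polynomial.X : Polynomial R) ^ N) := by
        rw [hpl, X_pow_eq_monomial, monomial_mul, mul_one, tsub_add_cancel_of_le]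
        exact Finsupp.single_le_iff.2 hi
      rw [this]
      exact Ideal.mul_mem_left _ _ (pl_mem _ _ _)

end memII

section Th
variable {R : Type} [CommRing R]

/-- separating the first variables -/
noncomputable def Th (n k : ℕ) : MvPolynomial (Fin n) R →ₐ[R] MvPolynomial (Fin n) (MvPolynomial (Fin k) R) :=
  aeval (fun i => if h : i.val < k then C (X ⟨i.val, h⟩) else X i)

/-- low part of an exponent -/
noncomputable def lo {n : ℕ} (k : ℕ) (s : Fin n →₀ ℕ) : Fin k →₀ ℕ :=
  Finsupp.equivFunOnFinite.symm (fun j => if h : j.val < n then s ⟨j.val, h⟩ else 0)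

/-- high part of an exponent -/
noncomputable def hi {n : ℕ} (k : ℕ) (s : Fin n →₀ ℕ) : Fin n →₀ ℕ :=
  Finsupp.equivFunOnFinite.symm (fun i => if i.val < k then 0 else s i)

lemma lo_apply {n : ℕ} (k : ℕ) (s : Fin n →₀ ℕ) (j : Fin k) :
    lo k s j = if h : j.val < n then s ⟨j.val, h⟩ else 0 := rfl

lemma hi_apply {n : ℕ} (k : ℕ) (s : Fin n →₀ ℕ) (i : Fin n) :
    hi k s i = if i.val < k then 0 else s i := rfl

lemma Th_monomial (n k : ℕ) (s : Fin n →₀ ℕ) (c : R) :
    Th n k (monomial s c) = monomial (hi k s) (monomial (lo k s) c) := by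
  have key : Th n k (monomial s (1 : R)) = monomial (hi k s) (monomial (lo k s) 1) := by
    induction s using Finsupp.induction_linear with
    | zero =>
      have h1 : hi k (0 : Fin n →₀ ℕ) = 0 := by ext i; rw [hi_apply]; simp
      have h2 : lo k (0 : Fin n →₀ ℕ) = 0 := by ext i; rw [lo_apply]; simp
      rw [h1, h2]
      show Th n k 1 = _
      rw [map_one]; rfl
    | add s t hs ht =>
      have h1 : hi k (s + t) = hi k s + hi k t := by
        ext i; rw [Finsupp.add_apply, hi_apply, hi_apply, hi_apply, Finsupp.add_apply]
        split_ifs <;> simp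
      have h2 : lo k (s + t) = lo k s + lo k t := by
        ext i; rw [Finsupp.add_apply, lo_apply, lo_apply, lo_apply]
        split_ifs <;> simp
      have h3 : (monomial (s + t) (1 : R)) = monomial s 1 * monomial t 1 := by
        rw [monomial_mul, one_mul]
      rw [h3, map_mul, hs, ht, h1, h2, monomial_mul, monomial_mul, one_mul]
    | single i t =>
      rw [← X_pow_eq_monomial, map_pow]
      unfold Th
      rw [aeval_X]
      by_cases h : i.val < k
      · rw [dif_pos h]
        have h1 : hi k (Finsupp.single i t) = 0 := by
          ext j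
          rw [hi_apply]
          split_ifs with hj
          · rfl
          · rw [Finsupp.single_apply, if_neg]
            · rfl
            · rintro rfl; exact hj h
        have h2 : lo k (Finsupp.single i t) = Finsupp.single ⟨i.val, h⟩ t := by
          ext j
          rw [lo_apply]
          split_ifs with hj
          · rw [Finsupp.single_apply, Finsupp.single_apply]
            congr 1
            rw [eq_iff_iff]
            constructor
            · intro h'
              have h'' : i.val = j.val := congrArg Fin.val h'
              exact Fin.ext h''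
            · intro h'
              have h'' : i.val = j.val := congrArg Fin.val h'
              exact Fin.ext h''
          · rw [Finsupp.single_apply, if_neg]
            intro h'
            apply hj
            rw [← h']
            exact i.2
        rw [h1, h2, ← map_pow, X_pow_eq_monomial]; rfl
      · rw [dif_neg h]
        have h1 : hi k (Finsupp.single i t) = Finsupp.single i t := by
          ext j
          rw [hi_apply]
          split_ifs with hj
          · rw [Finsupp.single_apply, if_neg]
            rintro rfl; exact h hj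
          · rfl
        have h2 : lo k (Finsupp.single i t) = 0 := by
          ext j
          rw [lo_apply]
          split_ifs with hj
          · rw [Finsupp.single_apply, if_neg]
            · rfl
            · intro h'
              apply h
              rw [h']
              exact j.2
          · rfl
        rw [h1, h2, X_pow_eq_monomial]; rfl
  have h1 : (monomial s c : MvPolynomial (Fin n) R) = c • monomial s 1 := by
    rw [smul_monomial, smul_eq_mul, mul_one]
  rw [h1, map_smul, key]
  ext a b
  rw [coeff_smul, coeff_monomial, coeff_monomial]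
  split_ifs
  · rw [coeff_smul, coeff_monomial, coeff_monomial]
    split_ifs
    · rw [smul_eq_mul, mul_one]
    · rw [smul_zero]
  · rw [smul_zero]

/-- the constant high exponent -/
noncomputable def ex (n k e : ℕ) : Fin n →₀ ℕ :=
  Finsupp.equivFunOnFinite.symm (fun i => if i.val < k then 0 else e)

lemma ex_apply (n k e : ℕ) (i : Fin n) : ex n k e i = if i.val < k then 0 else e := rfl

/-- extension of an exponent -/
noncomputable def xt (n e : ℕ) {k : ℕ} (a : Fin k →₀ ℕ) : Fin n →₀ ℕ :=
  Finsupp.equivFunOnFinite.symm (fun i => if h : i.val < k then a ⟨i.val, h⟩ else e)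

lemma xt_apply (n e : ℕ) {k : ℕ} (a : Fin k →₀ ℕ) (i : Fin n) :
    xt n e a i = if h : i.val < k then a ⟨i.val, h⟩ else e := rfl

/-- coefficient extraction -/
noncomputable def rr (n k e : ℕ) : MvPolynomial (Fin n) R →ₗ[R] MvPolynomial (Fin k) R where
  toFun f := coeff (ex n k e) (Th n k f)
  map_add' f g := by rw [map_add, coeff_add]
  map_smul' c f := by rw [map_smul, coeff_smul]; rfl

lemma rr_apply (n k e : ℕ) (f : MvPolynomial (Fin n) R) : rr n k e f = coeff (ex n k e) (Th n k f) := rfl

lemma coeff_rr (n k e : ℕ) (hkn : k ≤ n) (f : MvPolynomial (Fin n) R) (a : Fin k →₀ ℕ) :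
    coeff a (rr n k e f) = coeff (xt n e a) f := by
  induction f using MvPolynomial.induction_on' with
  | add p q hp hq => rw [map_add, coeff_add, coeff_add, hp, hq]
  | monomial s c =>
    rw [rr_apply, Th_monomial, coeff_monomial, coeff_monomial]
    by_cases h : s = xt n e a
    · rw [if_pos h, if_pos, coeff_monomial, if_pos]
      · ext j
        rw [h, lo_apply, dif_pos (lt_of_lt_of_le j.2 hkn), xt_apply, dif_pos j.2]
      · ext i
        rw [h, hi_apply, ex_apply, xt_apply]
        by_cases hi : i.val < k
        · rw [if_pos hi, if_pos hi]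
        · rw [if_neg hi, if_neg hi, dif_neg hi]
    · rw [if_neg h]
      split_ifs with h1
      · rw [coeff_monomial, if_neg]
        intro h2
        apply h
        ext i
        rw [xt_apply]
        by_cases hi : i.val < k
        · rw [dif_pos hi, ← h2, lo_apply, dif_pos i.2]
        · rw [dif_neg hi]
          have := DFunLike.congr_fun h1 i
          rwa [hi_apply, ex_apply, if_neg hi, if_neg hi] at this
      · rw [coeff_zero]

lemma rr_map {R' : Type} [CommRing R'] (f : R →+* R') (n k e : ℕ) (hkn : k ≤ n)
    (w : MvPolynomial (Fin n) R) : rr n k e (MvPolynomial.map f w) = MvPolynomial.map f (rr n k e w) := by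
  ext a
  rw [coeff_rr n k e hkn, coeff_map, coeff_map, coeff_rr n k e hkn]

lemma rr_II (n k e N : ℕ) (hkn : k ≤ n) (heN : e < N) (b : R) (w : MvPolynomial (Fin n) R)
    (hw : w ∈ II ((Polynomial.X : Polynomial R) ^ N) b) :
    rr n k e w ∈ II ((Polynomial.X : Polynomial R) ^ N) b := by
  rw [mem_II] at hw ⊢
  intro a ha
  rw [coeff_rr n k e hkn]
  apply hw
  intro i
  rw [xt_apply]
  split_ifs
  · exact ha _
  · exact heN

lemma rr_JN (n k e N : ℕ) (hkn : k ≤ n) (heN : e < N) (w : MvPolynomial (Fin n) R)
    (hw : w ∈ JN R N n) : rr n k e w ∈ JN R N k := by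
  rw [mem_JN] at hw ⊢
  intro a ha
  rw [coeff_rr n k e hkn] at ha
  obtain ⟨i, hi⟩ := hw _ ha
  rw [xt_apply] at hi
  split_ifs at hi with h
  · exact ⟨_, hi⟩
  · omega

lemma xt_degree (n e k : ℕ) (hkn : k ≤ n) (a : Fin k →₀ ℕ) :
    (xt n e a).degree = a.degree + (n - k) * e := by
  obtain ⟨r, rfl⟩ := Nat.exists_eq_add_of_le hkn
  rw [Finsupp.degree_eq_sum, Finsupp.degree_eq_sum, Fin.sum_univ_add]
  congr 1
  · apply sum_congr rfl
    intro i _
    rw [xt_apply, dif_pos (show (Fin.castAdd r i).val < k from i.2)]
    rfl
  · rw [Nat.add_sub_cancel_left]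
    have : ∀ i : Fin r, xt (k + r) e a (Fin.natAdd k i) = e := by
      intro i
      rw [xt_apply, dif_neg]
      show ¬ (k + i.val < k)
      omega
    rw [sum_congr rfl (fun i _ => this i), sum_const, card_univ, Fintype.card_fin, smul_eq_mul]

lemma rr_homog (n k e d : ℕ) (hkn : k ≤ n) (f : MvPolynomial (Fin n) R) (hf : f.IsHomogeneous d) :
    (if (n - k) * e ≤ d then (rr n k e f).IsHomogeneous (d - (n - k) * e) else rr n k e f = 0) := by
  split_ifs with h
  · intro a ha
    rw [coeff_rr n k e hkn] at ha
    have h1 := hf ha
    have h2 : (xt n e a).degree = d := by rw [Finsupp.degree_eq_weight_one]; exact h1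
    rw [xt_degree n e k hkn] at h2
    have h3 : a.degree = d - (n - k) * e := by omega
    rwa [Finsupp.degree_eq_weight_one] at h3
  · ext a
    rw [coeff_rr n k e hkn, coeff_zero]
    by_contra ha
    have h1 := hf ha
    have h2 : (xt n e a).degree = d := by rw [Finsupp.degree_eq_weight_one]; exact h1
    rw [xt_degree n e k hkn] at h2
    omega

end Th

section equiv
variable {F : Type} [Field F] [Fintype F]

/-- block extension of a matrix -/
def bx (n : ℕ) {k : ℕ} (g : Matrix (Fin k) (Fin k) F) : Matrix (Fin n) (Fin n) F :=
  Matrix.of (fun i j => if h : i.val < k ∧ j.val < k then g ⟨i.val, h.1⟩ ⟨j.val, h.2⟩ else if i = j then 1 else 0)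

omit [Fintype F] in
lemma bx_mul (n : ℕ) {k : ℕ} (hkn : k ≤ n) (g h : Matrix (Fin k) (Fin k) F) : bx n g * bx n h = bx n (g * h) := by
  obtain ⟨r, rfl⟩ := Nat.exists_eq_add_of_le hkn
  ext i j
  rw [Matrix.mul_apply, Fin.sum_univ_add]
  refine Fin.addCases (fun i => ?_) (fun i => ?_) i
  · refine Fin.addCases (fun j => ?_) (fun j => ?_) j
    · rw [Finset.sum_eq_zero (s := (univ : Finset (Fin r))) (fun x _ => ?_), add_zero]
      · simp only [bx, Matrix.of_apply, Fin.val_castAdd, Fin.is_lt, and_self, dite_true, Matrix.mul_apply]
      · simp only [bx, Matrix.of_apply, Fin.val_castAdd, Fin.val_natAdd]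
        rw [dif_neg (by omega), if_neg (by intro h'; have := congrArg Fin.val h'; simp at this; omega), zero_mul]
    · have e1 : bx (k + r) (g * h) (Fin.castAdd r i) (Fin.natAdd k j) = 0 := by
        simp only [bx, Matrix.of_apply, Fin.val_castAdd, Fin.val_natAdd]
        rw [dif_neg (by omega), if_neg (by intro h'; have := congrArg Fin.val h'; simp at this; omega)]
      rw [e1, Finset.sum_eq_zero, Finset.sum_eq_zero, add_zero]
      · intro x _
        have : bx (k + r) g (Fin.castAdd r i) (Fin.natAdd k x) = 0 := by
          simp only [bx, Matrix.of_apply, Fin.val_castAdd, Fin.val_natAdd]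
          rw [dif_neg (by omega), if_neg (by intro h'; have := congrArg Fin.val h'; simp at this; omega)]
        rw [this, zero_mul]
      · intro x _
        have : bx (k + r) h (Fin.castAdd r x) (Fin.natAdd k j) = 0 := by
          simp only [bx, Matrix.of_apply, Fin.val_castAdd, Fin.val_natAdd]
          rw [dif_neg (by omega), if_neg (by intro h'; have := congrArg Fin.val h'; simp at this; omega)]
        rw [this, mul_zero]
  · have e2 : ∀ (g : Matrix (Fin k) (Fin k) F) (x : Fin (k + r)), bx (k + r) g (Fin.natAdd k i) x
        = if Fin.natAdd k i = x then 1 else 0 := by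
      intro g x
      simp only [bx, Matrix.of_apply, Fin.val_natAdd]
      rw [dif_neg (by omega)]
    rw [← Fin.sum_univ_add (f := fun x => bx (k + r) g (Fin.natAdd k i) x * bx (k + r) h x j)]
    simp only [e2, ite_mul, one_mul, zero_mul, sum_ite_eq, mem_univ, if_true]

omit [Fintype F] in
lemma bx_one (n k : ℕ) : bx n (1 : Matrix (Fin k) (Fin k) F) = 1 := by
  ext i j
  simp only [bx, Matrix.of_apply, Matrix.one_apply]
  split_ifs with h1 h2 h3 <;> simp_all [Fin.ext_iff]

omit [Fintype F] in
lemma bx_unit (n k : ℕ) (hkn : k ≤ n) (g : Matrix (Fin k) (Fin k) F) (hg : IsUnit g.det) :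
    IsUnit (bx n g).det := by
  have h1 : bx n g * bx n g⁻¹ = 1 := by
    rw [bx_mul n hkn, Matrix.mul_nonsing_inv _ hg, bx_one]
  have h2 := congrArg Matrix.det h1
  rw [Matrix.det_mul, Matrix.det_one] at h2
  exact IsUnit.of_mul_eq_one _ h2

omit [Fintype F] in
lemma Th_act (n k : ℕ) (hkn : k ≤ n) (g : Matrix (Fin k) (Fin k) F) (f : MvPolynomial (Fin n) F) :
    Th n k (act (bx n g) f) = MvPolynomial.map (act g).toRingHom (Th n k f) := by
  have h : (Th n k).toRingHom.comp (act (bx n g)).toRingHom
      = (MvPolynomial.map (act g).toRingHom).comp (Th (R := F) n k).toRingHom := by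
    apply ringHom_ext
    · intro r
      show Th n k (act (bx n g) (C r)) = MvPolynomial.map (act g).toRingHom (Th n k (C r))
      rw [act_C, ← algebraMap_eq, AlgHom.commutes]
      show C (C r) = MvPolynomial.map (act g).toRingHom (C (C r))
      rw [MvPolynomial.map_C]
      show _ = C (act g (C r))
      rw [act_C]
    · intro i
      show Th n k (act (bx n g) (X i)) = MvPolynomial.map (act g).toRingHom (Th n k (X i))
      obtain ⟨r, rfl⟩ := Nat.exists_eq_add_of_le hkn
      have hT : ∀ i : Fin (k + r), Th (R := F) (k + r) k (X i)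
          = if h : i.val < k then C (X ⟨i.val, h⟩) else X i := by
        intro i; unfold Th; rw [aeval_X]
      have hC : ∀ c : F, Th (k + r) k (C c : MvPolynomial (Fin (k + r)) F) = C (C c) := by
        intro c; rw [← algebraMap_eq, AlgHom.commutes]; rfl
      rw [act_X, lf, map_sum]
      simp only [map_mul, hC, hT]
      rw [Fin.sum_univ_add]
      refine Fin.addCases (fun i => ?_) (fun i => ?_) i
      · rw [dif_pos (show (Fin.castAdd r i).val < k from i.2), MvPolynomial.map_C]
        show _ = C (act g (X i))
        rw [act_X, lf, map_sum, Finset.sum_eq_zero (s := (univ : Finset (Fin r))), add_zero]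
        · apply sum_congr rfl
          intro x _
          rw [dif_pos (show (Fin.castAdd r x).val < k from x.2)]
          have : bx (k + r) g (Fin.castAdd r x) (Fin.castAdd r i) = g x i := by
            simp only [bx, Matrix.of_apply, Fin.val_castAdd, Fin.is_lt, and_self, dite_true]
          rw [this, map_mul]
          rfl
        · intro x _
          have : bx (k + r) g (Fin.natAdd k x) (Fin.castAdd r i) = 0 := by
            simp only [bx, Matrix.of_apply, Fin.val_castAdd, Fin.val_natAdd]
            rw [dif_neg (by omega), if_neg (by intro h'; have := congrArg Fin.val h'; simp at this; omega)]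
          rw [this, C_0, C_0, zero_mul]
      · rw [dif_neg (show ¬ (Fin.natAdd k i).val < k by rw [Fin.val_natAdd]; omega), MvPolynomial.map_X,
          Finset.sum_eq_zero (s := (univ : Finset (Fin k))), zero_add,
          Finset.sum_eq_single_of_mem i (mem_univ _)]
        · have : bx (k + r) g (Fin.natAdd k i) (Fin.natAdd k i) = 1 := by
            simp only [bx, Matrix.of_apply, Fin.val_natAdd]
            rw [dif_neg (by omega), if_pos trivial]
          rw [this, C_1, C_1, one_mul, dif_neg (show ¬ (Fin.natAdd k i).val < k by rw [Fin.val_natAdd]; omega)]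
        · intro x _ hx
          have : bx (k + r) g (Fin.natAdd k x) (Fin.natAdd k i) = 0 := by
            simp only [bx, Matrix.of_apply, Fin.val_natAdd]
            rw [dif_neg (by omega), if_neg]
            intro h'
            apply hx
            exact Fin.natAdd_injective _ _ h'
          rw [this, C_0, C_0, zero_mul]
        · intro x _
          have : bx (k + r) g (Fin.castAdd r x) (Fin.natAdd k i) = 0 := by
            simp only [bx, Matrix.of_apply, Fin.val_castAdd, Fin.val_natAdd]
            rw [dif_neg (by omega), if_neg (by intro h'; have := congrArg Fin.val h'; simp at this; omega)]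
          rw [this, C_0, C_0, zero_mul]
  exact congrArg (fun h : MvPolynomial (Fin n) F →+* MvPolynomial (Fin n) (MvPolynomial (Fin k) F) => h f) h

omit [Fintype F] in
theorem rr_act (n k e : ℕ) (hkn : k ≤ n) (g : Matrix (Fin k) (Fin k) F) (f : MvPolynomial (Fin n) F) :
    rr n k e (act (bx n g) f) = act g (rr n k e f) := by
  rw [rr_apply, rr_apply, Th_act n k hkn, coeff_map]
  rfl

lemma ex_mul (n k e : ℕ) : ex n k (Fintype.card F * e) = Fintype.card F • ex n k e := by
  ext i
  rw [Finsupp.smul_apply, ex_apply, ex_apply]
  split_ifs <;> simp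

theorem rr_expand (n k e : ℕ) (f : MvPolynomial (Fin n) F) :
    rr n k (Fintype.card F * e) (expand (Fintype.card F) f) = expand (Fintype.card F) (rr n k e f) := by
  have hq : Fintype.card F ≠ 0 := Fintype.card_ne_zero
  have h : (Th n k).toRingHom.comp (expand (Fintype.card F)).toRingHom
      = ((MvPolynomial.map (expand (Fintype.card F)).toRingHom).comp
        (expand (Fintype.card F) (R := MvPolynomial (Fin k) F) (σ := Fin n)).toRingHom).comp
          (Th (R := F) n k).toRingHom := by
    have hC : ∀ c : F, Th n k (C c : MvPolynomial (Fin n) F) = C (C c) := by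
      intro c; rw [← algebraMap_eq, AlgHom.commutes]; rfl
    apply ringHom_ext
    · intro r
      show Th n k (expand _ (C r)) = MvPolynomial.map (expand (Fintype.card F)).toRingHom
        (expand (Fintype.card F) (Th n k (C r)))
      rw [expand_C, hC, expand_C, MvPolynomial.map_C]
      show _ = C (expand _ (C r))
      rw [expand_C]
    · intro i
      show Th n k (expand _ (X i)) = MvPolynomial.map (expand (Fintype.card F)).toRingHom
        (expand (Fintype.card F) (Th n k (X i)))
      have hT : Th (R := F) n k (X i) = if h : i.val < k then C (X ⟨i.val, h⟩) else X i := by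
        unfold Th; rw [aeval_X]
      rw [expand_X, map_pow, hT]
      split_ifs with h
      · rw [expand_C, MvPolynomial.map_C, ← map_pow]
        show _ = C (expand _ (X _))
        rw [expand_X]
      · rw [expand_X, map_pow, MvPolynomial.map_X]
  have h2 := congrArg (fun h : MvPolynomial (Fin n) F →+* MvPolynomial (Fin n) (MvPolynomial (Fin k) F) => h f) h
  have h3 : Th n k (expand (Fintype.card F) f) = MvPolynomial.map (expand (Fintype.card F)).toRingHom
        (expand (Fintype.card F) (Th n k f)) := h2
  rw [rr_apply, rr_apply, h3, coeff_map, ex_mul, coeff_expand_smul _ hq]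
  rfl

end equiv

end Pool.Agent.H268R3.LRS
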