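import Mathlib

set_option autoImplicit false

open Finset

namespace Pool.Agent.H268R3.LRS

section one
open Polynomial
variable {R : Type} [CommRing R]

/-- unitriangularity at degree `d` -/
def UT (P : Polynomial R) (d : ℕ) : Prop := P.coeff d = 1 ∧ P.natDegree ≤ d

lemma UT.mul {P Q : Polynomial R} {d e : ℕ} (hP : UT P d) (hQ : UT Q e) : UT (P * Q) (d + e) := by
  refine ⟨?_, natDegree_mul_le_of_le hP.2 hQ.2⟩
  rw [coeff_mul_add_eq_of_natDegree_le hP.2 hQ.2, hP.1, hQ.1, one_mul]

lemma UT_one : UT (1 : Polynomial R) 0 := ⟨by simp, by simp⟩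

lemma UT_X_pow (r : ℕ) : UT (X ^ r : Polynomial R) r := ⟨by simp, natDegree_X_pow_le r⟩

lemma UT.pow {P : Polynomial R} {d : ℕ} (hP : UT P d) (e : ℕ) : UT (P ^ e) (d * e) := by
  induction e with
  | zero => rw [pow_zero, mul_zero]; exact UT_one
  | succ e ih => rw [pow_succ, mul_add, mul_one]; exact ih.mul hP

/-- the linear endomorphism sending `X^l` to `S l` -/
noncomputable def EE (S : ℕ → Polynomial R) : Polynomial R →ₗ[R] Polynomial R :=
  (Polynomial.basisMonomials R).constr R S

lemma EE_monomial (S : ℕ → Polynomial R) (l : ℕ) (a : R) : EE S (monomial l a) = a • S l := by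
  have h : (monomial l a : Polynomial R) = a • (Polynomial.basisMonomials R) l := by
    rw [coe_basisMonomials, smul_monomial, smul_eq_mul, mul_one]
  rw [h, map_smul, EE, Module.Basis.constr_basis]

lemma EE_sum (S : ℕ → Polynomial R) (f : Polynomial R) (n : ℕ) (hn : f.natDegree < n) :
    EE S f = ∑ l ∈ range n, f.coeff l • S l := by
  conv_lhs => rw [f.as_sum_range' n hn]
  rw [map_sum]
  apply sum_congr rfl
  intro l _
  rw [EE_monomial]

lemma EE_bij (S : ℕ → Polynomial R) (hS : ∀ l, UT (S l) l) : Function.Bijective (EE S) := by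
  constructor
  · rw [← LinearMap.ker_eq_bot, LinearMap.ker_eq_bot']
    intro f hf
    by_contra h0
    have h1 := EE_sum S f (f.natDegree + 1) (Nat.lt_succ_self _)
    rw [hf] at h1
    have h2 := congrArg (fun g => coeff g f.natDegree) h1
    simp only [coeff_zero, finsetSum_coeff, coeff_smul, smul_eq_mul] at h2
    rw [Finset.sum_eq_single_of_mem f.natDegree (mem_range.2 (Nat.lt_succ_self _))] at h2
    · rw [(hS _).1, mul_one] at h2
      exact h0 (leadingCoeff_eq_zero.1 h2.symm)
    · intro l hl hne
      rw [mem_range] at hl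
      rw [coeff_eq_zero_of_natDegree_lt (lt_of_le_of_lt (hS l).2 (by omega)), mul_zero]
  · have key : ∀ (d : ℕ) (f : Polynomial R), f.degree < d → f ∈ LinearMap.range (EE S) := by
      intro d
      induction d with
      | zero =>
        intro f hf
        have : f = 0 := by
          rw [← degree_eq_bot]
          exact Nat.WithBot.lt_zero_iff.1 hf
        rw [this]; exact Submodule.zero_mem _
      | succ d ih =>
        intro f hf
        have h1 : f - C (f.coeff d) * S d ∈ LinearMap.range (EE S) := by
          apply ih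
          rw [degree_lt_iff_coeff_zero]
          intro m hm
          rw [coeff_sub, coeff_C_mul]
          rcases Nat.eq_or_lt_of_le hm with h | h
          · rw [← h, (hS d).1, mul_one, sub_self]
          · rw [coeff_eq_zero_of_natDegree_lt (lt_of_le_of_lt (hS d).2 h), mul_zero, sub_zero]
            exact coeff_eq_zero_of_degree_lt (lt_of_lt_of_le hf (by exact_mod_cast h))
        have h2 : C (f.coeff d) * S d ∈ LinearMap.range (EE S) := by
          refine ⟨monomial d (f.coeff d), ?_⟩
          rw [EE_monomial, smul_eq_C_mul]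
        have h3 := Submodule.add_mem _ h1 h2
        rwa [sub_add_cancel] at h3
    intro f
    have h4 : f.degree < (f.natDegree + 1 : ℕ) := lt_of_le_of_lt degree_le_natDegree (by
      exact_mod_cast Nat.lt_succ_self _)
    exact LinearMap.mem_range.1 (key (f.natDegree + 1) f h4)

/-- the system -/
structure Sys (R : Type) [CommRing R] (N : ℕ) where
  A : Polynomial R
  η : ℕ → Polynomial R
  hA : UT A N
  hη : ∀ l, l < N → UT (η l) l

variable {N : ℕ} (s : Sys R N)

/-- the associated sequence -/
noncomputable def Sys.S (l : ℕ) : Polynomial R := if l < N then s.η l else s.A * X ^ (l - N)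

lemma Sys.hS (l : ℕ) : UT (s.S l) l := by
  unfold Sys.S
  split_ifs with h
  · exact s.hη l h
  · have := s.hA.mul (UT_X_pow (l - N))
    rwa [Nat.add_sub_cancel' (not_lt.1 h)] at this

/-- equivalence -/
noncomputable def Sys.eq : Polynomial R ≃ₗ[R] Polynomial R :=
  LinearEquiv.ofBijective (EE s.S) (EE_bij s.S s.hS)

lemma Sys.eq_apply (f : Polynomial R) : s.eq f = EE s.S f := rfl

/-- coordinates -/
noncomputable def Sys.lam (l : ℕ) : Polynomial R →ₗ[R] R :=
  (Polynomial.lcoeff R l) ∘ₗ s.eq.symm.toLinearMap

lemma Sys.lam_S (l l' : ℕ) : s.lam l (s.S l') = if l' = l then 1 else 0 := by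
  have h : s.eq.symm (s.S l') = monomial l' 1 := by
    rw [LinearEquiv.symm_apply_eq, s.eq_apply, EE_monomial, one_smul]
  show coeff (s.eq.symm (s.S l')) l = _
  rw [h, coeff_monomial]

lemma Sys.lam_η (l l' : ℕ) (hl' : l' < N) : s.lam l (s.η l') = if l' = l then 1 else 0 := by
  rw [← s.lam_S]
  congr 1
  unfold Sys.S
  rw [if_pos hl']

lemma Sys.lam_A (l : ℕ) (hl : l < N) (f : Polynomial R) : s.lam l (s.A * f) = 0 := by
  induction f using Polynomial.induction_on' with
  | add p q hp hq => rw [mul_add, map_add, hp, hq, add_zero]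
  | monomial n a =>
    have h : s.A * monomial n a = a • s.S (n + N) := by
      unfold Sys.S
      rw [if_neg (by omega), Nat.add_sub_cancel, ← C_mul_X_pow_eq_monomial, smul_eq_C_mul]
      ring
    rw [h, map_smul, s.lam_S, if_neg (by omega), smul_zero]

lemma Sys.sub_mem (f : Polynomial R) :
    f - ∑ l ∈ range N, s.lam l f • s.η l ∈ Ideal.span {s.A} := by
  obtain ⟨g, rfl⟩ := s.eq.surjective f
  induction g using Polynomial.induction_on' with
  | add p q hp hq =>
    have := Ideal.add_mem _ hp hq
    convert this using 1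
    simp only [map_add, add_smul, sum_add_distrib]
    ring
  | monomial n a =>
    rw [s.eq_apply, EE_monomial]
    simp only [map_smul, s.lam_S, smul_eq_mul, mul_ite, mul_one, mul_zero, ite_smul, zero_smul]
    rw [sum_ite_eq]
    split_ifs with h
    · unfold Sys.S
      rw [if_pos (mem_range.1 h), sub_self]
      exact Ideal.zero_mem _
    · rw [sub_zero]
      unfold Sys.S
      rw [if_neg (by simpa using h), smul_eq_C_mul, Ideal.mem_span_singleton]
      exact ⟨C a * X ^ (n - N), by ring⟩

end one

section multi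
open MvPolynomial
variable {R : Type} [CommRing R] {k N : ℕ}

/-- one-variable polynomial placed in the variable `i` -/
noncomputable def pl (i : Fin k) : Polynomial R →ₐ[R] MvPolynomial (Fin k) R := Polynomial.aeval (X i)

lemma prod_pl_monomial (e : Fin k →₀ ℕ) :
    ∏ i, pl (R := R) i (Polynomial.X ^ e i) = monomial e 1 := by
  rw [MvPolynomial.monomial_eq, C_1, one_mul, Finsupp.prod_fintype]
  · apply prod_congr rfl
    intro i _
    rw [pl, map_pow, Polynomial.aeval_X]
  · intro i; rw [pow_zero]

/-- product functional -/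
noncomputable def Lam (lam : ℕ → Polynomial R →ₗ[R] R) (l : Fin k → ℕ) :
    MvPolynomial (Fin k) R →ₗ[R] R :=
  (MvPolynomial.basisMonomials (Fin k) R).constr R (fun e => ∏ i, lam (l i) (Polynomial.X ^ e i))

lemma Lam_monomial (lam : ℕ → Polynomial R →ₗ[R] R) (l : Fin k → ℕ) (e : Fin k →₀ ℕ) :
    Lam lam l (monomial e 1) = ∏ i, lam (l i) (Polynomial.X ^ e i) := by
  have h : (monomial e 1 : MvPolynomial (Fin k) R) = (MvPolynomial.basisMonomials (Fin k) R) e := by
    rw [coe_basisMonomials]
  rw [h, Lam, Module.Basis.constr_basis]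

theorem Lam_prod (lam : ℕ → Polynomial R →ₗ[R] R) (l : Fin k → ℕ) (f : Fin k → Polynomial R) :
    Lam lam l (∏ i, pl i (f i)) = ∏ i, lam (l i) (f i) := by
  obtain ⟨D, hD⟩ : ∃ D, ∀ i, (f i).natDegree < D := by
    refine ⟨∑ i, (f i).natDegree + 1, fun i => Nat.lt_succ_of_le ?_⟩
    exact single_le_sum (f := fun i => (f i).natDegree) (fun i _ => Nat.zero_le _) (mem_univ i)
  have h1 : ∀ i, f i = ∑ j ∈ range D, (f i).coeff j • (Polynomial.X ^ j : Polynomial R) := by
    intro i
    conv_lhs => rw [(f i).as_sum_range' D (hD i)]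
    apply sum_congr rfl
    intro j _
    rw [Polynomial.smul_X_eq_monomial]
  have h2 : ∏ i, pl i (f i) = ∑ x ∈ Fintype.piFinset (fun _ : Fin k => range D),
      (∏ i, (f i).coeff (x i)) • ∏ i, pl i (Polynomial.X ^ x i : Polynomial R) := by
    have : ∏ i, pl i (f i) = ∏ i, ∑ j ∈ range D, (f i).coeff j • pl i (Polynomial.X ^ j : Polynomial R) := by
      apply prod_congr rfl
      intro i _
      conv_lhs => rw [h1 i]
      rw [map_sum]
      apply sum_congr rfl
      intro j _
      rw [map_smul]
    rw [this, prod_univ_sum]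
    apply sum_congr rfl
    intro x _
    rw [← Finset.prod_smul]
  have h3 : ∏ i, lam (l i) (f i) = ∑ x ∈ Fintype.piFinset (fun _ : Fin k => range D),
      (∏ i, (f i).coeff (x i)) * ∏ i, lam (l i) (Polynomial.X ^ x i : Polynomial R) := by
    have : ∏ i, lam (l i) (f i)
        = ∏ i, ∑ j ∈ range D, (f i).coeff j * lam (l i) (Polynomial.X ^ j : Polynomial R) := by
      apply prod_congr rfl
      intro i _
      conv_lhs => rw [h1 i]
      rw [map_sum]
      apply sum_congr rfl
      intro j _
      rw [map_smul, smul_eq_mul]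
    rw [this, prod_univ_sum]
    apply sum_congr rfl
    intro x _
    rw [prod_mul_distrib]
  rw [h2, h3, map_sum]
  apply sum_congr rfl
  intro x _
  rw [map_smul, smul_eq_mul]
  congr 1
  have h4 := prod_pl_monomial (R := R) (Finsupp.equivFunOnFinite.symm x)
  have h5 := Lam_monomial lam l (Finsupp.equivFunOnFinite.symm x)
  simp only [Finsupp.equivFunOnFinite_symm_apply_apply] at h4 h5
  rw [h4, h5]

/-- ideal generated by the `A(x_i)` and a constant -/
noncomputable def II (A : Polynomial R) (b : R) : Ideal (MvPolynomial (Fin k) R) :=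
  Ideal.span {C b} ⊔ Ideal.span (Set.range fun i : Fin k => pl i A)

lemma pl_mem (A : Polynomial R) (b : R) (i : Fin k) : pl i A ∈ II (k := k) A b :=
  Ideal.mem_sup_right (Ideal.subset_span ⟨i, rfl⟩)

lemma C_mem (A : Polynomial R) (b : R) : C b ∈ II (k := k) A b :=
  Ideal.mem_sup_left (Ideal.mem_span_singleton_self _)

lemma II_mono (A : Polynomial R) (b c : R) (h : c ∣ b) : II (k := k) A b ≤ II A c := by
  unfold II
  apply sup_le _ le_sup_right
  rw [Ideal.span_singleton_le_iff_mem]
  obtain ⟨u, rfl⟩ := h
  rw [C_mul]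
  exact Ideal.mul_mem_right _ _ (C_mem A c)

theorem Lam_II (lam : ℕ → Polynomial R →ₗ[R] R) (A : Polynomial R) (l : Fin k → ℕ)
    (h : ∀ i f, lam (l i) (A * f) = 0) (b : R) (p : MvPolynomial (Fin k) R) (hp : p ∈ II A b) :
    b ∣ Lam lam l p := by
  have key : ∀ i (a : MvPolynomial (Fin k) R), Lam lam l (a * pl i A) = 0 := by
    intro i a
    induction a using MvPolynomial.induction_on' with
    | add p q hp hq => rw [add_mul, map_add, hp, hq, add_zero]
    | monomial e c =>
      have h1 : monomial e c * pl i A
          = c • ∏ j, pl j ((if j = i then A else 1) * Polynomial.X ^ e j) := by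
        simp only [map_mul, prod_mul_distrib, prod_pl_monomial]
        rw [prod_eq_single_of_mem i (mem_univ _), if_pos rfl]
        · rw [mul_comm (pl i A), ← smul_mul_assoc, smul_monomial, smul_eq_mul, mul_one]
        · intro j _ hj
          rw [if_neg hj, map_one]
      rw [h1, map_smul, Lam_prod]
      rw [prod_eq_zero (mem_univ i), smul_zero]
      rw [if_pos rfl, h]
  unfold II at hp
  obtain ⟨x, hx, y, hy, rfl⟩ := Submodule.mem_sup.1 hp
  rw [map_add]
  apply dvd_add
  · obtain ⟨z, rfl⟩ := Ideal.mem_span_singleton'.1 hx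
    rw [mul_comm, ← smul_eq_C_mul, map_smul, smul_eq_mul]
    exact dvd_mul_right _ _
  · clear hp
    have : Lam lam l y = 0 := by
      induction hy using Submodule.span_induction with
      | mem x hx =>
        obtain ⟨i, rfl⟩ := hx
        have := key i 1
        rwa [one_mul] at this
      | zero => rw [map_zero]
      | add x y _ _ hx hy => rw [map_add, hx, hy, add_zero]
      | smul a x hx' hx =>
        clear hx
        induction hx' using Submodule.span_induction generalizing a with
        | mem x hx =>
          obtain ⟨i, rfl⟩ := hx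
          exact key i a
        | zero => rw [smul_zero, map_zero]
        | add x y _ _ hx hy => rw [smul_add, map_add, hx, hy, add_zero]
        | smul b x _ hx => rw [smul_smul]; exact hx _
    rw [this]
    exact dvd_zero _

/-- the reduced expansion -/
noncomputable def expn (s : Sys R N) (p : MvPolynomial (Fin k) R) : MvPolynomial (Fin k) R :=
  ∑ l ∈ Fintype.piFinset (fun _ : Fin k => range N), Lam s.lam l p • ∏ i, pl i (s.η (l i))

theorem sub_expn_mem (s : Sys R N) (p : MvPolynomial (Fin k) R) (b : R) :
    p - expn s p ∈ II s.A b := by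
  unfold expn
  induction p using MvPolynomial.induction_on' with
  | add p q hp hq =>
    have := Ideal.add_mem _ hp hq
    convert this using 1
    simp only [map_add, add_smul, sum_add_distrib]
    ring
  | monomial e c =>
    have h1 : (monomial e c : MvPolynomial (Fin k) R) = c • monomial e 1 := by
      rw [smul_monomial, smul_eq_mul, mul_one]
    rw [h1]
    simp only [map_smul, smul_assoc]
    rw [← smul_sum, ← smul_sub, smul_eq_C_mul]
    apply Ideal.mul_mem_left
    rw [← Ideal.Quotient.mk_eq_mk_iff_sub_mem]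
    simp only [Lam_monomial]
    rw [← prod_pl_monomial, map_prod]
    have h2 : ∀ i, Ideal.Quotient.mk (II (k := k) s.A b) (pl i (Polynomial.X ^ e i))
        = ∑ j ∈ range N, Ideal.Quotient.mk (II (k := k) s.A b)
          (s.lam j (Polynomial.X ^ e i) • pl i (s.η j)) := by
      intro i
      rw [← map_sum, Ideal.Quotient.mk_eq_mk_iff_sub_mem]
      have h3 := s.sub_mem (Polynomial.X ^ e i)
      obtain ⟨z, hz⟩ := Ideal.mem_span_singleton'.1 h3
      have h4 := congrArg (pl (k := k) i) hz
      rw [map_sub, map_sum, map_mul] at h4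
      simp only [map_smul] at h4
      rw [← h4]
      exact Ideal.mul_mem_left _ _ (pl_mem _ _ _)
    rw [prod_congr rfl (fun i _ => h2 i), prod_univ_sum, map_sum]
    apply sum_congr rfl
    intro l _
    rw [← map_prod]
    congr 1
    rw [← Finset.prod_smul]

lemma Lam_η (s : Sys R N) (l l' : Fin k → ℕ) (hl' : ∀ i, l' i < N) :
    Lam s.lam l (∏ i, pl i (s.η (l' i))) = if l' = l then 1 else 0 := by
  rw [Lam_prod]
  have : ∀ i, s.lam (l i) (s.η (l' i)) = if l' i = l i then 1 else 0 := by
    intro i
    rw [s.lam_η _ _ (hl' i)]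
  rw [prod_congr rfl (fun i _ => this i)]
  split_ifs with h
  · rw [h]
    simp
  · obtain ⟨i, hi⟩ := Function.ne_iff.1 h
    exact prod_eq_zero (mem_univ i) (if_neg hi)

end multi

end Pool.Agent.H268R3.LRS
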