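import Pool.Agent.H268R3.LRS.Ext

set_option autoImplicit false

open Finset MvPolynomial Pool.Agent.H268R3.Soc

namespace Pool.Agent.H268R3.LRS

variable {F : Type} [Field F] [Fintype F]

/-- quasi-invariance -/
def QI (m : ℕ) {n : ℕ} (f : MvPolynomial (Fin n) F) : Prop :=
  ∀ g : Matrix (Fin n) (Fin n) F, IsUnit g.det → act g f - f ∈ JN F (Fintype.card F ^ m) n

lemma top_case (n m : ℕ) (f : MvPolynomial (Fin n) F)
    (h : coeff (xt n (Fintype.card F ^ m - 1) (0 : Fin 0 →₀ ℕ)) f ≠ 0) :
    LL F 0 * rr n 0 (Fintype.card F ^ m - Fintype.card F ^ 0) f ∉ JN F (Fintype.card F ^ m) 0 := by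
  intro hc
  have hL : LL F 0 = 1 := by unfold LL; rw [Matrix.det_fin_zero]
  rw [hL, one_mul, pow_zero] at hc
  have h1 := coeff_JN _ hc 0 (fun i => i.elim0)
  rw [coeff_rr n 0 _ (Nat.zero_le n)] at h1
  exact h h1

lemma phi_Yh {k : ℕ} (f : MvPolynomial (Fin k) F) :
    phi (Yh f) = Xi F (Polynomial.X : Polynomial F) (MvPolynomial.map Polynomial.C f) := by
  have h : (phi (B := F) (k := k)).comp (Yh (F := F) (n := k)).toRingHom
      = (Xi F (Polynomial.X : Polynomial F)).toRingHom.comp (MvPolynomial.map Polynomial.C) := by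
    apply ringHom_ext
    · intro r
      show phi (Yh (C r)) = Xi F Polynomial.X (MvPolynomial.map Polynomial.C (C r))
      rw [MvPolynomial.map_C, ← algebraMap_eq (Polynomial F), AlgHom.commutes, algebraMap_eq, Yh_C, phi_C]
    · intro i
      show phi (Yh (X i)) = Xi F Polynomial.X (MvPolynomial.map Polynomial.C (X i))
      rw [MvPolynomial.map_X, Yh_X]
      unfold Xi DD
      rw [aeval_X, lf_single, map_sub, map_mul, map_pow, map_pow, phi_Xs, phi_X0]
      unfold xi xe
      rw [map_sub, map_mul, map_pow]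
      have h1 : pl (k := k) i (Polynomial.C (Polynomial.X ^ (Fintype.card F - 1) : Polynomial F))
          = C (Polynomial.X ^ (Fintype.card F - 1)) := by
        unfold pl; rw [Polynomial.aeval_C]; rfl
      have h2 : pl (k := k) i (Polynomial.X : Polynomial (Polynomial F)) = X i := by
        unfold pl; rw [Polynomial.aeval_X]
      rw [h1, h2, map_pow]
  exact congrArg (fun h : MvPolynomial (Fin k) F →+* MvPolynomial (Fin k) (Polynomial F) => h f) h

lemma Xi_mod {k : ℕ} (f : MvPolynomial (Fin k) F) : ∃ r,
    Xi F (Polynomial.X : Polynomial F) (MvPolynomial.map Polynomial.C f)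
      = MvPolynomial.map Polynomial.C (expand (Fintype.card F) f) + C Polynomial.X * r := by
  have hq : 1 < Fintype.card F := Fintype.one_lt_card
  induction f using MvPolynomial.induction_on with
  | C a =>
    refine ⟨0, ?_⟩
    rw [mul_zero, add_zero, expand_C, MvPolynomial.map_C, ← algebraMap_eq (Polynomial F), AlgHom.commutes]
  | add p q hp hq =>
    obtain ⟨r, hr⟩ := hp
    obtain ⟨s, hs⟩ := hq
    refine ⟨r + s, ?_⟩
    rw [map_add, map_add, hr, hs, map_add, map_add]
    ring
  | mul_X p i hp =>
    obtain ⟨r, hr⟩ := hp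
    have h1 : Xi F (Polynomial.X : Polynomial F) (X i : MvPolynomial (Fin k) (Polynomial F))
        = X i ^ Fintype.card F - C Polynomial.X * (C (Polynomial.X ^ (Fintype.card F - 2)) * X i) := by
      unfold Xi
      rw [aeval_X]
      unfold xi xe
      have h1 : pl (k := k) i (Polynomial.C (Polynomial.X ^ (Fintype.card F - 1) : Polynomial F))
          = C (Polynomial.X ^ (Fintype.card F - 1)) := by
        unfold pl; rw [Polynomial.aeval_C]; rfl
      have h2 : pl (k := k) i (Polynomial.X : Polynomial (Polynomial F)) = X i := by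
        unfold pl; rw [Polynomial.aeval_X]
      rw [map_sub, map_mul, map_pow, h1, h2]
      have h3 : (Polynomial.X : Polynomial F) ^ (Fintype.card F - 1)
          = Polynomial.X * Polynomial.X ^ (Fintype.card F - 2) := by
        rw [← pow_succ']
        congr 1
        omega
      rw [h3, C_mul]
      ring
    refine ⟨r * X i ^ Fintype.card F
      - (MvPolynomial.map Polynomial.C (expand (Fintype.card F) p) + C Polynomial.X * r)
        * (C (Polynomial.X ^ (Fintype.card F - 2)) * X i), ?_⟩
    have h4 : MvPolynomial.map Polynomial.C ((X i : MvPolynomial (Fin k) F) ^ Fintype.card F)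
        = (X i : MvPolynomial (Fin k) (Polynomial F)) ^ Fintype.card F := by
      rw [map_pow, MvPolynomial.map_X]
    rw [map_mul, map_mul, MvPolynomial.map_X, hr, h1, map_mul, expand_X, map_mul, h4]
    ring

lemma rrphi (n k e : ℕ) (f : MvPolynomial (Fin (n + 1)) F) :
    phi (rr (n + 1) (k + 1) e f) = rr n k e (phi f) := by
  have h : (MvPolynomial.map (phi (B := F) (k := k))).comp (Th (R := F) (n + 1) (k + 1)).toRingHom
      = ((rename (R := MvPolynomial (Fin k) (Polynomial F)) Fin.succ).toRingHom.comp
        (Th (R := Polynomial F) n k).toRingHom).comp (phi (B := F) (k := n)) := by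
    have hC : ∀ (R : Type) [CommRing R] (n k : ℕ) (c : R), Th n k (C c : MvPolynomial (Fin n) R) = C (C c) := by
      intro R _ n k c; rw [← algebraMap_eq, AlgHom.commutes]; rfl
    have hT : ∀ (R : Type) [CommRing R] (n k : ℕ) (i : Fin n), Th (R := R) n k (X i)
        = if h : i.val < k then C (X ⟨i.val, h⟩) else X i := by
      intro R _ n k i
      unfold Th; rw [aeval_X]
    apply ringHom_ext
    · intro r
      show MvPolynomial.map phi (Th (n + 1) (k + 1) (C r)) = rename Fin.succ (Th n k (phi (C r)))
      rw [hC, MvPolynomial.map_C, phi_C, phi_C, hC, rename_C]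
    · intro i
      show MvPolynomial.map phi (Th (n + 1) (k + 1) (X i)) = rename Fin.succ (Th n k (phi (X i)))
      rw [hT]
      refine Fin.cases ?_ (fun i => ?_) i
      · rw [dif_pos (show (0 : Fin (n + 1)).val < k + 1 from Nat.succ_pos k), MvPolynomial.map_C, phi_X0, hC,
          rename_C]
        congr 1
        exact phi_X0
      · rw [phi_Xs, hT]
        by_cases h : i.val < k
        · rw [dif_pos (show i.succ.val < k + 1 by rw [Fin.val_succ]; omega), dif_pos h, MvPolynomial.map_C,
            rename_C]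
          congr 1
          exact phi_Xs (⟨i.val, h⟩ : Fin k)
        · rw [dif_neg (show ¬ i.succ.val < k + 1 by rw [Fin.val_succ]; omega), dif_neg h, MvPolynomial.map_X,
            rename_X]
  have h2 := congrArg (fun h : MvPolynomial (Fin (n + 1)) F →+*
    MvPolynomial (Fin (n + 1)) (MvPolynomial (Fin k) (Polynomial F)) => h f) h
  have h3 : MvPolynomial.map (phi (B := F) (k := k)) (Th (R := F) (n + 1) (k + 1) f)
      = rename Fin.succ (Th (R := Polynomial F) n k (phi f)) := h2
  have h4 : ex (n + 1) (k + 1) e = (ex n k e).mapDomain Fin.succ := by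
    ext i
    refine Fin.cases ?_ (fun i => ?_) i
    · rw [ex_apply, if_pos (show (0 : Fin (n + 1)).val < k + 1 from Nat.succ_pos k),
        Finsupp.mapDomain_notin_range]
      rintro ⟨x, hx⟩
      exact Fin.succ_ne_zero x hx
    · rw [Finsupp.mapDomain_apply (Fin.succ_injective n), ex_apply, ex_apply, Fin.val_succ]
      by_cases h : i.val < k
      · rw [if_pos h, if_pos (by omega)]
      · rw [if_neg h, if_neg (by omega)]
  rw [rr_apply, rr_apply, ← coeff_map, h3, h4, coeff_rename_mapDomain _ (Fin.succ_injective n)]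

lemma AP_R {B : Type} [CommRing B] [Algebra F B] (f : F →+* B) (m : ℕ) :
    AP F (fun i => f (am m i)) m = (Polynomial.X : Polynomial B) ^ (Fintype.card F ^ m) := by
  unfold AP av am
  rw [Finset.sum_eq_single_of_mem m (mem_range.2 (Nat.lt_succ_self _))]
  · beta_reduce
    rw [if_pos rfl, map_one, Polynomial.C_1, one_mul]
  · intro j _ hj
    beta_reduce
    rw [if_neg hj, map_zero, Polynomial.C_0, zero_mul]

lemma qa_R (m : ℕ) : qa F (Polynomial.X : Polynomial F) (fun i => Polynomial.C (am m i)) m
    = Polynomial.X ^ (Fintype.card F ^ m - 1) := by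
  unfold qa am
  rw [Finset.sum_eq_single_of_mem m (mem_range.2 (Nat.lt_succ_self _))]
  · beta_reduce
    rw [if_pos rfl, Polynomial.C_1, one_mul]
  · intro j _ hj
    beta_reduce
    rw [if_neg hj, Polynomial.C_0, zero_mul]

lemma lemZ {k N j : ℕ} (z : MvPolynomial (Fin k) F)
    (h : C (Polynomial.X ^ j) * MvPolynomial.map Polynomial.C z
      ∈ II (k := k) ((Polynomial.X : Polynomial (Polynomial F)) ^ N) (Polynomial.X ^ (j + 1))) :
    z ∈ JN F N k := by
  rw [mem_JN]
  intro e he
  by_contra hcon
  push Not at hcon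
  have h1 := (mem_II _ _).1 h e hcon
  rw [coeff_C_mul, coeff_map, pow_succ, mul_dvd_mul_iff_left (pow_ne_zero _ Polynomial.X_ne_zero),
    Polynomial.X_dvd_iff, Polynomial.coeff_C_zero] at h1
  exact he h1

lemma expand_JN {k m : ℕ} (z : MvPolynomial (Fin k) F)
    (h : expand (Fintype.card F) z ∈ JN F (Fintype.card F ^ (m + 1)) k) :
    z ∈ JN F (Fintype.card F ^ m) k := by
  have hq : 0 < Fintype.card F := Fintype.card_pos
  rw [mem_JN] at h ⊢
  intro e he
  obtain ⟨i, hi⟩ := h (Fintype.card F • e) (by rwa [coeff_expand_smul _ hq.ne'])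
  refine ⟨i, ?_⟩
  rw [Finsupp.smul_apply, smul_eq_mul, pow_succ'] at hi
  exact Nat.le_of_mul_le_mul_left hi hq

end Pool.Agent.H268R3.LRS
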