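import Pool.Agent.H268R3.LRS.Inj

set_option autoImplicit false

open Finset MvPolynomial Pool.Agent.H268R3.Soc

namespace Pool.Agent.H268R3.LRS

variable {F : Type} [Field F] [Fintype F]

lemma case_top (n m : ℕ) (f : MvPolynomial (Fin (n + 1)) F) (hf : QI (m + 1) f)
    (hf0 : f ∉ JN F (Fintype.card F ^ (m + 1)) (n + 1))
    (hX : X 0 * f ∈ JN F (Fintype.card F ^ (m + 1)) (n + 1)) :
    coeff (xt (n + 1) (Fintype.card F ^ (m + 1) - 1) (0 : Fin 0 →₀ ℕ)) f ≠ 0 := by
  have hXi : ∀ i, X i * f ∈ JN F (Fintype.card F ^ (m + 1)) (n + 1) := by
    intro i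
    obtain ⟨g, hg, hgi⟩ := exists_gl (F := F) 0 (Pi.single i 1) (by
      intro h
      have := congrFun h i
      simp at this)
    have h1 := act_JN (m + 1) g _ hX
    rw [map_mul, ← lf_single 0, act_lf, hgi, lf_single] at h1
    have h2 := Ideal.mul_mem_left _ (X i) (hf g hg)
    have := Ideal.sub_mem _ h1 h2
    convert this using 1
    ring
  rw [mem_JN] at hf0
  push Not at hf0
  obtain ⟨e, he, her⟩ := hf0
  have h1 : e = xt (n + 1) (Fintype.card F ^ (m + 1) - 1) (0 : Fin 0 →₀ ℕ) := by
    ext i
    rw [xt_apply, dif_neg (Nat.not_lt_zero _)]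
    by_contra hne
    have hlt : e i < Fintype.card F ^ (m + 1) - 1 := by
      have := her i
      omega
    have h2 := coeff_JN _ (hXi i) (Finsupp.single i 1 + e) (by
      intro j
      rw [Finsupp.add_apply]
      by_cases hj : i = j
      · subst hj
        rw [Finsupp.single_eq_same]
        omega
      · rw [Finsupp.single_apply, if_neg hj, zero_add]
        exact her j)
    rw [coeff_X_mul] at h2
    exact he h2
  rw [← h1]
  exact he

theorem inj_main (m : ℕ) : ∀ (n : ℕ) (f : MvPolynomial (Fin n) F), QI m f →
    f ∉ JN F (Fintype.card F ^ m) n →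
    ∃ k, k ≤ n ∧ k ≤ m ∧ LL F k * rr n k (Fintype.card F ^ m - Fintype.card F ^ k) f
      ∉ JN F (Fintype.card F ^ m) k := by
  have hq : 1 < Fintype.card F := Fintype.one_lt_card
  induction m with
  | zero =>
    intro n f _ hf0
    refine ⟨0, Nat.zero_le _, le_refl _, top_case n 0 f ?_⟩
    rw [mem_JN] at hf0
    push Not at hf0
    obtain ⟨e, he, her⟩ := hf0
    have h1 : e = xt n (Fintype.card F ^ 0 - 1) (0 : Fin 0 →₀ ℕ) := by
      ext i
      rw [xt_apply, dif_neg (Nat.not_lt_zero _)]
      have := her i
      rw [pow_zero] at this ⊢
      omega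
    rw [← h1]
    exact he
  | succ m ih =>
    intro n f hf hf0
    cases n with
    | zero =>
      refine ⟨0, Nat.zero_le _, Nat.zero_le _, top_case 0 (m + 1) f ?_⟩
      rw [mem_JN] at hf0
      push Not at hf0
      obtain ⟨e, he, _⟩ := hf0
      have h1 : e = xt 0 (Fintype.card F ^ (m + 1) - 1) (0 : Fin 0 →₀ ℕ) := Subsingleton.elim _ _
      rw [← h1]
      exact he
    | succ n =>
      set N := Fintype.card F ^ (m + 1) with hN
      have hNpos : 0 < N := pow_pos (by omega) _
      set αR : ℕ → Polynomial F := fun i => Polynomial.C (am (m + 1) i) with hαR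
      have ham : am (F := F) (m + 1) (m + 1) = 1 := if_pos rfl
      have hαR1 : αR (m + 1) = 1 := by
        rw [hαR]; show Polynomial.C (am (m + 1) (m + 1)) = 1; rw [ham, Polynomial.C_1]
      have hAR : AP F αR (m + 1) = (Polynomial.X : Polynomial (Polynomial F)) ^ N :=
        AP_R (F := F) Polynomial.C (m + 1)
      have hAX : AP F (am (F := F) (m + 1)) (m + 1) = (Polynomial.X : Polynomial F) ^ N :=
        AP_R (F := F) (RingHom.id F) (m + 1)
      have hqa : qa F (Polynomial.X : Polynomial F) αR (m + 1) = Polynomial.X ^ (N - 1) := qa_R (m + 1)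
      set p' := phi f with hp'
      have hp : ∀ g : Matrix (Fin (n + 1)) (Fin (n + 1)) F, IsUnit g.det →
          actC g f - f ∈ II (AP F (am (F := F) (m + 1)) (m + 1)) 0 := by
        intro g hg
        rw [II_am, actC_self]
        exact hf g hg
      have hsc : ∀ c : F, c ≠ 0 → MvPolynomial.map (sc c) p' - p'
          ∈ II (AP F αR (m + 1)) (AP F (am (F := F) (m + 1)) (m + 1)) := by
        intro c hc
        have h1 := phi_mem (F := F) _ (m + 1) _ (hp (Matrix.diagonal (Fin.cases c (fun _ => 1))) (by
          rw [Matrix.det_diagonal, Fin.prod_univ_succ]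
          simp [hc]))
        rwa [map_sub, phi_diag] at h1
      have htr : ∀ i : Fin n, TT Polynomial.X i p' - p'
          ∈ II (AP F αR (m + 1)) (AP F (am (F := F) (m + 1)) (m + 1)) := by
        intro i
        have h1 := phi_mem (F := F) _ (m + 1) _ (hp (Matrix.transvection 0 i.succ (1 : F)) (by
          rw [Matrix.det_transvection_of_ne _ _ (Fin.succ_ne_zero i).symm]
          exact isUnit_one))
        rwa [map_sub, phi_tr] at h1
      have hγ : ∀ g : Matrix (Fin n) (Fin n) F, IsUnit g.det → actC g p' - p'
          ∈ II (AP F αR (m + 1)) (AP F (am (F := F) (m + 1)) (m + 1)) := by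
        intro g hg
        have h1 := phi_mem (F := F) _ (m + 1) _ (hp (blk g) (by rw [blk_det]; exact hg))
        rwa [map_sub, phi_blk] at h1
      set ph := phat F (Polynomial.X : Polynomial F) αR m hαR1 p' with hph
      have hph1 : p' - Xi F (Polynomial.X : Polynomial F) ph
          ∈ II (AP F αR (m + 1)) (qa F (Polynomial.X : Polynomial F) αR (m + 1)) :=
        phat_spec F _ αR m hαR1 p' _ (div_all _ m ham hαR1 p' hsc htr)
      rw [hAR, hqa] at hph1
      set Λ : (Fin n → ℕ) → Polynomial F := fun e =>
        Lam (bigSys F (Polynomial.X : Polynomial F) αR (m + 1) hαR1).lam (fun i => Fintype.card F * e i) p' with hΛ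
      have hphΛ : ph = ∑ e ∈ Fintype.piFinset (fun _ : Fin n => range (Fintype.card F ^ m)),
          Λ e • ∏ i, pl i (Polynomial.X ^ e i) := rfl
      by_cases hC : ∀ e : Fin n → ℕ, (∀ i, e i < Fintype.card F ^ m) → Polynomial.X ^ (N - 1) ∣ Λ e
      · -- top case
        refine ⟨0, Nat.zero_le _, Nat.zero_le _, top_case (n + 1) (m + 1) f (case_top n m f hf hf0 ?_)⟩
        have h1 : ∃ w, ph = C (Polynomial.X ^ (N - 1)) * w := by
          have h2 : ph ∈ Ideal.span {(C (Polynomial.X ^ (N - 1)) : MvPolynomial (Fin n) (Polynomial F))} := by
            rw [hphΛ]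
            apply Ideal.sum_mem
            intro e he
            rw [Fintype.mem_piFinset] at he
            obtain ⟨u, hu⟩ := hC e (fun i => mem_range.1 (he i))
            rw [hu, smul_eq_C_mul, C_mul, mul_assoc]
            exact Ideal.mul_mem_right _ _ (Ideal.mem_span_singleton_self _)
          obtain ⟨w, hw⟩ := Ideal.mem_span_singleton'.1 h2
          exact ⟨w, by rw [← hw, mul_comm]⟩
        obtain ⟨w, hw⟩ := h1
        have h3 : p' ∈ II (k := n) ((Polynomial.X : Polynomial (Polynomial F)) ^ N) (Polynomial.X ^ (N - 1)) := by
          have h4 : Xi F (Polynomial.X : Polynomial F) ph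
              ∈ II (k := n) ((Polynomial.X : Polynomial (Polynomial F)) ^ N) (Polynomial.X ^ (N - 1)) := by
            rw [hw, map_mul, ← algebraMap_eq, AlgHom.commutes, algebraMap_eq]
            exact Ideal.mul_mem_right _ _ (C_mem _ _)
          have := Ideal.add_mem _ hph1 h4
          rwa [sub_add_cancel] at this
        have h5 := psi_mem (F := F) (am (F := F) (m + 1)) (m + 1) p' (by
          show p' ∈ II (AP F αR (m + 1)) (qa F (Polynomial.X : Polynomial F) αR (m + 1))
          rw [hAR, hqa]; exact h3)
        rw [hp', psi_phi, II_am] at h5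
        exact h5
      · -- the main case
        have hex : ∃ j, ¬ ∀ e : Fin n → ℕ, (∀ i, e i < Fintype.card F ^ m) → Polynomial.X ^ j ∣ Λ e := ⟨N - 1, hC⟩
        obtain ⟨j, hj1, hj2, hj3⟩ : ∃ j, j + 1 ≤ N - 1 ∧
            (∀ e : Fin n → ℕ, (∀ i, e i < Fintype.card F ^ m) → Polynomial.X ^ j ∣ Λ e) ∧
            ¬ (∀ e : Fin n → ℕ, (∀ i, e i < Fintype.card F ^ m) → Polynomial.X ^ (j + 1) ∣ Λ e) := by
          classical
          have h0 : Nat.find hex ≠ 0 := by
            intro h
            have := Nat.find_spec hex
            rw [h] at this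
            apply this
            intro e _
            rw [pow_zero]
            exact one_dvd _
          refine ⟨Nat.find hex - 1, ?_, ?_, ?_⟩
          · have := Nat.find_min' hex hC
            omega
          · have := Nat.find_min hex (show Nat.find hex - 1 < Nat.find hex by omega)
            rwa [not_not] at this
          · have := Nat.find_spec hex
            rwa [Nat.sub_add_cancel (by omega)]
        have hμ : ∀ e : Fin n → ℕ, ∃ u : Polynomial F, (∀ i, e i < Fintype.card F ^ m) → Λ e = Polynomial.X ^ j * u := by
          intro e
          by_cases he : ∀ i, e i < Fintype.card F ^ m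
          · obtain ⟨u, hu⟩ := hj2 e he
            exact ⟨u, fun _ => hu⟩
          · exact ⟨0, fun h => absurd h he⟩
        choose μ hμ using hμ
        set M : MvPolynomial (Fin n) (Polynomial F) :=
          ∑ e ∈ Fintype.piFinset (fun _ : Fin n => range (Fintype.card F ^ m)),
            μ e • ∏ i, pl i (Polynomial.X ^ e i) with hM
        have hphM : ph = C (Polynomial.X ^ j) * M := by
          rw [hphΛ, hM, mul_sum]
          apply sum_congr rfl
          intro e he
          rw [Fintype.mem_piFinset] at he
          rw [hμ e (fun i => mem_range.1 (he i)), smul_eq_C_mul, smul_eq_C_mul, C_mul, mul_assoc]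
        have hMc : ∀ e : Fin n →₀ ℕ, coeff e M = if (∀ i, e i < Fintype.card F ^ m) then μ e else 0 := by
          intro e
          rw [hM, coeff_sum]
          have h1 : ∀ e' : Fin n → ℕ, coeff e (μ e' • ∏ i, pl i (Polynomial.X ^ e' i : Polynomial (Polynomial F)))
              = if e' = e then μ e' else 0 := by
            intro e'
            have h2 := prod_pl_monomial (R := Polynomial F) (Finsupp.equivFunOnFinite.symm e')
            simp only [Finsupp.equivFunOnFinite_symm_apply_apply] at h2
            rw [h2, coeff_smul, coeff_monomial]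
            by_cases h : e' = e
            · rw [if_pos h, if_pos, smul_eq_mul, mul_one]
              ext i
              rw [← h]; rfl
            · rw [if_neg h, if_neg, smul_zero]
              intro h'
              apply h
              rw [← h']
              rfl
          simp only [h1]
          rw [sum_ite_eq']
          congr 1
          rw [Fintype.mem_piFinset]
          simp only [mem_range]
        set h : MvPolynomial (Fin n) F := MvPolynomial.map Polynomial.constantCoeff M with hh
        have hhc : ∀ e, coeff e h = if (∀ i, e i < Fintype.card F ^ m) then (μ e).coeff 0 else 0 := by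
          intro e
          rw [hh, coeff_map, hMc]
          split_ifs
          · rfl
          · exact map_zero _
        have hMh : ∃ r, M = MvPolynomial.map Polynomial.C h + C Polynomial.X * r := by
          have h3 : M - MvPolynomial.map Polynomial.C h
              ∈ (Ideal.span {(Polynomial.X : Polynomial F)}).map (C : Polynomial F →+* MvPolynomial (Fin n) (Polynomial F)) := by
            rw [MvPolynomial.mem_map_C_iff]
            intro e
            rw [Ideal.mem_span_singleton, Polynomial.X_dvd_iff, coeff_sub, coeff_map, hh, coeff_map,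
              Polynomial.coeff_sub, Polynomial.coeff_C_zero]
            exact sub_self _
          rw [Ideal.map_span, Set.image_singleton] at h3
          obtain ⟨r, hr⟩ := Ideal.mem_span_singleton'.1 h3
          exact ⟨r, by rw [mul_comm, hr]; ring⟩
        have hh0 : h ∉ JN F (Fintype.card F ^ m) n := by
          intro hcon
          apply hj3
          intro e he
          have h1 := coeff_JN _ hcon (Finsupp.equivFunOnFinite.symm e) he
          have he' : ∀ i, (Finsupp.equivFunOnFinite.symm e : Fin n →₀ ℕ) i < Fintype.card F ^ m := he
          rw [hhc, if_pos he'] at h1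
          have h2 : Polynomial.X ∣ μ e := Polynomial.X_dvd_iff.2 h1
          rw [hμ e he, pow_succ]
          exact mul_dvd_mul_left _ h2
        obtain ⟨r1, hr1⟩ := hMh
        obtain ⟨r2, hr2⟩ := Xi_mod h
        have hstar : p' - C (Polynomial.X ^ j) * MvPolynomial.map Polynomial.C (expand (Fintype.card F) h)
            ∈ II (k := n) ((Polynomial.X : Polynomial (Polynomial F)) ^ N) (Polynomial.X ^ (j + 1)) := by
          have h1 : Xi F (Polynomial.X : Polynomial F) ph
              = C (Polynomial.X ^ j) * MvPolynomial.map Polynomial.C (expand (Fintype.card F) h)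
                + C (Polynomial.X ^ (j + 1)) * (r2 + Xi F Polynomial.X r1) := by
            have hXC : ∀ c : Polynomial F, Xi F (Polynomial.X : Polynomial F) (C c : MvPolynomial (Fin n) (Polynomial F)) = C c := by
              intro c
              rw [← algebraMap_eq, AlgHom.commutes]
            rw [hphM, map_mul, hr1, map_add, map_mul, hr2, hXC, hXC, pow_succ, C_mul]
            ring
          have h2 := II_mono (k := n) ((Polynomial.X : Polynomial (Polynomial F)) ^ N) (Polynomial.X ^ (N - 1))
            (Polynomial.X ^ (j + 1)) (pow_dvd_pow _ hj1) hph1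
          have h3 := Ideal.add_mem _ h2 (Ideal.mul_mem_right (r2 + Xi F Polynomial.X r1) _
            (C_mem (k := n) ((Polynomial.X : Polynomial (Polynomial F)) ^ N) (Polynomial.X ^ (j + 1))))
          convert h3 using 1
          rw [h1]; ring
        have hQI : QI m h := by
          intro g hg
          have h1 := hγ g hg
          rw [hAR, hAX] at h1
          have h2 := II_mono (k := n) ((Polynomial.X : Polynomial (Polynomial F)) ^ N) (Polynomial.X ^ N)
            (Polynomial.X ^ (j + 1)) (pow_dvd_pow _ (by omega)) h1
          have h3 : actC g (p' - C (Polynomial.X ^ j) * MvPolynomial.map Polynomial.C (expand (Fintype.card F) h))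
              ∈ II (k := n) ((Polynomial.X : Polynomial (Polynomial F)) ^ N) (Polynomial.X ^ (j + 1)) := by
            rw [← hAR] at hstar ⊢
            exact actC_mem g αR (m + 1) _ _ hstar
          rw [map_sub, map_mul, actC_C] at h3
          have h4 : actC g (MvPolynomial.map Polynomial.C (expand (Fintype.card F) h))
              = MvPolynomial.map Polynomial.C (act g (expand (Fintype.card F) h)) :=
            actC_base (B := Polynomial F) g _
          rw [h4] at h3
          have h5 : C (Polynomial.X ^ j) * MvPolynomial.map Polynomial.C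
              (act g (expand (Fintype.card F) h) - expand (Fintype.card F) h)
              ∈ II (k := n) ((Polynomial.X : Polynomial (Polynomial F)) ^ N) (Polynomial.X ^ (j + 1)) := by
            have := Ideal.add_mem _ (Ideal.sub_mem _ h2 h3) hstar
            convert this using 1
            rw [map_sub]; ring
          have h6 := lemZ _ h5
          rw [← expand_act, ← map_sub] at h6
          exact expand_JN _ h6
        obtain ⟨k, hkn, hkm, hk⟩ := ih n h hQI hh0
        refine ⟨k + 1, by omega, by omega, ?_⟩
        intro hcon
        apply hk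
        set e' := Fintype.card F ^ m - Fintype.card F ^ k with he'
        have hee : N - Fintype.card F ^ (k + 1) = Fintype.card F * e' := by
          rw [hN, he', Nat.mul_sub, pow_succ', pow_succ']
        have heN : Fintype.card F * e' < N := by
          have : 0 < Fintype.card F ^ (k + 1) := pow_pos (by omega) _
          omega
        rw [hee, ← II_am (F := F) (m + 1)] at hcon
        have h1 := phi_mem (F := F) _ (m + 1) _ hcon
        rw [map_mul, rrphi, LL_succ, map_mul, phi_X0, phi_Yh, ← hp'] at h1
        have h1' : C Polynomial.X * Xi F Polynomial.X (MvPolynomial.map Polynomial.C (LL F k))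
            * rr n k (Fintype.card F * e') p'
            ∈ II (k := k) ((Polynomial.X : Polynomial (Polynomial F)) ^ N) (Polynomial.X ^ N) := by
          rw [← hAR, ← hAX]; exact h1
        obtain ⟨r3, hr3⟩ := Xi_mod (LL F k)
        have h2 := rr_II n k (Fintype.card F * e') N hkn heN _ _ hstar
        set ρ := rr n k e' h with hρ
        have h3 : rr n k (Fintype.card F * e') (C (Polynomial.X ^ j)
            * MvPolynomial.map Polynomial.C (expand (Fintype.card F) h))
            = C (Polynomial.X ^ j) * MvPolynomial.map Polynomial.C (expand (Fintype.card F) ρ) := by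
          rw [← smul_eq_C_mul, map_smul, rr_map _ _ _ _ hkn, rr_expand, smul_eq_C_mul]
        rw [map_sub, h3] at h2
        set y := rr n k (Fintype.card F * e') p'
          - C (Polynomial.X ^ j) * MvPolynomial.map Polynomial.C (expand (Fintype.card F) ρ) with hy
        have h4 : C (Polynomial.X ^ (j + 1)) * MvPolynomial.map Polynomial.C
            (expand (Fintype.card F) (LL F k * ρ))
            ∈ II (k := k) ((Polynomial.X : Polynomial (Polynomial F)) ^ N) (Polynomial.X ^ (j + 1 + 1)) := by
          have h5 := II_mono (k := k) ((Polynomial.X : Polynomial (Polynomial F)) ^ N) (Polynomial.X ^ N)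
            (Polynomial.X ^ (j + 1 + 1)) (pow_dvd_pow _ (by omega)) h1'
          have h6 : C Polynomial.X * y
              ∈ II (k := k) ((Polynomial.X : Polynomial (Polynomial F)) ^ N) (Polynomial.X ^ (j + 1 + 1)) := by
            rw [mem_II] at h2 ⊢
            intro e he
            rw [coeff_C_mul, pow_succ']
            exact mul_dvd_mul_left _ (h2 e he)
          have h7 := Ideal.sub_mem _ (Ideal.sub_mem _ h5 (Ideal.mul_mem_left _
            (Xi F Polynomial.X (MvPolynomial.map Polynomial.C (LL F k))) h6))
            (Ideal.mul_mem_right (r3 * MvPolynomial.map Polynomial.C (expand (Fintype.card F) ρ)) _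
            (C_mem (k := k) ((Polynomial.X : Polynomial (Polynomial F)) ^ N) (Polynomial.X ^ (j + 1 + 1))))
          convert h7 using 1
          have h8 : rr n k (Fintype.card F * e') p'
              = y + C (Polynomial.X ^ j) * MvPolynomial.map Polynomial.C (expand (Fintype.card F) ρ) := by
            rw [hy]; ring
          have hc1 : (C (Polynomial.X ^ (j + 1 + 1)) : MvPolynomial (Fin k) (Polynomial F))
              = C (Polynomial.X ^ j) * C Polynomial.X * C Polynomial.X := by
            rw [pow_succ, pow_succ, C_mul, C_mul]
          have hc2 : (C (Polynomial.X ^ (j + 1)) : MvPolynomial (Fin k) (Polynomial F))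
              = C (Polynomial.X ^ j) * C Polynomial.X := by
            rw [pow_succ, C_mul]
          rw [h8, hr3, map_mul, map_mul, hc1, hc2]
          ring
        exact expand_JN _ (lemZ _ h4)

end Pool.Agent.H268R3.LRS
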