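import Pool.Agent.H268R3.LRS.Upper

set_option autoImplicit false

open Finset MvPolynomial Pool.Agent.H268R3.Soc

namespace Pool.Agent.H268R3.LRS

section lower
variable (F : Type) [Field F] [Fintype F] (K : Type) [Field K] [Fintype K] [Algebra F K] (n : ℕ)

variable {n} in
omit [Fintype F] [Fintype K] in
lemma actC_homog (g : Matrix (Fin n) (Fin n) F) (f : MvPolynomial (Fin n) K) (d : ℕ) (hf : f.IsHomogeneous d) :
    (actC g f).IsHomogeneous d := by
  have h1 := IsHomogeneous.aeval hf (fun j => ∑ i, g i j • (X i : MvPolynomial (Fin n) K)) (n := 1) (by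
    intro j
    apply IsHomogeneous.sum
    intro i _
    rw [smul_C]
    exact isHomogeneous_C_mul_X _ _)
  rwa [one_mul] at h1

variable {n} in
omit [Fintype F] [Fintype K] in
lemma actC_hc (g : Matrix (Fin n) (Fin n) F) (f : MvPolynomial (Fin n) K) (d : ℕ) :
    actC g (homogeneousComponent d f) = homogeneousComponent d (actC g f) := by
  induction f using MvPolynomial.induction_on' with
  | add p q hp hq => rw [map_add, map_add, map_add, map_add, hp, hq]
  | monomial e c =>
    have h1 : (monomial e c : MvPolynomial (Fin n) K).IsHomogeneous e.degree := isHomogeneous_monomial c rfl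
    have h2 := actC_homog F K g _ _ h1
    rw [homogeneousComponent_of_mem h1, homogeneousComponent_of_mem h2]
    split_ifs
    · rfl
    · rw [map_zero]

omit [Algebra F K] in
lemma null_coeff (w : MvPolynomial (Fin n) K) (D : ℕ) (hw : ∀ x : Fin n → K, eval x w = 0)
    (hd : ∀ e, coeff e w ≠ 0 → e.degree ≤ D) (e : Fin n →₀ ℕ) (he : ∀ i, e i < Fintype.card K)
    (hed : e.degree = D) : coeff e w = 0 := by
  classical
  by_contra hc
  have h1 : w.totalDegree = e.degree := by
    apply le_antisymm
    · rw [hed]
      unfold totalDegree
      apply Finset.sup_le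
      intro s hs
      exact hd s (mem_support_iff.1 hs)
    · exact le_totalDegree (mem_support_iff.2 hc)
  obtain ⟨s, _, hs⟩ := combinatorial_nullstellensatz_exists_eval_nonzero w e hc h1 (fun _ => univ) (by
    intro i
    rw [card_univ]
    exact he i)
  exact hs (hw s)

/-- reduced polynomials -/
def RD : Submodule K (MvPolynomial (Fin n) K) where
  carrier := {f | ∀ e, coeff e f ≠ 0 → ∀ i, e i < Fintype.card K}
  add_mem' := by
    intro f g hf hg e he
    by_cases h : coeff e f = 0
    · apply hg e
      intro h'
      apply he
      rw [coeff_add, h, h', add_zero]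
    · exact hf e h
  zero_mem' := fun e he => absurd (coeff_zero e) he
  smul_mem' := by
    intro c f hf e he
    apply hf e
    intro h
    apply he
    rw [coeff_smul, h, smul_zero]

lemma RD_zero (f : MvPolynomial (Fin n) K) (hf : f ∈ RD K n) (h : ∀ x : Fin n → K, eval x f = 0) : f = 0 := by
  refine eq_zero_of_eval_eq_zero (K := K) (σ := Fin n) f h ?_
  rw [mem_restrictDegree]
  intro s hs i
  have := hf s (mem_support_iff.1 hs) i
  omega

instance : Module.Finite K (RD K n) := by
  let E : RD K n →ₗ[K] ((Fin n → K) → K) := (evalₗ K (Fin n)).domRestrict (RD K n)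
  apply Module.Finite.of_injective E
  rw [← LinearMap.ker_eq_bot, LinearMap.ker_eq_bot']
  intro f hf
  apply Subtype.ext
  apply RD_zero K n f.1 f.2
  intro x
  exact congrFun hf x

/-- reduced polynomials of bounded degree giving invariant functions -/
def PL (D : ℕ) : Submodule K (MvPolynomial (Fin n) K) where
  carrier := {f | f ∈ RD K n ∧ (∀ e, coeff e f ≠ 0 → e.degree < D) ∧
    ∀ g : Matrix (Fin n) (Fin n) F, IsUnit g.det → ∀ x : Fin n → K, eval x (actC g f) = eval x f}
  add_mem' := by
    rintro f g ⟨h1, h2, h3⟩ ⟨h4, h5, h6⟩
    refine ⟨Submodule.add_mem _ h1 h4, ?_, ?_⟩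
    · intro e he
      by_cases h : coeff e f = 0
      · apply h5 e
        intro h'
        apply he
        rw [coeff_add, h, h', add_zero]
      · exact h2 e h
    · intro x hx y
      rw [map_add, map_add, map_add, h3 x hx, h6 x hx]
  zero_mem' := ⟨Submodule.zero_mem _, fun e he => absurd (coeff_zero e) he, fun g _ x => by rw [map_zero]⟩
  smul_mem' := by
    rintro c f ⟨h1, h2, h3⟩
    refine ⟨Submodule.smul_mem _ _ h1, ?_, ?_⟩
    · intro e he
      apply h2 e
      intro h
      apply he
      rw [coeff_smul, h, smul_zero]
    · intro x hx y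
      rw [map_smul, smul_eval, smul_eval, h3 x hx]

/-- reduced homogeneous quasi-invariants over `K` -/
def VK (d : ℕ) : Submodule K (MvPolynomial (Fin n) K) where
  carrier := {f | f ∈ RD K n ∧ (∀ e, coeff e f ≠ 0 → e.degree = d) ∧
    ∀ g : Matrix (Fin n) (Fin n) F, IsUnit g.det → actC g f - f ∈ JN K (Fintype.card K) n}
  add_mem' := by
    rintro f g ⟨h1, h2, h3⟩ ⟨h4, h5, h6⟩
    refine ⟨Submodule.add_mem _ h1 h4, ?_, ?_⟩
    · intro e he
      by_cases h : coeff e f = 0
      · apply h5 e
        intro h'
        apply he
        rw [coeff_add, h, h', add_zero]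
      · exact h2 e h
    · intro x hx
      have := Ideal.add_mem _ (h3 x hx) (h6 x hx)
      convert this using 1
      rw [map_add]; ring
  zero_mem' := ⟨Submodule.zero_mem _, fun e he => absurd (coeff_zero e) he,
    fun g _ => by rw [map_zero, sub_zero]; exact Ideal.zero_mem _⟩
  smul_mem' := by
    rintro c f ⟨h1, h2, h3⟩
    refine ⟨Submodule.smul_mem _ _ h1, ?_, ?_⟩
    · intro e he
      apply h2 e
      intro h
      apply he
      rw [coeff_smul, h, smul_zero]
    · intro x hx
      have := Ideal.mul_mem_left _ (C c) (h3 x hx)
      convert this using 1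
      rw [map_smul, smul_eq_C_mul, smul_eq_C_mul]; ring

instance (D : ℕ) : Module.Finite K (PL F K n D) :=
  Submodule.finiteDimensional_of_le (S₂ := RD K n) (fun f hf => hf.1)

instance (d : ℕ) : Module.Finite K (VK F K n d) :=
  Submodule.finiteDimensional_of_le (S₂ := RD K n) (fun f hf => hf.1)

lemma hc_PL (D : ℕ) (f : MvPolynomial (Fin n) K) (hf : f ∈ PL F K n (D + 1)) :
    homogeneousComponent D f ∈ VK F K n D := by
  obtain ⟨h1, h2, h3⟩ := hf
  refine ⟨?_, ?_, ?_⟩
  · intro e he
    rw [coeff_homogeneousComponent] at he
    split_ifs at he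
    · exact h1 e he
    · exact absurd rfl he
  · intro e he
    rw [coeff_homogeneousComponent] at he
    split_ifs at he with h
    · exact h
    · exact absurd rfl he
  · intro g hg
    rw [mem_JN]
    intro e he
    by_contra hcon
    push Not at hcon
    apply he
    rw [actC_hc, ← map_sub, coeff_homogeneousComponent]
    split_ifs with hd
    · apply null_coeff K n (actC g f - f) D _ _ e hcon hd
      · intro x
        rw [map_sub, h3 g hg x, sub_self]
      · intro b hb
        by_contra hlt
        push Not at hlt
        apply hb
        have h4 : homogeneousComponent b.degree f = 0 := by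
          ext c
          rw [coeff_homogeneousComponent, coeff_zero]
          split_ifs with hc
          · by_contra hne
            have := h2 c hne
            omega
          · rfl
        have h5 : coeff b (homogeneousComponent b.degree (actC g f - f)) = coeff b (actC g f - f) := by
          rw [coeff_homogeneousComponent, if_pos rfl]
        rw [← h5, map_sub, ← actC_hc, h4, map_zero, sub_zero, coeff_zero]
    · rfl

lemma PL_step (D : ℕ) : Module.finrank K (PL F K n (D + 1))
    ≤ Module.finrank K (VK F K n D) + Module.finrank K (PL F K n D) := by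
  set T : PL F K n (D + 1) →ₗ[K] VK F K n D :=
    ((homogeneousComponent D).domRestrict (PL F K n (D + 1))).codRestrict (VK F K n D)
      (fun f => hc_PL F K n D f.1 f.2) with hT
  have h1 := LinearMap.finrank_range_add_finrank_ker T
  have h2 : Module.finrank K (LinearMap.range T) ≤ Module.finrank K (VK F K n D) := Submodule.finrank_le _
  have h3 : Module.finrank K (LinearMap.ker T) ≤ Module.finrank K (PL F K n D) := by
    set J : LinearMap.ker T →ₗ[K] PL F K n D :=
      ((PL F K n (D + 1)).subtype ∘ₗ (LinearMap.ker T).subtype).codRestrict (PL F K n D) (by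
        rintro ⟨f, hf⟩
        obtain ⟨h1, h2, h3⟩ := f.2
        refine ⟨h1, ?_, h3⟩
        intro e he
        have h4 : homogeneousComponent D f.1 = 0 := congrArg Subtype.val (LinearMap.mem_ker.1 hf)
        have h5 := h2 e he
        by_contra hcon
        have h6 : e.degree = D := by omega
        have h7 := congrArg (coeff e) h4
        rw [coeff_homogeneousComponent, if_pos h6, coeff_zero] at h7
        exact he h7) with hJ
    apply LinearMap.finrank_le_finrank_of_injective (f := J)
    intro a b hab
    have := congrArg Subtype.val hab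
    apply Subtype.ext
    apply Subtype.ext
    exact this
  omega

lemma PL_sum (D : ℕ) : Module.finrank K (PL F K n D) ≤ ∑ d ∈ range D, Module.finrank K (VK F K n d) := by
  induction D with
  | zero =>
    have : PL F K n 0 = ⊥ := by
      rw [eq_bot_iff]
      rintro f ⟨_, h2, _⟩
      rw [Submodule.mem_bot]
      ext e
      rw [coeff_zero]
      by_contra h
      exact absurd (h2 e h) (Nat.not_lt_zero _)
    rw [this, finrank_bot]
    exact Nat.zero_le _
  | succ D ih =>
    rw [sum_range_succ]
    have := PL_step F K n D
    omega

end lower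

end Pool.Agent.H268R3.LRS
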