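import Pool.Agent.H268R3.LRS.Low

set_option autoImplicit false

open Finset MvPolynomial Pool.Agent.H268R3.Soc

namespace Pool.Agent.H268R3.LRS

section cnt
variable (F : Type) [Field F] [Fintype F] (K : Type) [Field K] [Fintype K] [Algebra F K] (n : ℕ)

omit [Fintype F] in
lemma exists_tuple (W : Submodule F K) (hW : Module.finrank F W ≤ n) :
    ∃ x : Fin n → K, Submodule.span F (Set.range x) = W := by
  classical
  haveI : Module.Finite F K := Module.Finite.of_finite
  let b := Module.finBasis F W
  refine ⟨fun i => if h : i.val < Module.finrank F W then ((b ⟨i.val, h⟩ : W) : K) else 0, ?_⟩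
  apply le_antisymm
  · rw [Submodule.span_le]
    rintro _ ⟨i, rfl⟩
    show (if h : i.val < Module.finrank F W then ((b ⟨i.val, h⟩ : W) : K) else 0) ∈ W
    split_ifs
    · exact (b _).2
    · exact W.zero_mem
  · intro w hw
    have h1 : (⟨w, hw⟩ : W) ∈ Submodule.span F (Set.range b) := by rw [b.span_eq]; trivial
    have h2 := Submodule.mem_map_of_mem (f := W.subtype) h1
    rw [Submodule.map_span] at h2
    refine Submodule.span_mono ?_ h2
    rintro _ ⟨_, ⟨j, rfl⟩, rfl⟩
    refine ⟨⟨j.val, lt_of_lt_of_le j.2 hW⟩, ?_⟩
    show (if h : j.val < Module.finrank F W then ((b ⟨j.val, h⟩ : W) : K) else 0) = _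
    rw [dif_pos j.2]
    rfl

omit [Fintype F] [Fintype K] in
lemma eval_actC (g : Matrix (Fin n) (Fin n) F) (x : Fin n → K) (f : MvPolynomial (Fin n) K) :
    eval x (actC g f) = eval (fun j => ∑ i, g i j • x i) f := by
  have h : (eval x).comp (actC (B := K) g).toRingHom = eval (fun j => ∑ i, g i j • x i) := by
    apply ringHom_ext
    · intro r
      show eval x (actC g (C r)) = eval _ (C r)
      rw [actC_C, eval_C, eval_C]
    · intro i
      show eval x (actC g (X i)) = eval _ (X i)
      rw [actC_X, eval_X, map_sum]
      apply sum_congr rfl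
      intro j _
      rw [smul_C, map_mul, eval_C, eval_X, Algebra.smul_def]
  exact congrArg (fun h : MvPolynomial (Fin n) K →+* K => h f) h

omit [Fintype F] [Fintype K] in
lemma span_act_le (g : Matrix (Fin n) (Fin n) F) (x : Fin n → K) :
    Submodule.span F (Set.range (fun j => ∑ i, g i j • x i)) ≤ Submodule.span F (Set.range x) := by
  rw [Submodule.span_le]
  rintro _ ⟨j, rfl⟩
  apply Submodule.sum_mem
  intro i _
  exact Submodule.smul_mem _ _ (Submodule.subset_span ⟨i, rfl⟩)

omit [Fintype F] [Fintype K] in
lemma span_act (g : Matrix (Fin n) (Fin n) F) (hg : IsUnit g.det) (x : Fin n → K) :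
    Submodule.span F (Set.range (fun j => ∑ i, g i j • x i)) = Submodule.span F (Set.range x) := by
  apply le_antisymm (span_act_le F K n g x)
  have h1 := span_act_le F K n g⁻¹ (fun j => ∑ i, g i j • x i)
  have h2 : (fun l => ∑ j, g⁻¹ j l • ∑ i, g i j • x i) = x := by
    ext l
    simp only [smul_sum, smul_smul]
    rw [sum_comm]
    have h3 : g * g⁻¹ = 1 := Matrix.mul_nonsing_inv _ hg
    have h4 : ∀ i, ∑ j, (g⁻¹ j l * g i j) • x i = (if i = l then 1 else 0 : F) • x i := by
      intro i
      rw [← sum_smul]
      congr 1
      have := congrFun (congrFun h3 i) l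
      rw [Matrix.mul_apply, Matrix.one_apply] at this
      rw [← this]
      apply sum_congr rfl
      intro j _
      ring
    rw [sum_congr rfl (fun i _ => h4 i)]
    simp only [ite_smul, one_smul, zero_smul, sum_ite_eq', mem_univ, if_true]
  rw [h2] at h1
  exact h1

theorem subspace_le (D : ℕ) (hD : n * Fintype.card K < D) :
    Nat.card {W : Submodule F K // Module.finrank F W ≤ n} ≤ Module.finrank K (PL F K n D) := by
  classical
  haveI : Finite (Submodule F K) := Finite.of_injective (fun W : Submodule F K => (W : Set K)) SetLike.coe_injective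
  haveI : Fintype {W : Submodule F K // Module.finrank F W ≤ n} := Fintype.ofFinite _
  have h1 : ∀ W : {W : Submodule F K // Module.finrank F W ≤ n}, ∃ f : MvPolynomial (Fin n) K,
      f ∈ PL F K n D ∧ ∀ x, eval x f = if Submodule.span F (Set.range x) = W.1 then 1 else 0 := by
    intro W
    have h2 : (fun x : Fin n → K => if Submodule.span F (Set.range x) = W.1 then (1 : K) else 0)
        ∈ (restrictDegree (Fin n) K (Fintype.card K - 1)).map (evalₗ K (Fin n)) := by
      rw [map_restrict_dom_evalₗ]; trivial
    obtain ⟨f, hf, hfe⟩ := Submodule.mem_map.1 h2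
    have hfe' : ∀ x, eval x f = if Submodule.span F (Set.range x) = W.1 then 1 else 0 :=
      fun x => congrFun hfe x
    have hred : f ∈ RD K n := by
      intro e he i
      have := (mem_restrictDegree _ _ _).1 hf e (mem_support_iff.2 he) i
      have : 0 < Fintype.card K := Fintype.card_pos
      omega
    refine ⟨f, ⟨hred, ?_, ?_⟩, hfe'⟩
    · intro e he
      refine lt_of_le_of_lt ?_ hD
      rw [Finsupp.degree_eq_sum]
      refine le_trans (sum_le_card_nsmul _ _ (Fintype.card K) (fun i _ => (hred e he i).le)) ?_
      rw [card_univ, Fintype.card_fin, smul_eq_mul]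
    · intro g hg x
      rw [eval_actC, hfe', hfe', span_act F K n g hg]
  choose f hf hfe using h1
  have h2 : LinearIndependent K (fun W : {W : Submodule F K // Module.finrank F W ≤ n} =>
      (⟨f W, hf W⟩ : PL F K n D)) := by
    rw [Fintype.linearIndependent_iff]
    intro c hc W
    obtain ⟨x, hx⟩ := exists_tuple F K n W.1 W.2
    have h3 := congrArg (fun z : PL F K n D => eval x z.1) hc
    simp only [Submodule.coe_sum, Submodule.coe_smul, map_sum, smul_eval, hfe, hx,
      ZeroMemClass.coe_zero, map_zero] at h3
    rw [Finset.sum_eq_single_of_mem W (mem_univ _)] at h3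
    · rwa [if_pos rfl, mul_one] at h3
    · intro W' _ hne
      rw [if_neg, mul_zero]
      intro h
      exact hne (Subtype.ext h.symm)
  rw [Nat.card_eq_fintype_card]
  exact h2.fintype_card_le_finrank

omit [Fintype K] in
theorem gr_card [Finite K] (m k : ℕ) (hm : Module.finrank F K = m) (hk : k ≤ m) :
    Nat.card {W : Submodule F K // Module.finrank F W = k} * NN F k k = NN F m k := by
  classical
  haveI : Module.Finite F K := Module.Finite.of_finite
  haveI : Fintype K := Fintype.ofFinite K
  haveI : Finite (Submodule F K) := Finite.of_injective (fun W : Submodule F K => (W : Set K)) SetLike.coe_injective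
  haveI : Fintype {W : Submodule F K // Module.finrank F W = k} := Fintype.ofFinite _
  have h1 := card_linearIndependent (K := F) (V := K) (k := k) (by rw [hm]; exact hk)
  rw [hm, Fin.prod_univ_eq_prod_range (fun i => Fintype.card F ^ m - Fintype.card F ^ i)] at h1
  have hcf : ∀ W : {W : Submodule F K // Module.finrank F W = k},
      Fintype.card {s : {s : Fin k → K // LinearIndependent F s} //
        Submodule.span F (Set.range s.1) = W.1} = NN F k k := by
    intro W
    have h2 := card_linearIndependent (K := F) (V := W.1) (k := k) (by rw [W.2])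
    rw [W.2, Fin.prod_univ_eq_prod_range (fun i => Fintype.card F ^ k - Fintype.card F ^ i)] at h2
    unfold NN
    rw [← h2, ← Nat.card_eq_fintype_card]
    apply Nat.card_congr
    refine ⟨fun s => ⟨fun i => ⟨s.1.1 i, s.2.le (Submodule.subset_span ⟨i, rfl⟩)⟩, ?_⟩,
      fun t => ⟨⟨fun i => (t.1 i : K), ?_⟩, ?_⟩, ?_, ?_⟩
    · have := s.1.2
      exact LinearIndependent.of_comp W.1.subtype this
    · exact t.2.map' W.1.subtype (Submodule.ker_subtype _)
    · have hli : LinearIndependent F (fun i => (t.1 i : K)) := t.2.map' W.1.subtype (Submodule.ker_subtype _)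
      apply Submodule.eq_of_le_of_finrank_eq
      · rw [Submodule.span_le]
        rintro _ ⟨i, rfl⟩
        exact (t.1 i).2
      · rw [W.2, finrank_span_eq_card hli, Fintype.card_fin]
    · intro s
      rfl
    · intro t
      rfl
  have h3 : Fintype.card {s : Fin k → K // LinearIndependent F s}
      = ∑ W : {W : Submodule F K // Module.finrank F W = k},
        Fintype.card {s : {s : Fin k → K // LinearIndependent F s} // Submodule.span F (Set.range s.1) = W.1} := by
    rw [← Fintype.card_sigma]
    apply Fintype.card_congr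
    refine ⟨fun s => ⟨⟨Submodule.span F (Set.range s.1), by rw [finrank_span_eq_card s.2, Fintype.card_fin]⟩, ⟨s, rfl⟩⟩,
      fun t => t.2.1, ?_, ?_⟩
    · intro s; rfl
    · rintro ⟨⟨W, hW⟩, ⟨s, hs⟩⟩
      simp only at hs
      subst hs
      rfl
  rw [← Nat.card_eq_fintype_card, h1, sum_congr rfl (fun W _ => hcf W), sum_const, smul_eq_mul,
    card_univ] at h3
  rw [Nat.card_eq_fintype_card, ← h3]
  rfl

lemma NN_pos (k : ℕ) : 0 < NN F k k := by
  unfold NN
  apply prod_pos
  intro i hi
  rw [mem_range] at hi
  have := Nat.pow_lt_pow_right (Fintype.one_lt_card (α := F)) hi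
  omega

theorem total_le (m : ℕ) (hm : Module.finrank F K = m) :
    ∑ k ∈ range (min n m + 1), (Em F m k).card
      ≤ Nat.card {W : Submodule F K // Module.finrank F W ≤ n} := by
  classical
  haveI : Finite (Submodule F K) := Finite.of_injective (fun W : Submodule F K => (W : Set K)) SetLike.coe_injective
  have h1 : ∀ k ∈ range (min n m + 1), (Em F m k).card = Nat.card {W : Submodule F K // Module.finrank F W = k} := by
    intro k hk
    rw [mem_range] at hk
    have h2 := gr_card F K m k hm (by omega)
    have h3 := card_eq F m k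
    exact Nat.eq_of_mul_eq_mul_right (NN_pos F k) (by rw [h3, h2])
  rw [sum_congr rfl h1]
  haveI : Fintype (Submodule F K) := Fintype.ofFinite _
  have h4 : ∀ (P : Submodule F K → Prop) [DecidablePred P], Nat.card {W : Submodule F K // P W}
      = (Finset.univ.filter (fun W : Submodule F K => P W)).card := by
    intro P _
    rw [Nat.card_eq_fintype_card, Fintype.card_subtype]
  simp only [h4]
  rw [← Finset.card_biUnion]
  · apply Finset.card_le_card
    intro W hW
    rw [Finset.mem_biUnion] at hW
    obtain ⟨k, hk, hW⟩ := hW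
    rw [mem_filter] at hW ⊢
    rw [mem_range] at hk
    exact ⟨mem_univ _, by rw [hW.2]; omega⟩
  · intro a _ b _ hab
    rw [Function.onFun, Finset.disjoint_left]
    intro W hW hW'
    rw [mem_filter] at hW hW'
    exact hab (hW.2.symm.trans hW'.2)

end cnt

end Pool.Agent.H268R3.LRS
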