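import Pool.Agent.H268R3.LRS.Low2

set_option autoImplicit false

open Finset MvPolynomial Pool.Agent.H268R3.Soc

namespace Pool.Agent.H268R3.LRS

section desc
variable (F : Type) [Field F] [Fintype F] (K : Type) [Field K] [Fintype K] [Algebra F K] (n m : ℕ)

/-- reduced homogeneous quasi-invariants over `F` -/
def VF (d : ℕ) : Submodule F (MvPolynomial (Fin n) F) where
  carrier := {f | (∀ e, coeff e f ≠ 0 → (∀ i, e i < Fintype.card F ^ m) ∧ e.degree = d) ∧ QI m f}
  add_mem' := by
    rintro f g ⟨h2, h3⟩ ⟨h5, h6⟩
    refine ⟨?_, ?_⟩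
    · intro e he
      by_cases h : coeff e f = 0
      · apply h5 e
        intro h'
        apply he
        rw [coeff_add, h, h', add_zero]
      · exact h2 e h
    · intro x hx
      have := Ideal.add_mem _ (h3 x hx) (h6 x hx)
      convert this using 1
      rw [map_add]; ring
  zero_mem' := ⟨fun e he => absurd (coeff_zero e) he,
    fun g _ => by rw [map_zero, sub_zero]; exact Ideal.zero_mem _⟩
  smul_mem' := by
    rintro c f ⟨h2, h3⟩
    refine ⟨?_, ?_⟩
    · intro e he
      apply h2 e
      intro h
      apply he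
      rw [coeff_smul, h, smul_zero]
    · intro x hx
      have := Ideal.mul_mem_left _ (C c) (h3 x hx)
      convert this using 1
      rw [map_smul, smul_eq_C_mul, smul_eq_C_mul]; ring

lemma VF_homog (d : ℕ) (f : MvPolynomial (Fin n) F) (hf : f ∈ VF F n m d) : f.IsHomogeneous d := by
  intro e he
  have h3 := (hf.1 e he).2
  rwa [Finsupp.degree_eq_weight_one] at h3

instance (d : ℕ) : Module.Finite F (VF F n m d) := by
  haveI := finite_homog F n d
  exact Submodule.finiteDimensional_of_le (S₂ := homogeneousSubmodule (Fin n) F d)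
    (fun f hf => VF_homog F n m d f hf)

instance (d : ℕ) : Module.Finite F (VV F n m d) := by
  unfold VV
  infer_instance

lemma VF_le (d : ℕ) : Module.finrank F (VF F n m d) ≤ Module.finrank F (VV F n m d) := by
  set J : VF F n m d →ₗ[F] VV F n m d :=
    ((Ideal.Quotient.mkₐ F (JN F (Fintype.card F ^ m) n)).toLinearMap.domRestrict (VF F n m d)).codRestrict
      (VV F n m d) (by
        intro f
        exact Submodule.mem_map.2 ⟨f.1, ⟨VF_homog F n m d f.1 f.2, f.2.2⟩, rfl⟩) with hJ
  apply LinearMap.finrank_le_finrank_of_injective (f := J)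
  rw [← LinearMap.ker_eq_bot, LinearMap.ker_eq_bot']
  intro f hf
  have h1 : Ideal.Quotient.mk (JN F (Fintype.card F ^ m) n) f.1 = 0 := congrArg Subtype.val hf
  rw [Ideal.Quotient.eq_zero_iff_mem] at h1
  apply Subtype.ext
  ext e
  show coeff e f.1 = coeff e 0
  rw [coeff_zero]
  by_contra hne
  exact hne (coeff_JN _ h1 e (f.2.1 e hne).1)

lemma VK_span (hN : Fintype.card K = Fintype.card F ^ m) (d : ℕ) :
    VK F K n d ≤ Submodule.span K (MvPolynomial.map (algebraMap F K) '' (VF F n m d : Set _)) := by
  classical
  haveI : Module.Finite F K := Module.Finite.of_finite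
  let b := Module.finBasis F K
  rintro f ⟨h1, h2, h3⟩
  set ft : Fin (Module.finrank F K) → MvPolynomial (Fin n) F :=
    fun t => ∑ e ∈ f.support, monomial e (b.repr (coeff e f) t) with hft
  have hc : ∀ t e, coeff e (ft t) = b.repr (coeff e f) t := by
    intro t e
    rw [hft]
    show coeff e (∑ e' ∈ f.support, monomial e' (b.repr (coeff e' f) t)) = _
    rw [coeff_sum]
    simp only [coeff_monomial]
    rw [sum_ite_eq']
    split_ifs with h
    · rfl
    · rw [notMem_support_iff.1 h, map_zero]; rfl
  have hf : f = ∑ t, b t • MvPolynomial.map (algebraMap F K) (ft t) := by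
    ext e
    rw [coeff_sum]
    simp only [coeff_smul, coeff_map, hc]
    conv_lhs => rw [← b.sum_repr (coeff e f)]
    apply sum_congr rfl
    intro t _
    rw [Algebra.smul_def, smul_eq_mul, mul_comm]
  have hmem : ∀ t, ft t ∈ VF F n m d := by
    intro t
    refine ⟨?_, ?_⟩
    · intro e he
      have h4 : coeff e f ≠ 0 := by
        intro h
        apply he
        rw [hc, h, map_zero]; rfl
      exact ⟨fun i => by rw [← hN]; exact h1 e h4 i, h2 e h4⟩
    · intro g hg
      rw [mem_JN]
      intro e he
      by_contra hcon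
      push Not at hcon
      apply he
      have h5 : actC g f - f = ∑ t, b t • MvPolynomial.map (algebraMap F K) (act g (ft t) - ft t) := by
        conv_lhs => rw [hf]
        rw [map_sum, ← sum_sub_distrib]
        apply sum_congr rfl
        intro t _
        rw [map_smul, actC_base, map_sub, smul_sub]
      have h6 := coeff_JN _ (h3 g hg) e (fun i => by rw [hN]; exact hcon i)
      rw [h5, coeff_sum] at h6
      simp only [coeff_smul, coeff_map] at h6
      have h7 := (Fintype.linearIndependent_iff.1 b.linearIndependent)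
        (fun t => coeff e (act g (ft t) - ft t)) (by
          rw [← h6]
          apply sum_congr rfl
          intro t _
          rw [Algebra.smul_def, smul_eq_mul, mul_comm]) t
      exact h7
  rw [hf]
  apply Submodule.sum_mem
  intro t _
  exact Submodule.smul_mem _ _ (Submodule.subset_span ⟨_, hmem t, rfl⟩)

theorem VK_le (hN : Fintype.card K = Fintype.card F ^ m) (d : ℕ) :
    Module.finrank K (VK F K n d) ≤ Module.finrank F (VV F n m d) := by
  refine le_trans ?_ (VF_le F n m d)
  let B := Module.finBasis F (VF F n m d)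
  have h1 : Submodule.span K (MvPolynomial.map (algebraMap F K) '' (VF F n m d : Set _))
      ≤ Submodule.span K (Set.range (fun i => MvPolynomial.map (algebraMap F K) (B i).1)) := by
    rw [Submodule.span_le]
    rintro _ ⟨v, hv, rfl⟩
    have h2 := B.sum_repr ⟨v, hv⟩
    have h3 : v = ∑ i, B.repr ⟨v, hv⟩ i • (B i).1 := by
      have h4 : v = ((∑ i, B.repr ⟨v, hv⟩ i • B i : VF F n m d) : MvPolynomial (Fin n) F) := by rw [h2]
      conv_lhs => rw [h4]
      simp only [Submodule.coe_sum, Submodule.coe_smul]
    rw [h3, map_sum]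
    apply Submodule.sum_mem
    intro i _
    rw [smul_eq_C_mul, map_mul, MvPolynomial.map_C, ← smul_eq_C_mul]
    exact Submodule.smul_mem _ _ (Submodule.subset_span ⟨i, rfl⟩)
  have h2 := (VK_span F K n m hN d).trans h1
  haveI : Module.Finite K (Submodule.span K (Set.range (fun i => MvPolynomial.map (algebraMap F K) (B i).1))) :=
    Module.Finite.span_of_finite K (Set.finite_range _)
  refine le_trans (Submodule.finrank_mono h2) ?_
  refine le_trans (finrank_range_le_card (R := K) (fun i => MvPolynomial.map (algebraMap F K) (B i).1)) ?_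
  rw [Fintype.card_fin]

end desc

section tot
variable (F : Type) [Field F] [Fintype F] (n m : ℕ)

theorem lower_zero (D : ℕ) (hD : 1 ≤ D) : ∑ k ∈ range (min n 0 + 1), (Em F 0 k).card
    ≤ ∑ d ∈ range D, Module.finrank F (VV F n 0 d) := by
  rw [Nat.min_zero, zero_add, sum_range_one, Em_zero, Multiset.card_singleton]
  refine le_trans ?_ (single_le_sum (f := fun d => Module.finrank F (VV F n 0 d))
    (fun _ _ => Nat.zero_le _) (mem_range.2 hD))
  have h1 : (Ideal.Quotient.mk (JN F (Fintype.card F ^ 0) n) 1) ∈ VV F n 0 0 := by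
    refine Submodule.mem_map.2 ⟨1, ⟨isHomogeneous_one _ _, ?_⟩, rfl⟩
    intro g _
    rw [map_one, sub_self]
    exact Ideal.zero_mem _
  have h2 : (Ideal.Quotient.mk (JN F (Fintype.card F ^ 0) n) 1) ≠ 0 := by
    intro h
    rw [Ideal.Quotient.eq_zero_iff_mem] at h
    have := coeff_JN _ h 0 (fun i => by rw [pow_zero]; exact Nat.zero_lt_one)
    rw [coeff_zero_one] at this
    exact one_ne_zero this
  show 1 ≤ Module.finrank F (VV F n 0 0)
  have : Nontrivial (VV F n 0 0) := by
    refine ⟨⟨⟨_, h1⟩, 0, ?_⟩⟩
    intro h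
    exact h2 (congrArg Subtype.val h)
  exact Module.finrank_pos

theorem lower (D : ℕ) (hD : n * Fintype.card F ^ m < D) : ∑ k ∈ range (min n m + 1), (Em F m k).card
    ≤ ∑ d ∈ range D, Module.finrank F (VV F n m d) := by
  cases m with
  | zero => exact lower_zero F n D (by omega)
  | succ m =>
    obtain ⟨p, hp⟩ := CharP.exists F
    haveI := hp
    obtain ⟨r, hpp, hr⟩ := FiniteField.card F p
    haveI : Fact p.Prime := ⟨hpp⟩
    let K := FiniteField.Extension F p (m + 1)
    haveI : Fintype K := Fintype.ofFinite K
    have hN : Fintype.card K = Fintype.card F ^ (m + 1) := by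
      rw [← Nat.card_eq_fintype_card, ← Nat.card_eq_fintype_card]
      exact FiniteField.natCard_extension F p (m + 1)
    have hfr : Module.finrank F K = m + 1 := FiniteField.finrank_extension F p (m + 1)
    refine le_trans (total_le F K n (m + 1) hfr) (le_trans (subspace_le F K n D (by rw [hN]; exact hD)) ?_)
    refine le_trans (PL_sum F K n D) ?_
    exact sum_le_sum (fun d _ => VK_le F K n (m + 1) hN d)

lemma count_le {ι : Type} (s : Multiset ι) (φ : ι → ℕ) (D : ℕ) :
    ∑ d ∈ range D, (s.filter (fun e => φ e = d)).card ≤ s.card := by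
  classical
  induction s using Multiset.induction_on with
  | empty => simp
  | cons a s ih =>
    have h1 : ∀ d ∈ range D, ((a ::ₘ s).filter (fun e => φ e = d)).card
        = (if φ a = d then 1 else 0) + (s.filter (fun e => φ e = d)).card := by
      intro d _
      by_cases h : φ a = d
      · rw [Multiset.filter_cons_of_pos (p := fun e => φ e = d) _ h, Multiset.card_cons, if_pos h]; omega
      · rw [Multiset.filter_cons_of_neg (p := fun e => φ e = d) _ h, if_neg h]; omega
    rw [sum_congr rfl h1, sum_add_distrib, Multiset.card_cons]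
    have h2 : ∑ d ∈ range D, (if φ a = d then 1 else 0) ≤ 1 := by
      rw [sum_ite_eq]
      split_ifs <;> omega
    omega

theorem main_eq (d : ℕ) : Module.finrank F (VV F n m d) = ∑ k ∈ range (min n m + 1), cnt F n m d k := by
  set D := n * Fintype.card F ^ m + d + 1 with hD
  have h1 := lower F n m D (by omega)
  have h2 : ∑ d ∈ range D, ∑ k ∈ range (min n m + 1), cnt F n m d k
      ≤ ∑ k ∈ range (min n m + 1), (Em F m k).card := by
    rw [sum_comm]
    apply sum_le_sum
    intro k _
    exact count_le _ _ D
  have h3 : ∀ d ∈ range D, Module.finrank F (VV F n m d) ≤ ∑ k ∈ range (min n m + 1), cnt F n m d k :=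
    fun d _ => upper F n m d
  have h4 := le_antisymm (sum_le_sum h3) (h2.trans h1)
  exact (sum_eq_sum_iff_of_le h3).1 h4 d (mem_range.2 (by omega))

lemma coeff_GF (k d : ℕ) : PowerSeries.coeff d ((PowerSeries.X : PowerSeries ℚ) ^ sh F n m k
    * GF F m k (PowerSeries.X : PowerSeries ℚ)) = (cnt F n m d k : ℚ) := by
  unfold GF cnt
  generalize Em F m k = s
  induction s using Multiset.induction_on with
  | empty => simp
  | cons a s ih =>
    rw [Multiset.map_cons, Multiset.sum_cons, mul_add, map_add, ih, ← pow_add, PowerSeries.coeff_X_pow]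
    by_cases h : sh F n m k + wt F k a = d
    · rw [Multiset.filter_cons_of_pos (p := fun e => sh F n m k + wt F k e = d) _ h, Multiset.card_cons,
        if_pos h.symm]
      push_cast; ring
    · rw [Multiset.filter_cons_of_neg (p := fun e => sh F n m k + wt F k e = d) _ h,
        if_neg (Ne.symm h), zero_add]

lemma rhs_eq (k : ℕ) : ∏ i ∈ range k,
      ((1 - (PowerSeries.X : PowerSeries ℚ) ^ (Fintype.card F ^ m - Fintype.card F ^ i)) *
        (1 - (PowerSeries.X : PowerSeries ℚ) ^ (Fintype.card F ^ k - Fintype.card F ^ i))⁻¹)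
      = GF F m k (PowerSeries.X : PowerSeries ℚ) := by
  have hq : 1 < Fintype.card F := Fintype.one_lt_card
  rw [prod_mul_distrib]
  have h1 : NP F k k (PowerSeries.X : PowerSeries ℚ) * ∏ i ∈ range k,
      (1 - (PowerSeries.X : PowerSeries ℚ) ^ (Fintype.card F ^ k - Fintype.card F ^ i))⁻¹ = 1 := by
    unfold NP
    rw [← prod_mul_distrib]
    apply prod_eq_one
    intro i hi
    rw [mem_range] at hi
    apply PowerSeries.mul_inv_cancel
    have : Fintype.card F ^ k - Fintype.card F ^ i ≠ 0 := by
      have := Nat.pow_lt_pow_right hq hi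
      omega
    rw [map_sub, map_one, map_pow, PowerSeries.constantCoeff_X, zero_pow this, sub_zero]
    exact one_ne_zero
  have h2 := GF_eq F m k (PowerSeries.X : PowerSeries ℚ)
  have h3 : ∏ i ∈ range k, (1 - (PowerSeries.X : PowerSeries ℚ) ^ (Fintype.card F ^ m - Fintype.card F ^ i))
      = NP F m k (PowerSeries.X : PowerSeries ℚ) := rfl
  rw [h3, ← h2, mul_assoc, h1, mul_one]

end tot

end Pool.Agent.H268R3.LRS
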