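import Pool.Agent.H268R3.LRS.Step2
import Pool.Agent.H268R3.Soc.Transfer

set_option autoImplicit false

open Finset MvPolynomial Pool.Agent.H268R3.Soc

namespace Pool.Agent.H268R3.LRS

section actC
variable {F : Type} [Field F] [Fintype F] {B : Type} [CommRing B] [Algebra F B] {k : ℕ}

/-- linear substitution over a base -/
noncomputable def actC (g : Matrix (Fin k) (Fin k) F) : MvPolynomial (Fin k) B →ₐ[B] MvPolynomial (Fin k) B :=
  aeval (fun j => ∑ i, g i j • X i)

omit [Fintype F] in
lemma actC_X (g : Matrix (Fin k) (Fin k) F) (j : Fin k) :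
    actC (B := B) g (X j) = ∑ i, g i j • X i := by
  unfold actC; rw [aeval_X]

omit [Fintype F] in
lemma actC_C (g : Matrix (Fin k) (Fin k) F) (r : B) : actC (B := B) g (C r) = C r := by
  unfold actC; rw [aeval_C]; rfl

omit [Fintype F] in
lemma smul_C (c : F) (w : MvPolynomial (Fin k) B) : c • w = C (algebraMap F B c) * w := by
  rw [Algebra.smul_def]
  rfl

omit [Fintype F] in
lemma actC_map {B' : Type} [CommRing B'] [Algebra F B'] (f : B →+* B')
    (hf : ∀ c, f (algebraMap F B c) = algebraMap F B' c)
    (g : Matrix (Fin k) (Fin k) F) (w : MvPolynomial (Fin k) B) :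
    actC g (MvPolynomial.map f w) = MvPolynomial.map f (actC g w) := by
  have h : (actC (B := B') g).toRingHom.comp (MvPolynomial.map f)
      = (MvPolynomial.map f).comp (actC (B := B) g).toRingHom := by
    apply ringHom_ext
    · intro r
      show actC g (MvPolynomial.map f (C r)) = MvPolynomial.map f (actC g (C r))
      rw [MvPolynomial.map_C, actC_C, actC_C, MvPolynomial.map_C]
    · intro i
      show actC g (MvPolynomial.map f (X i)) = MvPolynomial.map f (actC g (X i))
      rw [MvPolynomial.map_X, actC_X, actC_X, map_sum]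
      apply sum_congr rfl
      intro j _
      rw [smul_C, smul_C, map_mul, MvPolynomial.map_C, MvPolynomial.map_X, hf]
  exact congrArg (fun h : MvPolynomial (Fin k) B →+* MvPolynomial (Fin k) B' => h w) h

omit [Fintype F] in
lemma actC_self (g : Matrix (Fin k) (Fin k) F) (w : MvPolynomial (Fin k) F) :
    actC g w = act g w := by
  have h : (actC (B := F) g) = act g := by
    apply algHom_ext
    intro i
    rw [actC_X, act_X, lf]
    apply sum_congr rfl
    intro j _
    rw [smul_eq_C_mul]
  rw [h]

omit [Fintype F] in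
lemma actC_base (g : Matrix (Fin k) (Fin k) F) (w : MvPolynomial (Fin k) F) :
    actC g (MvPolynomial.map (algebraMap F B) w) = MvPolynomial.map (algebraMap F B) (act g w) := by
  rw [actC_map (algebraMap F B) (fun c => rfl), actC_self]

lemma actC_pl (g : Matrix (Fin k) (Fin k) F) (α : ℕ → B) (m : ℕ) (j : Fin k) :
    actC g (pl j (AP F α m)) = ∑ i, g i j • pl i (AP F α m) := by
  rw [pl_AP]
  have h := av_map F (actC (B := B) g).toRingHom (fun j => C (α j)) m (X j)
  simp only [AlgHom.toRingHom_eq_coe, RingHom.coe_coe, actC_C, actC_X] at h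
  rw [h, av_sum]
  apply sum_congr rfl
  intro i _
  rw [av_smul, pl_AP]

lemma actC_mem (g : Matrix (Fin k) (Fin k) F) (α : ℕ → B) (m : ℕ) (b : B) (w : MvPolynomial (Fin k) B)
    (hw : w ∈ II (AP F α m) b) : actC g w ∈ II (AP F α m) b := by
  apply II_hom (actC g).toRingHom _ _ _ _ _ w hw
  · show actC g (C b) ∈ _
    rw [actC_C]; exact C_mem _ _
  · intro i
    show actC g (pl i _) ∈ _
    rw [actC_pl]
    apply Ideal.sum_mem
    intro j _
    rw [smul_C]
    exact Ideal.mul_mem_left _ _ (pl_mem _ _ _)

lemma Xi_actC (z : B) (g : Matrix (Fin k) (Fin k) F) (w : MvPolynomial (Fin k) B) :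
    Xi F z (actC g w) = actC g (Xi F z w) := by
  have hX : ∀ i : Fin k, Xi F z (X i) = xe F (C (z ^ (Fintype.card F - 1))) (X i) := by
    intro i
    unfold Xi
    rw [aeval_X]
    unfold xi
    have h := xe_map F (pl (R := B) i).toRingHom (Polynomial.C (z ^ (Fintype.card F - 1))) Polynomial.X
    have h1 : (pl (R := B) i) (Polynomial.C (z ^ (Fintype.card F - 1))) = C (z ^ (Fintype.card F - 1)) := by
      unfold pl; rw [Polynomial.aeval_C]; rfl
    have h2 : (pl (R := B) i) Polynomial.X = X i := by unfold pl; rw [Polynomial.aeval_X]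
    simp only [AlgHom.toRingHom_eq_coe, RingHom.coe_coe, h1, h2] at h
    exact h
  have h : (Xi F z).comp (actC (B := B) g) = (actC (B := B) g).comp (Xi (k := k) F z) := by
    apply algHom_ext
    intro i
    rw [AlgHom.comp_apply, AlgHom.comp_apply, actC_X, hX]
    have h := xe_map F (actC (B := B) g).toRingHom (C (z ^ (Fintype.card F - 1))) (X i)
    simp only [AlgHom.toRingHom_eq_coe, RingHom.coe_coe, actC_C, actC_X] at h
    rw [h, xe_sum, map_sum]
    apply sum_congr rfl
    intro j _
    rw [xe_smul, smul_C, smul_C, map_mul, hX]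
    congr 1
    rw [← algebraMap_eq, AlgHom.commutes]
  exact congrArg (fun h : MvPolynomial (Fin k) B →ₐ[B] MvPolynomial (Fin k) B => h w) h

end actC

section phi
variable {F : Type} [Field F] [Fintype F] {B : Type} [CommRing B] [Algebra F B] {k : ℕ}

/-- move the first variable to the base -/
noncomputable def phi : MvPolynomial (Fin (k + 1)) B →+* MvPolynomial (Fin k) (Polynomial B) :=
  eval₂Hom (C.comp Polynomial.C) (Fin.cases (C Polynomial.X) X)

lemma phi_X0 : phi (X 0 : MvPolynomial (Fin (k + 1)) B) = C Polynomial.X := by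
  unfold phi; rw [eval₂Hom_X']; rfl

lemma phi_Xs (j : Fin k) : phi (X j.succ : MvPolynomial (Fin (k + 1)) B) = X j := by
  unfold phi; rw [eval₂Hom_X']; rfl

lemma phi_C (r : B) : phi (C r : MvPolynomial (Fin (k + 1)) B) = C (Polynomial.C r) := by
  unfold phi; rw [eval₂Hom_C]; rfl

omit [Fintype F] in
lemma phi_smul (c : F) (w : MvPolynomial (Fin (k + 1)) B) : phi (c • w) = c • phi w := by
  rw [smul_C, smul_C, map_mul, phi_C]; rfl

/-- back -/
noncomputable def psi : MvPolynomial (Fin k) (Polynomial B) →+* MvPolynomial (Fin (k + 1)) B :=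
  eval₂Hom (Polynomial.aeval (X 0 : MvPolynomial (Fin (k + 1)) B)).toRingHom (fun j => X j.succ)

lemma psi_X (j : Fin k) : psi (X j : MvPolynomial (Fin k) (Polynomial B)) = X j.succ := by
  unfold psi; rw [eval₂Hom_X']

lemma psi_C (r : Polynomial B) : psi (C r : MvPolynomial (Fin k) (Polynomial B))
    = Polynomial.aeval (X 0 : MvPolynomial (Fin (k + 1)) B) r := by
  unfold psi; rw [eval₂Hom_C]; rfl

lemma psi_phi (w : MvPolynomial (Fin (k + 1)) B) : psi (phi w) = w := by
  have h : (psi (B := B) (k := k)).comp phi = RingHom.id _ := by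
    apply ringHom_ext
    · intro r
      rw [RingHom.comp_apply, phi_C, psi_C, Polynomial.aeval_C]; rfl
    · intro i
      refine Fin.cases ?_ (fun j => ?_) i
      · rw [RingHom.comp_apply, phi_X0, psi_C, Polynomial.aeval_X]; rfl
      · rw [RingHom.comp_apply, phi_Xs, psi_X]; rfl
  exact congrArg (fun h : MvPolynomial (Fin (k + 1)) B →+* MvPolynomial (Fin (k + 1)) B => h w) h

lemma phi_mem (α : ℕ → B) (m : ℕ) (w : MvPolynomial (Fin (k + 1)) B) (hw : w ∈ II (AP F α m) 0) :
    phi w ∈ II (AP F (fun i => Polynomial.C (α i)) m) (AP F α m) := by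
  apply II_hom phi _ _ _ _ _ w hw
  · rw [C_0, map_zero]; exact Ideal.zero_mem _
  · intro i
    rw [pl_AP, av_map F phi]
    simp only [phi_C]
    refine Fin.cases ?_ (fun j => ?_) i
    · rw [phi_X0, ← av_map F C]
      exact C_mem _ _
    · rw [phi_Xs, ← pl_AP F (fun i => Polynomial.C (α i))]
      exact pl_mem _ _ _

lemma psi_mem (α : ℕ → B) (m : ℕ) (w : MvPolynomial (Fin k) (Polynomial B))
    (hw : w ∈ II (AP F (fun i => Polynomial.C (α i)) m)
      (qa F (Polynomial.X : Polynomial B) (fun i => Polynomial.C (α i)) m)) :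
    X 0 * psi w ∈ II (AP F α m) 0 := by
  let J : Ideal (MvPolynomial (Fin (k + 1)) B) :=
    { carrier := {w | X 0 * w ∈ II (AP F α m) 0}
      add_mem' := by
        intro x y hx hy
        show X 0 * (x + y) ∈ II (AP F α m) 0
        rw [mul_add]; exact Ideal.add_mem _ hx hy
      zero_mem' := by
        show X 0 * 0 ∈ II (AP F α m) 0
        rw [mul_zero]; exact Ideal.zero_mem _
      smul_mem' := by
        intro c x hx
        show X 0 * (c * x) ∈ II (AP F α m) 0
        rw [mul_left_comm]; exact Ideal.mul_mem_left _ _ hx }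
  apply II_hom psi J _ _ _ _ w hw
  · show X 0 * psi (C _) ∈ II (AP F α m) 0
    rw [psi_C]
    have h1 : X 0 * (Polynomial.aeval (X 0 : MvPolynomial (Fin (k + 1)) B))
        (qa F (Polynomial.X : Polynomial B) (fun i => Polynomial.C (α i)) m)
        = pl 0 (qa F (Polynomial.X : Polynomial B) (fun i => Polynomial.C (α i)) m * Polynomial.X) := by
      rw [map_mul, mul_comm]
      congr 1
      unfold pl
      rw [Polynomial.aeval_X]
    rw [h1, qa_mul]
    exact pl_mem _ _ _
  · intro i
    show X 0 * psi (pl i _) ∈ II (AP F α m) 0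
    apply Ideal.mul_mem_left
    rw [pl_AP, av_map F psi]
    have h1 : ∀ j, psi (C (Polynomial.C (α j)) : MvPolynomial (Fin k) (Polynomial B)) = C (α j) := by
      intro j
      rw [psi_C, Polynomial.aeval_C]; rfl
    simp only [h1, psi_X]
    rw [← pl_AP F α]
    exact pl_mem _ _ _

omit [Fintype F] in
lemma phi_blk (g : Matrix (Fin k) (Fin k) F) (w : MvPolynomial (Fin (k + 1)) B) :
    phi (actC (blk g) w) = actC g (phi w) := by
  have h : phi.comp (actC (B := B) (blk g)).toRingHom = (actC (B := Polynomial B) g).toRingHom.comp phi := by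
    apply ringHom_ext
    · intro r
      show phi (actC (blk g) (C r)) = actC g (phi (C r))
      rw [actC_C, phi_C, actC_C]
    · intro i
      show phi (actC (blk g) (X i)) = actC g (phi (X i))
      rw [actC_X, Fin.sum_univ_succ, map_add, map_sum]
      simp only [phi_smul, phi_X0, phi_Xs]
      refine Fin.cases ?_ (fun j => ?_) i
      · rw [phi_X0, actC_C]
        have : ∀ i : Fin k, blk g i.succ 0 = 0 := fun i => rfl
        simp only [this, zero_smul, sum_const_zero, add_zero]
        show (1 : F) • _ = _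
        rw [one_smul]
      · rw [phi_Xs, actC_X]
        show (0 : F) • _ + _ = _
        rw [zero_smul, zero_add]
        rfl
  exact congrArg (fun h : MvPolynomial (Fin (k + 1)) B →+* MvPolynomial (Fin k) (Polynomial B) => h w) h

omit [Fintype F] in
lemma phi_diag (c : F) (w : MvPolynomial (Fin (k + 1)) B) :
    phi (actC (Matrix.diagonal (Fin.cases c (fun _ => 1))) w) = MvPolynomial.map (sc c) (phi w) := by
  have hX : ∀ i : Fin (k + 1), actC (B := B) (Matrix.diagonal (Fin.cases c (fun _ => 1)) : Matrix (Fin (k + 1)) (Fin (k + 1)) F) (X i)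
      = (Fin.cases c (fun _ => 1) i : F) • X i := by
    intro i
    rw [actC_X, Finset.sum_eq_single_of_mem i (mem_univ _)]
    · rw [Matrix.diagonal_apply_eq]
    · intro j _ hj
      rw [Matrix.diagonal_apply_ne _ hj, zero_smul]
  have h : phi.comp (actC (B := B) (Matrix.diagonal (Fin.cases c (fun _ => 1)) : Matrix (Fin (k + 1)) (Fin (k + 1)) F)).toRingHom
      = (MvPolynomial.map (sc c)).comp phi := by
    apply ringHom_ext
    · intro r
      show phi (actC _ (C r)) = MvPolynomial.map (sc c) (phi (C r))
      rw [actC_C, phi_C, MvPolynomial.map_C, sc_C]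
    · intro i
      show phi (actC _ (X i)) = MvPolynomial.map (sc c) (phi (X i))
      rw [hX, phi_smul]
      refine Fin.cases ?_ (fun j => ?_) i
      · rw [phi_X0, MvPolynomial.map_C, sc_X]
        show c • _ = _
        rw [smul_C, ← C_mul, Algebra.smul_def]
      · rw [phi_Xs, MvPolynomial.map_X]
        show (1 : F) • _ = _
        rw [one_smul]
  exact congrArg (fun h : MvPolynomial (Fin (k + 1)) B →+* MvPolynomial (Fin k) (Polynomial B) => h w) h

omit [Fintype F] in
lemma phi_tr (l : Fin k) (w : MvPolynomial (Fin (k + 1)) B) :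
    phi (actC (Matrix.transvection 0 l.succ (1 : F)) w) = TT Polynomial.X l (phi w) := by
  have hX : ∀ i : Fin (k + 1), actC (B := B) (Matrix.transvection 0 l.succ (1 : F)) (X i)
      = X i + if i = l.succ then X 0 else 0 := by
    intro i
    rw [actC_X]
    simp only [Matrix.transvection, Matrix.add_apply, add_smul, sum_add_distrib]
    congr 1
    · rw [Finset.sum_eq_single_of_mem i (mem_univ _)]
      · rw [Matrix.one_apply_eq, one_smul]
      · intro j _ hj
        rw [Matrix.one_apply_ne hj, zero_smul]
    · rw [Finset.sum_eq_single_of_mem 0 (mem_univ _)]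
      · rw [Matrix.single_apply]
        by_cases h : i = l.succ
        · rw [if_pos ⟨rfl, h.symm⟩, if_pos h, one_smul]
        · rw [if_neg (fun h' => h h'.2.symm), if_neg h, zero_smul]
      · intro j _ hj
        rw [Matrix.single_apply, if_neg (fun h' => hj h'.1.symm), zero_smul]
  have h : phi.comp (actC (B := B) (Matrix.transvection 0 l.succ (1 : F))).toRingHom
      = (TT (Polynomial.X : Polynomial B) l).toRingHom.comp phi := by
    apply ringHom_ext
    · intro r
      show phi (actC _ (C r)) = TT Polynomial.X l (phi (C r))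
      rw [actC_C, phi_C, ← algebraMap_eq, AlgHom.commutes]
    · intro i
      show phi (actC _ (X i)) = TT Polynomial.X l (phi (X i))
      rw [hX, map_add]
      refine Fin.cases ?_ (fun j => ?_) i
      · rw [if_neg (Fin.succ_ne_zero l).symm, map_zero, add_zero, phi_X0, ← algebraMap_eq, AlgHom.commutes]
      · rw [phi_Xs]
        unfold TT
        rw [aeval_X]
        by_cases h : j = l
        · subst h
          rw [if_pos rfl, Function.update_self, phi_X0]
        · rw [if_neg (fun h' => h (Fin.succ_injective _ h')), map_zero, add_zero,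
            Function.update_of_ne h]
  exact congrArg (fun h : MvPolynomial (Fin (k + 1)) B →+* MvPolynomial (Fin k) (Polynomial B) => h w) h

lemma psi_Xi (f : MvPolynomial (Fin k) F) :
    psi (Xi F (Polynomial.X : Polynomial B) (MvPolynomial.map (algebraMap F (Polynomial B)) f))
      = MvPolynomial.map (algebraMap F B) (Yh f) := by
  have h : (psi.comp (Xi F (Polynomial.X : Polynomial B)).toRingHom).comp
      (MvPolynomial.map (algebraMap F (Polynomial B)))
      = (MvPolynomial.map (algebraMap F B)).comp (Yh (F := F) (n := k)).toRingHom := by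
    apply ringHom_ext
    · intro r
      show psi (Xi F Polynomial.X (MvPolynomial.map (algebraMap F (Polynomial B)) (C r)))
        = MvPolynomial.map (algebraMap F B) (Yh (C r))
      rw [MvPolynomial.map_C, ← algebraMap_eq, AlgHom.commutes, algebraMap_eq, psi_C, Yh_C,
        MvPolynomial.map_C]
      show Polynomial.aeval _ (Polynomial.C (algebraMap F B r)) = _
      rw [Polynomial.aeval_C]; rfl
    · intro i
      show psi (Xi F Polynomial.X (MvPolynomial.map (algebraMap F (Polynomial B)) (X i)))
        = MvPolynomial.map (algebraMap F B) (Yh (X i))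
      rw [MvPolynomial.map_X, Yh_X]
      unfold Xi DD
      rw [aeval_X, lf_single, map_sub, map_mul, map_pow, map_pow, MvPolynomial.map_X,
        MvPolynomial.map_X]
      unfold xi xe
      rw [map_sub, map_mul, map_pow]
      have h1 : pl (k := k) i (Polynomial.C (Polynomial.X ^ (Fintype.card F - 1) : Polynomial B))
          = C (Polynomial.X ^ (Fintype.card F - 1)) := by
        unfold pl; rw [Polynomial.aeval_C]; rfl
      have h2 : pl (k := k) i (Polynomial.X : Polynomial (Polynomial B)) = X i := by
        unfold pl; rw [Polynomial.aeval_X]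
      rw [h1, h2, map_sub, map_mul, map_pow, psi_X, psi_C, map_pow, Polynomial.aeval_X]
  exact congrArg (fun h : MvPolynomial (Fin k) F →+* MvPolynomial (Fin (k + 1)) B => h f) h

end phi

section LLrec
variable (F : Type) [Field F] [Fintype F] (n : ℕ)

lemma LL_succ : LL F (n + 1) = X 0 * Yh (LL F n) := by
  have hq : 1 < Fintype.card F := Fintype.one_lt_card
  unfold LL
  rw [Matrix.det_eq_of_forall_row_eq_smul_add_pred (B := Matrix.of (Fin.cases (fun j => X j)
    (fun a j => (DD (Pi.single j 1) : MvPolynomial (Fin (n + 1)) F) ^ (Fintype.card F ^ a.val))))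
    (fun a => X 0 ^ (Fintype.card F ^ (a.val + 1) - Fintype.card F ^ a.val))]
  · rw [Matrix.det_succ_column_zero, Finset.sum_eq_single_of_mem 0 (mem_univ _)]
    · rw [Fin.val_zero, pow_zero, one_mul]
      congr 1
      rw [← AlgHom.coe_toRingHom, RingHom.map_det]
      congr 1
      refine Matrix.ext fun a j => ?_
      show (DD (Pi.single j.succ 1) : MvPolynomial (Fin (n + 1)) F) ^ (Fintype.card F ^ a.val)
        = Yh (X j ^ (Fintype.card F ^ a.val))
      rw [map_pow, Yh_X]
    · intro i _ hi
      obtain ⟨j, rfl⟩ := Fin.exists_succ_eq.2 hi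
      have : (Matrix.of (Fin.cases (fun j => X j)
        (fun a j => (DD (Pi.single j 1) : MvPolynomial (Fin (n + 1)) F) ^ (Fintype.card F ^ a.val))) :
          Matrix (Fin (n + 1)) (Fin (n + 1)) (MvPolynomial (Fin (n + 1)) F)) j.succ 0 = 0 := by
        show (DD (Pi.single 0 1) : MvPolynomial (Fin (n + 1)) F) ^ (Fintype.card F ^ j.val) = 0
        rw [DD_zero, zero_pow (pow_ne_zero _ (by omega))]
      rw [this, mul_zero, zero_mul]
  · intro j
    show X j ^ (Fintype.card F ^ (0 : ℕ)) = X j
    rw [pow_zero, pow_one]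
  · intro a j
    show X j ^ (Fintype.card F ^ (a.val + 1))
      = (DD (Pi.single j 1) : MvPolynomial (Fin (n + 1)) F) ^ (Fintype.card F ^ a.val)
        + X 0 ^ (Fintype.card F ^ (a.val + 1) - Fintype.card F ^ a.val) * X j ^ (Fintype.card F ^ a.val)
    unfold DD
    rw [lf_single, ← frp_apply F a.val (_ - _), map_sub, frp_apply, frp_apply, mul_pow, ← pow_mul,
      ← pow_mul, ← pow_succ', Nat.sub_mul, one_mul, ← pow_succ']
    ring

end LLrec

section Tr
variable {F : Type} [Field F] [Fintype F] {n : ℕ}

/-- invariance under the stabiliser of the first basis vector -/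
def StabInv (f : MvPolynomial (Fin (n + 1)) F) : Prop :=
  ∀ g : Matrix (Fin (n + 1)) (Fin (n + 1)) F, IsUnit g.det →
    g.mulVec (Pi.single 0 1) = Pi.single 0 1 → act g f = f

omit [Fintype F] in
lemma stab_eq (f : MvPolynomial (Fin (n + 1)) F) (hf : StabInv f)
    (g : Matrix (Fin (n + 1)) (Fin (n + 1)) F)
    (hdet : IsUnit g.det) (v : Fin (n + 1) → F) (hv : v ≠ 0)
    (hg : g.mulVec (Pi.single 0 1) = v) : act g f = act (gv F n v) f := by
  have hu := gv_det v hv
  have h1 : g = gv F n v * ((gv F n v)⁻¹ * g) := by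
    rw [← Matrix.mul_assoc, Matrix.mul_nonsing_inv _ hu, Matrix.one_mul]
  have h2 : ((gv F n v)⁻¹ * g).mulVec (Pi.single 0 1) = Pi.single 0 1 := by
    rw [← Matrix.mulVec_mulVec, hg]
    have h := congrArg (fun x => (gv F n v)⁻¹.mulVec x) (gv_spec v hv)
    simp only [Matrix.mulVec_mulVec, Matrix.nonsing_inv_mul _ hu, Matrix.one_mulVec] at h
    exact h.symm
  have h3 : IsUnit ((gv F n v)⁻¹ * g).det := by
    rw [Matrix.det_mul]
    exact ((Matrix.isUnit_nonsing_inv_det_iff).2 hu).mul hdet
  rw [h1, act_mul, hf _ h3 h2]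

/-- the transfer -/
noncomputable def Tr (f : MvPolynomial (Fin (n + 1)) F) : MvPolynomial (Fin (n + 1)) F :=
  open Classical in
  - ∑ v : Fin (n + 1) → F, if v = 0 then 0 else act (gv F n v) f

lemma Tr_inv (f : MvPolynomial (Fin (n + 1)) F) (hf : StabInv f) : IsInv (Tr f) := by
  classical
  intro g hg
  unfold Tr
  rw [map_neg, map_sum]
  congr 1
  have hgi : Function.Bijective (fun v : Fin (n + 1) → F => g.mulVec v) := by
    refine ⟨?_, ?_⟩
    · intro v w hvw
      have := congrArg (fun x => g⁻¹.mulVec x) hvw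
      simpa [Matrix.mulVec_mulVec, Matrix.nonsing_inv_mul _ hg] using this
    · intro v
      refine ⟨g⁻¹.mulVec v, ?_⟩
      simp [Matrix.mulVec_mulVec, Matrix.mul_nonsing_inv _ hg]
  conv_rhs => rw [← Function.Bijective.sum_comp hgi]
  apply sum_congr rfl
  intro v _
  by_cases h : v = 0
  · rw [if_pos h, h, Matrix.mulVec_zero, if_pos rfl, map_zero]
  · have h2 : g.mulVec v ≠ 0 := by
      intro h3
      apply h
      apply hgi.1
      show g.mulVec v = g.mulVec 0
      rw [h3, Matrix.mulVec_zero]
    rw [if_neg h, if_neg h2, ← act_mul]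
    apply stab_eq f hf
    · rw [Matrix.det_mul]
      exact hg.mul (gv_det v h)
    · exact h2
    · rw [← Matrix.mulVec_mulVec, gv_spec v h]

end Tr

end Pool.Agent.H268R3.LRS
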