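import Pool.Agent.H268R3.LRS.Upper

set_option autoImplicit false

open Finset MvPolynomial Pool.Agent.H268R3.Soc

namespace Pool.Agent.H268R3.LRS

section grp
variable {F : Type} [Field F]

/-- the parabolic group attached to a block function -/
def PG {n : ℕ} (c : Fin n → ℕ) (g : Matrix (Fin n) (Fin n) F) : Prop :=
  IsUnit g.det ∧ ∀ i j, c j < c i → g i j = 0

/-- add a first block of size `b` -/
def cB {k : ℕ} (c : Fin k → ℕ) : (b : ℕ) → Fin (k + b) → ℕ
  | 0 => fun i => c i + 1
  | b + 1 => (Fin.cons 0 (cB c b) : Fin (k + b + 1) → ℕ)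

lemma cB_lt {k : ℕ} (c : Fin k → ℕ) (b : ℕ) : ∀ i : Fin (k + b), i.val < b → cB c b i = 0 := by
  induction b with
  | zero => intro i hi; exact absurd hi (Nat.not_lt_zero _)
  | succ b ih =>
    intro i hi
    refine Fin.cases (motive := fun i : Fin (k + b + 1) => i.val < b + 1 → cB c (b + 1) i = 0) ?_ ?_ i hi
    · intro _; rfl
    · intro j hj
      exact ih j (by rw [Fin.val_succ] at hj; omega)

lemma PG_blk {k b : ℕ} (c : Fin k → ℕ) (g : Matrix (Fin (k + b)) (Fin (k + b)) F)
    (hg : PG (cB c b) g) : PG (cB c (b + 1)) (blk g) := by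
  refine ⟨by rw [blk_det]; exact hg.1, ?_⟩
  intro i j
  refine Fin.cases ?_ (fun i => ?_) i
  · intro h
    exact absurd h (Nat.not_lt_zero _)
  · refine Fin.cases ?_ (fun j => ?_) j
    · intro _; rfl
    · intro h
      exact hg.2 i j h

lemma PG_diag {n : ℕ} (c : Fin (n + 1) → ℕ) (x : F) (hx : x ≠ 0) :
    PG c (Matrix.diagonal (Fin.cases x (fun _ => 1))) := by
  refine ⟨?_, ?_⟩
  · rw [Matrix.det_diagonal, Fin.prod_univ_succ]
    simp [hx]
  · intro i j h
    rw [Matrix.diagonal_apply_ne]
    rintro rfl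
    exact lt_irrefl _ h

lemma PG_tr {k b : ℕ} (c : Fin k → ℕ) (l : Fin (k + b)) :
    PG (cB c (b + 1)) (Matrix.transvection 0 l.succ (1 : F)) := by
  refine ⟨?_, ?_⟩
  · rw [Matrix.det_transvection_of_ne _ _ (Fin.succ_ne_zero l).symm]
    exact isUnit_one
  · intro i j h
    have h1 : i ≠ 0 := by
      rintro rfl
      exact absurd h (Nat.not_lt_zero _)
    have h2 : i ≠ j := by rintro rfl; exact lt_irrefl _ h
    rw [Matrix.transvection, Matrix.add_apply, Matrix.one_apply_ne h2, Matrix.single_apply,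
      if_neg (fun h' => h1 h'.1.symm), add_zero]

lemma PG_bx {k b : ℕ} (c : Fin k → ℕ) (g : Matrix (Fin b) (Fin b) F) (hg : IsUnit g.det) :
    PG (cB c b) (bx (k + b) g) := by
  refine ⟨bx_unit _ _ (Nat.le_add_left b k) g hg, ?_⟩
  intro i j h
  have h2 : i ≠ j := by rintro rfl; exact lt_irrefl _ h
  unfold bx
  rw [Matrix.of_apply, dif_neg, if_neg h2]
  rintro ⟨h3, h4⟩
  rw [cB_lt c b i h3, cB_lt c b j h4] at h
  exact lt_irrefl _ h

end grp

section eb
variable {F : Type} [Field F] [Fintype F] {k : ℕ}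

/-- first block embedding -/
noncomputable def eb (k b : ℕ) : MvPolynomial (Fin b) F →ₐ[F] MvPolynomial (Fin (k + b)) F :=
  rename (Fin.castLE (Nat.le_add_left b k))

/-- iterated lift -/
noncomputable def Yhb : (b : ℕ) → MvPolynomial (Fin k) F →ₐ[F] MvPolynomial (Fin (k + b)) F
  | 0 => AlgHom.id F _
  | b + 1 => Yh.comp (Yhb b)

lemma Yh_X' {n : ℕ} (j : Fin n) : (Yh (X j : MvPolynomial (Fin n) F))
    = X j.succ ^ Fintype.card F - X 0 ^ (Fintype.card F - 1) * X j.succ := by
  rw [Yh_X]; unfold DD; rw [lf_single]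

lemma eb_X0 (b : ℕ) : eb k (b + 1) (X 0 : MvPolynomial (Fin (b + 1)) F) = (X 0 : MvPolynomial (Fin (k + b + 1)) F) := by
  unfold eb; rw [rename_X]; rfl

lemma Yh_eb (b : ℕ) (d : MvPolynomial (Fin b) F) :
    (Yh (eb k b d) : MvPolynomial (Fin (k + b + 1)) F) = eb k (b + 1) (Yh d) := by
  have h : (Yh (F := F) (n := k + b)).comp (eb k b) = (eb k (b + 1)).comp (Yh (F := F) (n := b)) := by
    apply algHom_ext
    intro i
    rw [AlgHom.comp_apply, AlgHom.comp_apply, Yh_X']
    unfold eb
    rw [rename_X, Yh_X', map_sub, map_mul, map_pow, map_pow, rename_X, rename_X]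
    rfl
  exact congrArg (fun h : MvPolynomial (Fin b) F →ₐ[F] MvPolynomial (Fin (k + b + 1)) F => h d) h

lemma LLb (b : ℕ) : LL F (k + b) = eb k b (LL F b) * Yhb b (LL F k) := by
  induction b with
  | zero =>
    have : LL F 0 = 1 := by unfold LL; rw [Matrix.det_fin_zero]
    rw [this, map_one, one_mul]
    rfl
  | succ b ih =>
    show LL F (k + b + 1) = eb k (b + 1) (LL F (b + 1)) * Yh (Yhb b (LL F k))
    rw [LL_succ F (k + b), ih, map_mul, Yh_eb, LL_succ F b, map_mul, eb_X0]
    ring

lemma act_bx_eb (b : ℕ) (g : Matrix (Fin b) (Fin b) F) (d : MvPolynomial (Fin b) F) :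
    act (bx (k + b) g) (eb k b d) = eb k b (act g d) := by
  have h : (act (bx (k + b) g)).comp (eb k b) = (eb k b).comp (act g) := by
    apply algHom_ext
    intro i
    rw [AlgHom.comp_apply, AlgHom.comp_apply, act_X, lf, map_sum]
    unfold eb
    rw [rename_X, act_X, lf]
    symm
    apply Finset.sum_of_injOn (Fin.castLE (Nat.le_add_left b k))
    · intro x _ y _ h; exact Fin.castLE_injective _ h
    · intro x _; exact Finset.mem_coe.2 (mem_univ _)
    · intro x _ hx
      have h2 : ¬ x.val < b := by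
        intro h
        exact hx ⟨⟨x.val, h⟩, Finset.mem_coe.2 (mem_univ _), rfl⟩
      unfold bx
      rw [Matrix.of_apply, dif_neg (fun h => h2 h.1), if_neg, C_0, zero_mul]
      rintro rfl
      exact h2 i.2
    · intro x _
      rw [map_mul, rename_C, rename_X]
      unfold bx
      rw [Matrix.of_apply, dif_pos ⟨show (Fin.castLE (Nat.le_add_left b k) x).val < b from x.2,
        show (Fin.castLE (Nat.le_add_left b k) i).val < b from i.2⟩]
      rfl
  exact congrArg (fun h : MvPolynomial (Fin b) F →ₐ[F] MvPolynomial (Fin (k + b)) F => h d) h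

/-- shifted index -/
def sj : (b : ℕ) → Fin k → Fin (k + b)
  | 0 => id
  | b + 1 => fun j => (sj b j).succ

lemma sj_val (b : ℕ) (j : Fin k) : (sj b j).val = j.val + b := by
  induction b with
  | zero => rfl
  | succ b ih =>
    show (sj b j).succ.val = _
    rw [Fin.val_succ, ih]; rfl

lemma av_ccf {B : Type} [CommRing B] [Algebra F B] (b : ℕ) (f : MvPolynomial (Fin (b + 1)) F →+* B) (x : B) :
    av F (fun i => f (cc F (b + 1) i)) (b + 1) x
    = av F (fun i => f (Yh (cc F b i))) b (xe F (f (X 0) ^ (Fintype.card F - 1)) x) := by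
  unfold av xe
  have e1 : ∀ i ∈ range (b + 1), f (Yh (cc F b i)) * (x ^ Fintype.card F
      - f (X 0) ^ (Fintype.card F - 1) * x) ^ (Fintype.card F ^ i)
      = f (Yh (cc F b i)) * x ^ (Fintype.card F ^ (i + 1))
        - f (X 0) ^ ((Fintype.card F - 1) * Fintype.card F ^ i) * f (Yh (cc F b i)) * x ^ (Fintype.card F ^ i) := by
    intro i _
    rw [← frp_apply F i (_ - _), map_sub, frp_apply, frp_apply, mul_pow, ← pow_mul, ← pow_mul,
      ← pow_succ']
    ring
  rw [sum_congr rfl e1, sum_sub_distrib]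
  simp only [cc_succ, map_sub, map_mul, map_pow, sub_mul]
  rw [sum_sub_distrib, sum_range_succ' _ (b + 1)]
  congr 1
  · simp
  · rw [sum_range_succ _ (b + 1), cc_gt F b (b + 1) (by omega), map_zero, map_zero, mul_zero, zero_mul, add_zero]

lemma Yhb_X (b : ℕ) (j : Fin k) : Yhb b (X j : MvPolynomial (Fin k) F)
    = av F (fun i => eb k b (cc F b i)) b (X (sj b j)) := by
  induction b with
  | zero =>
    show X j = _
    unfold av
    rw [zero_add, sum_range_one]
    beta_reduce
    rw [cc_zero, if_pos rfl, map_one, one_mul, pow_zero, pow_one]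
    rfl
  | succ b ih =>
    show Yh (Yhb b (X j)) = _
    have h1 := av_map F (Yh (F := F) (n := k + b)).toRingHom (fun i => eb k b (cc F b i)) b (X (sj b j))
    simp only [AlgHom.toRingHom_eq_coe, RingHom.coe_coe, Yh_eb] at h1
    have h2 := av_ccf (B := MvPolynomial (Fin (k + b + 1)) F) b (eb k (b + 1)).toRingHom (X (sj b j).succ)
    simp only [AlgHom.toRingHom_eq_coe, RingHom.coe_coe] at h2
    rw [ih, h1]
    refine Eq.trans ?_ h2.symm
    congr 1
    rw [eb_X0, Yh_X']
    rfl

lemma act_bx_Yhb (b : ℕ) (g : Matrix (Fin b) (Fin b) F) (hg : IsUnit g.det) (u : MvPolynomial (Fin k) F) :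
    act (bx (k + b) g) (Yhb b u) = Yhb b u := by
  have h : (act (bx (k + b) g)).comp (Yhb b) = Yhb (F := F) (k := k) b := by
    apply algHom_ext
    intro j
    rw [AlgHom.comp_apply, Yhb_X]
    have h1 := av_map F (act (bx (k + b) g)).toRingHom (fun i => eb k b (cc F b i)) b (X (sj b j))
    simp only [AlgHom.toRingHom_eq_coe, RingHom.coe_coe, act_bx_eb] at h1
    rw [h1]
    have h2 : act (bx (k + b) g) (X (sj b j)) = X (sj b j) := by
      rw [act_X, ← lf_single]
      congr 1
      ext i
      unfold bx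
      rw [Matrix.of_apply, dif_neg, Pi.single_apply]
      rintro ⟨_, h3⟩
      rw [sj_val] at h3
      omega
    rw [h2]
    unfold av
    apply sum_congr rfl
    intro i hi
    rw [mem_range] at hi
    beta_reduce
    rw [cc_inv F b i (by omega) g hg]
  exact congrArg (fun h : MvPolynomial (Fin k) F →ₐ[F] MvPolynomial (Fin (k + b)) F => h u) h

end eb

section cl
variable (F : Type) [Field F] [Fintype F] {k : ℕ}

/-- spans used in the parabolic claim -/
noncomputable def SP (B : Type) [CommRing B] [Algebra F B] (U : Set (MvPolynomial (Fin k) F)) (b : ℕ) :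
    Submodule B (MvPolynomial (Fin (k + b)) B) :=
  Submodule.span B (MvPolynomial.map (algebraMap F B) '' {x | ∃ d u, IsInv d ∧ u ∈ U ∧ x = eb k b d * Yhb b u})

/-- stabiliser version -/
noncomputable def ST (B : Type) [CommRing B] [Algebra F B] (U : Set (MvPolynomial (Fin k) F)) (b : ℕ) :
    Submodule B (MvPolynomial (Fin (k + b + 1)) B) :=
  Submodule.span B (MvPolynomial.map (algebraMap F B) ''
    {x | ∃ s u, StabInv s ∧ u ∈ U ∧ x = eb k (b + 1) s * Yhb (b + 1) u})

variable {F} {B : Type} [CommRing B] [Algebra F B]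

theorem transfer_stepP (U : Set (MvPolynomial (Fin k) F)) (b : ℕ) (c : Fin k → ℕ)
    (I : Ideal (MvPolynomial (Fin (k + b + 1)) B))
    (hI : ∀ (g : Matrix (Fin (k + b + 1)) (Fin (k + b + 1)) F) (w : MvPolynomial (Fin (k + b + 1)) B),
      w ∈ I → actC g w ∈ I)
    (p P0 : MvPolynomial (Fin (k + b + 1)) B) (hp : ∀ g : Matrix (Fin (k + b + 1)) (Fin (k + b + 1)) F,
      PG (cB c (b + 1)) g → actC g p - p ∈ I) (hP0 : P0 ∈ ST F B U b)
    (h : MvPolynomial.map (algebraMap F B) (LL F (k + b + 1)) * (p - P0) ∈ I) :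
    ∃ g ∈ SP F B U (b + 1), MvPolynomial.map (algebraMap F B) (LL F (k + b + 1)) * (p - g) ∈ I := by
  classical
  set L := MvPolynomial.map (algebraMap F B) (LL F (k + b + 1)) with hL
  set G : (Fin (b + 1) → F) → Matrix (Fin (k + b + 1)) (Fin (k + b + 1)) F :=
    fun v => bx (k + (b + 1)) (gv F b v) with hG
  set T : MvPolynomial (Fin (k + b + 1)) B →ₗ[B] MvPolynomial (Fin (k + b + 1)) B :=
    - ∑ v : Fin (b + 1) → F, if v = 0 then 0 else (actC (B := B) (G v)).toLinearMap with hT
  have hTa : ∀ w, T w = - ∑ v : Fin (b + 1) → F, if v = 0 then 0 else actC (B := B) (G v) w := by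
    intro w
    rw [hT, LinearMap.neg_apply, LinearMap.sum_apply]
    congr 1
    apply sum_congr rfl
    intro v _
    split_ifs <;> rfl
  refine ⟨T P0, ?_, ?_⟩
  · have h1 : ST F B U b ≤ (SP F B U (b + 1)).comap T := by
      unfold ST
      rw [Submodule.span_le]
      rintro _ ⟨_, ⟨s, u, hs, hu, rfl⟩, rfl⟩
      show T _ ∈ SP F B U (b + 1)
      have h2 : T (MvPolynomial.map (algebraMap F B) (eb k (b + 1) s * Yhb (b + 1) u))
          = MvPolynomial.map (algebraMap F B) (eb k (b + 1) (Tr s) * Yhb (b + 1) u) := by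
        rw [hTa]
        unfold Tr
        rw [map_neg, map_sum, neg_mul, sum_mul, map_neg, map_sum]
        congr 1
        apply sum_congr rfl
        intro v _
        split_ifs with hv
        · rw [map_zero, zero_mul, map_zero]
        · rw [actC_base]
          congr 1
          have hdet := gv_det v hv
          rw [map_mul]
          have e1 : act (G v) (eb k (b + 1) s) = eb k (b + 1) (act (gv F b v) s) := act_bx_eb (b + 1) _ s
          have e2 : act (G v) (Yhb (b + 1) u) = Yhb (b + 1) u := act_bx_Yhb (b + 1) _ hdet u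
          rw [e1, e2]
      rw [h2]
      exact Submodule.subset_span ⟨_, ⟨Tr s, u, Tr_inv s hs, hu, rfl⟩, rfl⟩
    exact h1 hP0
  · have h1 : ∀ v : Fin (b + 1) → F, v ≠ 0 → L * (p - actC (B := B) (G v) P0) ∈ I := by
      intro v hv
      have hpg : PG (cB c (b + 1)) (G v) := PG_bx c (gv F b v) (gv_det v hv)
      have hdet := hpg.1
      have h2 := hI (G v) _ h
      rw [map_mul, hL, actC_base, act_LL, map_mul, MvPolynomial.map_C, mul_assoc, ← hL] at h2
      have h3 := Ideal.mul_mem_left I (C (algebraMap F B (G v).det⁻¹)) h2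
      rw [← mul_assoc, ← C_mul, ← map_mul, inv_mul_cancel₀ hdet.ne_zero, map_one, C_1, one_mul] at h3
      have h4 := Ideal.mul_mem_left I L (hp (G v) hpg)
      have := Ideal.sub_mem _ h3 h4
      convert this using 1
      rw [map_sub]
      ring
    have h2 : ∑ v : Fin (b + 1) → F, (if v = 0 then 0 else L * (p - actC (B := B) (G v) P0)) ∈ I := by
      apply Ideal.sum_mem
      intro v _
      split_ifs with hv
      · exact Ideal.zero_mem _
      · exact h1 v hv
    have h3 : ∑ v : Fin (b + 1) → F, (if v = 0 then 0 else L * (p - actC (B := B) (G v) P0))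
        = -(L * (p - T P0)) := by
      rw [hTa]
      have e1 : ∀ v : Fin (b + 1) → F, (if v = 0 then 0 else L * (p - actC (B := B) (G v) P0))
          = L * p - (if v = 0 then L * p else 0) - L * (if v = 0 then 0 else actC (B := B) (G v) P0) := by
        intro v
        split_ifs
        · rw [mul_zero, sub_self, sub_zero]
        · rw [sub_zero, mul_sub]
      rw [sum_congr rfl (fun v _ => e1 v), sum_sub_distrib, sum_sub_distrib, sum_const, card_univ,
        Fintype.card_fun, Fintype.card_fin, card_smul _ _ (Nat.succ_ne_zero b), sum_ite_eq',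
        if_pos (mem_univ _), ← mul_sum]
      ring
    rw [h3] at h2
    exact (Ideal.neg_mem_iff _).1 h2

omit [Fintype F] in
lemma lift_span {R R' : Type} [CommRing R] [Algebra F R] [CommRing R'] [Algebra F R'] (f : R →ₐ[F] R')
    (hf : Function.Surjective f) (V : Set (MvPolynomial (Fin k) F)) (g : MvPolynomial (Fin k) R')
    (hg : g ∈ Submodule.span R' (MvPolynomial.map (algebraMap F R') '' V)) :
    ∃ g' ∈ Submodule.span R (MvPolynomial.map (algebraMap F R) '' V), MvPolynomial.map f.toRingHom g' = g := by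
  induction hg using Submodule.span_induction with
  | mem x hx =>
    obtain ⟨d, hd, rfl⟩ := hx
    refine ⟨MvPolynomial.map (algebraMap F R) d, Submodule.subset_span ⟨d, hd, rfl⟩, ?_⟩
    have h : f.toRingHom.comp (algebraMap F R) = algebraMap F R' := RingHom.ext (fun c => f.commutes c)
    rw [MvPolynomial.map_map, h]
  | zero => exact ⟨0, Submodule.zero_mem _, map_zero _⟩
  | add x y _ _ hx hy =>
    obtain ⟨x', hx', rfl⟩ := hx
    obtain ⟨y', hy', rfl⟩ := hy
    exact ⟨x' + y', Submodule.add_mem _ hx' hy', map_add _ _ _⟩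
  | smul a x _ hx =>
    obtain ⟨x', hx', rfl⟩ := hx
    obtain ⟨a', rfl⟩ := hf a
    refine ⟨a' • x', Submodule.smul_mem _ _ hx', ?_⟩
    rw [smul_eq_C_mul, map_mul, MvPolynomial.map_C, smul_eq_C_mul]
    rfl

lemma X0_mul_ST (U : Set (MvPolynomial (Fin k) F)) (b : ℕ) (w : MvPolynomial (Fin (k + b + 1)) B)
    (hw : w ∈ ST F B U b) : X 0 * w ∈ ST F B U b := by
  unfold ST at hw ⊢
  induction hw using Submodule.span_induction with
  | mem x hx =>
    obtain ⟨_, ⟨s, u, hs, hu, rfl⟩, rfl⟩ := hx
    apply Submodule.subset_span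
    refine ⟨_, ⟨X 0 * s, u, ?_, hu, rfl⟩, ?_⟩
    · intro g hg hg0
      rw [map_mul, hs g hg hg0]
      congr 1
      rw [← lf_single, act_lf, hg0]
    · rw [map_mul (eb k (b + 1)), eb_X0, mul_assoc, map_mul (MvPolynomial.map (algebraMap F B)) (X 0),
        MvPolynomial.map_X]
  | zero => rw [mul_zero]; exact Submodule.zero_mem _
  | add x y _ _ hx hy => rw [mul_add]; exact Submodule.add_mem _ hx hy
  | smul a x _ hx => rw [mul_smul_comm]; exact Submodule.smul_mem _ _ hx

lemma aeval_mul_ST (U : Set (MvPolynomial (Fin k) F)) (b : ℕ) (r : Polynomial B)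
    (w : MvPolynomial (Fin (k + b + 1)) B) (hw : w ∈ ST F B U b) :
    Polynomial.aeval (X 0 : MvPolynomial (Fin (k + b + 1)) B) r * w ∈ ST F B U b := by
  induction r using Polynomial.induction_on' with
  | add p q hp hq => rw [map_add, add_mul]; exact Submodule.add_mem _ hp hq
  | monomial n a =>
    rw [Polynomial.aeval_monomial, mul_assoc, algebraMap_eq, ← smul_eq_C_mul]
    apply Submodule.smul_mem
    induction n with
    | zero => rwa [pow_zero, one_mul]
    | succ n ih => rw [pow_succ', mul_assoc]; exact X0_mul_ST U b _ ih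

lemma psi_Xi_memP (U : Set (MvPolynomial (Fin k) F)) (b : ℕ) (g : MvPolynomial (Fin (k + b)) (Polynomial B))
    (hg : g ∈ SP F (Polynomial B) U b) :
    psi (Xi F (Polynomial.X : Polynomial B) g) ∈ ST F B U b := by
  unfold SP at hg
  induction hg using Submodule.span_induction with
  | mem x hx =>
    obtain ⟨_, ⟨d, u, hd, hu, rfl⟩, rfl⟩ := hx
    rw [psi_Xi]
    apply Submodule.subset_span
    refine ⟨_, ⟨Yh d, u, ?_, hu, rfl⟩, ?_⟩
    · intro g hg hg0
      exact act_Yh_inv g hg 1 one_ne_zero (by rw [one_smul]; exact hg0) d hd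
    · rw [map_mul Yh, Yh_eb]
      rfl
  | zero => rw [map_zero, map_zero]; exact Submodule.zero_mem _
  | add x y _ _ hx hy => rw [map_add, map_add]; exact Submodule.add_mem _ hx hy
  | smul a x _ hx =>
    rw [map_smul, smul_eq_C_mul, map_mul, psi_C]
    exact aeval_mul_ST U b a _ hx

variable (F) in
/-- the claim as a property -/
def CPp {n : ℕ} (c : Fin n → ℕ) (V : ℕ → Set (MvPolynomial (Fin n) F)) : Prop :=
  ∀ (B : Type) [CommRing B] [Algebra F B] (α : ℕ → B) (m : ℕ) (_ : α m = 1)
    (p : MvPolynomial (Fin n) B)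
    (_ : ∀ g : Matrix (Fin n) (Fin n) F, PG c g → actC g p - p ∈ II (AP F α m) 0),
    ∃ g ∈ Submodule.span B (MvPolynomial.map (algebraMap F B) '' (V m)),
      MvPolynomial.map (algebraMap F B) (LL F n) * (p - g) ∈ II (AP F α m) 0

theorem claimP (c : Fin k → ℕ) (U : ℕ → Set (MvPolynomial (Fin k) F)) (h0 : CPp F c U) (b : ℕ) :
    CPp F (cB c b) (fun m => {x | ∃ d u, IsInv d ∧ u ∈ U (m - b) ∧ x = eb k b d * Yhb b u}) := by
  induction b with
  | zero =>
    intro B _ _ α m hα p hp
    obtain ⟨g, hg, hg'⟩ := h0 B α m hα p (by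
      intro g hg
      apply hp g
      refine ⟨hg.1, fun i j h => hg.2 i j ?_⟩
      have h' : c j + 1 < c i + 1 := h
      omega)
    refine ⟨g, Submodule.span_mono ?_ hg, hg'⟩
    rintro _ ⟨u, hu, rfl⟩
    refine ⟨u, ⟨1, u, fun g _ => map_one _, hu, ?_⟩, rfl⟩
    rw [map_one, one_mul]
    rfl
  | succ b ih =>
    intro B _ _ α m hα p hp
    cases m with
    | zero =>
      refine ⟨0, Submodule.zero_mem _, ?_⟩
      show MvPolynomial.map (algebraMap F B) (LL F (k + b + 1)) * _ ∈ _
      rw [LL_succ, map_mul, MvPolynomial.map_X, mul_assoc]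
      apply Ideal.mul_mem_right
      have h1 := pl_mem (AP F α 0) 0 (0 : Fin (k + b + 1))
      rw [pl_AP] at h1
      unfold av at h1
      rw [zero_add, sum_range_one] at h1
      simp only [hα, C_1, one_mul, pow_zero, pow_one] at h1
      exact h1
    | succ m =>
      set αR : ℕ → Polynomial B := fun i => Polynomial.C (α i) with hαR
      have hαR1 : αR (m + 1) = 1 := by rw [hαR]; show Polynomial.C (α (m + 1)) = 1; rw [hα, Polynomial.C_1]
      set p' : MvPolynomial (Fin (k + b)) (Polynomial B) := phi p with hp'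
      set AX : Polynomial B := AP F α (m + 1) with hAX
      set a : Polynomial B := qa F (Polynomial.X : Polynomial B) αR (m + 1) with ha
      have haA : a * Polynomial.X = AX := qa_mul F _ _ _
      have hmono : II (k := k + b) (AP F αR (m + 1)) AX ≤ II (AP F αR (m + 1)) a :=
        II_mono _ _ _ ⟨Polynomial.X, haA.symm⟩
      have hsc : ∀ c : F, c ≠ 0 → MvPolynomial.map (sc c) p' - p' ∈ II (AP F αR (m + 1)) AX := by
        intro x hx
        have h1 := phi_mem (F := F) α (m + 1) _ (hp (Matrix.diagonal (Fin.cases x (fun _ => 1))) (PG_diag _ x hx))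
        rwa [map_sub, phi_diag] at h1
      have htr : ∀ i : Fin (k + b), TT Polynomial.X i p' - p' ∈ II (AP F αR (m + 1)) AX := by
        intro i
        have h1 := phi_mem (F := F) α (m + 1) _ (hp (Matrix.transvection 0 i.succ (1 : F)) (PG_tr c i))
        rwa [map_sub, phi_tr] at h1
      have hγ : ∀ g : Matrix (Fin (k + b)) (Fin (k + b)) F, PG (cB c b) g →
          actC g p' - p' ∈ II (AP F αR (m + 1)) AX := by
        intro g hg
        have h1 := phi_mem (F := F) α (m + 1) _ (hp (blk g) (PG_blk c g hg))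
        rwa [map_sub, phi_blk] at h1
      set ph := phat F (Polynomial.X : Polynomial B) αR m hαR1 p' with hph
      have hph1 : p' - Xi F (Polynomial.X : Polynomial B) ph ∈ II (AP F αR (m + 1)) a :=
        phat_spec F _ αR m hαR1 p' a (div_all α m hα hαR1 p' hsc htr)
      have hγ2 : ∀ g : Matrix (Fin (k + b)) (Fin (k + b)) F, PG (cB c b) g →
          actC g ph - ph ∈ II (AP F (nx F Polynomial.X αR m) m) a := by
        intro g hg
        apply U2 F _ αR m hαR1
        rw [map_sub, Xi_actC]
        have h1 := actC_mem (F := F) g αR (m + 1) a _ hph1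
        have h2 := hmono (hγ g hg)
        rw [map_sub] at h1
        have := Ideal.add_mem _ (Ideal.sub_mem _ h2 h1) hph1
        convert this using 1
        ring
      set π := Ideal.Quotient.mk (Ideal.span {a}) with hπ
      have hAmap := AP_map (F := F) (R' := Polynomial B ⧸ Ideal.span {a}) π (nx F Polynomial.X αR m) m
      have hdown := fun w hw => down (F := F) (k := k + b) (R' := Polynomial B ⧸ Ideal.span {a}) π
        (nx F Polynomial.X αR m) m a
        (Ideal.Quotient.eq_zero_iff_mem.2 (Ideal.mem_span_singleton_self a)) w hw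
      obtain ⟨g1, hg1, hg1'⟩ := ih (Polynomial B ⧸ Ideal.span {a})
        (fun i => π (nx F Polynomial.X αR m i)) m
        (by show π _ = 1; rw [nx_top, hαR1, map_one]) (MvPolynomial.map π ph) (by
          intro g hg
          rw [actC_map π (fun c => rfl), ← map_sub]
          exact hdown _ (hγ2 g hg))
      obtain ⟨g2, hg2, hg2'⟩ := lift_span (Ideal.Quotient.mkₐ F (Ideal.span {a}))
        Ideal.Quotient.mk_surjective _ g1 hg1
      have hz : MvPolynomial.map (algebraMap F (Polynomial B)) (LL F (k + b)) * (ph - g2)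
          ∈ II (AP F (nx F Polynomial.X αR m) m) a := by
        apply lift_II
        rw [← hπ, map_mul, map_sub, MvPolynomial.map_map, hAmap]
        have e1 : MvPolynomial.map π g2 = g1 := hg2'
        rw [e1]
        exact hg1'
      have hz1 := Xi_mem F _ αR m _ hz
      rw [map_mul, map_sub] at hz1
      have hz2 : Xi F (Polynomial.X : Polynomial B) (MvPolynomial.map (algebraMap F (Polynomial B)) (LL F (k + b)))
          * (p' - Xi F (Polynomial.X : Polynomial B) g2) ∈ II (AP F αR (m + 1)) a := by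
        have := Ideal.add_mem _ hz1 (Ideal.mul_mem_left _ (Xi F (Polynomial.X : Polynomial B)
          (MvPolynomial.map (algebraMap F (Polynomial B)) (LL F (k + b)))) hph1)
        convert this using 1
        ring
      have hz3 := psi_mem (F := F) α (m + 1) _ hz2
      rw [map_mul, map_sub, hp', psi_phi, psi_Xi] at hz3
      have hz4 : MvPolynomial.map (algebraMap F B) (LL F (k + b + 1))
          * (p - psi (Xi F (Polynomial.X : Polynomial B) g2)) ∈ II (AP F α (m + 1)) 0 := by
        rw [LL_succ, map_mul, MvPolynomial.map_X, mul_assoc]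
        exact hz3
      have hg3 : g2 ∈ SP F (Polynomial B) (U (m - b)) b := hg2
      have key := transfer_stepP (U (m - b)) b c _ (fun g w hw => actC_mem g α (m + 1) 0 w hw) p _ hp
        (psi_Xi_memP (U (m - b)) b g2 hg3) hz4
      show ∃ g ∈ Submodule.span B (MvPolynomial.map (algebraMap F B) ''
        {x | ∃ d u, IsInv d ∧ u ∈ U (m + 1 - (b + 1)) ∧ x = eb k (b + 1) d * Yhb (b + 1) u}), _
      rw [Nat.add_sub_add_right]
      exact key

end cl

end Pool.Agent.H268R3.LRS
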