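import Pool.Agent.H268R3.LRS.PSpan
import Pool.Agent.H268R3.LRS.Low3

set_option autoImplicit false

open Finset MvPolynomial Pool.Agent.H268R3.Soc

namespace Pool.Agent.H268R3.LRS

/-- selector of variables with exponents for the removed ones -/
structure Sel (n k : ℕ) where
  ι : Fin k → Fin n
  σ : Fin n → Option (Fin k)
  e : Fin n → ℕ
  h1 : ∀ j, σ (ι j) = some j
  h2 : ∀ i j, σ i = some j → ι j = i

namespace Sel

variable {R : Type} [CommRing R] {n k : ℕ} (s : Sel n k)

/-- separating the kept variables -/
noncomputable def Th : MvPolynomial (Fin n) R →ₐ[R] MvPolynomial (Fin n) (MvPolynomial (Fin k) R) :=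
  aeval (fun i => (s.σ i).elim (X i) (fun j => C (X j)))

/-- low part of an exponent -/
noncomputable def lo (t : Fin n →₀ ℕ) : Fin k →₀ ℕ :=
  Finsupp.equivFunOnFinite.symm (fun j => t (s.ι j))

/-- high part of an exponent -/
noncomputable def hi (t : Fin n →₀ ℕ) : Fin n →₀ ℕ :=
  Finsupp.equivFunOnFinite.symm (fun i => (s.σ i).elim (t i) (fun _ => 0))

lemma lo_apply (t : Fin n →₀ ℕ) (j : Fin k) : s.lo t j = t (s.ι j) := rfl

lemma hi_apply (t : Fin n →₀ ℕ) (i : Fin n) : s.hi t i = (s.σ i).elim (t i) (fun _ => 0) := rfl

lemma Th_X (i : Fin n) : s.Th (X i : MvPolynomial (Fin n) R) = (s.σ i).elim (X i) (fun j => C (X j)) := by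
  unfold Th; rw [aeval_X]

lemma Th_C (c : R) : s.Th (C c : MvPolynomial (Fin n) R) = C (C c) := by
  rw [← algebraMap_eq, AlgHom.commutes]; rfl

lemma Th_monomial (t : Fin n →₀ ℕ) (c : R) :
    s.Th (monomial t c) = monomial (s.hi t) (monomial (s.lo t) c) := by
  have key : s.Th (monomial t (1 : R)) = monomial (s.hi t) (monomial (s.lo t) 1) := by
    induction t using Finsupp.induction_linear with
    | zero =>
      have h1 : s.hi (0 : Fin n →₀ ℕ) = 0 := by
        ext i; rw [hi_apply]; cases s.σ i <;> rfl
      have h2 : s.lo (0 : Fin n →₀ ℕ) = 0 := by ext i; rw [lo_apply]; rfl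
      rw [h1, h2]
      show s.Th 1 = _
      rw [map_one]; rfl
    | add a b ha hb =>
      have h1 : s.hi (a + b) = s.hi a + s.hi b := by
        ext i; rw [Finsupp.add_apply, hi_apply, hi_apply, hi_apply, Finsupp.add_apply]
        cases s.σ i <;> rfl
      have h2 : s.lo (a + b) = s.lo a + s.lo b := by
        ext i; rw [Finsupp.add_apply, lo_apply, lo_apply, lo_apply]; rfl
      have h3 : (monomial (a + b) (1 : R)) = monomial a 1 * monomial b 1 := by
        rw [monomial_mul, one_mul]
      rw [h3, map_mul, ha, hb, h1, h2, monomial_mul, monomial_mul, one_mul]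
    | single i t =>
      rw [← X_pow_eq_monomial, map_pow, Th_X]
      cases h : s.σ i with
      | some j =>
        have h1 : s.hi (Finsupp.single i t) = 0 := by
          ext l
          rw [hi_apply]
          cases hl : s.σ l with
          | some j' => rfl
          | none =>
            show Finsupp.single i t l = 0
            rw [Finsupp.single_apply, if_neg]
            rintro rfl
            rw [h] at hl; cases hl
        have h2 : s.lo (Finsupp.single i t) = Finsupp.single j t := by
          ext l
          rw [lo_apply, Finsupp.single_apply, Finsupp.single_apply]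
          congr 1
          rw [eq_iff_iff]
          constructor
          · intro h'
            have h3 := s.h1 l
            rw [← h', h] at h3
            exact Option.some.inj h3
          · intro h'
            rw [← h']
            exact (s.h2 i j h).symm
        rw [h1, h2]
        show (C (X j)) ^ t = _
        rw [← map_pow, X_pow_eq_monomial]; rfl
      | none =>
        have h1 : s.hi (Finsupp.single i t) = Finsupp.single i t := by
          ext l
          rw [hi_apply]
          cases hl : s.σ l with
          | some j' =>
            show 0 = Finsupp.single i t l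
            rw [Finsupp.single_apply, if_neg]
            rintro rfl
            rw [h] at hl; cases hl
          | none => rfl
        have h2 : s.lo (Finsupp.single i t) = 0 := by
          ext l
          rw [lo_apply, Finsupp.single_apply, if_neg]
          · rfl
          · intro h'
            have h3 := s.h1 l
            rw [← h', h] at h3
            cases h3
        rw [h1, h2]
        show (X i) ^ t = _
        rw [X_pow_eq_monomial]; rfl
  have h1 : (monomial t c : MvPolynomial (Fin n) R) = c • monomial t 1 := by
    rw [smul_monomial, smul_eq_mul, mul_one]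
  rw [h1, map_smul, key]
  ext a b
  rw [coeff_smul, coeff_monomial, coeff_monomial]
  split_ifs
  · rw [coeff_smul, coeff_monomial, coeff_monomial]
    split_ifs
    · rw [smul_eq_mul, mul_one]
    · rw [smul_zero]
  · rw [smul_zero]

/-- the high exponent -/
noncomputable def ex : Fin n →₀ ℕ :=
  Finsupp.equivFunOnFinite.symm (fun i => (s.σ i).elim (s.e i) (fun _ => 0))

lemma ex_apply (i : Fin n) : s.ex i = (s.σ i).elim (s.e i) (fun _ => 0) := rfl

/-- extension of an exponent -/
noncomputable def xt (a : Fin k →₀ ℕ) : Fin n →₀ ℕ :=
  Finsupp.equivFunOnFinite.symm (fun i => (s.σ i).elim (s.e i) a)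

lemma xt_apply (a : Fin k →₀ ℕ) (i : Fin n) : s.xt a i = (s.σ i).elim (s.e i) a := rfl

/-- coefficient extraction -/
noncomputable def rr : MvPolynomial (Fin n) R →ₗ[R] MvPolynomial (Fin k) R where
  toFun f := coeff s.ex (s.Th f)
  map_add' f g := by rw [map_add, coeff_add]
  map_smul' c f := by rw [map_smul, coeff_smul]; rfl

lemma rr_apply (f : MvPolynomial (Fin n) R) : s.rr f = coeff s.ex (s.Th f) := rfl

lemma coeff_rr (f : MvPolynomial (Fin n) R) (a : Fin k →₀ ℕ) :
    coeff a (s.rr f) = coeff (s.xt a) f := by
  induction f using MvPolynomial.induction_on' with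
  | add p q hp hq => rw [map_add, coeff_add, coeff_add, hp, hq]
  | monomial t c =>
    rw [rr_apply, Th_monomial, coeff_monomial, coeff_monomial]
    by_cases h : t = s.xt a
    · rw [if_pos h, if_pos, coeff_monomial, if_pos]
      · ext j
        rw [h, lo_apply, xt_apply, s.h1]
        rfl
      · ext i
        rw [h, hi_apply, ex_apply, xt_apply]
        cases s.σ i <;> rfl
    · rw [if_neg h]
      split_ifs with h1
      · rw [coeff_monomial, if_neg]
        intro h2
        apply h
        ext i
        rw [xt_apply]
        cases hi : s.σ i with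
        | some j =>
          show t i = a j
          rw [← h2, lo_apply, s.h2 i j hi]
        | none =>
          have := DFunLike.congr_fun h1 i
          rwa [hi_apply, ex_apply, hi] at this
      · rw [coeff_zero]

lemma rr_map {R' : Type} [CommRing R'] (f : R →+* R')
    (w : MvPolynomial (Fin n) R) : s.rr (MvPolynomial.map f w) = MvPolynomial.map f (s.rr w) := by
  ext a
  rw [coeff_rr, coeff_map, coeff_map, coeff_rr]

lemma rr_II (N : ℕ) (heN : ∀ i, s.e i < N) (b : R) (w : MvPolynomial (Fin n) R)
    (hw : w ∈ II ((Polynomial.X : Polynomial R) ^ N) b) :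
    s.rr w ∈ II ((Polynomial.X : Polynomial R) ^ N) b := by
  rw [mem_II] at hw ⊢
  intro a ha
  rw [coeff_rr]
  apply hw
  intro i
  rw [xt_apply]
  cases s.σ i with
  | some j => exact ha j
  | none => exact heN i

lemma rr_JN (N : ℕ) (heN : ∀ i, s.e i < N) (w : MvPolynomial (Fin n) R)
    (hw : w ∈ JN R N n) : s.rr w ∈ JN R N k := by
  rw [mem_JN] at hw ⊢
  intro a ha
  rw [coeff_rr] at ha
  obtain ⟨i, hi⟩ := hw _ ha
  rw [xt_apply] at hi
  cases hs : s.σ i with
  | some j => rw [hs] at hi; exact ⟨j, hi⟩
  | none =>
    rw [hs] at hi
    have := heN i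
    have hi' : N ≤ s.e i := hi
    omega

/-- total removed degree -/
noncomputable def sd : ℕ := ∑ i, s.ex i

lemma xt_degree (a : Fin k →₀ ℕ) : (s.xt a).degree = a.degree + s.sd := by
  rw [Finsupp.degree_eq_sum, Finsupp.degree_eq_sum, sd]
  have h : ∀ i, s.xt a i = (∑ j, if s.ι j = i then a j else 0) + s.ex i := by
    intro i
    rw [xt_apply, ex_apply]
    cases hs : s.σ i with
    | some j =>
      rw [Finset.sum_eq_single_of_mem j (mem_univ _)]
      · rw [if_pos (s.h2 i j hs)]; rfl
      · intro l _ hl
        rw [if_neg]
        intro h'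
        have h3 := s.h1 l
        rw [h', hs] at h3
        exact hl (Option.some.inj h3).symm
    | none =>
      rw [Finset.sum_eq_zero]
      · show s.e i = 0 + s.e i
        rw [zero_add]
      · intro l _
        rw [if_neg]
        intro h'
        have h3 := s.h1 l
        rw [h', hs] at h3
        cases h3
  simp only [h]
  rw [sum_add_distrib, sum_comm]
  congr 1
  apply sum_congr rfl
  intro j _
  rw [sum_ite_eq, if_pos (mem_univ _)]

lemma rr_homog (d : ℕ) (f : MvPolynomial (Fin n) R) (hf : f.IsHomogeneous d) :
    (if s.sd ≤ d then (s.rr f).IsHomogeneous (d - s.sd) else s.rr f = 0) := by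
  split_ifs with h
  · intro a ha
    rw [coeff_rr] at ha
    have h1 := hf ha
    have h2 : (s.xt a).degree = d := by rw [Finsupp.degree_eq_weight_one]; exact h1
    rw [xt_degree] at h2
    have h3 : a.degree = d - s.sd := by omega
    rwa [Finsupp.degree_eq_weight_one] at h3
  · ext a
    rw [coeff_rr, coeff_zero]
    by_contra ha
    have h1 := hf ha
    have h2 : (s.xt a).degree = d := by rw [Finsupp.degree_eq_weight_one]; exact h1
    rw [xt_degree] at h2
    omega

end Sel

end Pool.Agent.H268R3.LRS
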