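import Pool.Agent.H268R3.LRS.PExt

set_option autoImplicit false

open Finset MvPolynomial Pool.Agent.H268R3.Soc

namespace Pool.Agent.H268R3.LRS

namespace Sel

variable {F : Type} [Field F] {n k : ℕ} (s : Sel n k)

/-- inclusion matrix -/
def Pm (F : Type) [Field F] : Matrix (Fin n) (Fin k) F := Matrix.of (fun i j => if s.ι j = i then 1 else 0)

lemma ι_inj : Function.Injective s.ι := by
  intro a b h
  have h1 := s.h1 a
  rw [h, s.h1 b] at h1
  exact (Option.some.inj h1).symm

lemma PtP : (s.Pm F).transpose * s.Pm F = 1 := by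
  ext a b
  rw [Matrix.mul_apply, Matrix.one_apply]
  simp only [Matrix.transpose_apply, Pm, Matrix.of_apply, mul_ite, mul_one, mul_zero]
  rw [sum_ite_eq, if_pos (mem_univ _)]
  by_cases h : a = b
  · rw [if_pos h, if_pos (by rw [h])]
  · rw [if_neg h, if_neg (fun h' => h (s.ι_inj h'))]

/-- block extension -/
def bx (g : Matrix (Fin k) (Fin k) F) : Matrix (Fin n) (Fin n) F :=
  s.Pm F * g * (s.Pm F).transpose + (1 - s.Pm F * (s.Pm F).transpose)

lemma bx_mul (g h : Matrix (Fin k) (Fin k) F) : s.bx g * s.bx h = s.bx (g * h) := by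
  unfold bx
  set P := s.Pm F
  set Q := P.transpose
  have hQ : Q * P = 1 := s.PtP
  have e1 : P * g * Q * (P * h * Q) = P * (g * h) * Q := by
    calc P * g * Q * (P * h * Q) = P * g * (Q * P) * h * Q := by simp only [Matrix.mul_assoc]
      _ = P * (g * h) * Q := by rw [hQ, Matrix.mul_one]; simp only [Matrix.mul_assoc]
  have e2 : P * g * Q * (P * Q) = P * g * Q := by
    calc P * g * Q * (P * Q) = P * g * (Q * P) * Q := by simp only [Matrix.mul_assoc]
      _ = P * g * Q := by rw [hQ, Matrix.mul_one]
  have e3 : P * Q * (P * h * Q) = P * h * Q := by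
    calc P * Q * (P * h * Q) = P * (Q * P) * h * Q := by simp only [Matrix.mul_assoc]
      _ = P * h * Q := by rw [hQ, Matrix.mul_one]
  have e4 : P * Q * (P * Q) = P * Q := by
    calc P * Q * (P * Q) = P * (Q * P) * Q := by simp only [Matrix.mul_assoc]
      _ = P * Q := by rw [hQ, Matrix.mul_one]
  rw [Matrix.add_mul, Matrix.mul_add, Matrix.mul_add, Matrix.mul_sub, Matrix.sub_mul, Matrix.sub_mul,
    Matrix.mul_sub, Matrix.mul_sub, e1, e2, e3, e4, Matrix.mul_one, Matrix.one_mul, Matrix.one_mul, Matrix.mul_one,
    Matrix.one_mul]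
  abel

lemma bx_one : s.bx (1 : Matrix (Fin k) (Fin k) F) = 1 := by
  unfold bx
  rw [Matrix.mul_one]
  abel

lemma bx_unit (g : Matrix (Fin k) (Fin k) F) (hg : IsUnit g.det) : IsUnit (s.bx g).det := by
  have h1 : s.bx g * s.bx g⁻¹ = 1 := by
    rw [bx_mul, Matrix.mul_nonsing_inv _ hg, bx_one]
  have h2 := congrArg Matrix.det h1
  rw [Matrix.det_mul, Matrix.det_one] at h2
  exact IsUnit.of_mul_eq_one _ h2

lemma bx_apply (g : Matrix (Fin k) (Fin k) F) (i j : Fin n) :
    s.bx g i j = (∑ b, ∑ a, (if s.ι a = i then g a b else 0) * (if s.ι b = j then 1 else 0))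
      + ((if i = j then 1 else 0) - ∑ a, (if s.ι a = i then 1 else 0) * (if s.ι a = j then 1 else 0)) := by
  unfold bx
  rw [Matrix.add_apply, Matrix.sub_apply, Matrix.mul_apply, Matrix.mul_apply, Matrix.one_apply]
  congr 1
  apply sum_congr rfl
  intro b _
  rw [Matrix.mul_apply, sum_mul]
  apply sum_congr rfl
  intro a _
  simp only [Pm, Matrix.of_apply, Matrix.transpose_apply, ite_mul, one_mul, zero_mul]

lemma bx_kept (g : Matrix (Fin k) (Fin k) F) (i : Fin n) (b : Fin k) :
    s.bx g i (s.ι b) = ∑ a, (if s.ι a = i then g a b else 0) := by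
  rw [bx_apply]
  have h1 : ∀ b' : Fin k, (∑ a, (if s.ι a = i then g a b' else 0) * (if s.ι b' = s.ι b then (1 : F) else 0))
      = if b' = b then (∑ a, (if s.ι a = i then g a b' else 0)) else 0 := by
    intro b'
    by_cases h : b' = b
    · rw [if_pos h]
      apply sum_congr rfl
      intro a _
      rw [if_pos (by rw [h] : s.ι b' = s.ι b), mul_one]
    · rw [if_neg h]
      apply sum_eq_zero
      intro a _
      rw [if_neg (fun h' => h (s.ι_inj h')), mul_zero]
  have h2 : (∑ a, (if s.ι a = i then (1 : F) else 0) * (if s.ι a = s.ι b then 1 else 0))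
      = if i = s.ι b then 1 else 0 := by
    rw [Finset.sum_eq_single_of_mem b (mem_univ _)]
    · rw [if_pos (rfl : s.ι b = s.ι b), mul_one]
      by_cases h : i = s.ι b
      · rw [if_pos h, if_pos h.symm]
      · rw [if_neg h, if_neg (fun h' => h h'.symm)]
    · intro a _ ha
      rw [if_neg (fun h' : s.ι a = s.ι b => ha (s.ι_inj h')), mul_zero]
  simp only [h1]
  rw [h2, sub_self, add_zero, sum_ite_eq', if_pos (mem_univ _)]

lemma bx_none (g : Matrix (Fin k) (Fin k) F) (i j : Fin n) (hj : s.σ j = none) :
    s.bx g i j = if i = j then 1 else 0 := by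
  have hne : ∀ a, s.ι a ≠ j := by
    intro a h
    have := s.h1 a
    rw [h, hj] at this
    cases this
  rw [bx_apply, sum_eq_zero, sum_eq_zero, sub_zero, zero_add]
  · intro a _
    rw [if_neg (hne a), mul_zero]
  · intro b _
    apply sum_eq_zero
    intro a _
    rw [if_neg (hne b), mul_zero]

lemma bx_PG (c : Fin n → ℕ) (c' : Fin k → ℕ) (hc : ∀ j, c (s.ι j) = c' j) (g : Matrix (Fin k) (Fin k) F)
    (hg : PG c' g) : PG c (s.bx g) := by
  refine ⟨s.bx_unit g hg.1, ?_⟩
  intro i j hij
  cases hs : s.σ j with
  | some b =>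
    have hb := s.h2 j b hs
    rw [← hb, bx_kept]
    apply sum_eq_zero
    intro a _
    split_ifs with h
    · apply hg.2
      rw [← hc, ← hc, h, hb]
      exact hij
    · rfl
  | none =>
    rw [bx_none s g i j hs, if_neg]
    rintro rfl
    exact lt_irrefl _ hij

lemma Th_act (g : Matrix (Fin k) (Fin k) F) (f : MvPolynomial (Fin n) F) :
    s.Th (act (s.bx g) f) = MvPolynomial.map (act g).toRingHom (s.Th f) := by
  have h : s.Th.toRingHom.comp (act (s.bx g)).toRingHom
      = (MvPolynomial.map (act g).toRingHom).comp (s.Th (R := F)).toRingHom := by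
    apply ringHom_ext
    · intro r
      show s.Th (act (s.bx g) (C r)) = MvPolynomial.map (act g).toRingHom (s.Th (C r))
      rw [act_C, Th_C, MvPolynomial.map_C]
      show _ = C (act g (C r))
      rw [act_C]
    · intro j
      show s.Th (act (s.bx g) (X j)) = MvPolynomial.map (act g).toRingHom (s.Th (X j))
      rw [act_X, lf, map_sum, Th_X]
      simp only [map_mul, Th_C, Th_X]
      cases hs : s.σ j with
      | some b =>
        have hb := s.h2 j b hs
        show _ = MvPolynomial.map (act g).toRingHom (C (X b))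
        rw [MvPolynomial.map_C]
        show _ = C (act g (X b))
        rw [act_X, lf, map_sum, ← hb]
        have h1 : ∀ i, C (C (s.bx g i (s.ι b))) * ((s.σ i).elim (X i) (fun j => C (X j)) :
            MvPolynomial (Fin n) (MvPolynomial (Fin k) F))
            = ∑ a, if s.ι a = i then C (C (g a b) * X a) else 0 := by
          intro i
          rw [bx_kept, map_sum, map_sum, sum_mul]
          apply sum_congr rfl
          intro a _
          split_ifs with h
          · rw [← h, s.h1, C_mul]; rfl
          · rw [C_0, C_0, zero_mul]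
        simp only [h1]
        rw [sum_comm]
        apply sum_congr rfl
        intro a _
        rw [sum_ite_eq, if_pos (mem_univ _)]
      | none =>
        show _ = MvPolynomial.map (act g).toRingHom (X j)
        rw [MvPolynomial.map_X, Finset.sum_eq_single_of_mem j (mem_univ _)]
        · rw [bx_none s g j j hs, if_pos rfl, C_1, C_1, one_mul, hs]
          rfl
        · intro i _ hi
          rw [bx_none s g i j hs, if_neg hi, C_0, C_0, zero_mul]
  exact congrArg (fun h : MvPolynomial (Fin n) F →+* MvPolynomial (Fin n) (MvPolynomial (Fin k) F) => h f) h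

theorem rr_act (g : Matrix (Fin k) (Fin k) F) (f : MvPolynomial (Fin n) F) :
    s.rr (act (s.bx g) f) = act g (s.rr f) := by
  rw [rr_apply, rr_apply, Th_act, coeff_map]
  rfl

/-- scaling the exponents -/
def scale (q : ℕ) : Sel n k := ⟨s.ι, s.σ, fun i => q * s.e i, s.h1, s.h2⟩

lemma ex_scale (q : ℕ) : (s.scale q).ex = q • s.ex := by
  ext i
  rw [Finsupp.smul_apply, ex_apply, ex_apply]
  show (s.σ i).elim (q * s.e i) (fun _ => 0) = q • _
  cases s.σ i <;> rfl

theorem rr_expand [Fintype F] (f : MvPolynomial (Fin n) F) :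
    (s.scale (Fintype.card F)).rr (expand (Fintype.card F) f) = expand (Fintype.card F) (s.rr f) := by
  have hq : Fintype.card F ≠ 0 := Fintype.card_ne_zero
  have h : (s.scale (Fintype.card F)).Th.toRingHom.comp (expand (Fintype.card F)).toRingHom
      = ((MvPolynomial.map (expand (Fintype.card F)).toRingHom).comp
        (expand (Fintype.card F) (R := MvPolynomial (Fin k) F) (σ := Fin n)).toRingHom).comp
          (s.Th (R := F)).toRingHom := by
    apply ringHom_ext
    · intro r
      show (s.scale (Fintype.card F)).Th (expand _ (C r)) = MvPolynomial.map (expand (Fintype.card F)).toRingHom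
        (expand (Fintype.card F) (s.Th (C r)))
      rw [expand_C, Th_C, Th_C, expand_C, MvPolynomial.map_C]
      show _ = C (expand _ (C r))
      rw [expand_C]
    · intro i
      show (s.scale (Fintype.card F)).Th (expand _ (X i)) = MvPolynomial.map (expand (Fintype.card F)).toRingHom
        (expand (Fintype.card F) (s.Th (X i)))
      rw [expand_X, map_pow, Th_X, Th_X]
      show ((s.σ i).elim (X i) (fun j => C (X j)) : MvPolynomial (Fin n) (MvPolynomial (Fin k) F)) ^ _ = _
      cases s.σ i with
      | some j =>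
        show (C (X j)) ^ _ = MvPolynomial.map (expand (Fintype.card F)).toRingHom (expand (Fintype.card F) (C (X j)))
        rw [expand_C, MvPolynomial.map_C, ← map_pow]
        show _ = C (expand _ (X _))
        rw [expand_X]
      | none =>
        show (X i) ^ _ = MvPolynomial.map (expand (Fintype.card F)).toRingHom (expand (Fintype.card F) (X i))
        rw [expand_X, map_pow, MvPolynomial.map_X]
  have h2 := congrArg (fun h : MvPolynomial (Fin n) F →+* MvPolynomial (Fin n) (MvPolynomial (Fin k) F) => h f) h
  have h3 : (s.scale (Fintype.card F)).Th (expand (Fintype.card F) f)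
      = MvPolynomial.map (expand (Fintype.card F)).toRingHom
        (expand (Fintype.card F) (s.Th f)) := h2
  rw [rr_apply, rr_apply, h3, coeff_map, ex_scale, coeff_expand_smul _ hq]
  rfl

/-- keep a new first variable -/
def K (s : Sel n k) : Sel (n + 1) (k + 1) where
  ι := Fin.cons 0 (fun j => (s.ι j).succ)
  σ := Fin.cons (some 0) (fun i => (s.σ i).map Fin.succ)
  e := Fin.cons 0 s.e
  h1 := by
    intro j
    refine Fin.cases ?_ (fun j => ?_) j
    · rfl
    · rw [Fin.cons_succ, Fin.cons_succ, s.h1]; rfl
  h2 := by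
    intro i j
    refine Fin.cases ?_ (fun i => ?_) i
    · intro h
      rw [Fin.cons_zero] at h
      rw [← Option.some.inj h]; rfl
    · intro h
      rw [Fin.cons_succ] at h
      cases hs : s.σ i with
      | none => rw [hs] at h; cases h
      | some a =>
        rw [hs] at h
        have h' : a.succ = j := Option.some.inj h
        rw [← h', Fin.cons_succ, s.h2 i a hs]

/-- remove a new first variable -/
def Rm (e0 : ℕ) (s : Sel n k) : Sel (n + 1) k where
  ι := fun j => (s.ι j).succ
  σ := Fin.cons none s.σ
  e := Fin.cons e0 s.e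
  h1 := by
    intro j
    rw [Fin.cons_succ, s.h1]
  h2 := by
    intro i j
    refine Fin.cases ?_ (fun i => ?_) i
    · intro h
      rw [Fin.cons_zero] at h
      cases h
    · intro h
      rw [Fin.cons_succ] at h
      rw [s.h2 i j h]

lemma rrphi (s : Sel n k) (f : MvPolynomial (Fin (n + 1)) F) :
    phi (s.K.rr f) = s.rr (phi f) := by
  have h : (MvPolynomial.map (phi (B := F) (k := k))).comp (s.K.Th (R := F)).toRingHom
      = ((rename (R := MvPolynomial (Fin k) (Polynomial F)) Fin.succ).toRingHom.comp
        (s.Th (R := Polynomial F)).toRingHom).comp (phi (B := F) (k := n)) := by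
    apply ringHom_ext
    · intro r
      show MvPolynomial.map phi (s.K.Th (C r)) = rename Fin.succ (s.Th (phi (C r)))
      rw [Th_C, MvPolynomial.map_C, phi_C, phi_C, Th_C, rename_C]
    · intro i
      show MvPolynomial.map phi (s.K.Th (X i)) = rename Fin.succ (s.Th (phi (X i)))
      rw [Th_X]
      refine Fin.cases ?_ (fun i => ?_) i
      · show MvPolynomial.map phi (C (X 0)) = _
        rw [MvPolynomial.map_C, phi_X0, phi_X0, Th_C, rename_C]
      · rw [phi_Xs, Th_X]
        show MvPolynomial.map phi (((s.σ i).map Fin.succ).elim (X i.succ) (fun j => C (X j))) = _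
        cases s.σ i with
        | some a =>
          show MvPolynomial.map phi (C (X a.succ)) = rename Fin.succ (C (X a))
          rw [MvPolynomial.map_C, rename_C]
          congr 1
          exact phi_Xs a
        | none =>
          show MvPolynomial.map phi (X i.succ) = rename Fin.succ (X i)
          rw [MvPolynomial.map_X, rename_X]
  have h2 := congrArg (fun h : MvPolynomial (Fin (n + 1)) F →+*
    MvPolynomial (Fin (n + 1)) (MvPolynomial (Fin k) (Polynomial F)) => h f) h
  have h3 : MvPolynomial.map (phi (B := F) (k := k)) (s.K.Th (R := F) f)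
      = rename Fin.succ (s.Th (R := Polynomial F) (phi f)) := h2
  have h4 : s.K.ex = (s.ex).mapDomain Fin.succ := by
    ext i
    refine Fin.cases ?_ (fun i => ?_) i
    · rw [ex_apply, Finsupp.mapDomain_notin_range]
      · rfl
      · rintro ⟨x, hx⟩
        exact Fin.succ_ne_zero x hx
    · rw [Finsupp.mapDomain_apply (Fin.succ_injective n), ex_apply, ex_apply]
      show ((s.σ i).map Fin.succ).elim (s.e i) (fun _ => 0) = _
      cases s.σ i <;> rfl
  rw [rr_apply, rr_apply, ← coeff_map, h3, h4, coeff_rename_mapDomain _ (Fin.succ_injective n)]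

lemma rr_Rm {R : Type} [CommRing R] (e0 : ℕ) (s : Sel n k) (s' : Sel (n + 1) n)
    (hs' : s'.σ = Fin.cons none some) (he' : s'.e 0 = e0)
    (f : MvPolynomial (Fin (n + 1)) R) : (s.Rm e0).rr f = s.rr (s'.rr f) := by
  ext a
  rw [coeff_rr, coeff_rr, coeff_rr]
  congr 1
  ext i
  rw [xt_apply, xt_apply, hs']
  refine Fin.cases ?_ (fun i => ?_) i
  · exact he'.symm
  · rfl

/-- identity selector -/
def idS (n : ℕ) : Sel n n := ⟨id, some, fun _ => 0, fun _ => rfl, fun _ _ h => (Option.some.inj h).symm⟩

end Sel

end Pool.Agent.H268R3.LRS
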