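import Pool.Agent.H268R3.LRS.PLow3

set_option autoImplicit false

open Finset MvPolynomial Pool.Agent.H268R3.Soc

namespace Pool.Agent.H268R3.LRS

section gf
variable (F : Type) [Field F] [Fintype F]

/-- generating function of the spanning elements -/
noncomputable def GFU {A : Type} [CommRing A] (β : List ℕ) (m : ℕ) (t : A) : A :=
  ((UM F β m).map (fun p => t ^ p.2)).sum

lemma GFU_nil {A : Type} [CommRing A] (m : ℕ) (t : A) : GFU F [] m t = 1 := by
  unfold GFU
  rw [UM, Multiset.map_singleton, Multiset.sum_singleton, pow_zero]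

lemma GFU_cons {A : Type} [CommRing A] (b : ℕ) (β : List ℕ) (m : ℕ) (t : A) :
    GFU F (b :: β) m t = GF F m b t * GFU F β (m - b) (t ^ Fintype.card F ^ b) := by
  unfold GFU GF
  rw [UM, Multiset.map_bind, Multiset.sum_bind, ← Multiset.sum_map_mul_right]
  congr 1
  apply Multiset.map_congr rfl
  intro e _
  rw [Multiset.map_map, ← Multiset.sum_map_mul_left]
  congr 1
  apply Multiset.map_congr rfl
  intro u _
  show t ^ (wt F b e + Fintype.card F ^ b * u.2) = _
  rw [pow_add, pow_mul]

/-- denominators -/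
def DEN {A : Type} [CommRing A] (q : ℕ) (t : A) (M : ℕ) : List ℕ → ℕ → A
  | [], s => ∏ j ∈ range (M - s), (1 - t ^ (q ^ M - q ^ (s + j)))
  | b :: β, s => (∏ j ∈ range b, (1 - t ^ (q ^ (s + b) - q ^ (s + j)))) * DEN q t M β (s + b)

lemma GFU_DEN {A : Type} [CommRing A] (t : A) (β : List ℕ) : ∀ (m s : ℕ), kL β ≤ m →
    GFU F β m (t ^ Fintype.card F ^ s) * DEN (Fintype.card F) t (s + m) β s
      = ∏ j ∈ range m, (1 - t ^ (Fintype.card F ^ (s + m) - Fintype.card F ^ (s + j))) := by
  induction β with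
  | nil =>
    intro m s _
    rw [GFU_nil, DEN, one_mul, Nat.add_sub_cancel_left]
  | cons b β ih =>
    intro m s h
    have h' : kL β + b ≤ m := h
    obtain ⟨r, rfl⟩ : ∃ r, m = b + r := ⟨m - b, by omega⟩
    rw [GFU_cons, DEN, Nat.add_sub_cancel_left, ← pow_mul, ← pow_add]
    have h1 := ih r (s + b) (by omega)
    have h2 := GF_eq F (b + r) b (t ^ Fintype.card F ^ s)
    have h3 : ∀ M, NP F M b (t ^ Fintype.card F ^ s)
        = ∏ j ∈ range b, (1 - t ^ (Fintype.card F ^ (s + M) - Fintype.card F ^ (s + j))) := by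
      intro M
      unfold NP
      apply prod_congr rfl
      intro j _
      rw [← pow_mul, Nat.mul_sub, ← pow_add, ← pow_add]
    rw [h3, h3] at h2
    have h4 : s + (b + r) = s + b + r := by omega
    rw [prod_range_add]
    rw [h4] at h2 ⊢
    have h5 : ∀ x, s + (b + x) = s + b + x := fun x => by omega
    simp only [h5]
    rw [← h1, ← h2]
    ring

lemma X_ne {N : ℕ} (hN : 0 < N) : (1 - (RatFunc.X : RatFunc ℚ) ^ N) ≠ 0 := by
  intro h
  have h1 : algebraMap (Polynomial ℚ) (RatFunc ℚ) (1 - Polynomial.X ^ N) = 0 := by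
    rw [map_sub, map_one, map_pow, RatFunc.algebraMap_X]; exact h
  have h2 : (1 - Polynomial.X ^ N : Polynomial ℚ) = 0 := by
    apply RatFunc.algebraMap_injective ℚ
    rw [h1, map_zero]
  have h3 := congrArg (Polynomial.eval 0) h2
  rw [Polynomial.eval_sub, Polynomial.eval_one, Polynomial.eval_pow, Polynomial.eval_X, zero_pow hN.ne',
    Polynomial.eval_zero, sub_zero] at h3
  exact one_ne_zero h3

lemma DEN_ne (q : ℕ) (hq : 1 < q) (M : ℕ) (β : List ℕ) : ∀ s, DEN q (RatFunc.X : RatFunc ℚ) M β s ≠ 0 := by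
  induction β with
  | nil =>
    intro s
    rw [DEN, prod_ne_zero_iff]
    intro j hj
    rw [mem_range] at hj
    apply X_ne
    have := Nat.pow_lt_pow_right hq (show s + j < M by omega)
    omega
  | cons b β ih =>
    intro s
    rw [DEN]
    apply mul_ne_zero _ (ih _)
    rw [prod_ne_zero_iff]
    intro j hj
    rw [mem_range] at hj
    apply X_ne
    have := Nat.pow_lt_pow_right hq (show s + j < s + b by omega)
    omega

lemma UM_big (β : List ℕ) : ∀ m, m < kL β → UM F β m = 0 := by
  induction β with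
  | nil => intro m h; exact absurd h (Nat.not_lt_zero _)
  | cons b β ih =>
    intro m h
    have h' : m < kL β + b := h
    rw [← Multiset.card_eq_zero, card_UM]
    by_cases hb : b ≤ m
    · rw [ih (m - b) (by omega), Multiset.card_zero, mul_zero]
    · have h4 := card_eq F m b
      have h5 : NN F m b = 0 := by
        unfold NN
        apply Finset.prod_eq_zero (mem_range.2 (show m < b by omega))
        exact Nat.sub_self _
      rw [h5] at h4
      have := NN_pos F b
      rcases Nat.mul_eq_zero.1 h4 with h | h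
      · rw [h, zero_mul]
      · omega

end gf

section comb

lemma Sle_succ {l : ℕ} (β : Fin (l + 1) → ℕ) (i : Fin l) :
    ∑ r ∈ univ.filter (fun r : Fin (l + 1) => r.val ≤ i.succ.val), β r
      = β 0 + ∑ r ∈ univ.filter (fun r : Fin l => r.val ≤ i.val), β r.succ := by
  rw [sum_filter, Fin.sum_univ_succ, sum_filter, if_pos (by simp)]
  congr 1
  apply sum_congr rfl
  intro r _
  simp only [Fin.val_succ, Nat.succ_le_succ_iff, add_le_add_iff_right]

lemma Sle_zero {l : ℕ} (β : Fin (l + 1) → ℕ) :
    ∑ r ∈ univ.filter (fun r : Fin (l + 1) => r.val ≤ (0 : Fin (l + 1)).val), β r = β 0 := by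
  rw [sum_filter, Fin.sum_univ_succ, if_pos (by simp), sum_eq_zero, add_zero]
  intro r _
  rw [if_neg (by simp)]

lemma Slt_succ {l : ℕ} (β : Fin (l + 1) → ℕ) (i : Fin l) :
    ∑ r ∈ univ.filter (fun r : Fin (l + 1) => r.val < i.succ.val), β r
      = β 0 + ∑ r ∈ univ.filter (fun r : Fin l => r.val < i.val), β r.succ := by
  rw [sum_filter, Fin.sum_univ_succ, sum_filter, if_pos (by simp)]
  congr 1
  apply sum_congr rfl
  intro r _
  simp only [Fin.val_succ, add_lt_add_iff_right]

lemma Slt_zero {l : ℕ} (β : Fin (l + 1) → ℕ) :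
    ∑ r ∈ univ.filter (fun r : Fin (l + 1) => r.val < (0 : Fin (l + 1)).val), β r = 0 := by
  apply sum_eq_zero
  intro r hr
  rw [mem_filter] at hr
  exact absurd hr.2 (Nat.not_lt_zero _)

lemma kL_ofFn {l : ℕ} (β : Fin l → ℕ) : kL (List.ofFn β) = ∑ i, β i := by
  induction l with
  | zero => rfl
  | succ l ih =>
    rw [List.ofFn_succ, kL, ih, Fin.sum_univ_succ, add_comm]

lemma DEN_ofFn {A : Type} [CommRing A] (q : ℕ) (t : A) (M : ℕ) {l : ℕ} : ∀ (β : Fin l → ℕ) (s : ℕ),
    DEN q t M (List.ofFn β) s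
      = (∏ i : Fin l, ∏ j ∈ range (β i),
          (1 - t ^ (q ^ (s + ∑ r ∈ univ.filter (fun r : Fin l => r.val ≤ i.val), β r)
            - q ^ (s + (∑ r ∈ univ.filter (fun r : Fin l => r.val < i.val), β r) + j)))) *
        ∏ j ∈ range (M - (s + ∑ i, β i)), (1 - t ^ (q ^ M - q ^ (s + (∑ i, β i) + j))) := by
  induction l with
  | zero =>
    intro β s
    rw [List.ofFn_zero, DEN]
    simp
  | succ l ih =>
    intro β s
    rw [List.ofFn_succ, DEN, ih, Fin.prod_univ_succ, Sle_zero, Slt_zero, Fin.sum_univ_succ, add_zero]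
    simp only [Sle_succ, Slt_succ]
    simp only [← add_assoc, mul_assoc]

lemma shL_ofFn (q m : ℕ) {l : ℕ} : ∀ (α β : Fin l → ℕ) (s : ℕ),
    shL q m (List.ofFn α) (List.ofFn β) s
      = ∑ i : Fin l, (α i - β i) * (q ^ m - q ^ (s + ∑ r ∈ univ.filter (fun r : Fin l => r.val ≤ i.val), β r)) := by
  induction l with
  | zero => intro α β s; rfl
  | succ l ih =>
    intro α β s
    rw [List.ofFn_succ, List.ofFn_succ, shL, ih, Fin.sum_univ_succ, Sle_zero]
    simp only [Sle_succ]
    simp only [← add_assoc]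

lemma sum_pi_succ {A : Type} [AddCommMonoid A] {l : ℕ} (s : Fin (l + 1) → Finset ℕ) (f : (Fin (l + 1) → ℕ) → A) :
    ∑ β ∈ Fintype.piFinset s, f β
      = ∑ b ∈ s 0, ∑ β ∈ Fintype.piFinset (fun i : Fin l => s i.succ), f (Fin.cons b β : Fin (l + 1) → ℕ) := by
  rw [← Finset.sum_product']
  symm
  refine Finset.sum_nbij' (fun p => (Fin.cons p.1 p.2 : Fin (l + 1) → ℕ)) (fun β => (β 0, fun i => β i.succ))
    ?_ ?_ ?_ ?_ ?_
  · rintro ⟨b, β⟩ h
    rw [mem_product, Fintype.mem_piFinset] at h
    rw [Fintype.mem_piFinset]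
    intro i
    refine Fin.cases ?_ (fun i => ?_) i
    · exact h.1
    · exact h.2 i
  · intro β h
    rw [Fintype.mem_piFinset] at h
    rw [mem_product, Fintype.mem_piFinset]
    exact ⟨h 0, fun i => h i.succ⟩
  · rintro ⟨b, β⟩ _
    rfl
  · intro β _
    funext i
    refine Fin.cases ?_ (fun i => ?_) i <;> rfl
  · intro p _
    rfl

lemma sum_IT_ofFn {A : Type} [AddCommMonoid A] {l : ℕ} : ∀ (α : Fin l → ℕ) (G : List ℕ → A),
    ∑ x : IT (List.ofFn α), G (bof (List.ofFn α) x)
      = ∑ β ∈ Fintype.piFinset (fun i : Fin l => range (α i + 1)), G (List.ofFn β) := by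
  induction l with
  | zero =>
    intro α G
    rw [List.ofFn_zero]
    show ∑ x : Unit, G [] = _
    rw [Fintype.piFinset_of_isEmpty]
    simp
  | succ l ih =>
    intro α G
    rw [List.ofFn_succ, sum_IT, sum_pi_succ, ← Fin.sum_univ_eq_sum_range (fun b =>
      ∑ β ∈ Fintype.piFinset (fun i : Fin l => range (α i.succ + 1)), G (List.ofFn (Fin.cons b β : Fin (l + 1) → ℕ)))]
    apply sum_congr rfl
    intro b _
    rw [ih (fun i => α i.succ) (fun L => G (b.val :: L))]
    apply sum_congr rfl
    intro β _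
    rw [List.ofFn_succ]
    rfl

lemma cL_lt_iff (L : List ℕ) : ∀ (i : Fin (kL L)) (k : ℕ), cL L i < k ↔ i.val < (L.take k).sum := by
  induction L with
  | nil => intro i; exact i.elim0
  | cons a L ih =>
    intro i k
    cases k with
    | zero =>
      rw [List.take_zero, List.sum_nil]
      exact ⟨fun h => absurd h (Nat.not_lt_zero _), fun h => absurd h (Nat.not_lt_zero _)⟩
    | succ k =>
      rw [List.take_succ_cons, List.sum_cons]
      show cB (cL L) a i < k + 1 ↔ _
      by_cases h : i.val < a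
      · rw [cB_lt (cL L) a i h]
        constructor
        · intro _; omega
        · intro _; omega
      · rw [cB_ge (cL L) a i (by omega), Nat.add_lt_add_iff_right, ih]
        show i.val - a < _ ↔ _
        omega

lemma take_ofFn_sum {l : ℕ} : ∀ (α : Fin l → ℕ) (k : ℕ),
    ((List.ofFn α).take k).sum = ∑ r ∈ univ.filter (fun r : Fin l => r.val < k), α r := by
  induction l with
  | zero => intro α k; rw [List.ofFn_zero, List.take_nil]; rfl
  | succ l ih =>
    intro α k
    cases k with
    | zero =>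
      rw [List.take_zero, List.sum_nil]
      symm
      apply sum_eq_zero
      intro r hr
      rw [mem_filter] at hr
      exact absurd hr.2 (Nat.not_lt_zero _)
    | succ k =>
      rw [List.ofFn_succ, List.take_succ_cons, List.sum_cons, ih, sum_filter, sum_filter, Fin.sum_univ_succ,
        if_pos (by simp)]
      congr 1
      apply sum_congr rfl
      intro r _
      simp only [Fin.val_succ, add_lt_add_iff_right]

lemma PG_iff {F : Type} [Field F] {l : ℕ} (α : Fin l → ℕ)
    (M : Matrix (Fin (kL (List.ofFn α))) (Fin (kL (List.ofFn α))) F) :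
    PG (cL (List.ofFn α)) M ↔ (IsUnit M.det ∧ ∀ (i j : Fin (kL (List.ofFn α))) (k : ℕ),
      j.val < ∑ r ∈ Finset.univ.filter (fun r : Fin l => r.val < k), α r →
      ∑ r ∈ Finset.univ.filter (fun r : Fin l => r.val < k), α r ≤ i.val → M i j = 0) := by
  unfold PG
  constructor
  · rintro ⟨h1, h2⟩
    refine ⟨h1, ?_⟩
    intro i j k hj hi
    rw [← take_ofFn_sum] at hj hi
    rw [← cL_lt_iff] at hj
    rw [← not_lt, ← cL_lt_iff] at hi
    exact h2 i j (by omega)
  · rintro ⟨h1, h2⟩
    refine ⟨h1, ?_⟩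
    intro i j hij
    have hj := (cL_lt_iff (List.ofFn α) j (cL (List.ofFn α) i)).1 hij
    have hi : ¬ (i.val < ((List.ofFn α).take (cL (List.ofFn α) i)).sum) := by
      rw [← cL_lt_iff]
      exact lt_irrefl _
    rw [take_ofFn_sum] at hj hi
    exact h2 i j _ hj (not_lt.1 hi)

end comb

section fin

lemma count_sum {ι : Type} (s : Multiset ι) (φ : ι → ℕ) (D : ℕ) (t : RatFunc ℚ)
    (h : ∑ d ∈ range D, (s.filter (fun e => φ e = d)).card = s.card) :
    ∑ d ∈ range D, ((s.filter (fun e => φ e = d)).card : RatFunc ℚ) * t ^ d = (s.map (fun e => t ^ φ e)).sum := by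
  classical
  induction s using Multiset.induction_on with
  | empty => simp
  | cons a s ih =>
    have h0 := count_le s φ D
    have h1 : ∀ d ∈ range D, ((a ::ₘ s).filter (fun e => φ e = d)).card
        = (if φ a = d then 1 else 0) + (s.filter (fun e => φ e = d)).card := by
      intro d _
      by_cases h : φ a = d
      · rw [Multiset.filter_cons_of_pos (p := fun e => φ e = d) _ h, Multiset.card_cons, if_pos h]; omega
      · rw [Multiset.filter_cons_of_neg (p := fun e => φ e = d) _ h, if_neg h]; omega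
    rw [sum_congr rfl h1, sum_add_distrib, Multiset.card_cons] at h
    have h2 : ∑ d ∈ range D, (if φ a = d then 1 else 0) ≤ 1 := by
      rw [sum_ite_eq]
      split_ifs <;> omega
    have h3 : ∑ d ∈ range D, (if φ a = d then 1 else 0) = 1 := by omega
    have h4 : φ a ∈ range D := by
      by_contra hcon
      rw [sum_ite_eq, if_neg hcon] at h3
      exact absurd h3 (by omega)
    have h5 := ih (by omega)
    have h6 : ∀ d ∈ range D, (((a ::ₘ s).filter (fun e => φ e = d)).card : RatFunc ℚ) * t ^ d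
        = (if φ a = d then t ^ d else 0) + ((s.filter (fun e => φ e = d)).card : RatFunc ℚ) * t ^ d := by
      intro d hd
      rw [h1 d hd]
      push_cast
      split_ifs <;> ring
    rw [sum_congr rfl h6, sum_add_distrib, h5, sum_ite_eq, if_pos h4, Multiset.map_cons, Multiset.sum_cons]

end fin

end Pool.Agent.H268R3.LRS
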