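import Pool.Agent.H268R3.LRS.PExt2

set_option autoImplicit false

open Finset MvPolynomial Pool.Agent.H268R3.Soc

namespace Pool.Agent.H268R3.LRS

variable {F : Type} [Field F] [Fintype F]

/-- parabolic quasi-invariance -/
def QP {n : ℕ} (c : Fin n → ℕ) (m : ℕ) (f : MvPolynomial (Fin n) F) : Prop :=
  ∀ g : Matrix (Fin n) (Fin n) F, PG c g → act g f - f ∈ JN F (Fintype.card F ^ m) n

theorem stepK {n : ℕ} (cc : Fin (n + 1) → ℕ) (c1 : Fin n → ℕ) (m : ℕ) (f : MvPolynomial (Fin (n + 1)) F)
    (hd : ∀ x : F, x ≠ 0 → PG cc (Matrix.diagonal (Fin.cases x (fun _ => 1))))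
    (ht : ∀ i : Fin n, PG cc (Matrix.transvection 0 i.succ (1 : F)))
    (hb : ∀ g : Matrix (Fin n) (Fin n) F, PG c1 g → PG cc (blk g))
    (hf : QP cc (m + 1) f) :
    X 0 * f ∈ JN F (Fintype.card F ^ (m + 1)) (n + 1) ∨
    ∃ h : MvPolynomial (Fin n) F, QP c1 m h ∧ h ∉ JN F (Fintype.card F ^ m) n ∧
      ∀ (k : ℕ) (s : Sel n k), (∀ i, s.e i < Fintype.card F ^ m) →
        LL F k * s.rr h ∉ JN F (Fintype.card F ^ m) k →
        LL F (k + 1) * (s.scale (Fintype.card F)).K.rr f ∉ JN F (Fintype.card F ^ (m + 1)) (k + 1) := by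
  have hq : 1 < Fintype.card F := Fintype.one_lt_card
  set N := Fintype.card F ^ (m + 1) with hN
  have hNpos : 0 < N := pow_pos (by omega) _
  set αR : ℕ → Polynomial F := fun i => Polynomial.C (am (m + 1) i) with hαR
  have ham : am (F := F) (m + 1) (m + 1) = 1 := if_pos rfl
  have hαR1 : αR (m + 1) = 1 := by
    rw [hαR]; show Polynomial.C (am (m + 1) (m + 1)) = 1; rw [ham, Polynomial.C_1]
  have hAR : AP F αR (m + 1) = (Polynomial.X : Polynomial (Polynomial F)) ^ N :=
    AP_R (F := F) Polynomial.C (m + 1)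
  have hAX : AP F (am (F := F) (m + 1)) (m + 1) = (Polynomial.X : Polynomial F) ^ N :=
    AP_R (F := F) (RingHom.id F) (m + 1)
  have hqa : qa F (Polynomial.X : Polynomial F) αR (m + 1) = Polynomial.X ^ (N - 1) := qa_R (m + 1)
  set p' := phi f with hp'
  have hp : ∀ g : Matrix (Fin (n + 1)) (Fin (n + 1)) F, PG cc g →
      actC g f - f ∈ II (AP F (am (F := F) (m + 1)) (m + 1)) 0 := by
    intro g hg
    rw [II_am, actC_self]
    exact hf g hg
  have hsc : ∀ c : F, c ≠ 0 → MvPolynomial.map (sc c) p' - p'
      ∈ II (AP F αR (m + 1)) (AP F (am (F := F) (m + 1)) (m + 1)) := by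
    intro x hx
    have h1 := phi_mem (F := F) _ (m + 1) _ (hp (Matrix.diagonal (Fin.cases x (fun _ => 1))) (hd x hx))
    rwa [map_sub, phi_diag] at h1
  have htr : ∀ i : Fin n, TT Polynomial.X i p' - p'
      ∈ II (AP F αR (m + 1)) (AP F (am (F := F) (m + 1)) (m + 1)) := by
    intro i
    have h1 := phi_mem (F := F) _ (m + 1) _ (hp (Matrix.transvection 0 i.succ (1 : F)) (ht i))
    rwa [map_sub, phi_tr] at h1
  have hγ : ∀ g : Matrix (Fin n) (Fin n) F, PG c1 g → actC g p' - p'
      ∈ II (AP F αR (m + 1)) (AP F (am (F := F) (m + 1)) (m + 1)) := by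
    intro g hg
    have h1 := phi_mem (F := F) _ (m + 1) _ (hp (blk g) (hb g hg))
    rwa [map_sub, phi_blk] at h1
  set ph := phat F (Polynomial.X : Polynomial F) αR m hαR1 p' with hph
  have hph1 : p' - Xi F (Polynomial.X : Polynomial F) ph
      ∈ II (AP F αR (m + 1)) (qa F (Polynomial.X : Polynomial F) αR (m + 1)) :=
    phat_spec F _ αR m hαR1 p' _ (div_all _ m ham hαR1 p' hsc htr)
  rw [hAR, hqa] at hph1
  set Λ : (Fin n → ℕ) → Polynomial F := fun e =>
    Lam (bigSys F (Polynomial.X : Polynomial F) αR (m + 1) hαR1).lam (fun i => Fintype.card F * e i) p' with hΛ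
  have hphΛ : ph = ∑ e ∈ Fintype.piFinset (fun _ : Fin n => range (Fintype.card F ^ m)),
      Λ e • ∏ i, pl i (Polynomial.X ^ e i) := rfl
  by_cases hC : ∀ e : Fin n → ℕ, (∀ i, e i < Fintype.card F ^ m) → Polynomial.X ^ (N - 1) ∣ Λ e
  · left
    have h1 : ∃ w, ph = C (Polynomial.X ^ (N - 1)) * w := by
      have h2 : ph ∈ Ideal.span {(C (Polynomial.X ^ (N - 1)) : MvPolynomial (Fin n) (Polynomial F))} := by
        rw [hphΛ]
        apply Ideal.sum_mem
        intro e he
        rw [Fintype.mem_piFinset] at he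
        obtain ⟨u, hu⟩ := hC e (fun i => mem_range.1 (he i))
        rw [hu, smul_eq_C_mul, C_mul, mul_assoc]
        exact Ideal.mul_mem_right _ _ (Ideal.mem_span_singleton_self _)
      obtain ⟨w, hw⟩ := Ideal.mem_span_singleton'.1 h2
      exact ⟨w, by rw [← hw, mul_comm]⟩
    obtain ⟨w, hw⟩ := h1
    have h3 : p' ∈ II (k := n) ((Polynomial.X : Polynomial (Polynomial F)) ^ N) (Polynomial.X ^ (N - 1)) := by
      have h4 : Xi F (Polynomial.X : Polynomial F) ph
          ∈ II (k := n) ((Polynomial.X : Polynomial (Polynomial F)) ^ N) (Polynomial.X ^ (N - 1)) := by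
        rw [hw, map_mul, ← algebraMap_eq, AlgHom.commutes, algebraMap_eq]
        exact Ideal.mul_mem_right _ _ (C_mem _ _)
      have := Ideal.add_mem _ hph1 h4
      rwa [sub_add_cancel] at this
    have h5 := psi_mem (F := F) (am (F := F) (m + 1)) (m + 1) p' (by
      show p' ∈ II (AP F αR (m + 1)) (qa F (Polynomial.X : Polynomial F) αR (m + 1))
      rw [hAR, hqa]; exact h3)
    rw [hp', psi_phi, II_am] at h5
    exact h5
  · right
    have hex : ∃ j, ¬ ∀ e : Fin n → ℕ, (∀ i, e i < Fintype.card F ^ m) → Polynomial.X ^ j ∣ Λ e := ⟨N - 1, hC⟩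
    obtain ⟨j, hj1, hj2, hj3⟩ : ∃ j, j + 1 ≤ N - 1 ∧
        (∀ e : Fin n → ℕ, (∀ i, e i < Fintype.card F ^ m) → Polynomial.X ^ j ∣ Λ e) ∧
        ¬ (∀ e : Fin n → ℕ, (∀ i, e i < Fintype.card F ^ m) → Polynomial.X ^ (j + 1) ∣ Λ e) := by
      classical
      have h0 : Nat.find hex ≠ 0 := by
        intro h
        have := Nat.find_spec hex
        rw [h] at this
        apply this
        intro e _
        rw [pow_zero]
        exact one_dvd _
      refine ⟨Nat.find hex - 1, ?_, ?_, ?_⟩
      · have := Nat.find_min' hex hC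
        omega
      · have := Nat.find_min hex (show Nat.find hex - 1 < Nat.find hex by omega)
        rwa [not_not] at this
      · have := Nat.find_spec hex
        rwa [Nat.sub_add_cancel (by omega)]
    have hμ : ∀ e : Fin n → ℕ, ∃ u : Polynomial F, (∀ i, e i < Fintype.card F ^ m) → Λ e = Polynomial.X ^ j * u := by
      intro e
      by_cases he : ∀ i, e i < Fintype.card F ^ m
      · obtain ⟨u, hu⟩ := hj2 e he
        exact ⟨u, fun _ => hu⟩
      · exact ⟨0, fun h => absurd h he⟩
    choose μ hμ using hμ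
    set M : MvPolynomial (Fin n) (Polynomial F) :=
      ∑ e ∈ Fintype.piFinset (fun _ : Fin n => range (Fintype.card F ^ m)),
        μ e • ∏ i, pl i (Polynomial.X ^ e i) with hM
    have hphM : ph = C (Polynomial.X ^ j) * M := by
      rw [hphΛ, hM, mul_sum]
      apply sum_congr rfl
      intro e he
      rw [Fintype.mem_piFinset] at he
      rw [hμ e (fun i => mem_range.1 (he i)), smul_eq_C_mul, smul_eq_C_mul, C_mul, mul_assoc]
    have hMc : ∀ e : Fin n →₀ ℕ, coeff e M = if (∀ i, e i < Fintype.card F ^ m) then μ e else 0 := by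
      intro e
      rw [hM, coeff_sum]
      have h1 : ∀ e' : Fin n → ℕ, coeff e (μ e' • ∏ i, pl i (Polynomial.X ^ e' i : Polynomial (Polynomial F)))
          = if e' = e then μ e' else 0 := by
        intro e'
        have h2 := prod_pl_monomial (R := Polynomial F) (Finsupp.equivFunOnFinite.symm e')
        simp only [Finsupp.equivFunOnFinite_symm_apply_apply] at h2
        rw [h2, coeff_smul, coeff_monomial]
        by_cases h : e' = e
        · rw [if_pos h, if_pos, smul_eq_mul, mul_one]
          ext i
          rw [← h]; rfl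
        · rw [if_neg h, if_neg, smul_zero]
          intro h'
          apply h
          rw [← h']
          rfl
      simp only [h1]
      rw [sum_ite_eq']
      congr 1
      rw [Fintype.mem_piFinset]
      simp only [mem_range]
    set h : MvPolynomial (Fin n) F := MvPolynomial.map Polynomial.constantCoeff M with hh
    have hhc : ∀ e, coeff e h = if (∀ i, e i < Fintype.card F ^ m) then (μ e).coeff 0 else 0 := by
      intro e
      rw [hh, coeff_map, hMc]
      split_ifs
      · rfl
      · exact map_zero _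
    have hMh : ∃ r, M = MvPolynomial.map Polynomial.C h + C Polynomial.X * r := by
      have h3 : M - MvPolynomial.map Polynomial.C h
          ∈ (Ideal.span {(Polynomial.X : Polynomial F)}).map (C : Polynomial F →+* MvPolynomial (Fin n) (Polynomial F)) := by
        rw [MvPolynomial.mem_map_C_iff]
        intro e
        rw [Ideal.mem_span_singleton, Polynomial.X_dvd_iff, coeff_sub, coeff_map, hh, coeff_map,
          Polynomial.coeff_sub, Polynomial.coeff_C_zero]
        exact sub_self _
      rw [Ideal.map_span, Set.image_singleton] at h3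
      obtain ⟨r, hr⟩ := Ideal.mem_span_singleton'.1 h3
      exact ⟨r, by rw [mul_comm, hr]; ring⟩
    have hh0 : h ∉ JN F (Fintype.card F ^ m) n := by
      intro hcon
      apply hj3
      intro e he
      have h1 := coeff_JN _ hcon (Finsupp.equivFunOnFinite.symm e) he
      have he' : ∀ i, (Finsupp.equivFunOnFinite.symm e : Fin n →₀ ℕ) i < Fintype.card F ^ m := he
      rw [hhc, if_pos he'] at h1
      have h2 : Polynomial.X ∣ μ e := Polynomial.X_dvd_iff.2 h1
      rw [hμ e he, pow_succ]
      exact mul_dvd_mul_left _ h2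
    obtain ⟨r1, hr1⟩ := hMh
    obtain ⟨r2, hr2⟩ := Xi_mod h
    have hstar : p' - C (Polynomial.X ^ j) * MvPolynomial.map Polynomial.C (expand (Fintype.card F) h)
        ∈ II (k := n) ((Polynomial.X : Polynomial (Polynomial F)) ^ N) (Polynomial.X ^ (j + 1)) := by
      have h1 : Xi F (Polynomial.X : Polynomial F) ph
          = C (Polynomial.X ^ j) * MvPolynomial.map Polynomial.C (expand (Fintype.card F) h)
            + C (Polynomial.X ^ (j + 1)) * (r2 + Xi F Polynomial.X r1) := by
        have hXC : ∀ c : Polynomial F, Xi F (Polynomial.X : Polynomial F) (C c : MvPolynomial (Fin n) (Polynomial F)) = C c := by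
          intro c
          rw [← algebraMap_eq, AlgHom.commutes]
        rw [hphM, map_mul, hr1, map_add, map_mul, hr2, hXC, hXC, pow_succ, C_mul]
        ring
      have h2 := II_mono (k := n) ((Polynomial.X : Polynomial (Polynomial F)) ^ N) (Polynomial.X ^ (N - 1))
        (Polynomial.X ^ (j + 1)) (pow_dvd_pow _ hj1) hph1
      have h3 := Ideal.add_mem _ h2 (Ideal.mul_mem_right (r2 + Xi F Polynomial.X r1) _
        (C_mem (k := n) ((Polynomial.X : Polynomial (Polynomial F)) ^ N) (Polynomial.X ^ (j + 1))))
      convert h3 using 1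
      rw [h1]; ring
    have hQI : QP c1 m h := by
      intro g hg
      have h1 := hγ g hg
      rw [hAR, hAX] at h1
      have h2 := II_mono (k := n) ((Polynomial.X : Polynomial (Polynomial F)) ^ N) (Polynomial.X ^ N)
        (Polynomial.X ^ (j + 1)) (pow_dvd_pow _ (by omega)) h1
      have h3 : actC g (p' - C (Polynomial.X ^ j) * MvPolynomial.map Polynomial.C (expand (Fintype.card F) h))
          ∈ II (k := n) ((Polynomial.X : Polynomial (Polynomial F)) ^ N) (Polynomial.X ^ (j + 1)) := by
        rw [← hAR] at hstar ⊢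
        exact actC_mem g αR (m + 1) _ _ hstar
      rw [map_sub, map_mul, actC_C] at h3
      have h4 : actC g (MvPolynomial.map Polynomial.C (expand (Fintype.card F) h))
          = MvPolynomial.map Polynomial.C (act g (expand (Fintype.card F) h)) :=
        actC_base (B := Polynomial F) g _
      rw [h4] at h3
      have h5 : C (Polynomial.X ^ j) * MvPolynomial.map Polynomial.C
          (act g (expand (Fintype.card F) h) - expand (Fintype.card F) h)
          ∈ II (k := n) ((Polynomial.X : Polynomial (Polynomial F)) ^ N) (Polynomial.X ^ (j + 1)) := by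
        have := Ideal.add_mem _ (Ideal.sub_mem _ h2 h3) hstar
        convert this using 1
        rw [map_sub]; ring
      have h6 := lemZ _ h5
      rw [← expand_act, ← map_sub] at h6
      exact expand_JN _ h6
    refine ⟨h, hQI, hh0, ?_⟩
    intro k s hse hk hcon
    apply hk
    rw [← II_am (F := F) (m + 1)] at hcon
    have h1 := phi_mem (F := F) _ (m + 1) _ hcon
    rw [map_mul, Sel.rrphi, LL_succ, map_mul, phi_X0, phi_Yh, ← hp'] at h1
    have h1' : C Polynomial.X * Xi F Polynomial.X (MvPolynomial.map Polynomial.C (LL F k))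
        * (s.scale (Fintype.card F)).rr p'
        ∈ II (k := k) ((Polynomial.X : Polynomial (Polynomial F)) ^ N) (Polynomial.X ^ N) := by
      rw [← hAR, ← hAX]; exact h1
    obtain ⟨r3, hr3⟩ := Xi_mod (LL F k)
    have h2 := (s.scale (Fintype.card F)).rr_II N (by
      intro i
      show Fintype.card F * s.e i < N
      rw [hN, pow_succ']
      exact (Nat.mul_lt_mul_left (by omega)).2 (hse i)) _ _ hstar
    set ρ := s.rr h with hρ
    have h3 : (s.scale (Fintype.card F)).rr (C (Polynomial.X ^ j)
        * MvPolynomial.map Polynomial.C (expand (Fintype.card F) h))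
        = C (Polynomial.X ^ j) * MvPolynomial.map Polynomial.C (expand (Fintype.card F) ρ) := by
      rw [← smul_eq_C_mul, map_smul, Sel.rr_map, Sel.rr_expand, smul_eq_C_mul]
    rw [map_sub, h3] at h2
    set y := (s.scale (Fintype.card F)).rr p'
      - C (Polynomial.X ^ j) * MvPolynomial.map Polynomial.C (expand (Fintype.card F) ρ) with hy
    have h4 : C (Polynomial.X ^ (j + 1)) * MvPolynomial.map Polynomial.C
        (expand (Fintype.card F) (LL F k * ρ))
        ∈ II (k := k) ((Polynomial.X : Polynomial (Polynomial F)) ^ N) (Polynomial.X ^ (j + 1 + 1)) := by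
      have h5 := II_mono (k := k) ((Polynomial.X : Polynomial (Polynomial F)) ^ N) (Polynomial.X ^ N)
        (Polynomial.X ^ (j + 1 + 1)) (pow_dvd_pow _ (by omega)) h1'
      have h6 : C Polynomial.X * y
          ∈ II (k := k) ((Polynomial.X : Polynomial (Polynomial F)) ^ N) (Polynomial.X ^ (j + 1 + 1)) := by
        rw [mem_II] at h2 ⊢
        intro e he
        rw [coeff_C_mul, pow_succ']
        exact mul_dvd_mul_left _ (h2 e he)
      have h7 := Ideal.sub_mem _ (Ideal.sub_mem _ h5 (Ideal.mul_mem_left _
        (Xi F Polynomial.X (MvPolynomial.map Polynomial.C (LL F k))) h6))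
        (Ideal.mul_mem_right (r3 * MvPolynomial.map Polynomial.C (expand (Fintype.card F) ρ)) _
        (C_mem (k := k) ((Polynomial.X : Polynomial (Polynomial F)) ^ N) (Polynomial.X ^ (j + 1 + 1))))
      convert h7 using 1
      have h8 : (s.scale (Fintype.card F)).rr p'
          = y + C (Polynomial.X ^ j) * MvPolynomial.map Polynomial.C (expand (Fintype.card F) ρ) := by
        rw [hy]; ring
      have hc1 : (C (Polynomial.X ^ (j + 1 + 1)) : MvPolynomial (Fin k) (Polynomial F))
          = C (Polynomial.X ^ j) * C Polynomial.X * C Polynomial.X := by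
        rw [pow_succ, pow_succ, C_mul, C_mul]
      have hc2 : (C (Polynomial.X ^ (j + 1)) : MvPolynomial (Fin k) (Polynomial F))
          = C (Polynomial.X ^ j) * C Polynomial.X := by
        rw [pow_succ, C_mul]
      rw [h8, hr3, map_mul, map_mul, hc1, hc2]
      ring
    exact expand_JN _ (lemZ _ h4)

end Pool.Agent.H268R3.LRS
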