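import Pool.Agent.H268R3.LRS.PInj

set_option autoImplicit false

open Finset MvPolynomial Pool.Agent.H268R3.Soc

namespace Pool.Agent.H268R3.LRS

/-- index type of the sub-compositions -/
def IT : List ℕ → Type
  | [] => Unit
  | a :: α => Fin (a + 1) × IT α

/-- constructor -/
def mkI {a : ℕ} {α : List ℕ} (b : Fin (a + 1)) (x : IT α) : IT (a :: α) := (b, x)

instance instFintypeIT : (α : List ℕ) → Fintype (IT α)
  | [] => inferInstanceAs (Fintype Unit)
  | a :: α => by
    letI := instFintypeIT α
    exact inferInstanceAs (Fintype (Fin (a + 1) × IT α))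

/-- the sub-composition -/
def bof : (α : List ℕ) → IT α → List ℕ
  | [], _ => []
  | _ :: α, x => x.1.val :: bof α x.2

/-- selector of one block -/
def selB (q m : ℕ) {n k : ℕ} : (a b : ℕ) → b ≤ a → ℕ → Sel n k → Sel (n + a) (k + b)
  | 0, 0, _, _, s => s
  | a + 1, 0, _, j, s => (selB q m a 0 (Nat.zero_le _) j s).Rm (q ^ m - q ^ j)
  | a + 1, b + 1, h, j, s => (selB q m a b (Nat.le_of_succ_le_succ h) (j + 1) s).K
  | 0, b + 1, h, _, _ => absurd h (Nat.not_succ_le_zero _)

/-- the selector of a sub-composition -/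
def selI (q m : ℕ) : (α : List ℕ) → (x : IT α) → ℕ → Sel (kL α) (kL (bof α x))
  | [], _, _ => Sel.idS 0
  | a :: α, x, j => selB q m a x.1.val (Nat.le_of_lt_succ x.1.2) j (selI q m α x.2 (j + x.1.val))

lemma scale_Rm {n k : ℕ} (s : Sel n k) (q e0 : ℕ) : (s.Rm e0).scale q = (s.scale q).Rm (q * e0) := by
  unfold Sel.scale Sel.Rm
  congr 1
  funext i
  refine Fin.cases ?_ (fun i => ?_) i
  · rfl
  · rfl

lemma scale_K {n k : ℕ} (s : Sel n k) (q : ℕ) : (s.K).scale q = (s.scale q).K := by
  unfold Sel.scale Sel.K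
  congr 1
  funext i
  refine Fin.cases ?_ (fun i => ?_) i
  · show q * 0 = 0
    rw [mul_zero]
  · rfl

lemma selB_scale (q m : ℕ) {n k : ℕ} (a : ℕ) : ∀ (b : ℕ) (h : b ≤ a) (j : ℕ) (s : Sel n k),
    (selB q m a b h j s).scale q = selB q (m + 1) a b h (j + 1) (s.scale q) := by
  induction a with
  | zero =>
    intro b h j s
    obtain rfl : b = 0 := Nat.le_zero.1 h
    rfl
  | succ a ih =>
    intro b h j s
    cases b with
    | zero =>
      show ((selB q m a 0 (Nat.zero_le _) j s).Rm (q ^ m - q ^ j)).scale q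
        = (selB q (m + 1) a 0 (Nat.zero_le _) (j + 1) (s.scale q)).Rm (q ^ (m + 1) - q ^ (j + 1))
      rw [scale_Rm, ih, Nat.mul_sub, pow_succ', pow_succ']
    | succ b =>
      show ((selB q m a b (Nat.le_of_succ_le_succ h) (j + 1) s).K).scale q
        = (selB q (m + 1) a b (Nat.le_of_succ_le_succ h) (j + 1 + 1) (s.scale q)).K
      rw [scale_K, ih]

lemma selI_scale (q m : ℕ) (α : List ℕ) : ∀ (x : IT α) (j : ℕ),
    (selI q m α x j).scale q = selI q (m + 1) α x (j + 1) := by
  induction α with
  | nil =>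
    intro x j
    show (Sel.idS 0).scale q = Sel.idS 0
    unfold Sel.scale Sel.idS
    congr 1
  | cons a α ih =>
    intro x j
    show (selB q m a x.1.val (Nat.le_of_lt_succ x.1.2) j (selI q m α x.2 (j + x.1.val))).scale q
      = selB q (m + 1) a x.1.val (Nat.le_of_lt_succ x.1.2) (j + 1) (selI q (m + 1) α x.2 (j + 1 + x.1.val))
    rw [selB_scale, ih, Nat.add_right_comm j 1]

lemma selI_K (q m a : ℕ) (α : List ℕ) (b : Fin (a + 1)) (x : IT α) :
    selI q (m + 1) ((a + 1) :: α) (mkI b.succ x) 0 = ((selI q m (a :: α) (mkI b x) 0).scale q).K := by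
  rw [selI_scale]
  show (selB q (m + 1) a b.val _ (0 + 1) (selI q (m + 1) α x (0 + (b.val + 1)))).K
    = (selB q (m + 1) a b.val _ (0 + 1) (selI q (m + 1) α x (0 + 1 + b.val))).K
  rw [Nat.add_right_comm 0 1]
  rfl

lemma selB_e (q m : ℕ) (hq : 0 < q) {n k : ℕ} (a : ℕ) : ∀ (b : ℕ) (h : b ≤ a) (j : ℕ) (s : Sel n k),
    (∀ i, s.e i < q ^ m) → ∀ i, (selB q m a b h j s).e i < q ^ m := by
  have hN : 0 < q ^ m := pow_pos hq _
  induction a with
  | zero =>
    intro b h j s hs i
    obtain rfl : b = 0 := Nat.le_zero.1 h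
    exact hs i
  | succ a ih =>
    intro b h j s hs i
    cases b with
    | zero =>
      refine Fin.cases (motive := fun i => (selB q m (a + 1) 0 h j s).e i < q ^ m) ?_ (fun i => ?_) i
      · show q ^ m - q ^ j < q ^ m
        have : 0 < q ^ j := pow_pos hq _
        omega
      · exact ih 0 (Nat.zero_le _) j s hs i
    | succ b =>
      refine Fin.cases (motive := fun i => (selB q m (a + 1) (b + 1) h j s).e i < q ^ m) ?_ (fun i => ?_) i
      · exact hN
      · exact ih b (Nat.le_of_succ_le_succ h) (j + 1) s hs i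

lemma selI_e (q m : ℕ) (hq : 0 < q) (α : List ℕ) : ∀ (x : IT α) (j : ℕ) (i), (selI q m α x j).e i < q ^ m := by
  induction α with
  | nil => intro x j i; exact i.elim0
  | cons a α ih =>
    intro x j i
    exact selB_e q m hq a _ _ j _ (ih x.2 _) i

lemma selB_c (q m : ℕ) {n k : ℕ} (c : Fin n → ℕ) (c' : Fin k → ℕ) (a : ℕ) :
    ∀ (b : ℕ) (h : b ≤ a) (j : ℕ) (s : Sel n k),
    (∀ l, c (s.ι l) = c' l) → ∀ l, cB c a ((selB q m a b h j s).ι l) = cB c' b l := by
  induction a with
  | zero =>
    intro b h j s hs l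
    obtain rfl : b = 0 := Nat.le_zero.1 h
    show c (s.ι l) + 1 = c' l + 1
    rw [hs]
  | succ a ih =>
    intro b h j s hs l
    cases b with
    | zero => exact ih 0 (Nat.zero_le _) j s hs l
    | succ b =>
      refine Fin.cases (motive := fun l => cB c (a + 1) ((selB q m (a + 1) (b + 1) h j s).ι l) = cB c' (b + 1) l)
        ?_ (fun l => ?_) l
      · rfl
      · exact ih b (Nat.le_of_succ_le_succ h) (j + 1) s hs l

lemma selI_c (q m : ℕ) (α : List ℕ) : ∀ (x : IT α) (j : ℕ) (l),
    cL α ((selI q m α x j).ι l) = cL (bof α x) l := by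
  induction α with
  | nil => intro x j l; exact l.elim0
  | cons a α ih =>
    intro x j l
    exact selB_c q m (cL α) (cL (bof α x.2)) a _ _ j _ (ih x.2 _) l

lemma sd_Rm {n k : ℕ} (s : Sel n k) (e0 : ℕ) : (s.Rm e0).sd = e0 + s.sd := by
  unfold Sel.sd
  rw [Fin.sum_univ_succ]
  rfl

lemma sd_K {n k : ℕ} (s : Sel n k) : (s.K).sd = s.sd := by
  unfold Sel.sd
  rw [Fin.sum_univ_succ]
  have h : ∀ i, s.K.ex (Fin.succ i) = s.ex i := by
    intro i
    rw [Sel.ex_apply, Sel.ex_apply]
    show ((s.σ i).map Fin.succ).elim (s.e i) (fun _ => 0) = _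
    cases s.σ i <;> rfl
  simp only [h]
  exact zero_add _

/-- total shift -/
def shL (q m : ℕ) : List ℕ → List ℕ → ℕ → ℕ
  | a :: α, b :: β, j => (a - b) * (q ^ m - q ^ (j + b)) + shL q m α β (j + b)
  | [], _, _ => 0
  | _ :: _, [], _ => 0

lemma selB_sd (q m : ℕ) {n k : ℕ} (a : ℕ) : ∀ (b : ℕ) (h : b ≤ a) (j : ℕ) (s : Sel n k),
    (selB q m a b h j s).sd = (a - b) * (q ^ m - q ^ (j + b)) + s.sd := by
  induction a with
  | zero =>
    intro b h j s
    obtain rfl : b = 0 := Nat.le_zero.1 h
    rw [Nat.zero_sub, zero_mul, zero_add]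
    rfl
  | succ a ih =>
    intro b h j s
    cases b with
    | zero =>
      show ((selB q m a 0 (Nat.zero_le _) j s).Rm (q ^ m - q ^ j)).sd = _
      rw [sd_Rm, ih, Nat.sub_zero, Nat.sub_zero, Nat.add_zero]
      ring
    | succ b =>
      show ((selB q m a b (Nat.le_of_succ_le_succ h) (j + 1) s).K).sd = _
      rw [sd_K, ih, Nat.add_sub_add_right, Nat.add_right_comm j 1 b]
      rfl

lemma selI_sd (q m : ℕ) (α : List ℕ) : ∀ (x : IT α) (j : ℕ), (selI q m α x j).sd = shL q m α (bof α x) j := by
  induction α with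
  | nil => intro x j; rfl
  | cons a α ih =>
    intro x j
    show (selB q m a x.1.val (Nat.le_of_lt_succ x.1.2) j (selI q m α x.2 (j + x.1.val))).sd
      = (a - x.1.val) * (q ^ m - q ^ (j + x.1.val)) + shL q m α (bof α x.2) (j + x.1.val)
    rw [selB_sd, ih]

variable {F : Type} [Field F] [Fintype F]

lemma topP (α : List ℕ) (m : ℕ) (IH : ∀ f : MvPolynomial (Fin (kL α)) F, QP (cL α) m f →
    f ∉ JN F (Fintype.card F ^ m) (kL α) →
    ∃ x : IT α, LL F (kL (bof α x)) * (selI (Fintype.card F) m α x 0).rr f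
      ∉ JN F (Fintype.card F ^ m) (kL (bof α x))) (a : ℕ) :
    ∀ f : MvPolynomial (Fin (kL α + a)) F, QP (cB (cL α) a) m f →
    f ∉ JN F (Fintype.card F ^ m) (kL α + a) →
    (∀ i : Fin (kL α + a), i.val < a → X i * f ∈ JN F (Fintype.card F ^ m) (kL α + a)) →
    ∃ x : IT α, LL F (kL (bof α x)) * (selB (Fintype.card F) m a 0 (Nat.zero_le _) 0
      (selI (Fintype.card F) m α x 0)).rr f ∉ JN F (Fintype.card F ^ m) (kL (bof α x)) := by
  have hq : 1 < Fintype.card F := Fintype.one_lt_card
  have hNpos : 0 < Fintype.card F ^ m := pow_pos (by omega) _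
  induction a with
  | zero =>
    intro f hf hf0 _
    obtain ⟨x, hx⟩ := IH f (by
      intro g hg
      apply hf g
      refine ⟨hg.1, ?_⟩
      intro i j hij
      exact hg.2 i j (Nat.lt_of_succ_lt_succ hij)) hf0
    exact ⟨x, hx⟩
  | succ a ih =>
    intro f hf hf0 hX
    set s' : Sel (kL α + a + 1) (kL α + a) :=
      (Sel.idS (kL α + a)).Rm (Fintype.card F ^ m - Fintype.card F ^ 0) with hs'
    have hse : ∀ i, s'.e i < Fintype.card F ^ m := by
      intro i
      refine Fin.cases ?_ (fun i => ?_) i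
      · show Fintype.card F ^ m - Fintype.card F ^ 0 < _
        rw [pow_zero]
        omega
      · exact hNpos
    have hX' : ∀ (i : Fin (kL α + a)) (w : MvPolynomial (Fin (kL α + a + 1)) F),
        s'.rr (X i.succ * w) = X i * s'.rr w := by
      intro i w
      rw [Sel.rr_apply, Sel.rr_apply, map_mul, Sel.Th_X]
      show coeff s'.ex (C (X i) * s'.Th w) = _
      rw [coeff_C_mul]
    obtain ⟨x, hx⟩ := ih (s'.rr f) (by
      intro g hg
      rw [← Sel.rr_act, ← map_sub]
      apply s'.rr_JN _ hse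
      apply hf
      exact s'.bx_PG _ (cB (cL α) a) (fun _ => rfl) g hg) (by
      intro hcon
      apply hf0
      rw [mem_JN]
      intro e he
      by_contra hlt
      push Not at hlt
      have he0 : e 0 = Fintype.card F ^ m - 1 := by
        by_contra hne
        have h2 := coeff_JN _ (hX 0 (Nat.succ_pos a)) (Finsupp.single 0 1 + e) (by
          intro j
          rw [Finsupp.add_apply]
          by_cases hj : (0 : Fin (kL α + a + 1)) = j
          · rw [← hj, Finsupp.single_eq_same]
            have := hlt (0 : Fin (kL α + a + 1))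
            omega
          · rw [Finsupp.single_apply, if_neg hj, zero_add]
            exact hlt j)
        rw [coeff_X_mul] at h2
        exact he h2
      have h3 := coeff_JN _ hcon (Finsupp.equivFunOnFinite.symm (fun i => e i.succ)) (fun i => hlt i.succ)
      rw [Sel.coeff_rr] at h3
      have h4 : s'.xt (Finsupp.equivFunOnFinite.symm (fun i => e i.succ)) = e := by
        ext i
        rw [Sel.xt_apply]
        refine Fin.cases ?_ (fun i => ?_) i
        · show Fintype.card F ^ m - Fintype.card F ^ 0 = e 0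
          rw [he0, pow_zero]
        · rfl
      rw [h4] at h3
      exact he h3) (by
      intro i hi
      rw [← hX']
      apply s'.rr_JN _ hse
      exact hX i.succ (Nat.succ_lt_succ hi))
    refine ⟨x, ?_⟩
    have h5 := Sel.rr_Rm (R := F) (Fintype.card F ^ m - Fintype.card F ^ 0)
      (selB (Fintype.card F) m a 0 (Nat.zero_le _) 0 (selI (Fintype.card F) m α x 0)) s' rfl rfl f
    rw [← h5] at hx
    exact hx

lemma PG_tr0 {k b : ℕ} (c : Fin k → ℕ) (i : Fin (k + b)) (hi : i.val < b) :
    PG (F := F) (cB c (b + 1)) (Matrix.transvection i.succ 0 1) := by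
  refine ⟨?_, ?_⟩
  · rw [Matrix.det_transvection_of_ne _ _ (Fin.succ_ne_zero i)]
    exact isUnit_one
  · intro r j h
    have h1 : r ≠ j := by
      rintro rfl
      exact lt_irrefl _ h
    have h2 : r ≠ i.succ := by
      rintro rfl
      have := cB_lt c (b + 1) i.succ (by rw [Fin.val_succ]; omega)
      rw [this] at h
      exact absurd h (Nat.not_lt_zero _)
    rw [Matrix.transvection, Matrix.add_apply, Matrix.one_apply_ne h1, zero_add]
    rw [Matrix.single_apply, if_neg]
    rintro ⟨h3, _⟩
    exact h2 h3.symm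

lemma allX {k b m : ℕ} (c : Fin k → ℕ) (f : MvPolynomial (Fin (k + b + 1)) F)
    (hf : QP (cB c (b + 1)) m f) (hX : X 0 * f ∈ JN F (Fintype.card F ^ m) (k + b + 1)) :
    ∀ i : Fin (k + b + 1), i.val < b + 1 → X i * f ∈ JN F (Fintype.card F ^ m) (k + b + 1) := by
  intro i
  refine Fin.cases ?_ (fun i => ?_) i
  · intro _; exact hX
  · intro hi
    rw [Fin.val_succ] at hi
    have hg := PG_tr0 (F := F) c i (by omega)
    have h1 := act_JN m (Matrix.transvection i.succ 0 (1 : F)) _ hX
    have e1 : act (Matrix.transvection i.succ 0 (1 : F)) (X 0) = X 0 + X i.succ := by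
      have h2 : ∀ (j : Fin (k + b + 1)), ∑ r, C (if r = j then (1 : F) else 0) * X r = X j := by
        intro j
        rw [Finset.sum_eq_single_of_mem j (mem_univ _)]
        · rw [if_pos rfl, C_1, one_mul]
        · intro r _ hr
          rw [if_neg hr, C_0, zero_mul]
      have h3 : ∀ r : Fin (k + b + 1), Matrix.transvection i.succ 0 (1 : F) r 0
          = (if r = 0 then 1 else 0) + (if r = i.succ then 1 else 0) := by
        intro r
        rw [Matrix.transvection, Matrix.add_apply, Matrix.one_apply, Matrix.single_apply]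
        congr 1
        by_cases h : r = i.succ
        · rw [if_pos ⟨h.symm, rfl⟩, if_pos h]
        · rw [if_neg (fun h' => h h'.1.symm), if_neg h]
      rw [act_X, lf]
      simp only [h3, C_add, add_mul, sum_add_distrib]
      rw [h2, h2]
    rw [map_mul, e1] at h1
    have h4 := Ideal.mul_mem_left _ (X 0 + X i.succ) (hf _ hg)
    have h5 := Ideal.sub_mem _ (Ideal.sub_mem _ h1 h4) hX
    convert h5 using 1
    ring

theorem injP (α : List ℕ) : ∀ (m : ℕ) (f : MvPolynomial (Fin (kL α)) F), QP (cL α) m f →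
    f ∉ JN F (Fintype.card F ^ m) (kL α) →
    ∃ x : IT α, LL F (kL (bof α x)) * (selI (Fintype.card F) m α x 0).rr f
      ∉ JN F (Fintype.card F ^ m) (kL (bof α x)) := by
  have hq : 1 < Fintype.card F := Fintype.one_lt_card
  induction α with
  | nil =>
    intro m f _ hf0
    refine ⟨(), ?_⟩
    have hL : LL F (kL (bof [] ())) = 1 := by
      show LL F 0 = 1
      unfold LL; rw [Matrix.det_fin_zero]
    rw [hL, one_mul]
    have h1 : (selI (Fintype.card F) m [] () 0).rr f = f := by
      ext e
      rw [Sel.coeff_rr]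
      congr 1
      exact Subsingleton.elim (α := Fin 0 →₀ ℕ) _ _
    rw [h1]
    exact hf0
  | cons a α ih =>
    have htop : ∀ (m a : ℕ) (f : MvPolynomial (Fin (kL α + a)) F), QP (cB (cL α) a) m f →
        f ∉ JN F (Fintype.card F ^ m) (kL α + a) →
        (∀ i : Fin (kL α + a), i.val < a → X i * f ∈ JN F (Fintype.card F ^ m) (kL α + a)) →
        ∃ x : IT (a :: α), LL F (kL (bof (a :: α) x)) * (selI (Fintype.card F) m (a :: α) x 0).rr f
          ∉ JN F (Fintype.card F ^ m) (kL (bof (a :: α) x)) := by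
      intro m a f hf hf0 hX
      obtain ⟨x, hx⟩ := topP α m (ih m) a f hf hf0 hX
      exact ⟨mkI (0 : Fin (a + 1)) x, hx⟩
    induction a with
    | zero =>
      intro m f hf hf0
      exact htop m 0 f hf hf0 (fun i hi => absurd hi (Nat.not_lt_zero _))
    | succ a iha =>
      intro m f hf hf0
      cases m with
      | zero =>
        refine htop 0 (a + 1) f hf hf0 (fun i _ => ?_)
        apply Ideal.mul_mem_right
        have : (X i : MvPolynomial (Fin (kL α + (a + 1))) F) = X i ^ (Fintype.card F ^ 0) := by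
          rw [pow_zero, pow_one]
        rw [this]
        exact Ideal.subset_span ⟨i, rfl⟩
      | succ m =>
        rcases stepK (n := kL α + a) (cB (cL α) (a + 1)) (cB (cL α) a) m f
          (fun x hx => PG_diag _ x hx) (fun i => PG_tr _ i) (fun g hg => PG_blk _ g hg) hf with h | h
        · exact htop (m + 1) (a + 1) f hf hf0 (allX _ f hf h)
        · obtain ⟨h, hh1, hh2, hh3⟩ := h
          obtain ⟨x, hx⟩ := iha m h hh1 hh2
          refine ⟨mkI (Fin.succ x.1) x.2, ?_⟩
          have h4 := hh3 _ _ (selI_e _ m (by omega) _ x 0) hx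
          have h5 : selI (Fintype.card F) (m + 1) ((a + 1) :: α) (mkI (Fin.succ x.1) x.2) 0
              = ((selI (Fintype.card F) m (a :: α) x 0).scale (Fintype.card F)).K :=
            selI_K (Fintype.card F) m a α x.1 x.2
          rw [h5]
          exact h4

end Pool.Agent.H268R3.LRS
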