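import Pool.Agent.H268R3.LRS.PUpper

set_option autoImplicit false

open Finset MvPolynomial Pool.Agent.H268R3.Soc

namespace Pool.Agent.H268R3.LRS

section lower
variable (F : Type) [Field F] [Fintype F] (K : Type) [Field K] [Fintype K] [Algebra F K] {n : ℕ} (c : Fin n → ℕ)

/-- reduced polynomials of bounded degree giving invariant functions -/
def PLP (D : ℕ) : Submodule K (MvPolynomial (Fin n) K) where
  carrier := {f | f ∈ RD K n ∧ (∀ e, coeff e f ≠ 0 → e.degree < D) ∧
    ∀ g : Matrix (Fin n) (Fin n) F, PG c g → ∀ x : Fin n → K, eval x (actC g f) = eval x f}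
  add_mem' := by
    rintro f g ⟨h1, h2, h3⟩ ⟨h4, h5, h6⟩
    refine ⟨Submodule.add_mem _ h1 h4, ?_, ?_⟩
    · intro e he
      by_cases h : coeff e f = 0
      · apply h5 e
        intro h'
        apply he
        rw [coeff_add, h, h', add_zero]
      · exact h2 e h
    · intro x hx y
      rw [map_add, map_add, map_add, h3 x hx, h6 x hx]
  zero_mem' := ⟨Submodule.zero_mem _, fun e he => absurd (coeff_zero e) he, fun g _ x => by rw [map_zero]⟩
  smul_mem' := by
    rintro c f ⟨h1, h2, h3⟩
    refine ⟨Submodule.smul_mem _ _ h1, ?_, ?_⟩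
    · intro e he
      apply h2 e
      intro h
      apply he
      rw [coeff_smul, h, smul_zero]
    · intro x hx y
      rw [map_smul, smul_eval, smul_eval, h3 x hx]

/-- reduced homogeneous quasi-invariants over `K` -/
def VKP (d : ℕ) : Submodule K (MvPolynomial (Fin n) K) where
  carrier := {f | f ∈ RD K n ∧ (∀ e, coeff e f ≠ 0 → e.degree = d) ∧
    ∀ g : Matrix (Fin n) (Fin n) F, PG c g → actC g f - f ∈ JN K (Fintype.card K) n}
  add_mem' := by
    rintro f g ⟨h1, h2, h3⟩ ⟨h4, h5, h6⟩
    refine ⟨Submodule.add_mem _ h1 h4, ?_, ?_⟩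
    · intro e he
      by_cases h : coeff e f = 0
      · apply h5 e
        intro h'
        apply he
        rw [coeff_add, h, h', add_zero]
      · exact h2 e h
    · intro x hx
      have := Ideal.add_mem _ (h3 x hx) (h6 x hx)
      convert this using 1
      rw [map_add]; ring
  zero_mem' := ⟨Submodule.zero_mem _, fun e he => absurd (coeff_zero e) he,
    fun g _ => by rw [map_zero, sub_zero]; exact Ideal.zero_mem _⟩
  smul_mem' := by
    rintro c f ⟨h1, h2, h3⟩
    refine ⟨Submodule.smul_mem _ _ h1, ?_, ?_⟩
    · intro e he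
      apply h2 e
      intro h
      apply he
      rw [coeff_smul, h, smul_zero]
    · intro x hx
      have := Ideal.mul_mem_left _ (C c) (h3 x hx)
      convert this using 1
      rw [map_smul, smul_eq_C_mul, smul_eq_C_mul]; ring

instance (D : ℕ) : Module.Finite K (PLP F K c D) :=
  Submodule.finiteDimensional_of_le (S₂ := RD K n) (fun f hf => hf.1)

instance (d : ℕ) : Module.Finite K (VKP F K c d) :=
  Submodule.finiteDimensional_of_le (S₂ := RD K n) (fun f hf => hf.1)

lemma hc_PLP (D : ℕ) (f : MvPolynomial (Fin n) K) (hf : f ∈ PLP F K c (D + 1)) :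
    homogeneousComponent D f ∈ VKP F K c D := by
  obtain ⟨h1, h2, h3⟩ := hf
  refine ⟨?_, ?_, ?_⟩
  · intro e he
    rw [coeff_homogeneousComponent] at he
    split_ifs at he
    · exact h1 e he
    · exact absurd rfl he
  · intro e he
    rw [coeff_homogeneousComponent] at he
    split_ifs at he with h
    · exact h
    · exact absurd rfl he
  · intro g hg
    rw [mem_JN]
    intro e he
    by_contra hcon
    push Not at hcon
    apply he
    rw [actC_hc, ← map_sub, coeff_homogeneousComponent]
    split_ifs with hd
    · apply null_coeff K n (actC g f - f) D _ _ e hcon hd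
      · intro x
        rw [map_sub, h3 g hg x, sub_self]
      · intro b hb
        by_contra hlt
        push Not at hlt
        apply hb
        have h4 : homogeneousComponent b.degree f = 0 := by
          ext c
          rw [coeff_homogeneousComponent, coeff_zero]
          split_ifs with hc
          · by_contra hne
            have := h2 c hne
            omega
          · rfl
        have h5 : coeff b (homogeneousComponent b.degree (actC g f - f)) = coeff b (actC g f - f) := by
          rw [coeff_homogeneousComponent, if_pos rfl]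
        rw [← h5, map_sub, ← actC_hc, h4, map_zero, sub_zero, coeff_zero]
    · rfl

lemma PLP_step (D : ℕ) : Module.finrank K (PLP F K c (D + 1))
    ≤ Module.finrank K (VKP F K c D) + Module.finrank K (PLP F K c D) := by
  set T : PLP F K c (D + 1) →ₗ[K] VKP F K c D :=
    ((homogeneousComponent D).domRestrict (PLP F K c (D + 1))).codRestrict (VKP F K c D)
      (fun f => hc_PLP F K c D f.1 f.2) with hT
  have h1 := LinearMap.finrank_range_add_finrank_ker T
  have h2 : Module.finrank K (LinearMap.range T) ≤ Module.finrank K (VKP F K c D) := Submodule.finrank_le _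
  have h3 : Module.finrank K (LinearMap.ker T) ≤ Module.finrank K (PLP F K c D) := by
    set J : LinearMap.ker T →ₗ[K] PLP F K c D :=
      ((PLP F K c (D + 1)).subtype ∘ₗ (LinearMap.ker T).subtype).codRestrict (PLP F K c D) (by
        rintro ⟨f, hf⟩
        obtain ⟨h1, h2, h3⟩ := f.2
        refine ⟨h1, ?_, h3⟩
        intro e he
        have h4 : homogeneousComponent D f.1 = 0 := congrArg Subtype.val (LinearMap.mem_ker.1 hf)
        have h5 := h2 e he
        by_contra hcon
        have h6 : e.degree = D := by omega
        have h7 := congrArg (coeff e) h4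
        rw [coeff_homogeneousComponent, if_pos h6, coeff_zero] at h7
        exact he h7) with hJ
    apply LinearMap.finrank_le_finrank_of_injective (f := J)
    intro a b hab
    have := congrArg Subtype.val hab
    apply Subtype.ext
    apply Subtype.ext
    exact this
  omega

lemma PLP_sum (D : ℕ) : Module.finrank K (PLP F K c D) ≤ ∑ d ∈ range D, Module.finrank K (VKP F K c d) := by
  induction D with
  | zero =>
    have : PLP F K c 0 = ⊥ := by
      rw [eq_bot_iff]
      rintro f ⟨_, h2, _⟩
      rw [Submodule.mem_bot]
      ext e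
      rw [coeff_zero]
      by_contra h
      exact absurd (h2 e h) (Nat.not_lt_zero _)
    rw [this, finrank_bot]
    exact Nat.zero_le _
  | succ D ih =>
    rw [sum_range_succ]
    have := PLP_step F K c D
    omega

end lower

section desc
variable (F : Type) [Field F] [Fintype F] (K : Type) [Field K] [Fintype K] [Algebra F K] {n : ℕ} (c : Fin n → ℕ)
  (m : ℕ)

/-- reduced homogeneous quasi-invariants over `F` -/
def VFP (d : ℕ) : Submodule F (MvPolynomial (Fin n) F) where
  carrier := {f | (∀ e, coeff e f ≠ 0 → (∀ i, e i < Fintype.card F ^ m) ∧ e.degree = d) ∧ QP c m f}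
  add_mem' := by
    rintro f g ⟨h2, h3⟩ ⟨h5, h6⟩
    refine ⟨?_, ?_⟩
    · intro e he
      by_cases h : coeff e f = 0
      · apply h5 e
        intro h'
        apply he
        rw [coeff_add, h, h', add_zero]
      · exact h2 e h
    · intro x hx
      have := Ideal.add_mem _ (h3 x hx) (h6 x hx)
      convert this using 1
      rw [map_add]; ring
  zero_mem' := ⟨fun e he => absurd (coeff_zero e) he,
    fun g _ => by rw [map_zero, sub_zero]; exact Ideal.zero_mem _⟩
  smul_mem' := by
    rintro c f ⟨h2, h3⟩
    refine ⟨?_, ?_⟩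
    · intro e he
      apply h2 e
      intro h
      apply he
      rw [coeff_smul, h, smul_zero]
    · intro x hx
      have := Ideal.mul_mem_left _ (C c) (h3 x hx)
      convert this using 1
      rw [map_smul, smul_eq_C_mul, smul_eq_C_mul]; ring

lemma VFP_homog (d : ℕ) (f : MvPolynomial (Fin n) F) (hf : f ∈ VFP F c m d) : f.IsHomogeneous d := by
  intro e he
  have h3 := (hf.1 e he).2
  rwa [Finsupp.degree_eq_weight_one] at h3

instance (d : ℕ) : Module.Finite F (VFP F c m d) := by
  haveI := finite_homog F n d
  exact Submodule.finiteDimensional_of_le (S₂ := homogeneousSubmodule (Fin n) F d)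
    (fun f hf => VFP_homog F c m d f hf)

instance (d : ℕ) : Module.Finite F (VP F c m d) := by
  unfold VP
  infer_instance

lemma VFP_le (d : ℕ) : Module.finrank F (VFP F c m d) ≤ Module.finrank F (VP F c m d) := by
  set J : VFP F c m d →ₗ[F] VP F c m d :=
    ((Ideal.Quotient.mkₐ F (JN F (Fintype.card F ^ m) n)).toLinearMap.domRestrict (VFP F c m d)).codRestrict
      (VP F c m d) (by
        intro f
        exact Submodule.mem_map.2 ⟨f.1, ⟨VFP_homog F c m d f.1 f.2, f.2.2⟩, rfl⟩) with hJ
  apply LinearMap.finrank_le_finrank_of_injective (f := J)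
  rw [← LinearMap.ker_eq_bot, LinearMap.ker_eq_bot']
  intro f hf
  have h1 : Ideal.Quotient.mk (JN F (Fintype.card F ^ m) n) f.1 = 0 := congrArg Subtype.val hf
  rw [Ideal.Quotient.eq_zero_iff_mem] at h1
  apply Subtype.ext
  ext e
  show coeff e f.1 = coeff e 0
  rw [coeff_zero]
  by_contra hne
  exact hne (coeff_JN _ h1 e (f.2.1 e hne).1)

lemma VKP_span (hN : Fintype.card K = Fintype.card F ^ m) (d : ℕ) :
    VKP F K c d ≤ Submodule.span K (MvPolynomial.map (algebraMap F K) '' (VFP F c m d : Set _)) := by
  classical
  haveI : Module.Finite F K := Module.Finite.of_finite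
  let b := Module.finBasis F K
  rintro f ⟨h1, h2, h3⟩
  set ft : Fin (Module.finrank F K) → MvPolynomial (Fin n) F :=
    fun t => ∑ e ∈ f.support, monomial e (b.repr (coeff e f) t) with hft
  have hc : ∀ t e, coeff e (ft t) = b.repr (coeff e f) t := by
    intro t e
    rw [hft]
    show coeff e (∑ e' ∈ f.support, monomial e' (b.repr (coeff e' f) t)) = _
    rw [coeff_sum]
    simp only [coeff_monomial]
    rw [sum_ite_eq']
    split_ifs with h
    · rfl
    · rw [notMem_support_iff.1 h, map_zero]; rfl
  have hf : f = ∑ t, b t • MvPolynomial.map (algebraMap F K) (ft t) := by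
    ext e
    rw [coeff_sum]
    simp only [coeff_smul, coeff_map, hc]
    conv_lhs => rw [← b.sum_repr (coeff e f)]
    apply sum_congr rfl
    intro t _
    rw [Algebra.smul_def, smul_eq_mul, mul_comm]
  have hmem : ∀ t, ft t ∈ VFP F c m d := by
    intro t
    refine ⟨?_, ?_⟩
    · intro e he
      have h4 : coeff e f ≠ 0 := by
        intro h
        apply he
        rw [hc, h, map_zero]; rfl
      exact ⟨fun i => by rw [← hN]; exact h1 e h4 i, h2 e h4⟩
    · intro g hg
      rw [mem_JN]
      intro e he
      by_contra hcon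
      push Not at hcon
      apply he
      have h5 : actC g f - f = ∑ t, b t • MvPolynomial.map (algebraMap F K) (act g (ft t) - ft t) := by
        conv_lhs => rw [hf]
        rw [map_sum, ← sum_sub_distrib]
        apply sum_congr rfl
        intro t _
        rw [map_smul, actC_base, map_sub, smul_sub]
      have h6 := coeff_JN _ (h3 g hg) e (fun i => by rw [hN]; exact hcon i)
      rw [h5, coeff_sum] at h6
      simp only [coeff_smul, coeff_map] at h6
      have h7 := (Fintype.linearIndependent_iff.1 b.linearIndependent)
        (fun t => coeff e (act g (ft t) - ft t)) (by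
          rw [← h6]
          apply sum_congr rfl
          intro t _
          rw [Algebra.smul_def, smul_eq_mul, mul_comm]) t
      exact h7
  rw [hf]
  apply Submodule.sum_mem
  intro t _
  exact Submodule.smul_mem _ _ (Submodule.subset_span ⟨_, hmem t, rfl⟩)

theorem VKP_le (hN : Fintype.card K = Fintype.card F ^ m) (d : ℕ) :
    Module.finrank K (VKP F K c d) ≤ Module.finrank F (VP F c m d) := by
  refine le_trans ?_ (VFP_le F c m d)
  let B := Module.finBasis F (VFP F c m d)
  have h1 : Submodule.span K (MvPolynomial.map (algebraMap F K) '' (VFP F c m d : Set _))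
      ≤ Submodule.span K (Set.range (fun i => MvPolynomial.map (algebraMap F K) (B i).1)) := by
    rw [Submodule.span_le]
    rintro _ ⟨v, hv, rfl⟩
    have h2 := B.sum_repr ⟨v, hv⟩
    have h3 : v = ∑ i, B.repr ⟨v, hv⟩ i • (B i).1 := by
      have h4 : v = ((∑ i, B.repr ⟨v, hv⟩ i • B i : VFP F c m d) : MvPolynomial (Fin n) F) := by rw [h2]
      conv_lhs => rw [h4]
      simp only [Submodule.coe_sum, Submodule.coe_smul]
    rw [h3, map_sum]
    apply Submodule.sum_mem
    intro i _
    rw [smul_eq_C_mul, map_mul, MvPolynomial.map_C, ← smul_eq_C_mul]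
    exact Submodule.smul_mem _ _ (Submodule.subset_span ⟨i, rfl⟩)
  have h2 := (VKP_span F K c m hN d).trans h1
  haveI : Module.Finite K (Submodule.span K (Set.range (fun i => MvPolynomial.map (algebraMap F K) (B i).1))) :=
    Module.Finite.span_of_finite K (Set.finite_range _)
  refine le_trans (Submodule.finrank_mono h2) ?_
  refine le_trans (finrank_range_le_card (R := K) (fun i => MvPolynomial.map (algebraMap F K) (B i).1)) ?_
  rw [Fintype.card_fin]

end desc

section types
variable (F : Type) [Field F] {n : ℕ} (c : Fin n → ℕ)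

/-- the flag type of a tuple -/
def ty {V : Type} [AddCommGroup V] [Module F V] (x : Fin n → V) : ℕ → Submodule F V :=
  fun t => Submodule.span F (x '' {j | c j ≤ t})

variable {F c} in
lemma PG_inv (g : Matrix (Fin n) (Fin n) F) (hg : PG c g) : PG c g⁻¹ := by
  haveI : Invertible g := g.invertibleOfIsUnitDet hg.1
  refine ⟨Matrix.isUnit_nonsing_inv_det _ hg.1, ?_⟩
  have h : Matrix.BlockTriangular g c := fun i j h => hg.2 i j h
  have h2 := Matrix.blockTriangular_inv_of_blockTriangular h
  intro i j hij
  exact h2 hij

variable {V : Type} [AddCommGroup V] [Module F V]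

lemma ty_act_le (g : Matrix (Fin n) (Fin n) F) (hg : PG c g) (x : Fin n → V) (t : ℕ) :
    ty F c (fun j => ∑ i, g i j • x i) t ≤ ty F c x t := by
  unfold ty
  rw [Submodule.span_le]
  rintro _ ⟨j, hj, rfl⟩
  apply Submodule.sum_mem
  intro i _
  by_cases h : c j < c i
  · rw [hg.2 i j h, zero_smul]
    exact Submodule.zero_mem _
  · apply Submodule.smul_mem
    have hj' : c j ≤ t := hj
    exact Submodule.subset_span ⟨i, show c i ≤ t by omega, rfl⟩

lemma ty_act (g : Matrix (Fin n) (Fin n) F) (hg : PG c g) (x : Fin n → V) :
    ty F c (fun j => ∑ i, g i j • x i) = ty F c x := by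
  funext t
  apply le_antisymm (ty_act_le F c g hg x t)
  have h1 := ty_act_le F c g⁻¹ (PG_inv g hg) (fun j => ∑ i, g i j • x i) t
  have h2 : (fun l => ∑ j, g⁻¹ j l • ∑ i, g i j • x i) = x := by
    ext l
    simp only [smul_sum, smul_smul]
    rw [sum_comm]
    have h3 : g * g⁻¹ = 1 := Matrix.mul_nonsing_inv _ hg.1
    have h4 : ∀ i, ∑ j, (g⁻¹ j l * g i j) • x i = (if i = l then 1 else 0 : F) • x i := by
      intro i
      rw [← sum_smul]
      congr 1
      have := congrFun (congrFun h3 i) l
      rw [Matrix.mul_apply, Matrix.one_apply] at this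
      rw [← this]
      apply sum_congr rfl
      intro j _
      ring
    rw [sum_congr rfl (fun i _ => h4 i)]
    simp only [ite_smul, one_smul, zero_smul, sum_ite_eq', mem_univ, if_true]
  rw [h2] at h1
  exact h1

end types

section cnt
variable (F : Type) [Field F] [Fintype F] (K : Type) [Field K] [Fintype K] [Algebra F K] {n : ℕ} (c : Fin n → ℕ)

theorem types_le (D : ℕ) (hD : n * Fintype.card K < D) :
    Nat.card (Set.range (ty F c : (Fin n → K) → ℕ → Submodule F K)) ≤ Module.finrank K (PLP F K c D) := by
  classical
  haveI : Fintype (Set.range (ty F c : (Fin n → K) → ℕ → Submodule F K)) := Fintype.ofFinite _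
  have h1 : ∀ W : Set.range (ty F c : (Fin n → K) → ℕ → Submodule F K), ∃ f : MvPolynomial (Fin n) K,
      f ∈ PLP F K c D ∧ ∀ x, eval x f = if ty F c x = W.1 then 1 else 0 := by
    intro W
    have h2 : (fun x : Fin n → K => if ty F c x = W.1 then (1 : K) else 0)
        ∈ (restrictDegree (Fin n) K (Fintype.card K - 1)).map (evalₗ K (Fin n)) := by
      rw [map_restrict_dom_evalₗ]; trivial
    obtain ⟨f, hf, hfe⟩ := Submodule.mem_map.1 h2
    have hfe' : ∀ x, eval x f = if ty F c x = W.1 then 1 else 0 :=
      fun x => congrFun hfe x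
    have hred : f ∈ RD K n := by
      intro e he i
      have := (mem_restrictDegree _ _ _).1 hf e (mem_support_iff.2 he) i
      have : 0 < Fintype.card K := Fintype.card_pos
      omega
    refine ⟨f, ⟨hred, ?_, ?_⟩, hfe'⟩
    · intro e he
      refine lt_of_le_of_lt ?_ hD
      rw [Finsupp.degree_eq_sum]
      refine le_trans (sum_le_card_nsmul _ _ (Fintype.card K) (fun i _ => (hred e he i).le)) ?_
      rw [card_univ, Fintype.card_fin, smul_eq_mul]
    · intro g hg x
      rw [eval_actC, hfe', hfe', ty_act F c g hg]
  choose f hf hfe using h1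
  have h2 : LinearIndependent K (fun W : Set.range (ty F c : (Fin n → K) → ℕ → Submodule F K) =>
      (⟨f W, hf W⟩ : PLP F K c D)) := by
    rw [Fintype.linearIndependent_iff]
    intro a hc W
    obtain ⟨x, hx⟩ := W.2
    have h3 := congrArg (fun z : PLP F K c D => eval x z.1) hc
    simp only [Submodule.coe_sum, Submodule.coe_smul, map_sum, smul_eval, hfe, hx,
      ZeroMemClass.coe_zero, map_zero] at h3
    rw [Finset.sum_eq_single_of_mem W (mem_univ _)] at h3
    · rwa [if_pos rfl, mul_one] at h3
    · intro W' _ hne
      rw [if_neg, mul_zero]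
      intro h
      exact hne (Subtype.ext h.symm)
  rw [Nat.card_eq_fintype_card]
  exact h2.fintype_card_le_finrank

end cnt

end Pool.Agent.H268R3.LRS
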