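import Pool.Agent.H268R3.LRS.PLow

set_option autoImplicit false

open Finset MvPolynomial Pool.Agent.H268R3.Soc

namespace Pool.Agent.H268R3.LRS

section cnt
variable (F : Type) [Field F]

lemma exists_tupleV {V : Type} [AddCommGroup V] [Module F V] [Finite V] (n : ℕ)
    (W : Submodule F V) (hW : Module.finrank F W ≤ n) :
    ∃ x : Fin n → V, Submodule.span F (Set.range x) = W := by
  classical
  haveI : Module.Finite F V := Module.Finite.of_finite
  let b := Module.finBasis F W
  refine ⟨fun i => if h : i.val < Module.finrank F W then ((b ⟨i.val, h⟩ : W) : V) else 0, ?_⟩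
  apply le_antisymm
  · rw [Submodule.span_le]
    rintro _ ⟨i, rfl⟩
    show (if h : i.val < Module.finrank F W then ((b ⟨i.val, h⟩ : W) : V) else 0) ∈ W
    split_ifs
    · exact (b _).2
    · exact W.zero_mem
  · intro w hw
    have h1 : (⟨w, hw⟩ : W) ∈ Submodule.span F (Set.range b) := by rw [b.span_eq]; trivial
    have h2 := Submodule.mem_map_of_mem (f := W.subtype) h1
    rw [Submodule.map_span] at h2
    refine Submodule.span_mono ?_ h2
    rintro _ ⟨_, ⟨j, rfl⟩, rfl⟩
    refine ⟨⟨j.val, lt_of_lt_of_le j.2 hW⟩, ?_⟩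
    show (if h : j.val < Module.finrank F W then ((b ⟨j.val, h⟩ : W) : V) else 0) = _
    rw [dif_pos j.2]
    rfl

theorem gr_cardV [Fintype F] {V : Type} [AddCommGroup V] [Module F V] [Finite V] (m k : ℕ)
    (hm : Module.finrank F V = m) (hk : k ≤ m) :
    Nat.card {W : Submodule F V // Module.finrank F W = k} * NN F k k = NN F m k := by
  classical
  haveI : Module.Finite F V := Module.Finite.of_finite
  haveI : Fintype V := Fintype.ofFinite V
  haveI : Finite (Submodule F V) := Finite.of_injective (fun W : Submodule F V => (W : Set V)) SetLike.coe_injective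
  haveI : Fintype {W : Submodule F V // Module.finrank F W = k} := Fintype.ofFinite _
  have h1 := card_linearIndependent (K := F) (V := V) (k := k) (by rw [hm]; exact hk)
  rw [hm, Fin.prod_univ_eq_prod_range (fun i => Fintype.card F ^ m - Fintype.card F ^ i)] at h1
  have hcf : ∀ W : {W : Submodule F V // Module.finrank F W = k},
      Fintype.card {s : {s : Fin k → V // LinearIndependent F s} //
        Submodule.span F (Set.range s.1) = W.1} = NN F k k := by
    intro W
    have h2 := card_linearIndependent (K := F) (V := W.1) (k := k) (by rw [W.2])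
    rw [W.2, Fin.prod_univ_eq_prod_range (fun i => Fintype.card F ^ k - Fintype.card F ^ i)] at h2
    unfold NN
    rw [← h2, ← Nat.card_eq_fintype_card]
    apply Nat.card_congr
    refine ⟨fun s => ⟨fun i => ⟨s.1.1 i, s.2.le (Submodule.subset_span ⟨i, rfl⟩)⟩, ?_⟩,
      fun t => ⟨⟨fun i => (t.1 i : V), ?_⟩, ?_⟩, ?_, ?_⟩
    · have := s.1.2
      exact LinearIndependent.of_comp W.1.subtype this
    · exact t.2.map' W.1.subtype (Submodule.ker_subtype _)
    · have hli : LinearIndependent F (fun i => (t.1 i : V)) := t.2.map' W.1.subtype (Submodule.ker_subtype _)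
      apply Submodule.eq_of_le_of_finrank_eq
      · rw [Submodule.span_le]
        rintro _ ⟨i, rfl⟩
        exact (t.1 i).2
      · rw [W.2, finrank_span_eq_card hli, Fintype.card_fin]
    · intro s
      rfl
    · intro t
      rfl
  have h3 : Fintype.card {s : Fin k → V // LinearIndependent F s}
      = ∑ W : {W : Submodule F V // Module.finrank F W = k},
        Fintype.card {s : {s : Fin k → V // LinearIndependent F s} // Submodule.span F (Set.range s.1) = W.1} := by
    rw [← Fintype.card_sigma]
    apply Fintype.card_congr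
    refine ⟨fun s => ⟨⟨Submodule.span F (Set.range s.1), by rw [finrank_span_eq_card s.2, Fintype.card_fin]⟩, ⟨s, rfl⟩⟩,
      fun t => t.2.1, ?_, ?_⟩
    · intro s; rfl
    · rintro ⟨⟨W, hW⟩, ⟨s, hs⟩⟩
      simp only at hs
      subst hs
      rfl
  rw [← Nat.card_eq_fintype_card, h1, sum_congr rfl (fun W _ => hcf W), sum_const, smul_eq_mul,
    card_univ] at h3
  rw [Nat.card_eq_fintype_card, ← h3]
  rfl

lemma cB_ge {k : ℕ} (c : Fin k → ℕ) (b : ℕ) : ∀ (i : Fin (k + b)) (h : b ≤ i.val),
    cB c b i = c ⟨i.val - b, by have := i.2; omega⟩ + 1 := by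
  induction b with
  | zero => intro i _; rfl
  | succ b ih =>
    intro i hi
    refine Fin.cases (motive := fun i : Fin (k + b + 1) => ∀ h : b + 1 ≤ i.val,
      cB c (b + 1) i = c ⟨i.val - (b + 1), by have := i.2; omega⟩ + 1) ?_ ?_ i hi
    · intro h; exact absurd h (by simp)
    · intro j hj
      have h1 : b ≤ j.val := by rw [Fin.val_succ] at hj; omega
      have h2 := ih j h1
      show cB c b j = _
      rw [h2]
      congr 2
      apply Fin.ext
      show j.val - b = j.succ.val - (b + 1)
      rw [Fin.val_succ]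
      omega

lemma exists_lift {V : Type} [AddCommGroup V] [Module F V] [Finite V] {n : ℕ} (c : Fin n → ℕ) (a : ℕ)
    (W : Submodule F V) (hW : Module.finrank F W ≤ a) (x' : Fin n → V ⧸ W) :
    ∃ x : Fin (n + a) → V, ty F (cB c a) x 0 = W ∧
      ∀ t, Submodule.map W.mkQ (ty F (cB c a) x (t + 1)) = ty F c x' t := by
  obtain ⟨y, hy⟩ := exists_tupleV F a W hW
  have hyW : ∀ i, y i ∈ W := fun i => hy.le (Submodule.subset_span ⟨i, rfl⟩)
  choose z hz using fun j => Submodule.mkQ_surjective W (x' j)
  set x : Fin (n + a) → V := fun i => if h : i.val < a then y ⟨i.val, h⟩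
    else z ⟨i.val - a, by have := i.2; omega⟩ with hx
  have hx1 : ∀ (i : Fin (n + a)) (h : i.val < a), x i = y ⟨i.val, h⟩ := by
    intro i h; rw [hx]; exact dif_pos h
  have hx2 : ∀ (i : Fin (n + a)) (h : ¬ i.val < a), x i = z ⟨i.val - a, by have := i.2; omega⟩ := by
    intro i h; rw [hx]; exact dif_neg h
  refine ⟨x, ?_, ?_⟩
  · apply le_antisymm
    · unfold ty
      rw [Submodule.span_le]
      rintro _ ⟨i, hi, rfl⟩
      by_cases h : i.val < a
      · rw [hx1 i h]; exact hyW _
      · have hi' : cB c a i ≤ 0 := hi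
        rw [cB_ge c a i (by omega)] at hi'
        omega
    · rw [← hy]
      unfold ty
      rw [Submodule.span_le]
      rintro _ ⟨j, rfl⟩
      apply Submodule.subset_span
      refine ⟨⟨j.val, by have := j.2; omega⟩, ?_, ?_⟩
      · show cB c a _ ≤ 0
        rw [cB_lt c a _ j.2]
      · rw [hx1 _ j.2]
  · intro t
    unfold ty
    rw [Submodule.map_span]
    apply le_antisymm
    · rw [Submodule.span_le]
      rintro _ ⟨_, ⟨i, hi, rfl⟩, rfl⟩
      have hi' : cB c a i ≤ t + 1 := hi
      by_cases h : i.val < a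
      · rw [hx1 i h]
        have : W.mkQ (y ⟨i.val, h⟩) = 0 := by
          rw [Submodule.mkQ_apply, Submodule.Quotient.mk_eq_zero]; exact hyW _
        rw [this]
        exact Submodule.zero_mem _
      · rw [hx2 i h, hz]
        rw [cB_ge c a i (by omega)] at hi'
        exact Submodule.subset_span ⟨_, show c _ ≤ t by omega, rfl⟩
    · rw [Submodule.span_le]
      rintro _ ⟨j, hj, rfl⟩
      have hj' : c j ≤ t := hj
      apply Submodule.subset_span
      have hi : ¬ ((⟨j.val + a, by have := j.2; omega⟩ : Fin (n + a)).val < a) := by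
        show ¬ (j.val + a < a); omega
      have he : (⟨(⟨j.val + a, by have := j.2; omega⟩ : Fin (n + a)).val - a, by have := j.2; simp⟩ : Fin n) = j :=
        Fin.ext (by show j.val + a - a = j.val; omega)
      refine ⟨_, ⟨⟨j.val + a, by have := j.2; omega⟩, ?_, rfl⟩, ?_⟩
      · show cB c a _ ≤ t + 1
        rw [cB_ge c a _ (by show a ≤ j.val + a; omega)]
        rw [he]
        omega
      · rw [hx2 _ hi, hz, he]

theorem types_rec {V : Type} [AddCommGroup V] [Module F V] [Finite V] {n : ℕ} (c : Fin n → ℕ) (a : ℕ)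
    [Fintype {W : Submodule F V // Module.finrank F W ≤ a}] :
    ∑ W : {W : Submodule F V // Module.finrank F W ≤ a},
      Nat.card (Set.range (ty F c : (Fin n → V ⧸ W.1) → ℕ → Submodule F (V ⧸ W.1)))
    ≤ Nat.card (Set.range (ty F (cB c a) : (Fin (n + a) → V) → ℕ → Submodule F V)) := by
  classical
  haveI : ∀ W : {W : Submodule F V // Module.finrank F W ≤ a}, Finite (V ⧸ W.1) := fun W =>
    Finite.of_surjective _ (Submodule.mkQ_surjective W.1)
  rw [← Nat.card_sigma]
  have h : ∀ p : (Σ W : {W : Submodule F V // Module.finrank F W ≤ a},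
      Set.range (ty F c : (Fin n → V ⧸ W.1) → ℕ → Submodule F (V ⧸ W.1))),
      ∃ x : Fin (n + a) → V, ty F (cB c a) x 0 = p.1.1 ∧
        ∀ t, Submodule.map p.1.1.mkQ (ty F (cB c a) x (t + 1)) = p.2.1 t := by
    rintro ⟨W, ⟨_, ⟨x', rfl⟩⟩⟩
    exact exists_lift F c a W.1 W.2 x'
  choose x hx1 hx2 using h
  apply Nat.card_le_card_of_injective (fun p => (⟨ty F (cB c a) (x p), ⟨x p, rfl⟩⟩ :
    Set.range (ty F (cB c a) : (Fin (n + a) → V) → ℕ → Submodule F V)))
  intro p p' hpp
  have h1 : ty F (cB c a) (x p) = ty F (cB c a) (x p') := congrArg Subtype.val hpp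
  have h2 : p.1.1 = p'.1.1 := by rw [← hx1, ← hx1, h1]
  have h3 := hx2 p
  have h4 := hx2 p'
  rw [h1] at h3
  obtain ⟨W, τ⟩ := p
  obtain ⟨W', τ'⟩ := p'
  have h5 : W = W' := Subtype.ext h2
  subst h5
  congr 1
  apply Subtype.ext
  funext t
  have h6 := h3 t
  have h7 := h4 t
  exact h6.symm.trans h7

end cnt

end Pool.Agent.H268R3.LRS
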