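import Pool.Agent.H268R3.LRS.PLow2

set_option autoImplicit false

open Finset MvPolynomial Pool.Agent.H268R3.Soc

namespace Pool.Agent.H268R3.LRS

variable (F : Type) [Field F] [Fintype F]

lemma sum_IT {A : Type} [AddCommMonoid A] (a : ℕ) (α : List ℕ) (G : List ℕ → A) :
    ∑ x : IT (a :: α), G (bof (a :: α) x) = ∑ b : Fin (a + 1), ∑ x : IT α, G (b.val :: bof α x) := by
  have h : ∑ x : IT (a :: α), G (bof (a :: α) x)
      = ∑ x : Fin (a + 1) × IT α, G (x.1.val :: bof α x.2) := rfl
  rw [h, Fintype.sum_prod_type]

lemma card_UM (b : ℕ) (β : List ℕ) (m : ℕ) : (UM F (b :: β) m).card = (Em F m b).card * (UM F β (m - b)).card := by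
  rw [UM, Multiset.card_bind]
  have h : (Multiset.card ∘ fun e => (UM F β (m - b)).map (fun u =>
      ((eb (kL β) b (mo (kap F b) e) * Yhb b u.1, wt F b e + Fintype.card F ^ b * u.2) :
        MvPolynomial (Fin (kL (b :: β))) F × ℕ))) = fun _ => (UM F β (m - b)).card := by
    funext e
    show Multiset.card (Multiset.map _ _) = _
    rw [Multiset.card_map]
  rw [h, Multiset.map_const', Multiset.sum_replicate, smul_eq_mul]

theorem count_types (α : List ℕ) : ∀ (m : ℕ) (V : Type) [AddCommGroup V] [Module F V] [Finite V],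
    Module.finrank F V = m →
    ∑ x : IT α, (UM F (bof α x) m).card
      ≤ Nat.card (Set.range (ty F (cL α) : (Fin (kL α) → V) → ℕ → Submodule F V)) := by
  induction α with
  | nil =>
    intro m V _ _ _ _
    have h1 : ∑ x : IT [], (UM F (bof [] x) m).card = 1 := by
      show ∑ x : Unit, (UM F [] m).card = 1
      rw [UM, Multiset.card_singleton]
      simp
    rw [h1]
    have : 0 < Nat.card (Set.range (ty F (cL []) : (Fin (kL []) → V) → ℕ → Submodule F V)) := by
      haveI : Nonempty (Set.range (ty F (cL []) : (Fin (kL []) → V) → ℕ → Submodule F V)) :=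
        ⟨⟨_, ⟨fun _ => 0, rfl⟩⟩⟩
      haveI : Finite (Fin (kL []) → V) := inferInstance
      exact Nat.card_pos
    exact this
  | cons a α ih =>
    intro m V _ _ _ hm
    classical
    haveI : Module.Finite F V := Module.Finite.of_finite
    haveI : Finite (Submodule F V) := Finite.of_injective (fun W : Submodule F V => (W : Set V)) SetLike.coe_injective
    haveI : Fintype (Submodule F V) := Fintype.ofFinite _
    haveI : Fintype {W : Submodule F V // Module.finrank F W ≤ a} := Fintype.ofFinite _
    refine le_trans ?_ (types_rec F (cL α) a)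
    have h1 : ∀ W : {W : Submodule F V // Module.finrank F W ≤ a},
        ∑ x : IT α, (UM F (bof α x) (m - Module.finrank F W.1)).card
        ≤ Nat.card (Set.range (ty F (cL α) : (Fin (kL α) → V ⧸ W.1) → ℕ → Submodule F (V ⧸ W.1))) := by
      intro W
      haveI : Finite (V ⧸ W.1) := Finite.of_surjective _ (Submodule.mkQ_surjective W.1)
      apply ih
      have := Submodule.finrank_quotient_add_finrank W.1
      omega
    refine le_trans ?_ (sum_le_sum (fun W _ => h1 W))
    rw [sum_IT a α (fun β => (UM F β m).card)]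
    simp only [card_UM]
    have h2 : ∀ W : {W : Submodule F V // Module.finrank F W ≤ a},
        ∑ x : IT α, (UM F (bof α x) (m - Module.finrank F W.1)).card
        = ∑ b : Fin (a + 1), if Module.finrank F W.1 = b.val then
            ∑ x : IT α, (UM F (bof α x) (m - b.val)).card else 0 := by
      intro W
      rw [Finset.sum_eq_single_of_mem (⟨Module.finrank F W.1, by have := W.2; omega⟩ : Fin (a + 1)) (mem_univ _)]
      · rw [if_pos rfl]
      · intro b _ hb
        rw [if_neg]
        intro h
        exact hb (Fin.ext h.symm)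
    rw [sum_congr rfl (fun W _ => h2 W)]
    conv_rhs => rw [sum_comm]
    apply sum_le_sum
    intro b _
    rw [← mul_sum, ← Finset.sum_filter, sum_const, smul_eq_mul]
    apply Nat.mul_le_mul_right
    by_cases hbm : b.val ≤ m
    · have h3 := gr_cardV F (V := V) m b.val hm hbm
      have h4 := card_eq F m b.val
      have h5 : (Em F m b.val).card = Nat.card {W : Submodule F V // Module.finrank F W = b.val} :=
        Nat.eq_of_mul_eq_mul_right (NN_pos F b.val) (by rw [h3, h4])
      rw [h5]
      have h6 : Nat.card {W : Submodule F V // Module.finrank F W = b.val}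
          = Nat.card ↥(univ.filter (fun W : {W : Submodule F V // Module.finrank F W ≤ a} =>
            Module.finrank F W.1 = b.val)) := by
        apply Nat.card_congr
        refine ⟨fun W => ⟨⟨W.1, by have := W.2; have := b.2; omega⟩, mem_filter.2 ⟨mem_univ _, W.2⟩⟩,
          fun W => ⟨W.1.1, (mem_filter.1 W.2).2⟩, ?_, ?_⟩
        · intro W; rfl
        · intro W; rfl
      rw [h6, Nat.card_eq_fintype_card, Fintype.card_coe]
    · have h4 := card_eq F m b.val
      have h5 : NN F m b.val = 0 := by
        unfold NN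
        apply Finset.prod_eq_zero (mem_range.2 (show m < b.val by omega))
        exact Nat.sub_self _
      rw [h5] at h4
      have := NN_pos F b.val
      have h6 : (Em F m b.val).card = 0 := by
        rcases Nat.mul_eq_zero.1 h4 with h | h
        · exact h
        · omega
      rw [h6]
      exact Nat.zero_le _

lemma UM_zero (β : List ℕ) : (UM F β 0).card ≤ 1 ∧ (0 < kL β → (UM F β 0).card = 0) := by
  induction β with
  | nil =>
    rw [UM, Multiset.card_singleton]
    exact ⟨le_refl _, fun h => absurd h (lt_irrefl _)⟩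
  | cons b β ih =>
    rw [card_UM]
    cases b with
    | zero =>
      have h1 : (Em F 0 0).card = 1 := by rw [Em]; exact Multiset.card_singleton _
      rw [h1, one_mul]
      exact ih
    | succ b =>
      have h1 : (Em F 0 (b + 1)).card = 0 := by rw [Em]; exact Multiset.card_zero
      rw [h1, zero_mul]
      exact ⟨Nat.zero_le _, fun _ => rfl⟩

lemma sum_UM_zero (α : List ℕ) : ∑ x : IT α, (UM F (bof α x) 0).card ≤ 1 := by
  induction α with
  | nil =>
    show ∑ x : Unit, (UM F [] 0).card ≤ 1
    rw [UM, Multiset.card_singleton]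
    simp
  | cons a α ih =>
    rw [sum_IT a α (fun β => (UM F β 0).card), Finset.sum_eq_single_of_mem (0 : Fin (a + 1)) (mem_univ _)]
    · simp only [card_UM]
      have h1 : (Em F 0 0).card = 1 := by rw [Em]; exact Multiset.card_singleton _
      show ∑ x : IT α, (Em F 0 0).card * (UM F (bof α x) (0 - 0)).card ≤ 1
      simp only [h1, one_mul]
      exact ih
    · intro b _ hb
      apply sum_eq_zero
      intro x _
      rw [card_UM]
      have hb' : b.val ≠ 0 := fun h => hb (Fin.ext h)
      obtain ⟨b', hb''⟩ := Nat.exists_eq_succ_of_ne_zero hb'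
      rw [hb'']
      have h1 : (Em F 0 (b' + 1)).card = 0 := by rw [Em]; exact Multiset.card_zero
      show (Em F 0 (b' + 1)).card * _ = 0
      rw [h1, zero_mul]

theorem lowerP_zero (α : List ℕ) (D : ℕ) (hD : 1 ≤ D) : ∑ x : IT α, (UM F (bof α x) 0).card
    ≤ ∑ d ∈ range D, Module.finrank F (VP F (cL α) 0 d) := by
  refine le_trans (sum_UM_zero F α) ?_
  refine le_trans ?_ (single_le_sum (f := fun d => Module.finrank F (VP F (cL α) 0 d))
    (fun _ _ => Nat.zero_le _) (mem_range.2 hD))
  have h1 : (Ideal.Quotient.mk (JN F (Fintype.card F ^ 0) (kL α)) 1) ∈ VP F (cL α) 0 0 := by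
    refine Submodule.mem_map.2 ⟨1, ⟨isHomogeneous_one _ _, ?_⟩, rfl⟩
    intro g _
    rw [map_one, sub_self]
    exact Ideal.zero_mem _
  have h2 : (Ideal.Quotient.mk (JN F (Fintype.card F ^ 0) (kL α)) 1) ≠ 0 := by
    intro h
    rw [Ideal.Quotient.eq_zero_iff_mem] at h
    have := coeff_JN _ h 0 (fun i => by rw [pow_zero]; exact Nat.zero_lt_one)
    rw [coeff_zero_one] at this
    exact one_ne_zero this
  show 1 ≤ Module.finrank F (VP F (cL α) 0 0)
  have : Nontrivial (VP F (cL α) 0 0) := by
    refine ⟨⟨⟨_, h1⟩, 0, ?_⟩⟩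
    intro h
    exact h2 (congrArg Subtype.val h)
  exact Module.finrank_pos

theorem lowerP (α : List ℕ) (m D : ℕ) (hD : kL α * Fintype.card F ^ m < D) :
    ∑ x : IT α, (UM F (bof α x) m).card ≤ ∑ d ∈ range D, Module.finrank F (VP F (cL α) m d) := by
  cases m with
  | zero => exact lowerP_zero F α D (by omega)
  | succ m =>
    obtain ⟨p, hp⟩ := CharP.exists F
    haveI := hp
    obtain ⟨r, hpp, hr⟩ := FiniteField.card F p
    haveI : Fact p.Prime := ⟨hpp⟩
    let K := FiniteField.Extension F p (m + 1)
    haveI : Fintype K := Fintype.ofFinite K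
    have hN : Fintype.card K = Fintype.card F ^ (m + 1) := by
      rw [← Nat.card_eq_fintype_card, ← Nat.card_eq_fintype_card]
      exact FiniteField.natCard_extension F p (m + 1)
    have hfr : Module.finrank F K = m + 1 := FiniteField.finrank_extension F p (m + 1)
    refine le_trans (count_types F α (m + 1) K hfr) (le_trans (types_le F K (cL α) D (by rw [hN]; exact hD)) ?_)
    refine le_trans (PLP_sum F K (cL α) D) ?_
    exact sum_le_sum (fun d _ => VKP_le F K (cL α) (m + 1) hN d)

/-- degrees are counted exactly -/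
theorem main_P (α : List ℕ) (m D : ℕ) (hD : kL α * Fintype.card F ^ m < D) :
    (∀ d ∈ range D, Module.finrank F (VP F (cL α) m d)
      = ∑ x : IT α, cntP F (bof α x) m d (shL (Fintype.card F) m α (bof α x) 0)) ∧
    ∀ x : IT α, ∑ d ∈ range D, cntP F (bof α x) m d (shL (Fintype.card F) m α (bof α x) 0)
      = (UM F (bof α x) m).card := by
  have h1 := lowerP F α m D hD
  have h2' : ∀ x ∈ (univ : Finset (IT α)),
      ∑ d ∈ range D, cntP F (bof α x) m d (shL (Fintype.card F) m α (bof α x) 0) ≤ (UM F (bof α x) m).card :=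
    fun x _ => count_le _ _ D
  have h2 : ∑ d ∈ range D, ∑ x : IT α, cntP F (bof α x) m d (shL (Fintype.card F) m α (bof α x) 0)
      ≤ ∑ x : IT α, (UM F (bof α x) m).card := by
    rw [sum_comm]
    exact sum_le_sum h2'
  have h3 : ∀ d ∈ range D, Module.finrank F (VP F (cL α) m d)
      ≤ ∑ x : IT α, cntP F (bof α x) m d (shL (Fintype.card F) m α (bof α x) 0) :=
    fun d _ => upperP F α m d
  have h4 := le_antisymm (sum_le_sum h3) (h2.trans h1)
  refine ⟨(sum_eq_sum_iff_of_le h3).1 h4, ?_⟩
  have h5 := le_antisymm (sum_le_sum h2') (by rw [sum_comm, ← h4]; exact h1)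
  intro x
  exact (sum_eq_sum_iff_of_le h2').1 h5 x (mem_univ _)

end Pool.Agent.H268R3.LRS
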