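import Pool.Agent.H268R3.LRS.PClaim

set_option autoImplicit false

open Finset MvPolynomial Pool.Agent.H268R3.Soc

namespace Pool.Agent.H268R3.LRS

section good
variable {B : Type} [CommRing B] {n : ℕ}

/-- elements equal to an element of `V` up to `L`-torsion modulo `I` -/
def GD (L : MvPolynomial (Fin n) B) (V : Submodule B (MvPolynomial (Fin n) B))
    (I : Ideal (MvPolynomial (Fin n) B)) : Submodule B (MvPolynomial (Fin n) B) where
  carrier := {w | ∃ s ∈ V, L * (w - s) ∈ I}
  add_mem' := by
    rintro x y ⟨s, hs, hs'⟩ ⟨t, ht, ht'⟩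
    refine ⟨s + t, Submodule.add_mem _ hs ht, ?_⟩
    have := Ideal.add_mem _ hs' ht'
    convert this using 1
    ring
  zero_mem' := ⟨0, Submodule.zero_mem _, by rw [sub_zero, mul_zero]; exact Ideal.zero_mem _⟩
  smul_mem' := by
    rintro c x ⟨s, hs, hs'⟩
    refine ⟨c • s, Submodule.smul_mem _ _ hs, ?_⟩
    have := Ideal.mul_mem_left _ (C c) hs'
    convert this using 1
    rw [smul_eq_C_mul, smul_eq_C_mul]; ring

lemma mem_GD (L : MvPolynomial (Fin n) B) (V : Submodule B (MvPolynomial (Fin n) B))
    (I : Ideal (MvPolynomial (Fin n) B)) (w : MvPolynomial (Fin n) B) :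
    w ∈ GD L V I ↔ ∃ s ∈ V, L * (w - s) ∈ I := Iff.rfl

lemma le_GD (L : MvPolynomial (Fin n) B) (V : Submodule B (MvPolynomial (Fin n) B))
    (I : Ideal (MvPolynomial (Fin n) B)) : V ≤ GD L V I :=
  fun w hw => ⟨w, hw, by rw [sub_self, mul_zero]; exact Ideal.zero_mem _⟩

lemma GD_of (L : MvPolynomial (Fin n) B) (V : Submodule B (MvPolynomial (Fin n) B))
    (I : Ideal (MvPolynomial (Fin n) B)) (w : MvPolynomial (Fin n) B) (h : L * w ∈ I) : w ∈ GD L V I :=
  ⟨0, Submodule.zero_mem _, by rw [sub_zero]; exact h⟩

end good

section GA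
variable (F : Type) [Field F] [Fintype F]

/-- the evaluated relations -/
noncomputable def DR (b m i : ℕ) : MvPolynomial (Fin b) F := aeval (kap F b) (dd F b m i)

lemma dd_homog (b m : ℕ) : ∀ i, i < b → (m < i → dd F b m i = 0) ∧
    (i ≤ m → (DR F b m i).IsHomogeneous (Fintype.card F ^ m - Fintype.card F ^ i)) := by
  have hq : 1 < Fintype.card F := Fintype.one_lt_card
  induction m with
  | zero =>
    intro i hi
    refine ⟨?_, ?_⟩
    · intro h; rw [dd_zero, if_neg (by omega)]
    · intro h
      have : i = 0 := by omega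
      subst this
      unfold DR
      rw [dd_zero, if_pos rfl, map_one, Nat.sub_self]
      exact isHomogeneous_one _ _
  | succ m ih =>
    intro i hi
    refine ⟨?_, ?_⟩
    · intro h
      rw [dd_succ, if_neg (by omega), (ih (i - 1) (by omega)).1 (by omega),
        (ih (b - 1) (by omega)).1 (by omega), zero_pow (by omega), mul_zero, add_zero]
    · intro h
      unfold DR
      rw [dd_succ, map_add, map_mul, map_pow]
      apply IsHomogeneous.add
      · split_ifs with h0
        · rw [map_zero]; exact isHomogeneous_zero _ _ _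
        · rw [map_pow]
          have h1 := ((ih (i - 1) (by omega)).2 (by omega)).pow (Fintype.card F)
          rw [Nat.sub_mul, ← pow_succ, ← pow_succ, Nat.sub_add_cancel (by omega)] at h1
          exact h1
      · by_cases hb : m < b - 1
        · rw [(ih (b - 1) (by omega)).1 hb, map_zero, zero_pow (by omega), mul_zero]
          exact isHomogeneous_zero _ _ _
        · have h1 := ((ih (b - 1) (by omega)).2 (by omega)).pow (Fintype.card F)
          have h2 : (aeval (kap F b) (kx F b i)).IsHomogeneous (Fintype.card F ^ b - Fintype.card F ^ i) := by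
            unfold kx
            rw [dif_pos hi, aeval_X]
            exact (cc_homog F b i hi.le).neg
          have h3 := h2.mul h1
          have h4 : (Fintype.card F ^ b - Fintype.card F ^ i)
              + (Fintype.card F ^ m - Fintype.card F ^ (b - 1)) * Fintype.card F
              = Fintype.card F ^ (m + 1) - Fintype.card F ^ i := by
            rw [Nat.sub_mul, ← pow_succ, ← pow_succ, Nat.sub_add_cancel (by omega)]
            have h5 : Fintype.card F ^ b ≤ Fintype.card F ^ (m + 1) := Nat.pow_le_pow_right (by omega) (by omega)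
            have h6 : Fintype.card F ^ i ≤ Fintype.card F ^ b := Nat.pow_le_pow_right (by omega) hi.le
            omega
          rwa [h4] at h3

lemma DR_inv (b m i : ℕ) : IsInv (DR F b m i) := aeval_inv F b _

variable {F} {B : Type} [CommRing B] [Algebra F B]

/-- relations for a general additive polynomial -/
noncomputable def DA (b : ℕ) (α : ℕ → B) (m i : ℕ) : MvPolynomial (Fin b) B :=
  ∑ j ∈ range (m + 1), C (α j) * MvPolynomial.map (algebraMap F B) (DR F b j i)

lemma LDA (b : ℕ) (α : ℕ → B) (m : ℕ) (i : Fin b) :
    MvPolynomial.map (algebraMap F B) (LL F b) * DA (F := F) b α m i ∈ II (AP F α m) 0 := by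
  cases b with
  | zero => exact i.elim0
  | succ b =>
    set M : Matrix (Fin (b + 1)) (Fin (b + 1)) (MvPolynomial (Fin (b + 1)) B) :=
      (moore F (b + 1)).map (MvPolynomial.map (algebraMap F B)) with hM
    have hdet : M.det = MvPolynomial.map (algebraMap F B) (LL F (b + 1)) := by
      unfold LL
      rw [RingHom.map_det]
      rfl
    have h1 : Matrix.vecMul (fun i : Fin (b + 1) => DA (F := F) (b + 1) α m i) M
        = fun l => pl l (AP F α m) := by
      ext1 l
      rw [pl_AP]
      unfold av
      have h2 : ∀ j ∈ range (m + 1), C (α j) * (X l : MvPolynomial (Fin (b + 1)) B) ^ (Fintype.card F ^ j)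
          = ∑ i ∈ range (b + 1), C (α j) * MvPolynomial.map (algebraMap F B) (DR F (b + 1) j i)
            * X l ^ (Fintype.card F ^ i) := by
        intro j _
        have h3 := congrArg (MvPolynomial.map (algebraMap F B)) (rel F b j l)
        rw [map_pow, MvPolynomial.map_X, map_sum] at h3
        rw [h3, mul_sum]
        apply sum_congr rfl
        intro i _
        rw [map_mul, map_pow, MvPolynomial.map_X, mul_assoc]
        rfl
      rw [sum_congr rfl h2, sum_comm]
      rw [← Fin.sum_univ_eq_sum_range (fun i => ∑ j ∈ range (m + 1),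
        C (α j) * MvPolynomial.map (algebraMap F B) (DR F (b + 1) j i)
            * (X l : MvPolynomial (Fin (b + 1)) B) ^ (Fintype.card F ^ i))]
      unfold Matrix.vecMul dotProduct
      apply sum_congr rfl
      intro i _
      unfold DA
      rw [sum_mul]
      apply sum_congr rfl
      intro j _
      congr 1
      show MvPolynomial.map (algebraMap F B) (X l ^ (Fintype.card F ^ i.val)) = _
      rw [map_pow, MvPolynomial.map_X]
    have h2 : Matrix.vecMul (Matrix.vecMul (fun i : Fin (b + 1) => DA (F := F) (b + 1) α m i) M) M.adjugate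
        = M.det • (fun i : Fin (b + 1) => DA (F := F) (b + 1) α m i) := by
      rw [Matrix.vecMul_vecMul, Matrix.mul_adjugate, Matrix.vecMul_smul, Matrix.vecMul_one]
    have h3 := congrFun h2 i
    rw [h1, hdet] at h3
    rw [Pi.smul_apply, smul_eq_mul] at h3
    rw [← h3]
    unfold Matrix.vecMul dotProduct
    apply Ideal.sum_mem
    intro j _
    exact Ideal.mul_mem_right _ _ (pl_mem _ _ _)

variable (F) in
/-- monomial span over the base -/
noncomputable def MS (B : Type) [CommRing B] [Algebra F B] (b m : ℕ) : Submodule B (MvPolynomial (Fin b) B) :=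
  Submodule.span B (MvPolynomial.map (algebraMap F B) '' {x | ∃ e ∈ Em F m b, x = mo (kap F b) e})

theorem GAh (b : ℕ) (α : ℕ → B) (m : ℕ) (hα : α m = 1) (r : ℕ) : ∀ d : MvPolynomial (Fin b) F, IsInv d →
    d.IsHomogeneous r → MvPolynomial.map (algebraMap F B) d
      ∈ GD (MvPolynomial.map (algebraMap F B) (LL F b)) (MS F B b m) (II (AP F α m) 0) := by
  have hq : 1 < Fintype.card F := Fintype.one_lt_card
  induction r using Nat.strong_induction_on with
  | _ r ih =>
  intro d hd hr
  obtain ⟨h, hh⟩ := dick F b d hd
  obtain ⟨s0, hs0, ht0⟩ := W_top F m b h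
  unfold Id at ht0
  obtain ⟨c, hc⟩ := (Submodule.mem_span_range_iff_exists_fun _).1 ht0
  have h1 : d = homogeneousComponent r (aeval (kap F b) s0)
      + ∑ i : Fin b, homogeneousComponent r (aeval (kap F b) (c i) * DR F b m i) := by
    rw [← map_sum, ← map_add]
    conv_lhs => rw [← homogeneousComponent_eq_self hr, ← hh]
    congr 1
    have h2 : h = s0 + ∑ i : Fin b, c i * dd F b m i := by
      have : ∑ i : Fin b, c i * dd F b m i = h - s0 := hc
      rw [this]; ring
    conv_lhs => rw [h2]
    rw [map_add, map_sum]
    congr 1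
    apply sum_congr rfl
    intro i _
    rw [map_mul]
    rfl
  rw [h1, map_add, map_sum]
  apply Submodule.add_mem
  · apply le_GD
    unfold Sp at hs0
    clear ht0 hc h1
    induction hs0 using Submodule.span_induction with
    | mem x hx =>
      obtain ⟨e, he, rfl⟩ := hx
      rw [aeval_mo, hc_mo]
      split_ifs with hw
      · exact Submodule.subset_span ⟨_, ⟨e, he, rfl⟩, rfl⟩
      · rw [map_zero]; exact Submodule.zero_mem _
    | zero => rw [map_zero, map_zero, map_zero]; exact Submodule.zero_mem _
    | add x y _ _ hx hy => rw [map_add, map_add, map_add]; exact Submodule.add_mem _ hx hy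
    | smul a x _ hx =>
      rw [map_smul, map_smul, smul_eq_C_mul, map_mul, MvPolynomial.map_C, ← smul_eq_C_mul]
      exact Submodule.smul_mem _ _ hx
  · apply Submodule.sum_mem
    intro i _
    by_cases him : i.val ≤ m
    · rw [hc_mul _ _ _ _ ((dd_homog F b m i i.2).2 him)]
      split_ifs with hle
      · set ρ := homogeneousComponent (r - (Fintype.card F ^ m - Fintype.card F ^ i.val)) (aeval (kap F b) (c i)) with hρ
        have hρi : IsInv ρ := fun x hx => by rw [hρ, act_hc, aeval_inv F b _ x hx]
        have hρh : ρ.IsHomogeneous (r - (Fintype.card F ^ m - Fintype.card F ^ i.val)) :=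
          homogeneousComponent_isHomogeneous _ _
        have h2 : MvPolynomial.map (algebraMap F B) (ρ * DR F b m i)
            = MvPolynomial.map (algebraMap F B) ρ * DA (F := F) b α m i
              - ∑ j ∈ range m, α j • MvPolynomial.map (algebraMap F B) (ρ * DR F b j i) := by
          unfold DA
          rw [sum_range_succ, hα, C_1, one_mul, map_mul, mul_add, mul_sum]
          have : ∀ j ∈ range m, α j • MvPolynomial.map (algebraMap F B) (ρ * DR F b j i)
              = MvPolynomial.map (algebraMap F B) ρ
                * (C (α j) * MvPolynomial.map (algebraMap F B) (DR F b j i)) := by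
            intro j _
            rw [map_mul, smul_eq_C_mul]; ring
          rw [sum_congr rfl this]
          ring
        rw [h2]
        apply Submodule.sub_mem
        · apply GD_of
          have := Ideal.mul_mem_left _ (MvPolynomial.map (algebraMap F B) ρ) (LDA (F := F) b α m i)
          convert this using 1
          ring
        · apply Submodule.sum_mem
          intro j hj
          rw [mem_range] at hj
          apply Submodule.smul_mem
          by_cases hij : i.val ≤ j
          · apply ih (r - (Fintype.card F ^ m - Fintype.card F ^ i.val)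
              + (Fintype.card F ^ j - Fintype.card F ^ i.val))
            · have h3 : Fintype.card F ^ j < Fintype.card F ^ m := Nat.pow_lt_pow_right hq hj
              have h4 : Fintype.card F ^ i.val ≤ Fintype.card F ^ j := Nat.pow_le_pow_right (by omega) hij
              omega
            · intro x hx
              rw [map_mul, hρi x hx, DR_inv F b j i x hx]
            · exact hρh.mul ((dd_homog F b j i i.2).2 hij)
          · have : DR F b j i = 0 := by
              unfold DR
              rw [(dd_homog F b j i i.2).1 (by omega), map_zero]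
            rw [this, mul_zero, map_zero]
            exact Submodule.zero_mem _
      · rw [map_zero]; exact Submodule.zero_mem _
    · have : DR F b m i = 0 := by
        unfold DR
        rw [(dd_homog F b m i i.2).1 (by omega), map_zero]
      rw [this, mul_zero, map_zero, map_zero]
      exact Submodule.zero_mem _

theorem GA (b : ℕ) (α : ℕ → B) (m : ℕ) (hα : α m = 1) (d : MvPolynomial (Fin b) F) (hd : IsInv d) :
    MvPolynomial.map (algebraMap F B) d
      ∈ GD (MvPolynomial.map (algebraMap F B) (LL F b)) (MS F B b m) (II (AP F α m) 0) := by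
  rw [← sum_homogeneousComponent d, map_sum]
  apply Submodule.sum_mem
  intro i _
  exact GAh b α m hα i _ (fun x hx => by rw [act_hc, hd x hx]) (homogeneousComponent_isHomogeneous _ _)

variable {k : ℕ}

theorem CP_step (c : Fin k → ℕ) (U : ℕ → Set (MvPolynomial (Fin k) F)) (h0 : CPp F c U) (b : ℕ) :
    CPp F (cB c b) (fun m => {x | ∃ e ∈ Em F m b, ∃ u ∈ U (m - b), x = eb k b (mo (kap F b) e) * Yhb b u}) := by
  intro B _ _ α m hα p hp
  obtain ⟨g, hg, hg'⟩ := claimP c U h0 b B α m hα p hp
  set V : Submodule B (MvPolynomial (Fin (k + b)) B) := Submodule.span B (MvPolynomial.map (algebraMap F B) ''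
    {x | ∃ e ∈ Em F m b, ∃ u ∈ U (m - b), x = eb k b (mo (kap F b) e) * Yhb b u}) with hV
  have h1 : g ∈ GD (MvPolynomial.map (algebraMap F B) (LL F (k + b))) V (II (AP F α m) 0) := by
    refine (Submodule.span_le.2 ?_) hg
    rintro _ ⟨_, ⟨d, u, hd, hu, rfl⟩, rfl⟩
    obtain ⟨s, hs, hs'⟩ := GA b α m hα d hd
    set ebB : MvPolynomial (Fin b) B →ₐ[B] MvPolynomial (Fin (k + b)) B :=
      rename (Fin.castLE (Nat.le_add_left b k)) with hebB
    have hcomm : ∀ w : MvPolynomial (Fin b) F, MvPolynomial.map (algebraMap F B) (eb k b w)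
        = ebB (MvPolynomial.map (algebraMap F B) w) := by
      intro w
      exact map_rename _ _ _
    refine ⟨ebB s * MvPolynomial.map (algebraMap F B) (Yhb b u), ?_, ?_⟩
    · unfold MS at hs
      clear hs'
      induction hs using Submodule.span_induction with
      | mem x hx =>
        obtain ⟨_, ⟨e, he, rfl⟩, rfl⟩ := hx
        rw [← hcomm, ← map_mul]
        exact Submodule.subset_span ⟨_, ⟨e, he, u, hu, rfl⟩, rfl⟩
      | zero => rw [map_zero, zero_mul]; exact Submodule.zero_mem _
      | add x y _ _ hx hy => rw [map_add, add_mul]; exact Submodule.add_mem _ hx hy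
      | smul a x _ hx => rw [map_smul, smul_mul_assoc]; exact Submodule.smul_mem _ _ hx
    · have h2 : ∀ w : MvPolynomial (Fin b) B, w ∈ II (AP F α m) 0 → ebB w ∈ II (k := k + b) (AP F α m) 0 := by
        intro w hw
        apply II_hom ebB.toRingHom _ _ _ _ _ w hw
        · rw [C_0, map_zero]; exact Ideal.zero_mem _
        · intro i
          show ebB (pl i (AP F α m)) ∈ _
          have : ebB (pl i (AP F α m)) = pl (Fin.castLE (Nat.le_add_left b k) i) (AP F α m) := by
            rw [pl_AP, pl_AP]
            have h := av_map F ebB.toRingHom (fun j => C (α j)) m (X i)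
            have hC : ∀ r : B, ebB (C r) = C r := fun r => by rw [hebB, rename_C]
            have hX : ebB (X i) = X (Fin.castLE (Nat.le_add_left b k) i) := by rw [hebB, rename_X]
            simp only [AlgHom.toRingHom_eq_coe, RingHom.coe_coe, hC, hX] at h
            exact h
          rw [this]
          exact pl_mem _ _ _
      have h3 := Ideal.mul_mem_right (MvPolynomial.map (algebraMap F B) (Yhb b (LL F k))
        * MvPolynomial.map (algebraMap F B) (Yhb b u)) _ (h2 _ hs')
      convert h3 using 1
      rw [LLb, map_mul, map_mul, map_mul ebB, map_sub ebB, ← hcomm, ← hcomm]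
      ring
  obtain ⟨s, hs, hs'⟩ := h1
  refine ⟨s, hs, ?_⟩
  have := Ideal.add_mem _ hg' hs'
  convert this using 1
  ring

end GA

section lists
variable (F : Type) [Field F] [Fintype F]

/-- total size -/
def kL : List ℕ → ℕ
  | [] => 0
  | b :: β => kL β + b

/-- block function -/
def cL : (β : List ℕ) → Fin (kL β) → ℕ
  | [] => fun i => i.elim0
  | b :: β => cB (cL β) b

/-- spanning elements with degrees -/
noncomputable def UM : (β : List ℕ) → ℕ → Multiset (MvPolynomial (Fin (kL β)) F × ℕ)
  | [], _ => {(1, 0)}
  | b :: β, m => (Em F m b).bind (fun e => (UM β (m - b)).map (fun u =>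
      (eb (kL β) b (mo (kap F b) e) * Yhb b u.1, wt F b e + Fintype.card F ^ b * u.2)))

lemma Yhb_homog {k : ℕ} (b d : ℕ) (f : MvPolynomial (Fin k) F) (hf : f.IsHomogeneous d) :
    (Yhb b f).IsHomogeneous (Fintype.card F ^ b * d) := by
  induction b with
  | zero => rw [pow_zero, one_mul]; exact hf
  | succ b ih =>
    have := Yh_homog F _ ih
    rw [← mul_assoc, ← pow_succ'] at this
    exact this

lemma UM_homog (β : List ℕ) : ∀ m, ∀ p ∈ UM F β m, p.1.IsHomogeneous p.2 := by
  induction β with
  | nil =>
    intro m p hp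
    rw [UM, Multiset.mem_singleton] at hp
    rw [hp]
    exact isHomogeneous_one _ _
  | cons b β ih =>
    intro m p hp
    rw [UM, Multiset.mem_bind] at hp
    obtain ⟨e, _, hp⟩ := hp
    rw [Multiset.mem_map] at hp
    obtain ⟨u, hu, rfl⟩ := hp
    apply IsHomogeneous.mul
    · exact (mo_homog F b e).rename_isHomogeneous
    · exact Yhb_homog F b _ _ (ih _ u hu)

theorem CPL (β : List ℕ) : CPp F (cL β) (fun m => {x | ∃ p ∈ UM F β m, x = p.1}) := by
  induction β with
  | nil =>
    intro B _ _ α m hα p hp
    refine ⟨p, ?_, by rw [sub_self, mul_zero]; exact Ideal.zero_mem _⟩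
    have h1 : p = (coeff 0 p) • MvPolynomial.map (algebraMap F B) 1 := by
      rw [map_one, smul_eq_C_mul, mul_one]
      exact eq_C_of_isEmpty (σ := Fin 0) p
    rw [h1]
    apply Submodule.smul_mem
    apply Submodule.subset_span
    refine ⟨1, ⟨(1, 0), ?_, rfl⟩, rfl⟩
    rw [UM]
    exact Multiset.mem_singleton_self _
  | cons b β ih =>
    intro B _ _ α m hα p hp
    obtain ⟨g, hg, hg'⟩ := CP_step (cL β) _ ih b B α m hα p hp
    refine ⟨g, Submodule.span_mono ?_ hg, hg'⟩
    rintro _ ⟨_, ⟨e, he, _, ⟨u, hu, rfl⟩, rfl⟩, rfl⟩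
    refine ⟨_, ⟨(eb (kL β) b (mo (kap F b) e) * Yhb b u.1, wt F b e + Fintype.card F ^ b * u.2), ?_, rfl⟩, rfl⟩
    rw [UM, Multiset.mem_bind]
    exact ⟨e, he, Multiset.mem_map.2 ⟨u, hu, rfl⟩⟩

theorem CPF (β : List ℕ) (m d : ℕ) (p : MvPolynomial (Fin (kL β)) F) (hd : p.IsHomogeneous d)
    (hp : ∀ g : Matrix (Fin (kL β)) (Fin (kL β)) F, PG (cL β) g →
      act g p - p ∈ JN F (Fintype.card F ^ m) (kL β)) :
    ∃ s ∈ Submodule.span F {x | ∃ p ∈ (UM F β m).filter (fun p => p.2 = d), x = LL F (kL β) * p.1},
      LL F (kL β) * p - s ∈ JN F (Fintype.card F ^ m) (kL β) := by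
  obtain ⟨g, hg, hg'⟩ := CPL F β F (am m) m (if_pos rfl) p (by
    intro g hg
    rw [II_am, actC_self]
    exact hp g hg)
  have hid : algebraMap F F = RingHom.id F := rfl
  rw [hid, MvPolynomial.map_id, II_am] at hg'
  refine ⟨LL F (kL β) * homogeneousComponent d g, ?_, ?_⟩
  · clear hg'
    induction hg using Submodule.span_induction with
    | mem x hx =>
      obtain ⟨_, ⟨u, hu, rfl⟩, rfl⟩ := hx
      rw [hid, MvPolynomial.map_id, homogeneousComponent_of_mem (UM_homog F β m u hu)]
      split_ifs with hw
      · exact Submodule.subset_span ⟨u, Multiset.mem_filter.2 ⟨hu, hw.symm⟩, rfl⟩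
      · rw [mul_zero]; exact Submodule.zero_mem _
    | zero => rw [map_zero, mul_zero]; exact Submodule.zero_mem _
    | add x y _ _ hx hy => rw [map_add, mul_add]; exact Submodule.add_mem _ hx hy
    | smul a x _ hx => rw [map_smul, mul_smul_comm]; exact Submodule.smul_mem _ _ hx
  · have h2 := hc_JN _ hg' (d + delta F (kL β))
    rw [mul_comm, hc_mul _ _ _ _ (LL_homog (F := F) (n := kL β)), if_pos (Nat.le_add_left _ _),
      Nat.add_sub_cancel, map_sub, homogeneousComponent_eq_self hd] at h2
    convert h2 using 1
    ring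

end lists

end Pool.Agent.H268R3.LRS
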