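import Pool.Agent.H268R3.LRS.PInj2

set_option autoImplicit false

open Finset MvPolynomial Pool.Agent.H268R3.Soc

namespace Pool.Agent.H268R3.LRS

variable (F : Type) [Field F] [Fintype F]

/-- homogeneous quasi-invariants -/
def WP {n : ℕ} (c : Fin n → ℕ) (m d : ℕ) : Submodule F (MvPolynomial (Fin n) F) where
  carrier := {f | f.IsHomogeneous d ∧ QP c m f}
  add_mem' := by
    rintro f g ⟨h1, h2⟩ ⟨h3, h4⟩
    refine ⟨h1.add h3, fun x hx => ?_⟩
    have := Ideal.add_mem _ (h2 x hx) (h4 x hx)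
    convert this using 1
    rw [map_add]; ring
  zero_mem' := ⟨isHomogeneous_zero _ _ _, fun x _ => by rw [map_zero, sub_zero]; exact Ideal.zero_mem _⟩
  smul_mem' := by
    rintro a f ⟨h1, h2⟩
    refine ⟨(homogeneousSubmodule (Fin n) F d).smul_mem a h1, fun x hx => ?_⟩
    have := Ideal.mul_mem_left _ (C a) (h2 x hx)
    convert this using 1
    rw [smul_eq_C_mul, map_mul, act_C]; ring

instance {n : ℕ} (c : Fin n → ℕ) (m d : ℕ) : Module.Finite F (WP F c m d) := by
  haveI := finite_homog F n d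
  exact Submodule.finiteDimensional_of_le (S₂ := homogeneousSubmodule (Fin n) F d) (fun f hf => hf.1)

/-- the image in the quotient -/
noncomputable def VP {n : ℕ} (c : Fin n → ℕ) (m d : ℕ) :
    Submodule F (MvPolynomial (Fin n) F ⧸ JN F (Fintype.card F ^ m) n) :=
  Submodule.map (Ideal.Quotient.mkₐ F (JN F (Fintype.card F ^ m) n)).toLinearMap (WP F c m d)

/-- target spaces -/
noncomputable def TP (β : List ℕ) (m d s : ℕ) :
    Submodule F (MvPolynomial (Fin (kL β)) F ⧸ JN F (Fintype.card F ^ m) (kL β)) :=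
  Submodule.map (Ideal.Quotient.mkₐ F (JN F (Fintype.card F ^ m) (kL β))).toLinearMap
    (Submodule.span F {x : MvPolynomial (Fin (kL β)) F |
      ∃ p ∈ (UM F β m).filter (fun p => s + p.2 = d), x = LL F (kL β) * p.1})

/-- the counting function -/
noncomputable def cntP (β : List ℕ) (m d s : ℕ) : ℕ := ((UM F β m).filter (fun p => s + p.2 = d)).card

lemma TP_finite (β : List ℕ) (m d s : ℕ) : Module.Finite F (TP F β m d s) ∧
    Module.finrank F (TP F β m d s) ≤ cntP F β m d s := by
  classical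
  set t : Finset (MvPolynomial (Fin (kL β)) F) :=
    (((UM F β m).filter (fun p => s + p.2 = d)).map (fun p => LL F (kL β) * p.1)).toFinset with ht
  have h1 : {x : MvPolynomial (Fin (kL β)) F |
      ∃ p ∈ (UM F β m).filter (fun p => s + p.2 = d), x = LL F (kL β) * p.1} = (t : Set _) := by
    ext x
    rw [ht]
    simp only [Set.mem_setOf_eq, Finset.mem_coe, Multiset.mem_toFinset, Multiset.mem_map]
    constructor
    · rintro ⟨e, he, rfl⟩; exact ⟨e, he, rfl⟩
    · rintro ⟨e, he, rfl⟩; exact ⟨e, he, rfl⟩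
  unfold TP
  rw [h1]
  haveI : Module.Finite F (Submodule.span F (t : Set (MvPolynomial (Fin (kL β)) F))) :=
    Module.Finite.span_of_finite F t.finite_toSet
  refine ⟨inferInstance, ?_⟩
  refine le_trans (Submodule.finrank_map_le _ _) (le_trans (finrank_span_finset_le_card t) ?_)
  refine le_trans (Multiset.toFinset_card_le _) ?_
  rw [Multiset.card_map]
  exact le_refl _

instance (β : List ℕ) (m d s : ℕ) : Module.Finite F (TP F β m d s) := (TP_finite F β m d s).1

/-- the detecting map -/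
noncomputable def PsiP (α : List ℕ) (m : ℕ) (x : IT α) :
    MvPolynomial (Fin (kL α)) F →ₗ[F] (MvPolynomial (Fin (kL (bof α x))) F ⧸
      JN F (Fintype.card F ^ m) (kL (bof α x))) :=
  (Ideal.Quotient.mkₐ F (JN F (Fintype.card F ^ m) (kL (bof α x)))).toLinearMap ∘ₗ
    (LinearMap.mulLeft F (LL F (kL (bof α x)))) ∘ₗ (selI (Fintype.card F) m α x 0).rr

lemma PsiP_apply (α : List ℕ) (m : ℕ) (x : IT α) (f : MvPolynomial (Fin (kL α)) F) : PsiP F α m x f
    = Ideal.Quotient.mk _ (LL F (kL (bof α x)) * (selI (Fintype.card F) m α x 0).rr f) := rfl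

lemma PsiP_mem (α : List ℕ) (m d : ℕ) (x : IT α) (f : MvPolynomial (Fin (kL α)) F)
    (hf : f ∈ WP F (cL α) m d) :
    PsiP F α m x f ∈ TP F (bof α x) m d (shL (Fintype.card F) m α (bof α x) 0) := by
  have hq : 1 < Fintype.card F := Fintype.one_lt_card
  obtain ⟨hf1, hf2⟩ := hf
  have h1 := (selI (Fintype.card F) m α x 0).rr_homog d f hf1
  rw [selI_sd] at h1
  rw [PsiP_apply]
  split_ifs at h1 with hd
  · have h2 : ∀ g : Matrix (Fin (kL (bof α x))) (Fin (kL (bof α x))) F, PG (cL (bof α x)) g →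
        act g ((selI (Fintype.card F) m α x 0).rr f)
          - (selI (Fintype.card F) m α x 0).rr f ∈ JN F (Fintype.card F ^ m) (kL (bof α x)) := by
      intro g hg
      rw [← Sel.rr_act, ← map_sub]
      apply Sel.rr_JN _ _ (selI_e _ m (by omega) α x 0) _
        (hf2 _ (Sel.bx_PG _ (cL α) (cL (bof α x)) (selI_c _ m α x 0) g hg))
    obtain ⟨s, hs, hs'⟩ := CPF F (bof α x) m _ _ h1 h2
    have h5 : Ideal.Quotient.mk (JN F (Fintype.card F ^ m) (kL (bof α x)))
        (LL F (kL (bof α x)) * (selI (Fintype.card F) m α x 0).rr f) = Ideal.Quotient.mk _ s := by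
      rw [Ideal.Quotient.mk_eq_mk_iff_sub_mem]
      exact hs'
    rw [h5]
    refine Submodule.mem_map.2 ⟨s, ?_, rfl⟩
    refine Submodule.span_mono ?_ hs
    rintro y ⟨p, hp, rfl⟩
    rw [Multiset.mem_filter] at hp
    refine ⟨p, Multiset.mem_filter.2 ⟨hp.1, ?_⟩, rfl⟩
    omega
  · rw [h1, mul_zero, map_zero]
    exact Submodule.zero_mem _

theorem upperP (α : List ℕ) (m d : ℕ) : Module.finrank F (VP F (cL α) m d)
    ≤ ∑ x : IT α, cntP F (bof α x) m d (shL (Fintype.card F) m α (bof α x) 0) := by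
  have h3 : LinearMap.range ((Ideal.Quotient.mkₐ F (JN F (Fintype.card F ^ m) (kL α))).toLinearMap.domRestrict
      (WP F (cL α) m d)) = VP F (cL α) m d := by
    rw [LinearMap.range_domRestrict]
    rfl
  rw [← h3]
  refine finrank_le_sum (fun x : IT α => TP F (bof α x) m d (shL (Fintype.card F) m α (bof α x) 0)) _
    (fun x => ((PsiP F α m x).domRestrict (WP F (cL α) m d)).codRestrict
      (TP F (bof α x) m d (shL (Fintype.card F) m α (bof α x) 0))
      (fun f => PsiP_mem F α m d x f.1 f.2)) ?_ _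
    (fun x => (TP_finite F (bof α x) m d (shL (Fintype.card F) m α (bof α x) 0)).2)
  intro f hf
  show Ideal.Quotient.mk (JN F (Fintype.card F ^ m) (kL α)) f.1 = 0
  rw [Ideal.Quotient.eq_zero_iff_mem]
  by_contra hcon
  obtain ⟨x, hx⟩ := injP α m f.1 f.2.2 hcon
  apply hx
  have h2 := congrArg Subtype.val (hf x)
  have h3 : PsiP F α m x f.1 = 0 := h2
  rw [PsiP_apply, Ideal.Quotient.eq_zero_iff_mem] at h3
  exact h3

end Pool.Agent.H268R3.LRS
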