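import Pool.Agent.H268R3.LRS.Add

set_option autoImplicit false

open Finset MvPolynomial

namespace Pool.Agent.H268R3.LRS

variable (F : Type) [Field F] [Fintype F] {R : Type} [CommRing R] [Algebra F R] {k : ℕ}

omit [Fintype F] [Algebra F R] in
lemma II_hom {T : Type} [CommRing T] (f : MvPolynomial (Fin k) R →+* T) (J : Ideal T)
    (A : Polynomial R) (b : R) (h1 : f (C b) ∈ J) (h2 : ∀ i, f (pl i A) ∈ J)
    (w : MvPolynomial (Fin k) R) (hw : w ∈ II A b) : f w ∈ J := by
  have : II A b ≤ J.comap f := by
    unfold II
    apply sup_le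
    · rw [Ideal.span_singleton_le_iff_mem]; exact h1
    · rw [Ideal.span_le]
      rintro _ ⟨i, rfl⟩
      exact h2 i
  exact this hw

lemma pl_AP (α : ℕ → R) (m : ℕ) (i : Fin k) :
    pl i (AP F α m) = av F (fun j => C (α j)) m (X i) := by
  unfold AP
  have h := av_map F (pl (R := R) (k := k) i).toRingHom (fun j => Polynomial.C (α j)) m Polynomial.X
  have h2 : ∀ r : R, pl (k := k) i (Polynomial.C r) = C r := by
    intro r; unfold pl; rw [Polynomial.aeval_C]; rfl
  have h3 : pl (k := k) i (Polynomial.X : Polynomial R) = X i := by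
    unfold pl; rw [Polynomial.aeval_X]
  simp only [AlgHom.toRingHom_eq_coe, RingHom.coe_coe, h2, h3] at h
  exact h

/-- the one-variable expression -/
noncomputable def xi (z : R) : Polynomial R :=
  xe F (Polynomial.C (z ^ (Fintype.card F - 1))) Polynomial.X

lemma xi_UT (z : R) : UT (xi F z) (Fintype.card F) := by
  have hq : 1 < Fintype.card F := Fintype.one_lt_card
  unfold xi xe
  constructor
  · rw [Polynomial.coeff_sub, Polynomial.coeff_C_mul, Polynomial.coeff_X_pow, if_pos rfl,
      Polynomial.coeff_X, if_neg (by omega), mul_zero, sub_zero]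
  · refine le_trans (Polynomial.natDegree_sub_le _ _) (max_le (Polynomial.natDegree_X_pow_le _) ?_)
    exact le_trans (Polynomial.natDegree_C_mul_le _ _) (le_trans Polynomial.natDegree_X_le (by omega))

/-- the system -/
noncomputable def bigSys (z : R) (α : ℕ → R) (m : ℕ) (hα : α m = 1) : Sys R (Fintype.card F ^ m) where
  A := AP F α m
  η := fun l => (xi F z) ^ (l / Fintype.card F) * Polynomial.X ^ (l % Fintype.card F)
  hA := AP_UT F α m hα
  hη := fun l _ => by
    have := ((xi_UT F z).pow (l / Fintype.card F)).mul (UT_X_pow (l % Fintype.card F))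
    rwa [Nat.div_add_mod] at this

lemma bigSys_η (z : R) (α : ℕ → R) (m : ℕ) (hα : α m = 1) (l : ℕ) : (bigSys F z α m hα).η l
    = (xi F z) ^ (l / Fintype.card F) * Polynomial.X ^ (l % Fintype.card F) := rfl

lemma bigSys_A (z : R) (α : ℕ → R) (m : ℕ) (hα : α m = 1) : (bigSys F z α m hα).A = AP F α m := rfl

lemma xi_comp (z : R) : (xi F z).comp (Polynomial.X + Polynomial.C z) = xi F z := by
  have hq : 1 < Fintype.card F := Fintype.one_lt_card
  have h := xe_map F (Polynomial.compRingHom (Polynomial.X + Polynomial.C z))
    (Polynomial.C (z ^ (Fintype.card F - 1))) Polynomial.X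
  rw [Polynomial.coe_compRingHom_apply, Polynomial.coe_compRingHom_apply,
    Polynomial.coe_compRingHom_apply, Polynomial.C_comp, Polynomial.X_comp, xe_add] at h
  unfold xi
  rw [h]
  have h2 : xe F (Polynomial.C (z ^ (Fintype.card F - 1))) (Polynomial.C z) = 0 := by
    unfold xe
    rw [← Polynomial.C_mul, ← pow_succ, Nat.sub_add_cancel (by omega), Polynomial.C_pow, sub_self]
  rw [h2, add_zero]

lemma lam_shift (z : R) (α : ℕ → R) (m : ℕ) (hα : α m = 1) (e0 l : ℕ)
    (hl : l < Fintype.card F ^ m) :
    (bigSys F z α m hα).lam (Fintype.card F * e0)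
      (((bigSys F z α m hα).η l).comp (Polynomial.X + Polynomial.C z))
      = if l / Fintype.card F = e0 then z ^ (l % Fintype.card F) else 0 := by
  have hq : 1 < Fintype.card F := Fintype.one_lt_card
  set S := bigSys F z α m hα with hS
  have h1 : (S.η l).comp (Polynomial.X + Polynomial.C z)
      = ∑ t ∈ range (l % Fintype.card F + 1),
        (z ^ (l % Fintype.card F - t) * ((l % Fintype.card F).choose t : R)) •
          S.η (Fintype.card F * (l / Fintype.card F) + t) := by
    rw [hS]
    simp only [bigSys_η]
    rw [Polynomial.mul_comp, Polynomial.pow_comp, Polynomial.pow_comp, xi_comp, Polynomial.X_comp,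
      add_pow, mul_sum]
    apply sum_congr rfl
    intro t ht
    rw [mem_range] at ht
    have ht' : t < Fintype.card F := lt_of_lt_of_le ht (Nat.mod_lt _ (by omega))
    rw [Nat.mul_add_div (by omega), Nat.div_eq_of_lt ht', add_zero, Nat.mul_add_mod,
      Nat.mod_eq_of_lt ht', Polynomial.smul_eq_C_mul, Polynomial.C_mul, Polynomial.C_pow]
    rw [show (Polynomial.C (((l % Fintype.card F).choose t : ℕ) : R)) = (((l % Fintype.card F).choose t : ℕ) : Polynomial R)
      from Polynomial.C_eq_natCast _]
    ring
  rw [h1, map_sum, Finset.sum_eq_single_of_mem 0 (mem_range.2 (Nat.succ_pos _))]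
  · rw [map_smul, S.lam_η _ _ (lt_of_le_of_lt (by rw [add_zero]; exact Nat.mul_div_le _ _) hl),
      Nat.choose_zero_right, Nat.cast_one, mul_one, Nat.sub_zero, add_zero, smul_eq_mul]
    by_cases h : l / Fintype.card F = e0
    · rw [if_pos h, if_pos (by rw [h]), mul_one]
    · rw [if_neg h, if_neg, mul_zero]
      intro h'
      exact h (Nat.eq_of_mul_eq_mul_left (by omega) h')
  · intro t ht ht0
    rw [mem_range] at ht
    have ht' : t < Fintype.card F := lt_of_lt_of_le ht (Nat.mod_lt _ (by omega))
    have hlt : Fintype.card F * (l / Fintype.card F) + t < Fintype.card F ^ m := by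
      have := Nat.div_add_mod l (Fintype.card F)
      omega
    rw [map_smul, S.lam_η _ _ hlt, if_neg, smul_zero]
    intro h'
    have h2 := congrArg (fun x => x % Fintype.card F) h'
    simp only [Nat.mul_add_mod, Nat.mul_mod_right, Nat.mod_eq_of_lt ht'] at h2
    exact ht0 h2

/-- translation -/
noncomputable def TT (z : R) (i : Fin k) : MvPolynomial (Fin k) R →ₐ[R] MvPolynomial (Fin k) R :=
  aeval (Function.update X i (X i + C z))

omit [Field F] [Fintype F] [Algebra F R] in
lemma TT_pl (z : R) (i j : Fin k) (f : Polynomial R) :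
    TT z i (pl j f) = pl j (if j = i then f.comp (Polynomial.X + Polynomial.C z) else f) := by
  unfold TT pl
  split_ifs with h
  · subst h
    have : (aeval (Function.update X j (X j + C z)) : MvPolynomial (Fin k) R →ₐ[R] _).comp
        (Polynomial.aeval (X j : MvPolynomial (Fin k) R))
        = (Polynomial.aeval (X j : MvPolynomial (Fin k) R)).comp
          (Polynomial.aeval (Polynomial.X + Polynomial.C z : Polynomial R)) := by
      apply Polynomial.algHom_ext
      simp only [AlgHom.comp_apply, Polynomial.aeval_X, aeval_X, Function.update_self, map_add,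
        Polynomial.aeval_C]
      rfl
    have h2 := congrArg (fun g : Polynomial R →ₐ[R] MvPolynomial (Fin k) R => g f) this
    simp only [AlgHom.comp_apply] at h2
    rw [h2]
    rfl
  · have : (aeval (Function.update X i (X i + C z)) : MvPolynomial (Fin k) R →ₐ[R] _).comp
        (Polynomial.aeval (X j : MvPolynomial (Fin k) R))
        = (Polynomial.aeval (X j : MvPolynomial (Fin k) R)) := by
      apply Polynomial.algHom_ext
      simp only [AlgHom.comp_apply, Polynomial.aeval_X, aeval_X, Function.update_of_ne h]
    exact congrArg (fun g : Polynomial R →ₐ[R] MvPolynomial (Fin k) R => g f) this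

lemma TT_mem (z : R) (α : ℕ → R) (m : ℕ) (i : Fin k) (w : MvPolynomial (Fin k) R)
    (hw : w ∈ II (AP F α m) 0) : TT z i w ∈ II (AP F α m) (av F α m z) := by
  apply II_hom (TT z i).toRingHom _ _ _ _ _ w hw
  · rw [C_0, map_zero]; exact Ideal.zero_mem _
  · intro j
    show TT z i (pl j (AP F α m)) ∈ _
    rw [TT_pl]
    split_ifs with h
    · have h1 : (AP F α m).comp (Polynomial.X + Polynomial.C z)
          = AP F α m + Polynomial.C (av F α m z) := by
        unfold AP
        have h := av_map F (Polynomial.compRingHom (Polynomial.X + Polynomial.C z))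
          (fun i => Polynomial.C (α i)) m Polynomial.X
        simp only [Polynomial.coe_compRingHom_apply, Polynomial.C_comp, Polynomial.X_comp] at h
        rw [h, av_add, ← av_map F Polynomial.C α m z]
      rw [h1, map_add]
      apply Ideal.add_mem _ (pl_mem _ _ _)
      have : pl j (Polynomial.C (av F α m z)) = C (av F α m z) := by
        unfold pl; rw [Polynomial.aeval_C]; rfl
      rw [this]
      exact C_mem _ _
    · exact pl_mem _ _ _

theorem transl (z : R) (α : ℕ → R) (m : ℕ) (hα : α (m + 1) = 1) (p : MvPolynomial (Fin k) R)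
    (i : Fin k) (hp : TT z i p - p ∈ II (AP F α (m + 1)) (av F α (m + 1) z)) (l0 : Fin k → ℕ)
    (hl0 : ∀ j, l0 j < Fintype.card F ^ (m + 1)) (hd : Fintype.card F ∣ l0 i) :
    av F α (m + 1) z ∣ ∑ s ∈ Ico 1 (Fintype.card F),
      Lam (bigSys F z α (m + 1) hα).lam (Function.update l0 i (l0 i + s)) p * z ^ s := by
  have hq : 1 < Fintype.card F := Fintype.one_lt_card
  set S := bigSys F z α (m + 1) hα with hS
  set AX := av F α (m + 1) z with hAX
  have h1 : p - expn S p ∈ II S.A 0 := sub_expn_mem S p 0
  have h2 := TT_mem F z α (m + 1) i _ h1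
  rw [map_sub] at h2
  have h3 : p - TT z i (expn S p) ∈ II (AP F α (m + 1)) AX := by
    have := Ideal.sub_mem _ h2 hp
    convert this using 1
    ring
  have h4 := Lam_II S.lam (AP F α (m + 1)) l0 (fun i f => S.lam_A _ (hl0 i) f) AX _ h3
  obtain ⟨e0, he0⟩ := hd
  have h5 : Lam S.lam l0 (TT z i (expn S p)) = ∑ s ∈ range (Fintype.card F),
      Lam S.lam (Function.update l0 i (l0 i + s)) p * z ^ s := by
    unfold expn
    rw [map_sum, map_sum]
    symm
    apply Finset.sum_of_injOn (fun s => Function.update l0 i (l0 i + s))
    · intro s _ t _ hst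
      have := congrFun hst i
      simp only [Function.update_self] at this
      omega
    · intro s hs
      rw [Finset.mem_coe, mem_range] at hs
      rw [Finset.mem_coe, Fintype.mem_piFinset]
      intro j
      rw [mem_range]
      show Function.update l0 i (l0 i + s) j < _
      by_cases hj : j = i
      · rw [hj, Function.update_self]
        have h6 := hl0 i
        rw [he0, pow_succ', Nat.mul_lt_mul_left (by omega)] at h6
        have h7 : Fintype.card F * (e0 + 1) ≤ Fintype.card F * Fintype.card F ^ m :=
          Nat.mul_le_mul_left _ h6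
        rw [mul_add, mul_one] at h7
        rw [he0, pow_succ']
        omega
      · rw [Function.update_of_ne hj]
        exact hl0 j
    · intro l hl hl'
      rw [Fintype.mem_piFinset] at hl
      rw [map_smul, map_smul, map_prod]
      simp only [TT_pl]
      rw [Lam_prod]
      by_cases hne : ∃ j, j ≠ i ∧ l j ≠ l0 j
      · obtain ⟨j, hj, hlj⟩ := hne
        rw [prod_eq_zero (mem_univ j), smul_zero]
        rw [if_neg hj, S.lam_η _ _ (mem_range.1 (hl j)), if_neg hlj]
      · push Not at hne
        rw [prod_eq_zero (mem_univ i), smul_zero]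
        rw [if_pos rfl, he0, hS, lam_shift F z α (m + 1) hα e0 (l i) (mem_range.1 (hl i)), if_neg]
        intro h6
        apply hl'
        refine ⟨l i % Fintype.card F, ?_, ?_⟩
        · rw [Finset.mem_coe, mem_range]; exact Nat.mod_lt _ (by omega)
        · ext j
          show Function.update l0 i (l0 i + l i % Fintype.card F) j = l j
          by_cases hj : j = i
          · rw [hj, Function.update_self, he0, ← h6, Nat.div_add_mod]
          · rw [Function.update_of_ne hj, hne j hj]
    · intro s hs
      rw [mem_range] at hs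
      rw [map_smul, map_smul, smul_eq_mul, map_prod]
      simp only [TT_pl]
      rw [Lam_prod]
      congr 1
      symm
      have hlt : l0 i + s < Fintype.card F ^ (m + 1) := by
        have h6 := hl0 i
        rw [he0, pow_succ', Nat.mul_lt_mul_left (by omega)] at h6
        have h7 : Fintype.card F * (e0 + 1) ≤ Fintype.card F * Fintype.card F ^ m :=
          Nat.mul_le_mul_left _ h6
        rw [mul_add, mul_one] at h7
        rw [he0, pow_succ']
        omega
      rw [prod_eq_single_of_mem i (mem_univ _)]
      · rw [if_pos rfl, Function.update_self]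
        have := lam_shift F z α (m + 1) hα e0 (l0 i + s) hlt
        rw [← he0] at this
        rw [this, he0, Nat.mul_add_div (by omega), Nat.div_eq_of_lt hs, add_zero, if_pos rfl,
          Nat.mul_add_mod, Nat.mod_eq_of_lt hs]
      · intro j _ hj
        rw [if_neg hj, Function.update_of_ne hj, S.lam_η _ _ (hl0 j), if_pos rfl]
  rw [map_sub, h5, ← Finset.sum_range_add_sum_Ico _ (show 1 ≤ Fintype.card F by omega),
    sum_range_one, add_zero, Function.update_eq_self, pow_zero, mul_one, sub_add_cancel_left,
    dvd_neg] at h4
  exact h4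

end Pool.Agent.H268R3.LRS
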