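import Pool.Agent.H268R3.LRS.Step

set_option autoImplicit false

open Finset MvPolynomial

namespace Pool.Agent.H268R3.LRS

section gen
variable (F : Type) [Field F] [Fintype F] {R : Type} [CommRing R] [Algebra F R] {k : ℕ}

/-- substitution of the additive expression -/
noncomputable def Xi (z : R) : MvPolynomial (Fin k) R →ₐ[R] MvPolynomial (Fin k) R :=
  aeval (fun i => pl i (xi F z))

lemma Xi_pl (z : R) (i : Fin k) (f : Polynomial R) : Xi F z (pl i f) = pl i (f.comp (xi F z)) := by
  have : (Xi F z).comp (pl (R := R) i) = (pl (k := k) i).comp (Polynomial.aeval (xi F z)) := by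
    apply Polynomial.algHom_ext
    unfold Xi
    simp only [AlgHom.comp_apply, Polynomial.aeval_X]
    conv_lhs => rw [pl, Polynomial.aeval_X, aeval_X]
  have h2 := congrArg (fun g : Polynomial R →ₐ[R] MvPolynomial (Fin k) R => g f) this
  simp only [AlgHom.comp_apply] at h2
  rw [h2]
  rfl

lemma AP_eq (z : R) (α : ℕ → R) (m : ℕ) : AP F α (m + 1)
    = (AP F (nx F z α m) m).comp (xi F z) + Polynomial.C (qa F z α (m + 1)) * Polynomial.X := by
  have h := av_eq F (Polynomial.C z) Polynomial.X (fun i => Polynomial.C (α i)) m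
  have h1 : ∀ i, nx F (Polynomial.C z) (fun i => Polynomial.C (α i)) m i = Polynomial.C (nx F z α m i) := by
    intro i
    unfold nx
    rw [map_sum]
    apply sum_congr rfl
    intro j _
    rw [Polynomial.C_mul, Polynomial.C_pow]
  have h2 : qa F (Polynomial.C z) (fun i => Polynomial.C (α i)) (m + 1) = Polynomial.C (qa F z α (m + 1)) := by
    unfold qa
    rw [map_sum]
    apply sum_congr rfl
    intro j _
    rw [Polynomial.C_mul, Polynomial.C_pow]
  have h3 : (AP F (nx F z α m) m).comp (xi F z)
      = av F (nx F (Polynomial.C z) (fun i => Polynomial.C (α i)) m) m (xi F z) := by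
    unfold AP
    have h := av_map F (Polynomial.compRingHom (xi F z))
      (fun i => Polynomial.C (nx F z α m i)) m Polynomial.X
    simp only [Polynomial.coe_compRingHom_apply, Polynomial.C_comp, Polynomial.X_comp] at h
    rw [h]
    congr 1
    ext1 i
    rw [h1]
  rw [h3, ← h2]
  unfold AP
  rw [h]
  congr 2
  unfold xi
  rw [Polynomial.C_pow]

lemma Xi_mem (z : R) (α : ℕ → R) (m : ℕ) (w : MvPolynomial (Fin k) R)
    (hw : w ∈ II (AP F (nx F z α m) m) (qa F z α (m + 1))) :
    Xi F z w ∈ II (AP F α (m + 1)) (qa F z α (m + 1)) := by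
  apply II_hom (Xi F z).toRingHom _ _ _ _ _ w hw
  · show Xi F z (C _) ∈ _
    rw [← algebraMap_eq, AlgHom.commutes, algebraMap_eq]
    exact C_mem _ _
  · intro i
    show Xi F z (pl i _) ∈ _
    rw [Xi_pl]
    have h1 : (AP F (nx F z α m) m).comp (xi F z)
        = AP F α (m + 1) - Polynomial.C (qa F z α (m + 1)) * Polynomial.X := by
      rw [AP_eq F z α m]; ring
    rw [h1, map_sub, map_mul]
    apply Ideal.sub_mem _ (pl_mem _ _ _)
    apply Ideal.mul_mem_right
    have : pl i (Polynomial.C (qa F z α (m + 1))) = C (qa F z α (m + 1)) := by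
      unfold pl; rw [Polynomial.aeval_C]; rfl
    rw [this]
    exact C_mem _ _

variable (z : R) (α : ℕ → R) (m : ℕ) (hα : α (m + 1) = 1)

/-- the reduced lift -/
noncomputable def phat (p : MvPolynomial (Fin k) R) : MvPolynomial (Fin k) R :=
  ∑ e ∈ Fintype.piFinset (fun _ : Fin k => range (Fintype.card F ^ m)),
    Lam (bigSys F z α (m + 1) hα).lam (fun i => Fintype.card F * e i) p
      • ∏ i, pl i (Polynomial.X ^ e i)

lemma Xi_phat (p : MvPolynomial (Fin k) R) : Xi F z (phat F z α m hα p)
    = ∑ e ∈ Fintype.piFinset (fun _ : Fin k => range (Fintype.card F ^ m)),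
    Lam (bigSys F z α (m + 1) hα).lam (fun i => Fintype.card F * e i) p
      • ∏ i, pl i ((bigSys F z α (m + 1) hα).η (Fintype.card F * e i)) := by
  have hq : 1 < Fintype.card F := Fintype.one_lt_card
  unfold phat
  rw [map_sum]
  apply sum_congr rfl
  intro e _
  rw [map_smul, map_prod]
  congr 1
  apply prod_congr rfl
  intro i _
  rw [Xi_pl, Polynomial.pow_comp, Polynomial.X_comp, bigSys_η, Nat.mul_div_cancel_left _ (by omega),
    Nat.mul_mod_right, pow_zero, mul_one]

theorem phat_spec (p : MvPolynomial (Fin k) R) (a : R)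
    (hdiv : ∀ l : Fin k → ℕ, (∀ i, l i < Fintype.card F ^ (m + 1)) → (∃ i, ¬ Fintype.card F ∣ l i) →
      a ∣ Lam (bigSys F z α (m + 1) hα).lam l p) :
    p - Xi F z (phat F z α m hα p) ∈ II (AP F α (m + 1)) a := by
  have hq : 1 < Fintype.card F := Fintype.one_lt_card
  have h1 : p - expn (bigSys F z α (m + 1) hα) p ∈ II (bigSys F z α (m + 1) hα).A a :=
    sub_expn_mem (bigSys F z α (m + 1) hα) p a
  rw [bigSys_A] at h1
  rw [← Ideal.Quotient.mk_eq_mk_iff_sub_mem] at h1 ⊢
  rw [h1, Xi_phat]
  unfold expn
  rw [map_sum, map_sum]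
  symm
  have key : ∀ (s : Sys R (Fintype.card F ^ (m + 1))) (g : (Fin k → ℕ) → MvPolynomial (Fin k) R),
      (∀ l : Fin k → ℕ, (∀ i, l i < Fintype.card F ^ (m + 1)) → (∃ i, ¬ Fintype.card F ∣ l i) →
        g l ∈ II (AP F α (m + 1)) a) →
      ∑ e ∈ Fintype.piFinset (fun _ : Fin k => range (Fintype.card F ^ m)),
        Ideal.Quotient.mk (II (AP F α (m + 1)) a) (g (fun i => Fintype.card F * e i))
      = ∑ l ∈ Fintype.piFinset (fun _ : Fin k => range (Fintype.card F ^ (m + 1))),
        Ideal.Quotient.mk (II (AP F α (m + 1)) a) (g l) := by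
    intro s g hg
    apply Finset.sum_of_injOn (fun e i => Fintype.card F * e i)
    · intro e _ e' _ h
      ext i
      have := congrFun h i
      exact Nat.eq_of_mul_eq_mul_left (by omega) this
    · intro e he
      rw [Finset.mem_coe, Fintype.mem_piFinset] at he ⊢
      intro i
      have := mem_range.1 (he i)
      rw [mem_range, pow_succ']
      exact Nat.mul_lt_mul_of_pos_left this (by omega)
    · intro l hl hl'
      rw [Fintype.mem_piFinset] at hl
      rw [Ideal.Quotient.eq_zero_iff_mem]
      apply hg l (fun i => mem_range.1 (hl i))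
      by_contra hcon
      push Not at hcon
      apply hl'
      refine ⟨fun i => l i / Fintype.card F, ?_, ?_⟩
      · rw [Finset.mem_coe, Fintype.mem_piFinset]
        intro i
        rw [mem_range, Nat.div_lt_iff_lt_mul (by omega), ← pow_succ]
        exact mem_range.1 (hl i)
      · ext i
        exact Nat.mul_div_cancel' (hcon i)
    · intro e _
      rfl
  refine key (bigSys F z α (m + 1) hα)
    (fun l => Lam (bigSys F z α (m + 1) hα).lam l p • ∏ i, pl i ((bigSys F z α (m + 1) hα).η (l i))) ?_
  intro l hl h2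
  obtain ⟨u, hu⟩ := hdiv l hl h2
  show Lam (bigSys F z α (m + 1) hα).lam l p • _ ∈ _
  rw [hu, smul_eq_C_mul, C_mul, mul_assoc]
  exact Ideal.mul_mem_right _ _ (C_mem _ _)

include hα in
theorem U2 (f : MvPolynomial (Fin k) R)
    (hf : Xi F z f ∈ II (AP F α (m + 1)) (qa F z α (m + 1))) :
    f ∈ II (AP F (nx F z α m) m) (qa F z α (m + 1)) := by
  have hq : 1 < Fintype.card F := Fintype.one_lt_card
  set a := qa F z α (m + 1) with ha
  have hα' : nx F z α m m = 1 := by rw [nx_top, hα]
  set S' : Sys R (Fintype.card F ^ m) := stdSys (AP F (nx F z α m) m) (AP_UT F _ m hα') with hS'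
  have h1 : f - expn S' f ∈ II (AP F (nx F z α m) m) a := sub_expn_mem S' f a
  have h2 := Xi_mem F z α m _ h1
  rw [map_sub] at h2
  have h3 : Xi F z (expn S' f) ∈ II (AP F α (m + 1)) a := by
    have := Ideal.sub_mem _ hf h2
    rwa [sub_sub_cancel] at this
  have h4 : ∀ e : Fin k → ℕ, (∀ i, e i < Fintype.card F ^ m) → a ∣ Lam S'.lam e f := by
    intro e0 he0
    have hlt : ∀ e : Fin k → ℕ, (∀ i, e i < Fintype.card F ^ m) → ∀ i,
        Fintype.card F * e i < Fintype.card F ^ (m + 1) := by
      intro e he i
      rw [pow_succ']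
      exact Nat.mul_lt_mul_of_pos_left (he i) (by omega)
    have h5 := Lam_II (bigSys F z α (m + 1) hα).lam (AP F α (m + 1)) (fun i => Fintype.card F * e0 i)
      (fun i f => (bigSys F z α (m + 1) hα).lam_A _ (hlt e0 he0 i) f) a _ h3
    unfold expn at h5
    rw [map_sum, map_sum, Finset.sum_eq_single_of_mem e0
      (Fintype.mem_piFinset.2 fun i => mem_range.2 (he0 i))] at h5
    · rw [map_smul, map_smul, map_prod] at h5
      have h6 : ∀ i, Xi F z (pl i (S'.η (e0 i)))
          = pl i ((bigSys F z α (m + 1) hα).η (Fintype.card F * e0 i)) := by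
        intro i
        show Xi F z (pl i (Polynomial.X ^ e0 i)) = _
        rw [Xi_pl, Polynomial.pow_comp, Polynomial.X_comp, bigSys_η,
          Nat.mul_div_cancel_left _ (by omega), Nat.mul_mod_right, pow_zero, mul_one]
      rw [prod_congr rfl (fun i _ => h6 i), Lam_η _ _ _ (hlt e0 he0), if_pos rfl, smul_eq_mul,
        mul_one] at h5
      exact h5
    · intro e he hne
      rw [Fintype.mem_piFinset] at he
      have he' : ∀ i, e i < Fintype.card F ^ m := fun i => mem_range.1 (he i)
      rw [map_smul, map_smul, map_prod]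
      have h6 : ∀ i, Xi F z (pl i (S'.η (e i)))
          = pl i ((bigSys F z α (m + 1) hα).η (Fintype.card F * e i)) := by
        intro i
        show Xi F z (pl i (Polynomial.X ^ e i)) = _
        rw [Xi_pl, Polynomial.pow_comp, Polynomial.X_comp, bigSys_η,
          Nat.mul_div_cancel_left _ (by omega), Nat.mul_mod_right, pow_zero, mul_one]
      rw [prod_congr rfl (fun i _ => h6 i), Lam_η _ _ _ (hlt e he'), if_neg, smul_zero]
      intro h7
      apply hne
      ext i
      exact Nat.eq_of_mul_eq_mul_left (by omega) (congrFun h7 i)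
  have h5 : expn S' f ∈ II (AP F (nx F z α m) m) a := by
    unfold expn
    apply Ideal.sum_mem
    intro e he
    rw [Fintype.mem_piFinset] at he
    obtain ⟨u, hu⟩ := h4 e (fun i => mem_range.1 (he i))
    rw [hu, smul_eq_C_mul, C_mul, mul_assoc]
    exact Ideal.mul_mem_right _ _ (C_mem _ _)
  have := Ideal.add_mem _ h1 h5
  rwa [sub_add_cancel] at this

end gen

section base
variable {F : Type} [Field F] [Fintype F] {B : Type} [CommRing B] [Algebra F B] {k : ℕ}

/-- scaling -/
noncomputable def sc (c : F) : Polynomial B →+* Polynomial B :=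
  (Polynomial.aeval (c • Polynomial.X : Polynomial B)).toRingHom

omit [Fintype F] in
lemma sc_apply (c : F) (p : Polynomial B) :
    sc c p = Polynomial.aeval (c • Polynomial.X : Polynomial B) p := rfl

omit [Fintype F] in
lemma sc_C (c : F) (b : B) : sc c (Polynomial.C b) = Polynomial.C b := by
  rw [sc_apply, Polynomial.aeval_C]; rfl

omit [Fintype F] in
lemma sc_X (c : F) : sc c (Polynomial.X : Polynomial B) = c • Polynomial.X := by
  rw [sc_apply, Polynomial.aeval_X]

lemma map_pl {R R' : Type} [CommRing R] [CommRing R'] (f : R →+* R') (j : Fin k) (g : Polynomial R) :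
    MvPolynomial.map f (pl j g) = pl j (g.map f) := by
  have h : (MvPolynomial.map f).comp (pl (R := R) j).toRingHom
      = (pl (R := R') j).toRingHom.comp (Polynomial.mapRingHom f) := by
    apply Polynomial.ringHom_ext
    · intro r
      show MvPolynomial.map f (pl j (Polynomial.C r)) = pl j ((Polynomial.C r).map f)
      rw [Polynomial.map_C, pl, pl, Polynomial.aeval_C, Polynomial.aeval_C, algebraMap_eq, algebraMap_eq,
        MvPolynomial.map_C]
    · show MvPolynomial.map f (pl j Polynomial.X) = pl j (Polynomial.X.map f)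
      rw [Polynomial.map_X, pl, pl, Polynomial.aeval_X, Polynomial.aeval_X, MvPolynomial.map_X]
  exact congrArg (fun h : Polynomial R →+* MvPolynomial (Fin k) R' => h g) h

theorem scal (c : F) (hc : c ≠ 0) (α : ℕ → B) (m : ℕ) (hα : α m = 1)
    (p : MvPolynomial (Fin k) (Polynomial B))
    (hp : MvPolynomial.map (sc c) p - p ∈ II (AP F (fun i => Polynomial.C (α i)) m) (AP F α m))
    (l0 : Fin k → ℕ) (hl0 : ∀ i, l0 i < Fintype.card F ^ m)
    (hα' : (fun i => (Polynomial.C (α i) : Polynomial B)) m = 1) :
    AP F α m ∣ sc c (Lam (bigSys F (Polynomial.X : Polynomial B) (fun i => Polynomial.C (α i)) m hα').lam l0 p)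
      - Lam (bigSys F (Polynomial.X : Polynomial B) (fun i => Polynomial.C (α i)) m hα').lam l0 p := by
  set S := bigSys F (Polynomial.X : Polynomial B) (fun i => Polynomial.C (α i)) m hα' with hS
  have hA : (AP F (fun i => (Polynomial.C (α i) : Polynomial B)) m).map (sc c)
      = AP F (fun i => (Polynomial.C (α i) : Polynomial B)) m := by
    unfold AP
    have h := av_map F (Polynomial.mapRingHom (sc (F := F) (B := B) c))
      (fun i => Polynomial.C (Polynomial.C (α i))) m Polynomial.X
    simp only [Polynomial.coe_mapRingHom, Polynomial.map_C, Polynomial.map_X, sc_C] at h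
    exact h
  have hη : ∀ l, (S.η l).map (sc c) = S.η l := by
    intro l
    rw [hS, bigSys_η, Polynomial.map_mul, Polynomial.map_pow, Polynomial.map_pow, Polynomial.map_X]
    congr 2
    unfold xi
    have h := xe_map F (Polynomial.mapRingHom (sc (F := F) (B := B) c))
      (Polynomial.C (Polynomial.X ^ (Fintype.card F - 1))) Polynomial.X
    simp only [Polynomial.coe_mapRingHom, Polynomial.map_C, Polynomial.map_X, map_pow, sc_X] at h
    rw [← Polynomial.C_pow, ← Polynomial.C_pow, _root_.smul_pow,
      FiniteField.pow_card_sub_one_eq_one c hc, one_smul] at h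
    exact h
  have h1 : p - expn S p ∈ II S.A 0 := sub_expn_mem S p 0
  have h2 : MvPolynomial.map (sc c) (p - expn S p)
      ∈ II (AP F (fun i => (Polynomial.C (α i) : Polynomial B)) m) (AP F α m) := by
    apply II_hom (MvPolynomial.map (sc c)) _ _ _ _ _ _ h1
    · rw [C_0, map_zero]; exact Ideal.zero_mem _
    · intro i
      rw [map_pl]
      show pl i ((AP F (fun i => (Polynomial.C (α i) : Polynomial B)) m).map (sc c)) ∈ _
      rw [hA]
      exact pl_mem _ _ _
  rw [map_sub] at h2
  have h3 : p - MvPolynomial.map (sc c) (expn S p)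
      ∈ II (AP F (fun i => (Polynomial.C (α i) : Polynomial B)) m) (AP F α m) := by
    have := Ideal.sub_mem _ h2 hp
    convert this using 1
    ring
  have h4 := Lam_II S.lam (AP F (fun i => (Polynomial.C (α i) : Polynomial B)) m) l0
    (fun i f => S.lam_A _ (hl0 i) f) _ _ h3
  have h5 : Lam S.lam l0 (MvPolynomial.map (sc c) (expn S p)) = sc c (Lam S.lam l0 p) := by
    unfold expn
    rw [map_sum, map_sum, Finset.sum_eq_single_of_mem l0
      (Fintype.mem_piFinset.2 fun i => mem_range.2 (hl0 i))]
    · rw [smul_eq_C_mul, map_mul, MvPolynomial.map_C, map_prod]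
      simp only [map_pl, hη]
      rw [← smul_eq_C_mul, map_smul, Lam_η _ _ _ hl0, if_pos rfl, smul_eq_mul, mul_one]
    · intro l hl hne
      rw [Fintype.mem_piFinset] at hl
      rw [smul_eq_C_mul, map_mul, MvPolynomial.map_C, map_prod]
      simp only [map_pl, hη]
      rw [← smul_eq_C_mul, map_smul, Lam_η _ _ _ (fun i => mem_range.1 (hl i)), if_neg hne, smul_zero]
  rw [map_sub, h5] at h4
  rw [← dvd_neg, neg_sub]
  exact h4

theorem div_all (α : ℕ → B) (m : ℕ) (hα : α (m + 1) = 1)
    (hα' : (fun i => (Polynomial.C (α i) : Polynomial B)) (m + 1) = 1)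
    (p : MvPolynomial (Fin k) (Polynomial B))
    (hsc : ∀ c : F, c ≠ 0 → MvPolynomial.map (sc c) p - p
      ∈ II (AP F (fun i => Polynomial.C (α i)) (m + 1)) (AP F α (m + 1)))
    (htr : ∀ i : Fin k, TT Polynomial.X i p - p
      ∈ II (AP F (fun i => Polynomial.C (α i)) (m + 1)) (AP F α (m + 1)))
    (l : Fin k → ℕ) (hl : ∀ i, l i < Fintype.card F ^ (m + 1)) (hd : ∃ i, ¬ Fintype.card F ∣ l i) :
    qa F (Polynomial.X : Polynomial B) (fun i => Polynomial.C (α i)) (m + 1)
      ∣ Lam (bigSys F (Polynomial.X : Polynomial B) (fun i => Polynomial.C (α i)) (m + 1) hα').lam l p := by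
  have hq : 1 < Fintype.card F := Fintype.one_lt_card
  obtain ⟨i, hi⟩ := hd
  set S := bigSys F (Polynomial.X : Polynomial B) (fun i => Polynomial.C (α i)) (m + 1) hα' with hS
  set l0 : Fin k → ℕ := Function.update l i (Fintype.card F * (l i / Fintype.card F)) with hl0
  have hl0i : l0 i = Fintype.card F * (l i / Fintype.card F) := Function.update_self _ _ _
  have hup : ∀ s, Function.update l0 i (l0 i + s) = Function.update l i (l0 i + s) := by
    intro s
    rw [hl0, Function.update_idem]
  have hlt : ∀ s, s < Fintype.card F → ∀ j, Function.update l0 i (l0 i + s) j < Fintype.card F ^ (m + 1) := by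
    intro s hs j
    rw [hup]
    by_cases hj : j = i
    · rw [hj, Function.update_self, hl0i]
      have h1 : l i / Fintype.card F < Fintype.card F ^ m := by
        rw [Nat.div_lt_iff_lt_mul (by omega), ← pow_succ]; exact hl i
      have h2 : Fintype.card F * (l i / Fintype.card F + 1) ≤ Fintype.card F * Fintype.card F ^ m :=
        Nat.mul_le_mul_left _ h1
      rw [mul_add, mul_one] at h2
      rw [pow_succ']
      omega
    · rw [Function.update_of_ne hj]; exact hl j
  have hl0lt : ∀ j, l0 j < Fintype.card F ^ (m + 1) := by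
    intro j
    have := hlt 0 (by omega) j
    rwa [add_zero, Function.update_eq_self] at this
  have key := lemT α m hα (fun s => Lam S.lam (Function.update l0 i (l0 i + s)) p)
    (by
      intro s hs c hc
      exact scal c hc α (m + 1) hα p (hsc c hc) _ (hlt s hs) hα')
    (by
      have := transl F (Polynomial.X : Polynomial B) (fun i => Polynomial.C (α i)) m hα' p i (htr i) l0
        hl0lt ⟨_, hl0i⟩
      exact this) (l i % Fintype.card F) (Nat.pos_of_ne_zero (fun h => hi (Nat.dvd_of_mod_eq_zero h)))
    (Nat.mod_lt _ (by omega))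
  have hll : Function.update l0 i (l0 i + l i % Fintype.card F) = l := by
    rw [hup, hl0i, Nat.div_add_mod, Function.update_eq_self]
  simp only [hll] at key
  exact key

end base

end Pool.Agent.H268R3.LRS
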