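import Pool.Agent.H268R3.LRS.Inj2
import Pool.Agent.H268R3.LRS.Dick2

set_option autoImplicit false

open Finset MvPolynomial Pool.Agent.H268R3.Soc

namespace Pool.Agent.H268R3.LRS

section lin
variable {K : Type} [Field K] {V A B : Type} [AddCommGroup V] [Module K V] [AddCommGroup A] [Module K A]
  [AddCommGroup B] [Module K B] [Module.Finite K V]

lemma finrank_le_of_ker (f : V →ₗ[K] A) (g : V →ₗ[K] B) (h : LinearMap.ker g ≤ LinearMap.ker f) :
    Module.finrank K (LinearMap.range f) ≤ Module.finrank K (LinearMap.range g) := by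
  have h1 := LinearMap.finrank_range_add_finrank_ker f
  have h2 := LinearMap.finrank_range_add_finrank_ker g
  have h3 := Submodule.finrank_mono h
  omega

omit [Module.Finite K V] [Module K B] [AddCommGroup B] in
lemma finrank_le_sum [Module.Finite K V] {ι : Type} [Fintype ι] (T : ι → Type) [∀ i, AddCommGroup (T i)]
    [∀ i, Module K (T i)] [∀ i, Module.Finite K (T i)] (M : V →ₗ[K] A) (L : ∀ i, V →ₗ[K] T i)
    (h : ∀ v, (∀ i, L i v = 0) → M v = 0) (c : ι → ℕ) (hc : ∀ i, Module.finrank K (T i) ≤ c i) :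
    Module.finrank K (LinearMap.range M) ≤ ∑ i, c i := by
  have h1 : LinearMap.ker (LinearMap.pi L) ≤ LinearMap.ker M := by
    intro v hv
    rw [LinearMap.mem_ker] at hv ⊢
    apply h
    intro i
    exact congrFun hv i
  refine le_trans (finrank_le_of_ker M (LinearMap.pi L) h1) (le_trans (Submodule.finrank_le _) ?_)
  rw [Module.finrank_pi_fintype]
  exact sum_le_sum (fun i _ => hc i)

end lin

variable (F : Type) [Field F] [Fintype F]

/-- homogeneous quasi-invariants -/
def WW (n m d : ℕ) : Submodule F (MvPolynomial (Fin n) F) where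
  carrier := {f | f.IsHomogeneous d ∧ QI m f}
  add_mem' := by
    rintro f g ⟨h1, h2⟩ ⟨h3, h4⟩
    refine ⟨h1.add h3, fun x hx => ?_⟩
    have := Ideal.add_mem _ (h2 x hx) (h4 x hx)
    convert this using 1
    rw [map_add]; ring
  zero_mem' := ⟨isHomogeneous_zero _ _ _, fun x _ => by rw [map_zero, sub_zero]; exact Ideal.zero_mem _⟩
  smul_mem' := by
    rintro c f ⟨h1, h2⟩
    refine ⟨(homogeneousSubmodule (Fin n) F d).smul_mem c h1, fun x hx => ?_⟩
    have := Ideal.mul_mem_left _ (C c) (h2 x hx)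
    convert this using 1
    rw [smul_eq_C_mul, map_mul, act_C]; ring

instance (n m d : ℕ) : Module.Finite F (WW F n m d) := by
  haveI := finite_homog F n d
  exact Submodule.finiteDimensional_of_le (S₂ := homogeneousSubmodule (Fin n) F d) (fun f hf => hf.1)

/-- the image in the quotient -/
noncomputable def VV (n m d : ℕ) : Submodule F (MvPolynomial (Fin n) F ⧸ JN F (Fintype.card F ^ m) n) :=
  Submodule.map (Ideal.Quotient.mkₐ F (JN F (Fintype.card F ^ m) n)).toLinearMap (WW F n m d)

/-- exponent shift -/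
def sh (n m k : ℕ) : ℕ := (n - k) * (Fintype.card F ^ m - Fintype.card F ^ k)

/-- target spaces -/
noncomputable def TG (n m d k : ℕ) : Submodule F (MvPolynomial (Fin k) F ⧸ JN F (Fintype.card F ^ m) k) :=
  Submodule.map (Ideal.Quotient.mkₐ F (JN F (Fintype.card F ^ m) k)).toLinearMap
    (Submodule.span F {x : MvPolynomial (Fin k) F |
      ∃ e ∈ (Em F m k).filter (fun e => sh F n m k + wt F k e = d), x = LL F k * mo (kap F k) e})

/-- the counting function -/
def cnt (n m d k : ℕ) : ℕ := ((Em F m k).filter (fun e => sh F n m k + wt F k e = d)).card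

lemma TG_finite (n m d k : ℕ) : Module.Finite F (TG F n m d k) ∧
    Module.finrank F (TG F n m d k) ≤ cnt F n m d k := by
  classical
  set s : Finset (MvPolynomial (Fin k) F) :=
    (((Em F m k).filter (fun e => sh F n m k + wt F k e = d)).map (fun e => LL F k * mo (kap F k) e)).toFinset with hs
  have h1 : {x : MvPolynomial (Fin k) F |
      ∃ e ∈ (Em F m k).filter (fun e => sh F n m k + wt F k e = d), x = LL F k * mo (kap F k) e} = (s : Set _) := by
    ext x
    rw [hs]
    simp only [Set.mem_setOf_eq, Finset.mem_coe, Multiset.mem_toFinset, Multiset.mem_map]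
    constructor
    · rintro ⟨e, he, rfl⟩; exact ⟨e, he, rfl⟩
    · rintro ⟨e, he, rfl⟩; exact ⟨e, he, rfl⟩
  unfold TG
  rw [h1]
  haveI : Module.Finite F (Submodule.span F (s : Set (MvPolynomial (Fin k) F))) :=
    Module.Finite.span_of_finite F s.finite_toSet
  refine ⟨inferInstance, ?_⟩
  refine le_trans (Submodule.finrank_map_le _ _) (le_trans (finrank_span_finset_le_card s) ?_)
  refine le_trans (Multiset.toFinset_card_le _) ?_
  rw [Multiset.card_map]
  exact le_refl _

instance (n m d k : ℕ) : Module.Finite F (TG F n m d k) := (TG_finite F n m d k).1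

/-- the detecting map -/
noncomputable def Psi (n m k : ℕ) :
    MvPolynomial (Fin n) F →ₗ[F] (MvPolynomial (Fin k) F ⧸ JN F (Fintype.card F ^ m) k) :=
  (Ideal.Quotient.mkₐ F (JN F (Fintype.card F ^ m) k)).toLinearMap ∘ₗ
    (LinearMap.mulLeft F (LL F k)) ∘ₗ (rr n k (Fintype.card F ^ m - Fintype.card F ^ k))

lemma Psi_apply (n m k : ℕ) (f : MvPolynomial (Fin n) F) : Psi F n m k f
    = Ideal.Quotient.mk _ (LL F k * rr n k (Fintype.card F ^ m - Fintype.card F ^ k) f) := rfl

lemma Psi_mem (n m d k : ℕ) (hkn : k ≤ n) (f : MvPolynomial (Fin n) F)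
    (hf : f ∈ WW F n m d) : Psi F n m k f ∈ TG F n m d k := by
  have hq : 1 < Fintype.card F := Fintype.one_lt_card
  obtain ⟨hf1, hf2⟩ := hf
  have h1 := rr_homog n k (Fintype.card F ^ m - Fintype.card F ^ k) d hkn f hf1
  rw [Psi_apply]
  split_ifs at h1 with hd
  · have h2 : ∀ g : Matrix (Fin k) (Fin k) F, IsUnit g.det →
        act g (rr n k (Fintype.card F ^ m - Fintype.card F ^ k) f)
          - rr n k (Fintype.card F ^ m - Fintype.card F ^ k) f ∈ JN F (Fintype.card F ^ m) k := by
      intro g hg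
      rw [← rr_act n k _ hkn, ← map_sub]
      apply rr_JN n k _ _ hkn _ _ (hf2 _ (bx_unit n k hkn g hg))
      have h3 : 0 < Fintype.card F ^ m := pow_pos (by omega) _
      have h4 : 0 < Fintype.card F ^ k := pow_pos (by omega) _
      omega
    obtain ⟨g, hg1, hg2, hg3⟩ := claimH m _ _ h1 h2
    obtain ⟨s, hs, hs'⟩ := dick_span F k m _ g hg1 hg2
    have h5 : Ideal.Quotient.mk (JN F (Fintype.card F ^ m) k)
        (LL F k * rr n k (Fintype.card F ^ m - Fintype.card F ^ k) f) = Ideal.Quotient.mk _ s := by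
      rw [Ideal.Quotient.mk_eq_mk_iff_sub_mem]
      have := Ideal.add_mem _ hg3 hs'
      convert this using 1
      ring
    rw [h5]
    refine Submodule.mem_map.2 ⟨s, ?_, rfl⟩
    refine Submodule.span_mono ?_ hs
    rintro x ⟨e, he, rfl⟩
    rw [Multiset.mem_filter] at he
    refine ⟨e, Multiset.mem_filter.2 ⟨he.1, ?_⟩, rfl⟩
    unfold sh
    omega
  · rw [h1, mul_zero, map_zero]
    exact Submodule.zero_mem _

theorem upper (n m d : ℕ) : Module.finrank F (VV F n m d) ≤ ∑ k ∈ range (min n m + 1), cnt F n m d k := by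
  have h3 : LinearMap.range ((Ideal.Quotient.mkₐ F (JN F (Fintype.card F ^ m) n)).toLinearMap.domRestrict
      (WW F n m d)) = VV F n m d := by
    rw [LinearMap.range_domRestrict]
    rfl
  rw [← h3, ← Fin.sum_univ_eq_sum_range (fun k => cnt F n m d k)]
  refine finrank_le_sum (fun k : Fin (min n m + 1) => TG F n m d k.val) _
    (fun k => ((Psi F n m k.val).domRestrict (WW F n m d)).codRestrict (TG F n m d k.val)
      (fun f => Psi_mem F n m d k.val (by have := k.2; omega) f.1 f.2)) ?_ _
    (fun k => (TG_finite F n m d k.val).2)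
  intro f hf
  show Ideal.Quotient.mk (JN F (Fintype.card F ^ m) n) f.1 = 0
  rw [Ideal.Quotient.eq_zero_iff_mem]
  by_contra hcon
  obtain ⟨k, hkn, hkm, hk⟩ := inj_main m n f.1 f.2.2 hcon
  apply hk
  have h2 := congrArg Subtype.val (hf ⟨k, by omega⟩)
  have h3 : Psi F n m k f.1 = 0 := h2
  rw [Psi_apply, Ideal.Quotient.eq_zero_iff_mem] at h3
  exact h3

end Pool.Agent.H268R3.LRS
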